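import Pool.Agent.FOR.Biv
import Pool.Agent.MRG.HullF
import Pool.Agent.MRG.Nat

/-!
MODULE FOR-AtA (est. 0.8 h).  The atom of a pair which cannot be merged: weight `r + 1`.

PLAN.  `atom_of_tri` for `P = mgP r`; given the family `p` let `Sg` be the set of the pairs `(a, b)` with
`a, b ≤ D` and `∃ ω, coeff (ev a b) (p ω) ≠ 0` (a finset: filter of a product of ranges), nonempty.
`Pool.Agent.MRG.hull Sg _ r` gives the conclusion; its hypothesis: suppose `q ∈ Sg` is the only minimizer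
of `a + j b` in `Sg`, `1 ≤ j ≤ r`; take `ω` with `coeff (ev q.1 q.2) (p ω) ≠ 0`: then the support of
`p ω` has a unique minimizer and `Pool.Agent.MRG.mg_ne_zero` (`n = 2`, `x = 0`, `y = 1`, `j - 1`) says
`mg c r 0 1 (p ω) ≠ 0`; this contradicts `p ω ∈ mgP r`.
(As in the proof of `Pool.Agent.MRG.vertices`.)
-/

set_option autoImplicit false

namespace Pool.Agent.FOR

open MvPolynomial

universe u

variable {K : Type u} [Field K]

/-- The sequence `1, 2, 3, ..` in `K`. -/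
def cc (K : Type u) [Field K] (i : ℕ) : K := ((i + 1 : ℕ) : K)

/-- The polynomials in two variables which are killed by merging. -/
noncomputable def mgP (K : Type u) [Field K] (r : ℕ) : Submodule K (MvPolynomial (Fin 2) K) :=
  LinearMap.ker (MRG.mg (cc K) r 0 1).toLinearMap

private theorem ata_ev (m : Fin 2 →₀ ℕ) : m = ev (m 0) (m 1) := by
  ext i
  fin_cases i
  · simp [ev]
  · simp [ev]

private theorem ata_ev0 (a b : ℕ) : (ev a b) 0 = a := by simp [ev]

private theorem ata_ev1 (a b : ℕ) : (ev a b) 1 = b := by simp [ev]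

private theorem ata_inj [CharZero K] (r : ℕ) : Set.InjOn (cc K) (Finset.range r : Set ℕ) := by
  intro i _ j _ h
  unfold cc at h
  have h1 := Nat.cast_injective (R := K) h
  omega

theorem atomA [CharZero K] (r D : ℕ) : IsAtom (pairF (mgP K r) D) (mp K) (r + 1) := by
  classical
  have : Infinite K := CharZero.infinite K
  refine atom_of_tri (mgP K r) D (r + 1) ?_
  intro Ω' p hP hD hp
  have hmem : ∀ q : ℕ × ℕ, q ∈ ((Finset.range (D + 1)) ×ˢ (Finset.range (D + 1))).filter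
      (fun q => ∃ ω, coeff (ev q.1 q.2) (p ω) ≠ 0) ↔ ∃ ω, coeff (ev q.1 q.2) (p ω) ≠ 0 := by
    intro q
    rw [Finset.mem_filter, Finset.mem_product, Finset.mem_range, Finset.mem_range]
    refine ⟨fun h => h.2, fun h => ⟨?_, h⟩⟩
    obtain ⟨ω, hω⟩ := h
    have h5 := (le_totalDegree (mem_support_iff.2 hω)).trans (hD ω)
    rw [Finsupp.sum_fintype _ _ (fun _ => rfl), Fin.sum_univ_two, ata_ev0, ata_ev1] at h5
    omega
  have hcoe : ∀ (ω : Ω') (m : Fin 2 →₀ ℕ), m ∈ (p ω).support → coeff (ev (m 0) (m 1)) (p ω) ≠ 0 := by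
    intro ω m hm
    rw [← ata_ev m]
    exact mem_support_iff.1 hm
  have hne : (((Finset.range (D + 1)) ×ˢ (Finset.range (D + 1))).filter
      (fun q : ℕ × ℕ => ∃ ω, coeff (ev q.1 q.2) (p ω) ≠ 0)).Nonempty := by
    obtain ⟨ω, hω⟩ := Function.ne_iff.1 hp
    obtain ⟨m, hm⟩ := MvPolynomial.support_nonempty.2 hω
    exact ⟨(m 0, m 1), (hmem _).2 ⟨ω, hcoe ω m hm⟩⟩
  obtain ⟨a, b, hab, hn⟩ := MRG.hull _ hne r (by
    intro j' hj1 hjr q hq hmin
    by_contra hcon
    push Not at hcon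
    obtain ⟨j, rfl⟩ : ∃ j, j' = j + 1 := ⟨j' - 1, by omega⟩
    obtain ⟨ω, hω⟩ := (hmem q).1 hq
    have h0 : MRG.mg (cc K) r 0 1 (p ω) = 0 := hP ω
    refine MRG.mg_ne_zero (cc K) r (ata_inj r) 0 1 (by decide) (p ω) j (by omega) (ev q.1 q.2)
      (mem_support_iff.2 hω) (fun m hm => ?_) (fun m hm he => ?_) h0
    · rw [ata_ev0, ata_ev1]
      exact hmin (m 0, m 1) ((hmem _).2 ⟨ω, hcoe ω m hm⟩)
    · rw [ata_ev0, ata_ev1] at he ⊢
      by_contra hne'
      refine hcon (m 0, m 1) ((hmem _).2 ⟨ω, hcoe ω m hm⟩) (fun h => hne' ?_) he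
      exact ⟨congrArg Prod.fst h, congrArg Prod.snd h⟩)
  refine ⟨a, b, fun i => (hmem _).1 (hab i), fun i j hij ω => ?_⟩
  by_contra hc
  exact hn i j hij ((hmem _).2 ⟨ω, hc⟩)

end Pool.Agent.FOR
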