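import Pool.Agent.FOR.Biv

/-!
MODULE FOR-AtB (est. 1.5 h).  The atom of the multiples of `(x - y)^m`: weight `m + 1`.

PLAN.  `sparse`: if `(X - 1)^m ∣ q ≠ 0` in `K[X]`, `CharZero K`, then `q` has at least `m + 1` nonzero
coefficients.  Proof: suppose `q.support.card ≤ m`, fix `a ∈ q.support`.  For `b : ℕ` let
`T_b q = X * q' - b q` (multiplies the coefficient of `X^k` by `k - b`); `(X-1)^(l+1) ∣ q` implies
`(X-1)^l ∣ T_b q`.  Apply `T_b` for all `b ∈ q.support \ {a}` (at most `m - 1` times): the result is
`coeff a q * ∏ (a - b) * X^a`, divisible by `(X-1)^1`; evaluate at `1`.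
`atomB`: `atom_of_tri` with `P = divP m`.  Given the family `p` let `e` be the smallest degree such
that `∃ ω, homogeneousComponent e (p ω) ≠ 0`, fix such an `ω₀`, `h = homogeneousComponent e (p ω₀)`.
`(X 0 - X 1)^m ∣ h` (`p ω₀ = (X 0 - X 1)^m * q`, compare the components of degree `e`:
`h = (X 0 - X 1)^m * homogeneousComponent (e - m) q`, or `m > e` and `h = 0`).  Put `X 1 = 1`,
`X 0 = X`: a polynomial in `K[X]` divisible by `(X - 1)^m`, with coefficients
`coeff a = coeff (ev a (e - a)) h`, not `0`; by `sparse` there are `m + 1` exponents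
`a 0 < a 1 < .. < a m ≤ e` with `coeff (ev (a i) (e - a i)) (p ω₀) ≠ 0` (`Finset.orderEmbOfFin`).
Take `b i = e - a i`: for `i < j` the degree `a i + b j < e`, so the coefficient is `0` for all `ω`.
-/

set_option autoImplicit false

namespace Pool.Agent.FOR

open MvPolynomial

universe u

variable {K : Type u} [Field K]

/-- The multiples of `(x - y)^m`. -/
def divP (K : Type u) [Field K] (m : ℕ) : Submodule K (MvPolynomial (Fin 2) K) where
  carrier := {p | (X 0 - X 1) ^ m ∣ p}
  add_mem' := fun ha hb => dvd_add ha hb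
  zero_mem' := dvd_zero _
  smul_mem' := fun c p hp => by
    show _ ∣ c • p
    rw [smul_eq_C_mul]
    exact dvd_mul_of_dvd_right hp _

private theorem atb_T (a : ℕ) (q : Polynomial K) (k : ℕ) :
    (Polynomial.X * Polynomial.derivative q - Polynomial.C (a : K) * q).coeff k =
      ((k : K) - a) * q.coeff k := by
  rw [Polynomial.coeff_sub, Polynomial.coeff_C_mul]
  rcases k with _ | k
  · rw [Polynomial.coeff_X_mul_zero]
    push_cast
    ring
  · rw [Polynomial.coeff_X_mul, Polynomial.coeff_derivative]
    push_cast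
    ring

private theorem atb_dvd (l a : ℕ) (q : Polynomial K)
    (h : (Polynomial.X - Polynomial.C 1) ^ (l + 1) ∣ q) :
    (Polynomial.X - Polynomial.C 1) ^ l ∣
      Polynomial.X * Polynomial.derivative q - Polynomial.C (a : K) * q := by
  obtain ⟨r, rfl⟩ := h
  refine dvd_sub (dvd_mul_of_dvd_right ?_ _) (dvd_mul_of_dvd_right ?_ _)
  · rw [Polynomial.derivative_mul, Polynomial.derivative_X_sub_C_pow]
    refine dvd_add (dvd_mul_of_dvd_left (dvd_mul_of_dvd_right ?_ _) _) (dvd_mul_of_dvd_left ?_ _)
    · rw [Nat.add_sub_cancel]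
    · exact pow_dvd_pow _ (Nat.le_succ l)
  · exact dvd_mul_of_dvd_left (pow_dvd_pow _ (Nat.le_succ l)) _

private theorem atb_all (m : ℕ) (q : Polynomial K) (h : (Polynomial.X - Polynomial.C 1) ^ m ∣ q)
    (S : Finset ℕ) : ∃ q' : Polynomial K, (Polynomial.X - Polynomial.C 1) ^ (m - S.card) ∣ q' ∧
      ∀ k, q'.coeff k = (∏ b ∈ S, ((k : K) - b)) * q.coeff k := by
  classical
  induction S using Finset.induction_on with
  | empty => exact ⟨q, by simpa using h, fun k => by simp⟩
  | insert a S ha ih =>
    obtain ⟨q', h1, h2⟩ := ih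
    refine ⟨Polynomial.X * Polynomial.derivative q' - Polynomial.C (a : K) * q', ?_, fun k => ?_⟩
    · rw [Finset.card_insert_of_notMem ha]
      rcases Nat.lt_or_ge S.card m with hl | hl
      · refine atb_dvd _ _ _ ?_
        have e : m - (S.card + 1) + 1 = m - S.card := by omega
        rw [e]
        exact h1
      · have e : m - (S.card + 1) = 0 := by omega
        rw [e, pow_zero]
        exact one_dvd _
    · rw [atb_T, h2, Finset.prod_insert ha, mul_assoc]

theorem sparse [CharZero K] (m : ℕ) (q : Polynomial K) (hq : q ≠ 0)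
    (h : (Polynomial.X - Polynomial.C 1) ^ m ∣ q) : m + 1 ≤ q.support.card := by
  by_contra hcon
  have hc : q.support.card ≤ m := by omega
  obtain ⟨a, ha⟩ := Polynomial.nonempty_support_iff.2 hq
  obtain ⟨q', h1, h2⟩ := atb_all m q h (q.support.erase a)
  have hcard := Finset.card_erase_of_mem ha
  have hpos : 0 < q.support.card := Finset.card_pos.2 ⟨a, ha⟩
  have hne : (∏ b ∈ q.support.erase a, ((a : K) - b)) * q.coeff a ≠ 0 := by
    refine mul_ne_zero (Finset.prod_ne_zero_iff.2 fun b hb => ?_) (Polynomial.mem_support_iff.1 ha)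
    rw [sub_ne_zero]
    exact fun e => (Finset.mem_erase.1 hb).1 (Nat.cast_injective e).symm
  have h3 : q' = Polynomial.monomial a ((∏ b ∈ q.support.erase a, ((a : K) - b)) * q.coeff a) := by
    ext k
    rw [h2, Polynomial.coeff_monomial]
    split_ifs with hk
    · rw [hk]
    · by_cases hs : k ∈ q.support
      · rw [Finset.prod_eq_zero (Finset.mem_erase.2 ⟨fun e => hk e.symm, hs⟩) (sub_self _), zero_mul]
      · rw [Polynomial.notMem_support_iff.1 hs, mul_zero]
  have h4 : (Polynomial.X - Polynomial.C 1) ∣ q' := by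
    refine (dvd_pow_self _ ?_).trans h1
    omega
  rw [Polynomial.dvd_iff_isRoot, h3, Polynomial.IsRoot, Polynomial.eval_monomial, one_pow,
    mul_one] at h4
  exact hne h4

private theorem atb_hom (m e : ℕ) (p : MvPolynomial (Fin 2) K) (h : (X 0 - X 1) ^ m ∣ p) :
    (X 0 - X 1 : MvPolynomial (Fin 2) K) ^ m ∣ homogeneousComponent e p := by
  obtain ⟨q, rfl⟩ := h
  have h1 : (X 0 - X 1 : MvPolynomial (Fin 2) K).IsHomogeneous 1 :=
    (isHomogeneous_X K 0).sub (isHomogeneous_X K 1)
  have h2 : (X 0 - X 1 : MvPolynomial (Fin 2) K) ^ m * q =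
      ∑ j ∈ Finset.range (q.totalDegree + 1), (X 0 - X 1) ^ m * homogeneousComponent j q := by
    rw [← Finset.mul_sum, sum_homogeneousComponent]
  rw [h2, map_sum]
  refine Finset.dvd_sum fun j _ => ?_
  have h3 : ((X 0 - X 1 : MvPolynomial (Fin 2) K) ^ m * homogeneousComponent j q).IsHomogeneous
      (1 * m + j) := (h1.pow m).mul (homogeneousComponent_isHomogeneous j q)
  rw [homogeneousComponent_of_mem h3]
  split_ifs
  · exact dvd_mul_right _ _
  · exact dvd_zero _

private theorem atb_ev (d : Fin 2 →₀ ℕ) : ev (d 0) (d 1) = d := by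
  unfold ev
  ext i
  fin_cases i <;> simp

private theorem atb_ev0 (a b : ℕ) : ev a b 0 = a := by simp [ev]
private theorem atb_ev1 (a b : ℕ) : ev a b 1 = b := by simp [ev]

private theorem atb_deg (d : Fin 2 →₀ ℕ) : d.degree = d 0 + d 1 := by
  rw [Finsupp.degree_eq_sum, Fin.sum_univ_two]

/-- The substitution `X 0 = X`, `X 1 = 1`. -/
private noncomputable def atbS : MvPolynomial (Fin 2) K →ₐ[K] Polynomial K :=
  aeval ![Polynomial.X, 1]

private theorem atb_S (p : MvPolynomial (Fin 2) K) (k : ℕ) :
    (atbS p).coeff k = ∑ d ∈ p.support, if d 0 = k then coeff d p else 0 := by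
  have h : atbS p = ∑ d ∈ p.support, Polynomial.monomial (d 0) (coeff d p) := by
    conv_lhs => rw [p.as_sum]
    rw [map_sum]
    refine Finset.sum_congr rfl fun d _ => ?_
    unfold atbS
    rw [aeval_monomial, Finsupp.prod_fintype _ _ (fun i => pow_zero _), Fin.prod_univ_two]
    simp [Polynomial.C_mul_X_pow_eq_monomial]
  rw [h, Polynomial.finset_sum_coeff]
  refine Finset.sum_congr rfl fun d _ => ?_
  rw [Polynomial.coeff_monomial]

private theorem atb_S' {e : ℕ} {h : MvPolynomial (Fin 2) K} (hh : h.IsHomogeneous e) (k : ℕ) :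
    (atbS h).coeff k = if k ≤ e then coeff (ev k (e - k)) h else 0 := by
  have hd : ∀ d ∈ h.support, d 0 + d 1 = e := by
    intro d hd
    have := hh (mem_support_iff.1 hd)
    rw [← atb_deg, Finsupp.degree_eq_weight_one]
    exact this
  rw [atb_S]
  split_ifs with hk
  · rw [Finset.sum_eq_single (ev k (e - k))]
    · rw [if_pos (atb_ev0 _ _)]
    · intro d hd' hne
      rw [if_neg]
      intro h0
      apply hne
      have := hd d hd'
      rw [← atb_ev d]
      congr 1
      omega
    · intro hn
      rw [if_pos (atb_ev0 _ _)]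
      exact notMem_support_iff.1 hn
  · refine Finset.sum_eq_zero fun d hd' => ?_
    rw [if_neg]
    have := hd d hd'
    omega

theorem atomB [CharZero K] (m D : ℕ) : IsAtom (pairF (divP K m) D) (mp K) (m + 1) := by
  classical
  have : Infinite K := Infinite.of_injective (fun n : ℕ => (n : K)) Nat.cast_injective
  refine atom_of_tri _ _ _ ?_
  intro Ω' p hp _ hne
  have hex : ∃ e, ∃ ω, homogeneousComponent e (p ω) ≠ 0 := by
    by_contra hcon
    push Not at hcon
    apply hne
    funext ω
    rw [← sum_homogeneousComponent (p ω)]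
    exact Finset.sum_eq_zero fun i _ => hcon i ω
  obtain ⟨ω₀, hω⟩ := Nat.find_spec hex
  have hmin : ∀ a b : ℕ, a + b < Nat.find hex → ∀ ω, coeff (ev a b) (p ω) = 0 := by
    intro a b hab ω
    have h1 := Nat.find_min hex hab
    push Not at h1
    have h2 := congrArg (coeff (ev a b)) (h1 ω)
    rw [coeff_homogeneousComponent, coeff_zero, if_pos] at h2
    · exact h2
    · rw [atb_deg, atb_ev0, atb_ev1]
  obtain ⟨e, he⟩ : ∃ e, e = Nat.find hex := ⟨_, rfl⟩
  rw [← he] at hω hmin
  have hh := homogeneousComponent_isHomogeneous e (p ω₀)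
  have hdv : (Polynomial.X - Polynomial.C 1) ^ m ∣ atbS (homogeneousComponent e (p ω₀)) := by
    have h1 := map_dvd (atbS (K := K)) (atb_hom m e (p ω₀) (hp ω₀))
    have h2 : atbS ((X 0 - X 1 : MvPolynomial (Fin 2) K) ^ m) =
        (Polynomial.X - Polynomial.C 1) ^ m := by
      unfold atbS
      simp
    rwa [h2] at h1
  have hn0 : atbS (homogeneousComponent e (p ω₀)) ≠ 0 := by
    intro h0
    apply hω
    ext d
    rw [coeff_zero]
    by_contra hd
    have h1 : d 0 + d 1 = e := by
      have := hh hd
      rw [← atb_deg, Finsupp.degree_eq_weight_one]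
      exact this
    have h2 := atb_S' hh (d 0)
    rw [h0, Polynomial.coeff_zero, if_pos (by omega)] at h2
    have h3 : e - d 0 = d 1 := by omega
    rw [h3, atb_ev] at h2
    exact hd h2.symm
  have hs := sparse m _ hn0 hdv
  refine ⟨fun i => (atbS (homogeneousComponent e (p ω₀))).support.orderEmbOfCardLe hs i,
    fun i => e - (atbS (homogeneousComponent e (p ω₀))).support.orderEmbOfCardLe hs i, ?_, ?_⟩
  · intro i
    refine ⟨ω₀, ?_⟩
    have h1 := Finset.orderEmbOfCardLe_mem (atbS (homogeneousComponent e (p ω₀))).support hs i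
    rw [Polynomial.mem_support_iff, atb_S' hh] at h1
    split_ifs at h1 with hk
    · rw [coeff_homogeneousComponent, if_pos] at h1
      · exact h1
      · rw [atb_deg, atb_ev0, atb_ev1]
        omega
    · exact absurd rfl h1
  · intro i j hij ω
    have h1 := ((atbS (homogeneousComponent e (p ω₀))).support.orderEmbOfCardLe hs).strictMono hij
    have h2 : (atbS (homogeneousComponent e (p ω₀))).support.orderEmbOfCardLe hs j ≤ e := by
      have h1 := Finset.orderEmbOfCardLe_mem (atbS (homogeneousComponent e (p ω₀))).support hs j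
      rw [Polynomial.mem_support_iff, atb_S' hh] at h1
      split_ifs at h1 with hk
      · exact hk
      · exact absurd rfl h1
    refine hmin _ _ ?_ ω
    show (atbS (homogeneousComponent e (p ω₀))).support.orderEmbOfCardLe hs i +
      (e - (atbS (homogeneousComponent e (p ω₀))).support.orderEmbOfCardLe hs j) < e
    omega

end Pool.Agent.FOR
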