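import Pool.Agent.FOR.Tri

/-!
MODULE FOR-AtC (est. 2.0 h).  The atom of the polynomials in `y_i`, `i ∈ ι`, `s_1, .., s_R` which vanish
when `y_i = ℓ_i(s) = ∑_k s_k a_i^k` for some `i`; the `a_i` are different.  Weight
`binom(card ι, R)`.

PLAN.  For `I ⊆ ι` with `card I = R` and `c, e : ι → K` let `y^I = e` on `I`, `c` off `I`, and
`s^I = s^I(c)` the solution of `ℓ_i(s^I) = c_i` for all `i ∈ I` (`s^I_k` is the coefficient of `X^k` of
`Lagrange.interpolate I a c`, of degree `< R`; it is the only solution).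
The row functional `single (y^I, 0) 1`, the column functional `single (0, s^J) 1`:
`hh mc g l_I r_J ω = g (y^I, s^J) ω`, which is `0` for `I ≠ J` because there is `i ∈ J \ I` with
`y^I_i = c_i = ℓ_i(s^J)`.  For `I = J` it is not `0` for generic `c`, `e`: let `ω₀`, `p` with
`g (., ω₀) = eval p ≠ 0`.  `Q_I (c, e) = p (y^I, s^I)` is a polynomial in `(c, e)` (an `aeval` of `p`)
which is not `0`, because for `p (y*, s*) ≠ 0` it takes the value `p (y*, s*)` at `e = y*`,
`c = y*` off `I`, `c = ℓ(s*)` on `I` (uniqueness of interpolation).  So `∏_I Q_I ≠ 0` and there is a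
point `(c, e)` where all are not zero (`MvPolynomial.funext`, `K` infinite).
Number the sets `I` by `Fin ((Fintype.card ι).choose R)` (`Finset.card_powersetCard`,
`Finset.equivFinOfCardEq`), `big_of_tri`.
-/

set_option autoImplicit false

namespace Pool.Agent.FOR

open MvPolynomial

universe u

variable {K : Type u} [Field K]

/-- The mixing: `y` from the row, `s` from the column. -/
def mc {ι : Type} {R : ℕ} (p q : (ι → K) × (Fin R → K)) : (ι → K) × (Fin R → K) := (p.1, q.2)

/-- The value of the linear form `ℓ_i`. -/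
def ell {R : ℕ} (a : K) (s : Fin R → K) : K := ∑ k : Fin R, s k * a ^ (k : ℕ)

/-- The polynomial functions of `(y, s)` which vanish if `y_i = ℓ_i(s)` for some `i`. -/
def ellC {ι : Type} (R : ℕ) (a : ι → K) : Submodule K ((ι → K) × (Fin R → K) → K) where
  carrier := {f | (∃ p : MvPolynomial (ι ⊕ Fin R) K, ∀ y s, f (y, s) = eval (Sum.elim y s) p) ∧
    ∀ y s i, y i = ell (a i) s → f (y, s) = 0}
  add_mem' := by
    rintro f g ⟨⟨p, hp⟩, hf⟩ ⟨⟨q, hq⟩, hg⟩
    refine ⟨⟨p + q, fun y s => ?_⟩, fun y s i h => ?_⟩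
    · rw [map_add, ← hp, ← hq]
      rfl
    · show f (y, s) + g (y, s) = 0
      rw [hf y s i h, hg y s i h, add_zero]
  zero_mem' := ⟨⟨0, fun y s => by simp⟩, fun _ _ _ _ => rfl⟩
  smul_mem' := by
    rintro c f ⟨⟨p, hp⟩, hf⟩
    refine ⟨⟨c • p, fun y s => ?_⟩, fun y s i h => ?_⟩
    · rw [smul_eval, ← hp]
      rfl
    · show c * f (y, s) = 0
      rw [hf y s i h, mul_zero]

private theorem atc_eval {R : ℕ} (P : Polynomial K) (hP : P.degree < R) (x : K) :
    ell x (fun k : Fin R => P.coeff k) = P.eval x := by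
  unfold ell
  by_cases h0 : P = 0
  · rw [h0, Polynomial.eval_zero]
    refine Finset.sum_eq_zero fun k _ => ?_
    show Polynomial.coeff 0 (k : ℕ) * x ^ (k : ℕ) = 0
    rw [Polynomial.coeff_zero, zero_mul]
  · rw [Polynomial.eval_eq_sum_range' ((Polynomial.natDegree_lt_iff_degree_lt h0).2 hP) x]
    exact Fin.sum_univ_eq_sum_range (fun k => P.coeff k * x ^ k) R

/-- the solution of the interpolation problem on `I` -/
private noncomputable def atcS {ι : Type} [DecidableEq ι] (R : ℕ) (a : ι → K) (I : Finset ι) (c : ι → K) :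
    Fin R → K := fun k => (Lagrange.interpolate I a c).coeff k

private theorem atcS_ell {ι : Type} [DecidableEq ι] {R : ℕ} {a : ι → K} (ha : Function.Injective a)
    {I : Finset ι} (hI : I.card = R) (c : ι → K) {i : ι} (hi : i ∈ I) : ell (a i) (atcS R a I c) = c i := by
  unfold atcS
  rw [atc_eval _ (by rw [← hI]; exact Lagrange.degree_interpolate_lt c ha.injOn),
    Lagrange.eval_interpolate_at_node c ha.injOn hi]

private theorem atcS_eq {ι : Type} [DecidableEq ι] {R : ℕ} {a : ι → K} (ha : Function.Injective a)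
    {I : Finset ι} (hI : I.card = R) (c : ι → K) (s : Fin R → K) (hs : ∀ i ∈ I, ell (a i) s = c i) :
    atcS R a I c = s := by
  set P : Polynomial K := ∑ k : Fin R, Polynomial.C (s k) * Polynomial.X ^ (k : ℕ) with hP
  have hdeg : P.degree < R := Polynomial.degree_sum_fin_lt s
  have hev : ∀ i ∈ I, Polynomial.eval (a i) P = c i := by
    intro i hi
    rw [← hs i hi, hP, Polynomial.eval_finsetSum]
    unfold ell
    exact Finset.sum_congr rfl fun k _ => by
      rw [Polynomial.eval_mul, Polynomial.eval_C, Polynomial.eval_pow, Polynomial.eval_X]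
  have h1 := Lagrange.eq_interpolate_of_eval_eq c ha.injOn (s := I) (f := P) (by rw [hI]; exact hdeg) hev
  funext k
  unfold atcS
  rw [← h1, hP, Polynomial.finsetSum_coeff, Finset.sum_eq_single k]
  · rw [Polynomial.coeff_C_mul, Polynomial.coeff_X_pow, if_pos rfl, mul_one]
  · intro j _ hj
    rw [Polynomial.coeff_C_mul, Polynomial.coeff_X_pow, if_neg (fun h => hj (Fin.ext h.symm)), mul_zero]
  · intro h
    exact absurd (Finset.mem_univ _) h

private theorem atcS_lin {ι : Type} [DecidableEq ι] [Fintype ι] (R : ℕ) (a : ι → K) (I : Finset ι)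
    (c : ι → K) (k : Fin R) : atcS R a I c k = ∑ i, c i * atcS R a I (fun j => if i = j then 1 else 0) k := by
  unfold atcS
  have h := LinearMap.pi_apply_eq_sum_univ (Lagrange.interpolate I a) c
  rw [h, Polynomial.finsetSum_coeff]
  exact Finset.sum_congr rfl fun i _ => by rw [Polynomial.coeff_smul, smul_eq_mul]

/-- the value of `y^I` -/
private def atcY {ι : Type} [DecidableEq ι] (I : Finset ι) (c e : ι → K) : ι → K :=
  fun i => if i ∈ I then e i else c i

private theorem atc_Q {ι : Type} [DecidableEq ι] [Fintype ι] {R : ℕ} (a : ι → K) (I : Finset ι)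
    (p : MvPolynomial (ι ⊕ Fin R) K) : ∃ Q : MvPolynomial (ι ⊕ ι) K, ∀ c e : ι → K,
      eval (Sum.elim c e) Q = eval (Sum.elim (atcY I c e) (atcS R a I c)) p := by
  refine ⟨aeval (Sum.elim (fun i => if i ∈ I then X (Sum.inr i) else X (Sum.inl i))
    (fun k => ∑ i, X (Sum.inl i) * C (atcS R a I (fun j => if i = j then 1 else 0) k))) p, fun c e => ?_⟩
  rw [← aeval_eq_eval, ← aeval_eq_eval, ← AlgHom.comp_apply, comp_aeval]
  congr 2
  funext x
  rcases x with i | k
  · simp only [Sum.elim_inl]
    unfold atcY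
    split_ifs with h
    · rw [aeval_X]; rfl
    · rw [aeval_X]; rfl
  · simp only [Sum.elim_inr]
    rw [atcS_lin, map_sum]
    exact Finset.sum_congr rfl fun i _ => by rw [map_mul, aeval_X, aeval_C]; rfl

theorem atomC [Infinite K] {ι : Type} [Fintype ι] (R : ℕ) (a : ι → K)
    (ha : Function.Injective a) :
    IsAtom (ellC R a) mc ((Fintype.card ι).choose R) := by
  classical
  intro Ω' g ν M hg hC hB
  obtain ⟨⟨y₀, s₀⟩, h1⟩ := Function.ne_iff.1 hg
  obtain ⟨ω₀, h2⟩ := Function.ne_iff.1 h1
  obtain ⟨⟨p, hp'⟩, -⟩ := hC ω₀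
  have hp : ∀ (y : ι → K) (s : Fin R → K), g (y, s) ω₀ = eval (Sum.elim y s) p := hp'
  have hp0 : eval (Sum.elim y₀ s₀) p ≠ 0 := by
    rw [← hp]
    exact h2
  choose Q hQ using fun I : Finset ι => atc_Q (R := R) a I p
  have hprod : (∏ I ∈ Finset.powersetCard R (Finset.univ : Finset ι), Q I) ≠ 0 := by
    refine Finset.prod_ne_zero_iff.2 fun I hI h0 => hp0 ?_
    rw [Finset.mem_powersetCard] at hI
    have h3 := hQ I (fun i => if i ∈ I then ell (a i) s₀ else y₀ i) y₀
    rw [h0, map_zero] at h3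
    have h4 : atcY I (fun i => if i ∈ I then ell (a i) s₀ else y₀ i) y₀ = y₀ := by
      funext i
      unfold atcY
      by_cases h : i ∈ I
      · rw [if_pos h]
      · rw [if_neg h]
        show (if i ∈ I then ell (a i) s₀ else y₀ i) = y₀ i
        rw [if_neg h]
    have h5 : atcS R a I (fun i => if i ∈ I then ell (a i) s₀ else y₀ i) = s₀ := by
      refine atcS_eq ha hI.2 _ _ fun i hi => ?_
      rw [if_pos hi]
    rw [h4, h5] at h3
    exact h3.symm
  have hex : ∃ x : ι ⊕ ι → K, eval x (∏ I ∈ Finset.powersetCard R (Finset.univ : Finset ι), Q I) ≠ 0 := by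
    by_contra hc
    push Not at hc
    exact hprod (funext fun x => by rw [hc x, map_zero])
  obtain ⟨x, hx⟩ := hex
  rw [map_prod, Finset.prod_ne_zero_iff] at hx
  set c : ι → K := fun i => x (Sum.inl i) with hc
  set e : ι → K := fun i => x (Sum.inr i) with he
  have hxe : x = Sum.elim c e := by
    funext i
    rcases i with i | i <;> rfl
  have hcard : (Finset.powersetCard R (Finset.univ : Finset ι)).card = (Fintype.card ι).choose R := by
    rw [Finset.card_powersetCard, Finset.card_univ]
  let E := (Finset.equivFinOfCardEq hcard).symm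
  have hEc : ∀ i, (E i : Finset ι).card = R := fun i => (Finset.mem_powersetCard.1 (E i).2).2
  have hhe : ∀ (I J : Finset ι) (ω : Ω'), hh mc g (Finsupp.single (atcY I c e, 0) 1)
      (Finsupp.single (0, atcS R a J c) 1) ω = g (atcY I c e, atcS R a J c) ω := by
    intro I J ω
    unfold hh
    rw [Finsupp.sum_single_index, Finsupp.sum_single_index]
    · rw [one_mul, one_mul]
      rfl
    · rw [mul_zero, zero_mul]
    · refine Finset.sum_eq_zero fun i _ => ?_
      show (0 : K) * _ * _ = 0
      rw [zero_mul, zero_mul]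
  refine big_of_tri mc ν g _ M (fun i => Finsupp.single (atcY (E i) c e, 0) 1)
    (fun j => Finsupp.single (0, atcS R a (E j) c) 1) ?_ ?_
  · intro i j hij ω
    rw [hhe]
    have hne : (E i : Finset ι) ≠ E j := fun h => hij.ne (E.injective (Subtype.ext h))
    have hsub : ¬ (E j : Finset ι) ⊆ E i := fun h =>
      hne (Finset.eq_of_subset_of_card_le h (by rw [hEc, hEc])).symm
    obtain ⟨t, ht1, ht2⟩ := Finset.not_subset.1 hsub
    refine (hC ω).2 _ _ t ?_
    rw [atcS_ell ha (hEc j) c ht1]
    unfold atcY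
    rw [if_neg ht2]
  · intro i
    refine hB _ (hh_mem _ _ _ _) fun h0 => ?_
    have h3 := congrFun h0 ω₀
    rw [hhe, hp, ← hQ, ← hxe] at h3
    exact hx _ (E i).2 h3

end Pool.Agent.FOR
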