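import Pool.Agent.MRG.Pts

/-!
Project FOR (MP_e2be99_lc): explicit polynomial-size hitting sets for all polynomials all of whose
flattenings have rank at most `w` (read-once programs in any order), of arbitrary individual degree.
Definitions of the points.  Paper proof: /team-store/pit34_full.md.

Everything is defined over an arbitrary commutative semiring `R`, so that the same formulas give
points (`R = ℕ`), curves (`R` a ring of polynomials) and the objects in the proofs.
-/

set_option autoImplicit false

namespace Pool.Agent.FOR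

open Pool.Agent.MRG (cA cB ex nl el wt)
open Pool.Agent.AOR (bucket)

/-- The logarithm of the size at the level `j`. -/
def lg (j : ℕ) : ℕ := 16 * 2 ^ j

/-- The size at the level `j`: number of variables and bound for the ranks. -/
def sz (j : ℕ) : ℕ := 2 ^ lg j

theorem sz_pos (j : ℕ) : 0 < sz j := by unfold sz; positivity

/-- The number `a` as an index of a variable of the level `j`. -/
def fi (j a : ℕ) : Fin (sz j) := ⟨a % sz j, Nat.mod_lt a (sz_pos j)⟩

/-- The curve through the merging of the variables in a list: `Q` is the list of the pairs `(r, U)`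
of the steps; the pairs of consecutive active variables whose number is not in `U` are merged along
the curve `(∏_(j < r) (z + j + 1), ∏_(j < r) (z + j + 1)^(j + 1))`; at the end all active variables
are equal to `z`. -/
def crv {R : Type*} [CommSemiring R] {n : ℕ} :
    List (ℕ × Finset ℕ) → List (Fin n) → R → Fin n → R
  | [], _, z => fun _ => z
  | q :: Q, L, z => el (fun i => ((i + 1 : ℕ) : R)) q.1 q.2 0 L (crv Q (nl q.2 0 L) z)

/-- The guesses for the merging of at most `N` variables when the ranks are at most `2 ^ W`
(the first number is fuel): at every step half of the pairs stay unmerged. -/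
def seqs (W : ℕ) : ℕ → ℕ → List (List (ℕ × Finset ℕ))
  | 0, _ => [[]]
  | F + 1, N => if N ≤ 1 then [[]] else
      ((List.range (N / 2)).sublistsLen (N / 2 / 2)).flatMap fun U =>
        (seqs W F ((N + 1) / 2 + N / 2 / 2)).map fun Q =>
          (2 ^ (W / (N / 2 / 2 + 1) + 1) - 1, U.toFinset) :: Q

/-- The value of the variable `b` in the block `[a, a + 2 ^ l)`, when at every step one half (the
left one for `false`) is treated recursively and the other half is a unit: the variables of the
unit starting at `c` are the values `P (t c) (e c) b`. -/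
def ud {R : Type*} (P : R → R → ℕ → R) (t e : ℕ → R) : ℕ → ℕ → List Bool → ℕ → R
  | 0, _, _, b => t b
  | _ + 1, a, [], b => P (t a) (e a) b
  | l + 1, a, false :: s, b =>
      if b < a + 2 ^ l then ud P t e l a s b else P (t (a + 2 ^ l)) (e (a + 2 ^ l)) b
  | l + 1, a, true :: s, b =>
      if b < a + 2 ^ l then P (t a) (e a) b else ud P t e l (a + 2 ^ l) s b

/-- The first elements of the units. -/
def hds : ℕ → ℕ → List Bool → List ℕ
  | 0, a, _ => [a]
  | _ + 1, a, [] => [a]
  | l + 1, a, false :: s => (a + 2 ^ l) :: hds l a s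
  | l + 1, a, true :: s => a :: hds l (a + 2 ^ l) s

/-- The lists of `l` choices. -/
def shps : ℕ → List (List Bool)
  | 0 => [[]]
  | l + 1 => (shps l).map (false :: ·) ++ (shps l).map (true :: ·)

/-- A bound for the orders. -/
def J1 (j : ℕ) : ℕ := (lg j + 1) * sz j ^ 2

/-- The guesses at the level `j + 1`: parameters of the hash function, units, merging. -/
def gs (j : ℕ) : List (ℕ × ℕ × List Bool × List (ℕ × Finset ℕ)) :=
  (List.range (2 * sz (j + 1) + 1)).flatMap fun p =>
    (List.range (2 * sz (j + 1) + 1)).flatMap fun a =>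
      (shps (lg j)).flatMap fun s =>
        (seqs (lg (j + 1)) (lg j + 1) (lg j + 1)).map fun Q => (p, a, s, Q)

/-- The values of the units of the level `j`. -/
def zu {R : Type*} [CommSemiring R] (j : ℕ) (s : List Bool) (Q : List (ℕ × Finset ℕ)) (z : R)
    (a : ℕ) : R :=
  crv Q ((hds (lg j) 0 s).map (fi j)) z (fi j a)

/-- The values of the variables of the level `j`. -/
def uu {R : Type*} [CommSemiring R] (j : ℕ) (P : R → R → ℕ → R) (s : List Bool) (x : ℕ → R) (e : R)
    (b : ℕ) : R :=
  ud P (fun a => x a ^ (J1 j + 1)) (fun a => e * x a) (lg j) 0 s b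

/-- The direction at the level `j + 1` for the guess `φ`. -/
def yf {R : Type*} [CommSemiring R] (j : ℕ) (P : R → R → ℕ → R)
    (φ : ℕ × ℕ × List Bool × List (ℕ × Finset ℕ)) (σ : ℕ → R) (e z : R) (i : ℕ) : R :=
  ∑ k ∈ Finset.range 5, σ k * (i : R) ^ k +
    uu j P φ.2.2.1 (zu j φ.2.2.1 φ.2.2.2 z) e (bucket φ.1 φ.2.1 (sz j) i) ^
      wt (sz (j + 1) ^ 2) (sz (j + 1)) i

/-- The base of the Kronecker substitution at the level `j + 1`. -/
def bs (j : ℕ) : ℕ := sz (j + 1) ^ 11

/-- The sum over all guesses with selecting factors. -/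
def ys {R : Type*} [CommSemiring R] (j : ℕ) (P : R → R → ℕ → R) (σ : ℕ → R) (e s z : R) (i : ℕ) :
    R :=
  ∑ k ∈ Finset.range (gs j).length,
    (∏ l ∈ (Finset.range (gs j).length).erase k, (s + (l : R))) *
      yf j P ((gs j).getD k (0, 0, [], [])) σ e z i

/-- The direction at the level `j + 1`, a polynomial in `t`. -/
def yp {R : Type*} [CommSemiring R] (j : ℕ) (P : R → R → ℕ → R) (t : R) (i : ℕ) : R :=
  ys j P (fun k => t ^ bs j ^ k) (t ^ bs j ^ 5) (t ^ bs j ^ 6) (t ^ bs j ^ 7) i

/-- The generator of the level `j`: for `j = 0` a complete tree of mergings, for `j + 1` the curve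
`t ^ (sz (j+1) ^ 240) + e * yp j (Ps j) t i`. -/
def Ps {R : Type*} [CommSemiring R] : ℕ → R → R → ℕ → R
  | 0, t, _, i => crv (List.replicate 16 (2 ^ 16, ∅)) (List.finRange (sz 0)) t (fi 0 i)
  | j + 1, t, e, i => t ^ sz (j + 1) ^ 240 + e * yp j (Ps j) t i

/-- The first level with size at least `m`. -/
def lev (m : ℕ) : ℕ := Nat.clog 2 ((Nat.clog 2 m + 15) / 16)

/-- The points for polynomials in `n` variables of total degree at most `D`. -/
def points (n D w : ℕ) : Finset (Fin n → ℕ) :=
  (Finset.range (D + 1) ×ˢ Finset.range (D * sz (lev (max n w)) ^ 240 + 1)).image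
    fun q i => Ps (lev (max n w)) q.2 q.1 (i : ℕ)

end Pool.Agent.FOR
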