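import Pool.Agent.FOR.Fr
import Pool.Agent.FOR.Defs

/-!
Project FOR (MP_e2be99_lc): the statements of the recursion and the substitutions used in it.
-/

set_option autoImplicit false

namespace Pool.Agent.FOR

open MvPolynomial
open Pool.Agent.MRG (wt)
open Pool.Agent.AOR (bucket)

universe u

variable (K : Type u) [Field K]

/-- The curve of the level `j`: `t` is the variable of the inner, `e` of the outer polynomials. -/
noncomputable def cv (j : ℕ) (b : Fin (sz j)) : Polynomial (Polynomial K) :=
  Ps j (Polynomial.C Polynomial.X) Polynomial.X (b : ℕ)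

/-- The polynomial `p` vanishes to high order in `e` on the curve `Ps j t e`. -/
def Fa {K : Type u} [Field K] (j : ℕ) (p : MvPolynomial (Fin (sz j)) K) : Prop :=
  (Polynomial.X : Polynomial (Polynomial K)) ^ (sz j ^ 2 + 1) ∣ aeval (cv K j) p

/-- The condition `Fa j` is forcing. -/
def Qf (j : ℕ) : Prop :=
  ∀ (Ω' : Type u) (G : Ω' → MvPolynomial (Fin (sz j)) K), G ≠ 0 → DB G → (∀ ω, Fa j (G ω)) →
    PG (sz j + 1) G

/-- The condition to vanish on the curve `yp j (Ps j)` is forcing for forms of small degree. -/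
def Rf (j : ℕ) : Prop :=
  ∀ (Ω' : Type u) (H : Ω' → MvPolynomial (Fin (sz (j + 1))) K) (m : ℕ), m ≤ sz (j + 1) ^ 2 →
    H ≠ 0 → (∀ ω, (H ω).IsHomogeneous m) →
    (∀ ω, aeval (fun i : Fin (sz (j + 1)) => yp j (Ps j) (Polynomial.X : Polynomial K) (i : ℕ))
      (H ω) = 0) → PG (sz (j + 1) + 1) H

/-- The substitution of a unit: the variables in the block `[c, c + 2 ^ l)` become the values of
the curve of the level `j` at `x_c` in the direction `e` (the variable of the outer polynomials). -/
noncomputable def blk (j l c : ℕ) (b : Fin (sz j)) :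
    Polynomial (MvPolynomial (Fin (sz j)) K) :=
  if c ≤ (b : ℕ) ∧ (b : ℕ) < c + 2 ^ l then
    Ps j (Polynomial.C (X (fi j c))) Polynomial.X (b : ℕ)
  else Polynomial.C (X b)

/-- The substitution of all units of the block `[a, a + 2 ^ l)` with different parameters: `inl c`
is the variable and `inr c` the direction of the unit with the first element `c`. -/
noncomputable def nsub (j l a : ℕ) (s : List Bool) (b : Fin (sz j)) :
    MvPolynomial (Fin (sz j) ⊕ Fin (sz j)) K :=
  if a ≤ (b : ℕ) ∧ (b : ℕ) < a + 2 ^ l then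
    ud (Ps j) (fun c => X (Sum.inl (fi j c))) (fun c => X (Sum.inr (fi j c))) l a s (b : ℕ)
  else X (Sum.inl b)

/-- The substitution of all units with the variables `x_c^(J1+1)` and the directions `e * x_c`. -/
noncomputable def uuX (j : ℕ) (s : List Bool) (b : Fin (sz j)) :
    Polynomial (MvPolynomial (Fin (sz j)) K) :=
  uu j (Ps j) s (fun a => Polynomial.C (X (fi j a))) Polynomial.X (b : ℕ)

/-- The substitution of `ℓ_i(σ)` plus a power of the variable of the bucket of `i`. -/
noncomputable def hsub (j p a : ℕ) (σ : ℕ → K) (i : Fin (sz (j + 1))) :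
    MvPolynomial (Fin (sz j)) K :=
  C (∑ k ∈ Finset.range 5, σ k * ((i : ℕ) : K) ^ k) +
    X (fi j (bucket p a (sz j) (i : ℕ))) ^ wt (sz (j + 1) ^ 2) (sz (j + 1)) (i : ℕ)

/-- The head (first element) of the unit which contains `b`. -/
def hdf : ℕ → ℕ → List Bool → ℕ → ℕ
  | 0, a, _, _ => a
  | _ + 1, a, [], _ => a
  | l + 1, a, false :: s, b => if b < a + 2 ^ l then hdf l a s b else a + 2 ^ l
  | l + 1, a, true :: s, b => if b < a + 2 ^ l then a else hdf l (a + 2 ^ l) s b

/-- The square root of `sz j`. -/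
def tw (j : ℕ) : ℕ := 2 ^ (8 * 2 ^ j)

end Pool.Agent.FOR
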