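import Pool.Agent.FOR.T3
import Pool.Agent.FOR.Rc

/-!
MODULE FOR-B0.  The start of the recursion.
-/

set_option autoImplicit false

namespace Pool.Agent.FOR

open MvPolynomial

universe u

private theorem cv_zero {K : Type u} [Field K] {r : ℕ} (hr : r = 2 ^ 16) :
    cv K 0 = fun b => Polynomial.C (crv (List.replicate 16 (r, ∅)) (List.finRange (sz 0))
      (Polynomial.X : Polynomial K) b) := by
  funext b
  have h5 : fi 0 (b : ℕ) = b := Fin.ext (Nat.mod_eq_of_lt b.2)
  unfold cv
  rw [Ps, h5, ← hr]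
  exact (map_crv Polynomial.C _ _ _ _).symm

private theorem const_aeval {K : Type u} [Field K] {n : ℕ} (g : Fin n → Polynomial K)
    (p : MvPolynomial (Fin n) K) :
    aeval (fun b => Polynomial.C (g b)) p = Polynomial.C (aeval g p) := by
  have h4 := comp_aeval_apply g (Polynomial.CAlgHom : Polynomial K →ₐ[K] Polynomial (Polynomial K)) p
  exact h4.symm

private theorem const_dvd {K : Type u} [Field K] (N : ℕ) {q : Polynomial K}
    (h : (Polynomial.X : Polynomial (Polynomial K)) ^ (N + 1) ∣ Polynomial.C q) : q = 0 := by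
  rw [Polynomial.X_pow_dvd_iff] at h
  have h6 := h 0 (Nat.succ_pos _)
  rwa [Polynomial.coeff_C_zero] at h6

theorem qf_zero (K : Type u) [Field K] [CharZero K] : Qf K 0 := by
  intro Ω' G hG hD hF
  have h1 : sz 0 = 2 ^ 16 := by
    unfold sz lg
    norm_num
  obtain ⟨r, hr⟩ : ∃ r : ℕ, r = 2 ^ 16 := ⟨_, rfl⟩
  have hlen : (List.finRange (sz 0)).length ≤ 2 ^ 16 := by
    rw [List.length_finRange, h1]
  have ht := t0 r 16 (List.finRange (sz 0)) G (List.nodup_finRange _) hlen hG hD
    (fun ω i _ => List.mem_toFinset.2 (List.mem_finRange i))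
  rcases ht with h | ⟨ω, hω⟩
  · have h3 : sz 0 + 1 ≤ r + 1 := by rw [h1, hr]
    exact good_mono h3 h
  · exfalso
    apply hω
    have h2 := hF ω
    unfold Fa at h2
    rw [cv_zero hr, const_aeval] at h2
    exact const_dvd _ h2

end Pool.Agent.FOR
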