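import Pool.Agent.FOR.NSz

/-!
MODULE FOR-NLev (est. 0.7 h).  The level, and the number of points.

PLAN.  `le_sz_lev`: `m ≤ 2 ^ clog 2 m` (`Nat.le_pow_clog`), `clog 2 m ≤ 16 * c` with
`c = (clog 2 m + 15) / 16`, `c ≤ 2 ^ clog 2 c`.  `sz_lev_le`: if `lev m = 0` it is `2 ^ 16`; if
`lev m = i + 1` then `2 ^ i < c` (`Nat.lt_clog_iff_pow_lt` or similar), so `16 * 2 ^ i < clog 2 m`, so
`sz i < m` and `sz (i+1) = (sz i)² ≤ m²`.
`grid_card`: `(D + 1) * (D sz^240 + 1) ≤ (D + 1)^2 * sz^240`, `sz_lev_le`, `max n w ≤ n + w`.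
`card_points'`: `Finset.card_image_le`, `card_product`, `grid_card`.
-/

set_option autoImplicit false

namespace Pool.Agent.FOR

theorem le_sz_lev (m : ℕ) : m ≤ sz (lev m) := by
  have h1 : m ≤ 2 ^ Nat.clog 2 m := Nat.le_pow_clog (by norm_num) m
  have h2 : (Nat.clog 2 m + 15) / 16 ≤ 2 ^ lev m := Nat.le_pow_clog (by norm_num) _
  have h3 : Nat.clog 2 m ≤ lg (lev m) := by
    unfold lg
    omega
  exact h1.trans (Nat.pow_le_pow_right (by norm_num) h3)

theorem sz_lev_le (m : ℕ) : sz (lev m) ≤ 2 ^ 16 * (m + 1) ^ 2 := by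
  rcases hl : lev m with _ | i
  · have h1 : sz 0 = 2 ^ 16 := by
      unfold sz lg
      norm_num
    rw [h1]
    exact Nat.le_mul_of_pos_right _ (by positivity)
  · have h1 : i < Nat.clog 2 ((Nat.clog 2 m + 15) / 16) := by
      have h0 : Nat.clog 2 ((Nat.clog 2 m + 15) / 16) = i + 1 := hl
      omega
    have h2 : 2 ^ i < (Nat.clog 2 m + 15) / 16 := (Nat.lt_clog_iff_pow_lt (by norm_num)).1 h1
    have h3 : lg i < Nat.clog 2 m := by
      unfold lg
      omega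
    have h4 : sz i < m := (Nat.lt_clog_iff_pow_lt (by norm_num)).1 h3
    rw [sz_succ]
    calc sz i ^ 2 ≤ (m + 1) ^ 2 := Nat.pow_le_pow_left (by omega) 2
      _ ≤ 2 ^ 16 * (m + 1) ^ 2 := Nat.le_mul_of_pos_left _ (by positivity)

theorem grid_card (n D w : ℕ) : (D + 1) * (D * sz (lev (max n w)) ^ 240 + 1) ≤
    2 ^ 3840 * (D + 1) ^ 2 * (n + w + 1) ^ 480 := by
  have h1 : sz (lev (max n w)) ≤ 2 ^ 16 * (n + w + 1) ^ 2 := by
    refine (sz_lev_le _).trans (Nat.mul_le_mul_left _ (Nat.pow_le_pow_left ?_ 2))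
    omega
  have h2 : sz (lev (max n w)) ^ 240 ≤ 2 ^ 3840 * (n + w + 1) ^ 480 := by
    refine (Nat.pow_le_pow_left h1 240).trans (le_of_eq ?_)
    rw [mul_pow, ← pow_mul, ← pow_mul]
  have h3 : 1 ≤ sz (lev (max n w)) ^ 240 := Nat.one_le_pow _ _ (sz_pos _)
  generalize sz (lev (max n w)) ^ 240 = S at h2 h3
  calc (D + 1) * (D * S + 1) ≤ (D + 1) * (D * S + S) := by gcongr
    _ = (D + 1) ^ 2 * S := by ring
    _ ≤ (D + 1) ^ 2 * (2 ^ 3840 * (n + w + 1) ^ 480) := Nat.mul_le_mul_left _ h2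
    _ = 2 ^ 3840 * (D + 1) ^ 2 * (n + w + 1) ^ 480 := by
      generalize 2 ^ 3840 = A
      generalize (n + w + 1) ^ 480 = B
      ring

theorem card_points' (n D w : ℕ) :
    (points n D w).card ≤ 2 ^ 3840 * (D + 1) ^ 2 * (n + w + 1) ^ 480 := by
  unfold points
  refine Finset.card_image_le.trans ?_
  rw [Finset.card_product, Finset.card_range, Finset.card_range]
  exact grid_card n D w

end Pool.Agent.FOR
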