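import Pool.Agent.FOR.NSz

/-!
MODULE FOR-NSeq (est. 0.7 h).  The number of guesses.

PLAN.  `seqs_length`: induction on `F`; `(sublistsLen k l).length = l.length.choose k ≤ 2 ^ l.length`
(`List.length_sublistsLen`, `Nat.choose_le_two_pow`), `List.length_flatMap`, `List.length_map`, sums of
constants; arithmetic: `N / 2 + 2 * ((N + 1) / 2 + N / 2 / 2) ≤ 2 * N` (`omega`).
`shps_length`: induction.  `gs_length`: `(2 w + 1)^2 * 2^(lg j + 1) * 4^(lg j + 1) ≤ w^4` with
`w = sz (j + 1) = (sz j)^2`, `sz j = 2 ^ lg j ≥ 2 ^ 16`: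
`(2 w + 1)^2 ≤ 9 w^2`, so it is at most `9 * 8 * w^2 * (sz j)^3 ≤ w^2 * (sz j)^4`.
-/

set_option autoImplicit false

namespace Pool.Agent.FOR

private theorem flat_le {α β : Type*} (f : α → List β) (c : ℕ) :
    ∀ l : List α, (∀ a ∈ l, (f a).length ≤ c) → (l.flatMap f).length ≤ l.length * c := by
  intro l
  induction l with
  | nil =>
    intro _
    simp
  | cons x l ih =>
    intro h
    rw [List.flatMap_cons, List.length_append, List.length_cons]
    have h1 := h x (List.mem_cons_self ..)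
    have h2 := ih fun a ha => h a (List.mem_cons_of_mem x ha)
    calc (f x).length + (l.flatMap f).length ≤ c + l.length * c := Nat.add_le_add h1 h2
      _ = (l.length + 1) * c := by ring

theorem seqs_length (W : ℕ) : ∀ F N : ℕ, (seqs W F N).length ≤ 4 ^ N := by
  intro F
  induction F with
  | zero =>
    intro N
    show 1 ≤ 4 ^ N
    exact Nat.one_le_pow _ _ (by norm_num)
  | succ F ih =>
    intro N
    unfold seqs
    split_ifs with h
    · show 1 ≤ 4 ^ N
      exact Nat.one_le_pow _ _ (by norm_num)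
    · have h1 := flat_le (fun U : List ℕ => (seqs W F ((N + 1) / 2 + N / 2 / 2)).map fun Q =>
          (2 ^ (W / (N / 2 / 2 + 1) + 1) - 1, U.toFinset) :: Q) (4 ^ ((N + 1) / 2 + N / 2 / 2))
        ((List.range (N / 2)).sublistsLen (N / 2 / 2))
        (fun U _ => by rw [List.length_map]; exact ih _)
      refine h1.trans ?_
      rw [List.length_sublistsLen, List.length_range]
      have h2 : (N / 2).choose (N / 2 / 2) ≤ 2 ^ (N / 2) := Nat.choose_le_two_pow _ _
      calc (N / 2).choose (N / 2 / 2) * 4 ^ ((N + 1) / 2 + N / 2 / 2)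
          ≤ 2 ^ (N / 2) * 4 ^ ((N + 1) / 2 + N / 2 / 2) := Nat.mul_le_mul_right _ h2
        _ = 2 ^ (N / 2 + 2 * ((N + 1) / 2 + N / 2 / 2)) := by
            rw [show (4 : ℕ) = 2 ^ 2 by norm_num, ← pow_mul, ← pow_add]
        _ ≤ 2 ^ (2 * N) := Nat.pow_le_pow_right (by norm_num) (by omega)
        _ = 4 ^ N := by rw [pow_mul]; norm_num

theorem shps_length (l : ℕ) : (shps l).length ≤ 2 ^ (l + 1) := by
  have h : (shps l).length = 2 ^ l := by
    induction l with
    | zero => rfl
    | succ l ih =>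
      unfold shps
      rw [List.length_append, List.length_map, List.length_map, ih, pow_succ]
      ring
  rw [h]
  exact Nat.pow_le_pow_right (by norm_num) (Nat.le_succ l)

theorem gs_length (j : ℕ) : (gs j).length ≤ sz (j + 1) ^ 4 := by
  have hS : (shps (lg j)).length ≤ 2 * sz j := by
    refine (shps_length (lg j)).trans ?_
    rw [pow_succ, mul_comm]
    exact le_rfl
  have hQ : (seqs (lg (j + 1)) (lg j + 1) (lg j + 1)).length ≤ 4 * sz j ^ 2 := by
    refine (seqs_length _ _ _).trans ?_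
    have e : (4 : ℕ) ^ (lg j + 1) = 4 * sz j ^ 2 := by
      unfold sz
      rw [pow_succ, ← pow_mul, mul_comm (lg j) 2, pow_mul]
      norm_num
      ring
    rw [e]
  have h0 : (gs j).length ≤ (2 * sz (j + 1) + 1) * ((2 * sz (j + 1) + 1) *
      ((shps (lg j)).length * (4 * sz j ^ 2))) := by
    unfold gs
    refine (flat_le _ ((2 * sz (j + 1) + 1) * ((shps (lg j)).length * (4 * sz j ^ 2))) _ ?_).trans ?_
    · intro p _
      refine (flat_le _ ((shps (lg j)).length * (4 * sz j ^ 2)) _ ?_).trans ?_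
      · intro a _
        refine (flat_le _ (4 * sz j ^ 2) _ ?_)
        intro s _
        rw [List.length_map]
        exact hQ
      · rw [List.length_range]
    · rw [List.length_range]
  refine h0.trans ?_
  have h1 : (2 * sz (j + 1) + 1) * ((2 * sz (j + 1) + 1) * ((shps (lg j)).length * (4 * sz j ^ 2))) ≤
      (2 * sz (j + 1) + 1) * ((2 * sz (j + 1) + 1) * ((2 * sz j) * (4 * sz j ^ 2))) := by
    gcongr
  refine h1.trans ?_
  have h2 : 2 ^ 16 ≤ sz j := sz_ge j
  rw [sz_succ]
  generalize sz j = s at h2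
  have hs2 : 1 ≤ s ^ 2 := Nat.one_le_pow _ _ (by omega)
  have h3 : 2 * s ^ 2 + 1 ≤ 3 * s ^ 2 := by omega
  calc (2 * s ^ 2 + 1) * ((2 * s ^ 2 + 1) * (2 * s * (4 * s ^ 2)))
      ≤ (3 * s ^ 2) * ((3 * s ^ 2) * (2 * s * (4 * s ^ 2))) := by gcongr
    _ = 72 * s ^ 7 := by ring
    _ ≤ s * s ^ 7 := Nat.mul_le_mul_right _ (by omega)
    _ = (s ^ 2) ^ 4 := by ring

end Pool.Agent.FOR
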