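import Pool.Agent.FOR.NUd
import Pool.Agent.FOR.NSeq
import Pool.Agent.FOR.NLev

/-!
MODULE FOR-Bit.  Bounds for the values of the generators at natural numbers: the points have
polynomial bit length.
-/

set_option autoImplicit false

namespace Pool.Agent.FOR

open Pool.Agent.MRG (cA cB ex nl el wt)

/-! ### Powers -/

private theorem pw_two (t : ℕ) : ∀ k, 1 ≤ k → t ^ k + 2 ≤ (t + 2) ^ k := by
  intro k hk
  induction k, hk using Nat.le_induction with
  | base => simp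
  | succ k _ ih =>
    rw [pow_succ, pow_succ]
    calc t ^ k * t + 2 ≤ (t ^ k + 2) * (t + 2) := by nlinarith [Nat.zero_le (t ^ k), Nat.zero_le t]
      _ ≤ (t + 2) ^ k * (t + 2) := Nat.mul_le_mul_right _ ih

private theorem pw_add {T a b c : ℕ} (hT : 2 ≤ T) (ha : a < c) (hb : b < c) : T ^ a + T ^ b ≤ T ^ c := by
  obtain ⟨c, rfl⟩ : ∃ c', c = c' + 1 := ⟨c - 1, by omega⟩
  have h1 : T ^ a ≤ T ^ c := Nat.pow_le_pow_right (by omega) (by omega)
  have h2 : T ^ b ≤ T ^ c := Nat.pow_le_pow_right (by omega) (by omega)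
  rw [pow_succ]
  calc T ^ a + T ^ b ≤ T ^ c * 2 := by omega
    _ ≤ T ^ c * T := Nat.mul_le_mul_left _ hT

private theorem pw_shift (t : ℕ) : ∀ k, 1 ≤ k → t + 2 ^ k ≤ (t + 2) ^ k := by
  intro k hk
  induction k, hk using Nat.le_induction with
  | base => simp
  | succ k _ ih =>
    rw [pow_succ, pow_succ]
    calc t + 2 ^ k * 2 ≤ (t + 2 ^ k) * (t + 2) := by nlinarith [Nat.zero_le t, Nat.one_le_two_pow (n := k)]
      _ ≤ (t + 2) ^ k * (t + 2) := Nat.mul_le_mul_right _ ih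

private theorem pw_lt {w a b : ℕ} (hw : 2 ≤ w) (h : a < b) : w ^ a < w ^ b :=
  Nat.pow_lt_pow_right (by omega) h

/-! ### The merging curves -/

private theorem bt_cA (R r z : ℕ) (hr : r ≤ R) : cA (fun i => i + 1) r z ≤ (z + R) ^ r := by
  unfold cA
  have h := Finset.prod_le_pow_card (Finset.range r) (fun j => z + (j + 1)) (z + R) (fun j hj => by
    have := Finset.mem_range.1 hj
    omega)
  rwa [Finset.card_range] at h

private theorem bt_cB (R r z : ℕ) (hr : r ≤ R) :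
    cB (fun i => i + 1) r z ≤ (z + R) ^ (r * (r + 1) / 2) := by
  unfold cB
  have h : ∏ j ∈ Finset.range r, (z + (j + 1)) ^ (j + 1) ≤ ∏ j ∈ Finset.range r, (z + R) ^ (j + 1) :=
    Finset.prod_le_prod' fun j hj => Nat.pow_le_pow_left (by
      have := Finset.mem_range.1 hj
      omega) _
  refine h.trans (le_of_eq ?_)
  rw [Finset.prod_pow_eq_pow_sum]
  congr 1
  have h1 := Finset.sum_range_succ' (fun i => i) r
  rw [add_zero] at h1
  rw [← h1, Finset.sum_range_id, Nat.add_sub_cancel, mul_comm]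

private theorem le_mf (r : ℕ) : r ≤ mf r ∧ 1 ≤ mf r := by
  unfold mf
  refine ⟨?_, le_max_left _ _⟩
  rcases Nat.eq_zero_or_pos r with rfl | h
  · simp
  · refine le_trans ?_ (le_max_right _ _)
    rw [Nat.le_div_iff_mul_le (by norm_num)]
    exact Nat.mul_le_mul_left r (by omega)

private theorem bt_step {R m B v : ℕ} (hR : 2 ≤ R) (hm : 1 ≤ m) (hB : R ≤ B) (hv : v ≤ B ^ m) :
    v + R ≤ B ^ (2 * m) := by
  have h1 : R ≤ B ^ m := hB.trans (Nat.le_self_pow (by omega) B)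
  have h2 : 2 ≤ B ^ m := hR.trans h1
  calc v + R ≤ B ^ m * 2 := by omega
    _ ≤ B ^ m * B ^ m := Nat.mul_le_mul_left _ h2
    _ = B ^ (2 * m) := by rw [← pow_add, two_mul]

private theorem bt_el (R : ℕ) (hR : 2 ≤ R) {n : ℕ} (r : ℕ) (hr : r ≤ R) (U : Finset ℕ)
    (L : List (Fin n)) : ∀ (j : ℕ), L.Nodup → ∀ (z : Fin n → ℕ) (B : ℕ), (∀ i, z i + R ≤ B) →
      ∀ i, el (fun i => i + 1) r U j L z i + R ≤ B ^ (2 * mf r) := by
  match L with
  | [] =>
    intro j _ z B hz i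
    rw [el]
    exact (hz i).trans (Nat.le_self_pow (by have := (le_mf r).2; omega) B)
  | [a] =>
    intro j _ z B hz i
    rw [el]
    exact (hz i).trans (Nat.le_self_pow (by have := (le_mf r).2; omega) B)
  | a :: b :: L =>
    intro j hL z B hz i
    rw [List.nodup_cons, List.nodup_cons] at hL
    have ha : a ∉ L := fun h => hL.1 (List.mem_cons_of_mem _ h)
    have ih := bt_el R hR r hr U L (j + 1) hL.2.2 z B hz
    rw [el]
    split_ifs
    · exact ih i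
    · have h1 := MRG.el_of_not_mem (fun i => i + 1) r U L (j + 1) z a ha
      have h2 : R ≤ B := (Nat.le_add_left _ _).trans (hz a)
      unfold ex
      split_ifs
      · rw [h1]
        refine bt_step hR (le_mf r).2 h2 ?_
        refine (bt_cA R r (z a) hr).trans ?_
        refine (Nat.pow_le_pow_left (hz a) _).trans (Nat.pow_le_pow_right (by omega) (le_mf r).1)
      · rw [h1]
        refine bt_step hR (le_mf r).2 h2 ?_
        refine (bt_cB R r (z a) hr).trans ?_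
        refine (Nat.pow_le_pow_left (hz a) _).trans (Nat.pow_le_pow_right (by omega) ?_)
        unfold mf
        exact le_max_right _ _
      · exact ih i

private theorem bt_crv (R : ℕ) (hR : 2 ≤ R) {n : ℕ} (Q : List (ℕ × Finset ℕ)) :
    (∀ q ∈ Q, q.1 ≤ R) → ∀ L : List (Fin n), L.Nodup → ∀ (z : ℕ) (i : Fin n),
      crv Q L z i + R ≤ (z + R) ^ (2 ^ Q.length * (Q.map fun q => mf q.1).prod) := by
  induction Q with
  | nil =>
    intro _ L _ z i
    simp [crv]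
  | cons q Q ih =>
    intro hQ L hL z i
    rw [crv]
    have h1 := bt_el R hR q.1 (hQ q List.mem_cons_self) q.2 L 0 hL (crv Q (nl q.2 0 L) z)
      ((z + R) ^ (2 ^ Q.length * (Q.map fun q => mf q.1).prod))
      (fun k => ih (fun q hq => hQ q (List.mem_cons_of_mem _ hq)) _ (hL.sublist (MRG.nl_sublist _ _ _)) z k) i
    refine le_trans ?_ (h1.trans (le_of_eq ?_))
    · simp only [Nat.cast_id]
      exact le_rfl
    · rw [← pow_mul, List.length_cons, List.map_cons, List.prod_cons, pow_succ]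
      congr 1
      ring

/-! ### The guesses -/

private theorem bt_seqs (W : ℕ) : ∀ (F N : ℕ) (Q : List (ℕ × Finset ℕ)), Q ∈ seqs W F N →
    Q.length ≤ F ∧ ∀ q ∈ Q, q.1 ≤ 2 ^ (W + 1) := by
  intro F
  induction F with
  | zero =>
    intro N Q hQ
    rw [seqs, List.mem_singleton] at hQ
    subst hQ
    simp
  | succ F ih =>
    intro N Q hQ
    rw [seqs] at hQ
    split_ifs at hQ
    · rw [List.mem_singleton] at hQ
      subst hQ
      simp
    · obtain ⟨U, -, hQ⟩ := List.mem_flatMap.1 hQ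
      obtain ⟨Q', hQ', rfl⟩ := List.mem_map.1 hQ
      obtain ⟨h1, h2⟩ := ih _ _ hQ'
      refine ⟨by rw [List.length_cons]; omega, fun q hq => ?_⟩
      rcases List.mem_cons.1 hq with rfl | hq
      · refine (Nat.sub_le _ _).trans (Nat.pow_le_pow_right (by norm_num) ?_)
        have := Nat.div_le_self W (N / 2 / 2 + 1)
        omega
      · exact h2 q hq

private theorem bt_gs (j k : ℕ) : (((gs j).getD k (0, 0, [], [])).2.2.2).length ≤ lg j + 1 ∧
    ∀ q ∈ ((gs j).getD k (0, 0, [], [])).2.2.2, q.1 ≤ 2 ^ (lg (j + 1) + 1) := by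
  rcases Nat.lt_or_ge k (gs j).length with h | h
  · have h1 : (gs j).getD k (0, 0, [], []) ∈ gs j := by
      rw [List.getD_eq_getElem _ _ h]
      exact List.getElem_mem h
    obtain ⟨φ, hφ⟩ : ∃ φ, φ = (gs j).getD k (0, 0, [], []) := ⟨_, rfl⟩
    rw [← hφ] at h1 ⊢
    unfold gs at h1
    obtain ⟨p, -, h1⟩ := List.mem_flatMap.1 h1
    obtain ⟨a, -, h1⟩ := List.mem_flatMap.1 h1
    obtain ⟨s, -, h1⟩ := List.mem_flatMap.1 h1
    obtain ⟨Q, hQ, rfl⟩ := List.mem_map.1 h1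
    exact bt_seqs _ _ _ _ hQ
  · rw [List.getD_eq_default _ _ h]
    simp

private theorem bt_zu (j k : ℕ) (s : List Bool) (z a : ℕ) :
    zu j s ((gs j).getD k (0, 0, [], [])).2.2.2 z a + 2 ≤ (z + 2) ^ sz (j + 1) ^ 18 := by
  obtain ⟨h1, h2⟩ := bt_gs j k
  have h3 := gs_prod j k
  obtain ⟨Q, hQ⟩ : ∃ Q, Q = ((gs j).getD k (0, 0, [], [])).2.2.2 := ⟨_, rfl⟩
  rw [← hQ] at h1 h2 h3 ⊢
  have hR : 2 ≤ 2 ^ (lg (j + 1) + 1) := by
    rw [pow_succ]
    have := Nat.one_le_two_pow (n := lg (j + 1))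
    omega
  have h4 := bt_crv (2 ^ (lg (j + 1) + 1)) hR Q h2 _ (hds_fi_nodup j s) z (fi j a)
  unfold zu
  have hsz : sz (j + 1) = 2 ^ lg (j + 1) := rfl
  have hlg := lg_succ j
  have hge := lg_ge j
  calc crv Q ((hds (lg j) 0 s).map (fi j)) z (fi j a) + 2
      ≤ (z + 2 ^ (lg (j + 1) + 1)) ^ (2 ^ Q.length * (Q.map fun q => mf q.1).prod) :=
        le_trans (by omega) h4
    _ ≤ ((z + 2) ^ (lg (j + 1) + 1)) ^ (2 ^ Q.length * (Q.map fun q => mf q.1).prod) :=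
        Nat.pow_le_pow_left (pw_shift z _ (by omega)) _
    _ = (z + 2) ^ ((lg (j + 1) + 1) * (2 ^ Q.length * (Q.map fun q => mf q.1).prod)) := by
        rw [← pow_mul]
    _ ≤ (z + 2) ^ (sz (j + 1) ^ 18) := by
        refine Nat.pow_le_pow_right (by omega) ?_
        have e1 : lg (j + 1) + 1 ≤ sz (j + 1) := by
          rw [hsz]
          exact Nat.lt_two_pow_self
        have e2 : 2 ^ Q.length ≤ sz (j + 1) := by
          rw [hsz]
          exact Nat.pow_le_pow_right (by norm_num) (by omega)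
        calc (lg (j + 1) + 1) * (2 ^ Q.length * (Q.map fun q => mf q.1).prod)
            ≤ sz (j + 1) * (sz (j + 1) * sz (j + 1) ^ 16) :=
              Nat.mul_le_mul e1 (Nat.mul_le_mul e2 h3)
          _ = sz (j + 1) ^ 18 := by ring

/-! ### The generators -/

private theorem bt_uu (j : ℕ) (P : ℕ → ℕ → ℕ → ℕ) (B : ℕ) (hB : 1 ≤ B)
    (hP : ∀ b < sz j, ∀ t e, P t e b + 2 ≤ (t + e + 2) ^ B) (s : List Bool) (x : ℕ → ℕ) (M : ℕ)
    (hx : ∀ a, x a + 2 ≤ M) (e : ℕ) (b : ℕ) (hb : b < sz j) :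
    uu j P s x e b ≤ (M ^ (J1 j + 1) * (e + 2)) ^ B := by
  have key : ∀ a, x a ^ (J1 j + 1) + e * x a + 2 ≤ M ^ (J1 j + 1) * (e + 2) := by
    intro a
    have h1 : x a ^ (J1 j + 1) + 2 ≤ M ^ (J1 j + 1) :=
      (pw_two (x a) _ (by omega)).trans (Nat.pow_le_pow_left (hx a) _)
    have h2 : x a ≤ M ^ (J1 j + 1) :=
      le_trans (by have := hx a; omega) (Nat.le_self_pow (by omega) M)
    have h3 : e * x a ≤ M ^ (J1 j + 1) * e := by
      rw [mul_comm]
      exact Nat.mul_le_mul_right e h2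
    rw [mul_add]
    omega
  unfold uu
  refine dg_ud (R := ℕ) (d := id) P (fun a => x a ^ (J1 j + 1)) (fun a => e * x a) _ (sz j) ?_ ?_
    (lg j) 0 s b hb
  · intro a b hb
    have h1 := hP b hb (x a ^ (J1 j + 1)) (e * x a)
    have h2 : (x a ^ (J1 j + 1) + e * x a + 2) ^ B ≤ (M ^ (J1 j + 1) * (e + 2)) ^ B :=
      Nat.pow_le_pow_left (key a) B
    show P (x a ^ (J1 j + 1)) (e * x a) b ≤ _
    omega
  · intro a
    have h1 := key a
    have h2 : M ^ (J1 j + 1) * (e + 2) ≤ (M ^ (J1 j + 1) * (e + 2)) ^ B :=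
      Nat.le_self_pow (by omega) _
    show x a ^ (J1 j + 1) ≤ _
    omega

/-- exponents -/
private theorem ex1 {w : ℕ} (hw : 2 ≤ w) : (w ^ 77 * w ^ 18 * w ^ 2 + w ^ 55) * w ^ 125 ≤ w ^ 223 := by
  have h1 : w ^ 55 ≤ w ^ 97 := Nat.pow_le_pow_right (by omega) (by norm_num)
  calc (w ^ 77 * w ^ 18 * w ^ 2 + w ^ 55) * w ^ 125 ≤ (w ^ 97 * 2) * w ^ 125 :=
        Nat.mul_le_mul_right _ (by
          have : w ^ 77 * w ^ 18 * w ^ 2 = w ^ 97 := by ring
          omega)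
    _ ≤ (w ^ 97 * w) * w ^ 125 := Nat.mul_le_mul_right _ (Nat.mul_le_mul_left _ hw)
    _ = w ^ 223 := by ring

private theorem bs_pow (j k : ℕ) : bs j ^ k = sz (j + 1) ^ (11 * k) := by
  unfold bs
  rw [← pow_mul]

private theorem sz_two (j : ℕ) : 2 ≤ sz j := le_trans (by norm_num) (sz_ge j)

private theorem bt_yf (j : ℕ) (P : ℕ → ℕ → ℕ → ℕ)
    (hP : ∀ b < sz j, ∀ t e, P t e b + 2 ≤ (t + e + 2) ^ sz j ^ 250) (k t i : ℕ)
    (hi : i < sz (j + 1)) :
    yf j P ((gs j).getD k (0, 0, [], [])) (fun k => t ^ bs j ^ k) (t ^ bs j ^ 5) (t ^ bs j ^ 7) i ≤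
      (t + 2) ^ sz (j + 1) ^ 231 := by
  have hw := sz_two (j + 1)
  have hT : 2 ≤ t + 2 := by omega
  have hs : sz j ^ 250 = sz (j + 1) ^ 125 := by
    rw [sz_succ, ← pow_mul]
  unfold yf
  obtain ⟨φ, hφ⟩ : ∃ φ, φ = (gs j).getD k (0, 0, [], []) := ⟨_, rfl⟩
  have hz := fun s z a => bt_zu j k s z a
  rw [← hφ] at hz ⊢
  -- the first sum
  have h1 : ∑ k ∈ Finset.range 5, t ^ bs j ^ k * (i : ℕ) ^ k ≤ (t + 2) ^ sz (j + 1) ^ 46 := by
    have h2 : ∀ k ∈ Finset.range 5, t ^ bs j ^ k * (i : ℕ) ^ k ≤ (t + 2) ^ sz (j + 1) ^ 45 := by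
      intro k hk
      have hk5 : k ≤ 4 := by
        have := Finset.mem_range.1 hk
        omega
      have h3 : t ^ bs j ^ k ≤ (t + 2) ^ sz (j + 1) ^ 44 := by
        refine (Nat.pow_le_pow_left (by omega : t ≤ t + 2) _).trans (Nat.pow_le_pow_right (by omega) ?_)
        rw [bs_pow]
        exact Nat.pow_le_pow_right (by omega) (by omega)
      have h4 : i ^ k ≤ (t + 2) ^ sz (j + 1) ^ 4 := by
        calc i ^ k ≤ (sz (j + 1)) ^ k := Nat.pow_le_pow_left hi.le k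
          _ ≤ sz (j + 1) ^ 4 := Nat.pow_le_pow_right (by omega) hk5
          _ ≤ 2 ^ sz (j + 1) ^ 4 := Nat.lt_two_pow_self.le
          _ ≤ (t + 2) ^ sz (j + 1) ^ 4 := Nat.pow_le_pow_left hT _
      calc t ^ bs j ^ k * i ^ k ≤ (t + 2) ^ sz (j + 1) ^ 44 * (t + 2) ^ sz (j + 1) ^ 4 :=
            Nat.mul_le_mul h3 h4
        _ = (t + 2) ^ (sz (j + 1) ^ 44 + sz (j + 1) ^ 4) := by rw [pow_add]
        _ ≤ (t + 2) ^ sz (j + 1) ^ 45 := Nat.pow_le_pow_right (by omega)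
            (pw_add hw (by norm_num) (by norm_num))
    calc ∑ k ∈ Finset.range 5, t ^ bs j ^ k * (i : ℕ) ^ k
        ≤ ∑ _k ∈ Finset.range 5, (t + 2) ^ sz (j + 1) ^ 45 := Finset.sum_le_sum h2
      _ = 5 * (t + 2) ^ sz (j + 1) ^ 45 := by rw [Finset.sum_const, Finset.card_range, smul_eq_mul]
      _ ≤ (t + 2) ^ 3 * (t + 2) ^ sz (j + 1) ^ 45 := Nat.mul_le_mul_right _ (by
          calc 5 ≤ 2 ^ 3 := by norm_num
            _ ≤ (t + 2) ^ 3 := Nat.pow_le_pow_left hT 3)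
      _ = (t + 2) ^ (3 + sz (j + 1) ^ 45) := by rw [pow_add]
      _ ≤ (t + 2) ^ sz (j + 1) ^ 46 := Nat.pow_le_pow_right (by omega) (by
          calc 3 + sz (j + 1) ^ 45 ≤ sz (j + 1) ^ 2 + sz (j + 1) ^ 45 :=
                Nat.add_le_add_right (by nlinarith) _
            _ ≤ sz (j + 1) ^ 46 := pw_add hw (by norm_num) (by norm_num))
  -- the second term
  have hx : ∀ a, zu j φ.2.2.1 φ.2.2.2 (t ^ bs j ^ 7) a + 2 ≤ (t + 2) ^ (sz (j + 1) ^ 77 * sz (j + 1) ^ 18) := by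
    intro a
    refine (hz φ.2.2.1 (t ^ bs j ^ 7) a).trans ?_
    rw [pow_mul]
    refine Nat.pow_le_pow_left ?_ _
    have h3 := pw_two t (bs j ^ 7) (Nat.one_le_pow _ _ (by unfold bs; positivity))
    rw [bs_pow] at h3 ⊢
    exact h3
  have hb : AOR.bucket φ.1 φ.2.1 (sz j) i < sz j := Nat.mod_lt _ (sz_pos j)
  have h5 := bt_uu j P (sz j ^ 250) (Nat.one_le_pow _ _ (sz_pos j)) hP φ.2.2.1
    (zu j φ.2.2.1 φ.2.2.2 (t ^ bs j ^ 7)) _ hx (t ^ bs j ^ 5) _ hb
  have h6 : t ^ bs j ^ 5 + 2 ≤ (t + 2) ^ sz (j + 1) ^ 55 := by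
    have h3 := pw_two t (bs j ^ 5) (Nat.one_le_pow _ _ (by unfold bs; positivity))
    rw [bs_pow] at h3 ⊢
    exact h3
  have h7 : uu j P φ.2.2.1 (zu j φ.2.2.1 φ.2.2.2 (t ^ bs j ^ 7)) (t ^ bs j ^ 5)
      (AOR.bucket φ.1 φ.2.1 (sz j) i) ≤ (t + 2) ^ sz (j + 1) ^ 223 := by
    refine h5.trans ?_
    rw [← pow_mul (t + 2) _ (J1 j + 1)]
    calc ((t + 2) ^ (sz (j + 1) ^ 77 * sz (j + 1) ^ 18 * (J1 j + 1)) * (t ^ bs j ^ 5 + 2)) ^ sz j ^ 250
        ≤ ((t + 2) ^ (sz (j + 1) ^ 77 * sz (j + 1) ^ 18 * sz (j + 1) ^ 2) *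
            (t + 2) ^ sz (j + 1) ^ 55) ^ sz j ^ 250 :=
          Nat.pow_le_pow_left (Nat.mul_le_mul (Nat.pow_le_pow_right (by omega)
            (Nat.mul_le_mul_left _ (J1_le j))) h6) _
      _ = (t + 2) ^ ((sz (j + 1) ^ 77 * sz (j + 1) ^ 18 * sz (j + 1) ^ 2 + sz (j + 1) ^ 55) *
            sz (j + 1) ^ 125) := by
          rw [← pow_add, ← pow_mul, hs]
      _ ≤ (t + 2) ^ sz (j + 1) ^ 223 := Nat.pow_le_pow_right (by omega) (ex1 hw)
  have h8 : uu j P φ.2.2.1 (zu j φ.2.2.1 φ.2.2.2 (t ^ bs j ^ 7)) (t ^ bs j ^ 5)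
      (AOR.bucket φ.1 φ.2.1 (sz j) i) ^ wt (sz (j + 1) ^ 2) (sz (j + 1)) i ≤
      (t + 2) ^ sz (j + 1) ^ 230 := by
    calc _ ≤ ((t + 2) ^ sz (j + 1) ^ 223) ^ wt (sz (j + 1) ^ 2) (sz (j + 1)) i :=
          Nat.pow_le_pow_left h7 _
      _ = (t + 2) ^ (sz (j + 1) ^ 223 * wt (sz (j + 1) ^ 2) (sz (j + 1)) i) := by rw [← pow_mul]
      _ ≤ (t + 2) ^ (sz (j + 1) ^ 223 * sz (j + 1) ^ 7) :=
          Nat.pow_le_pow_right (by omega) (Nat.mul_le_mul_left _ (wt_le j i hi))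
      _ = (t + 2) ^ sz (j + 1) ^ 230 := by rw [← pow_add]
  refine (Nat.add_le_add h1 h8).trans ?_
  exact pw_add hT (pw_lt hw (by norm_num)) (pw_lt hw (by norm_num))

private theorem bt_ys (j : ℕ) (P : ℕ → ℕ → ℕ → ℕ)
    (hP : ∀ b < sz j, ∀ t e, P t e b + 2 ≤ (t + e + 2) ^ sz j ^ 250) (t i : ℕ)
    (hi : i < sz (j + 1)) : yp j P t i ≤ (t + 2) ^ sz (j + 1) ^ 232 := by
  have hw := sz_two (j + 1)
  have hT : 2 ≤ t + 2 := by omega
  have hg := gs_length j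
  unfold yp ys
  have hg2 : (gs j).length ≤ (t + 2) ^ sz (j + 1) ^ 4 :=
    calc (gs j).length ≤ sz (j + 1) ^ 4 := hg
      _ ≤ 2 ^ sz (j + 1) ^ 4 := Nat.lt_two_pow_self.le
      _ ≤ (t + 2) ^ sz (j + 1) ^ 4 := Nat.pow_le_pow_left hT _
  have hs : ∀ l ∈ Finset.range (gs j).length, t ^ bs j ^ 6 + (l : ℕ) ≤ (t + 2) ^ sz (j + 1) ^ 67 := by
    intro l hl
    have h1 : t ^ bs j ^ 6 ≤ (t + 2) ^ sz (j + 1) ^ 66 := by
      rw [bs_pow]
      exact Nat.pow_le_pow_left (by omega) _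
    have h2 : l ≤ (t + 2) ^ sz (j + 1) ^ 4 := (Finset.mem_range.1 hl).le.trans hg2
    exact (Nat.add_le_add h1 h2).trans (pw_add hT (pw_lt hw (by norm_num)) (pw_lt hw (by norm_num)))
  have hterm : ∀ k ∈ Finset.range (gs j).length,
      (∏ l ∈ (Finset.range (gs j).length).erase k, (t ^ bs j ^ 6 + (l : ℕ))) *
        yf j P ((gs j).getD k (0, 0, [], [])) (fun k => t ^ bs j ^ k) (t ^ bs j ^ 5) (t ^ bs j ^ 7) i ≤
      (t + 2) ^ sz (j + 1) ^ 71 * (t + 2) ^ sz (j + 1) ^ 231 := by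
    intro k hk
    refine Nat.mul_le_mul ?_ (bt_yf j P hP k t i hi)
    have h1 := Finset.prod_le_pow_card ((Finset.range (gs j).length).erase k)
      (fun l => t ^ bs j ^ 6 + l) ((t + 2) ^ sz (j + 1) ^ 67)
      (fun l hl => hs l (Finset.mem_of_mem_erase hl))
    refine h1.trans ?_
    rw [← pow_mul]
    refine Nat.pow_le_pow_right (by omega) ?_
    have h2 : ((Finset.range (gs j).length).erase k).card ≤ sz (j + 1) ^ 4 := by
      refine (Finset.card_erase_le).trans ?_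
      rw [Finset.card_range]
      exact hg
    calc sz (j + 1) ^ 67 * ((Finset.range (gs j).length).erase k).card
        ≤ sz (j + 1) ^ 67 * sz (j + 1) ^ 4 := Nat.mul_le_mul_left _ h2
      _ = sz (j + 1) ^ 71 := by rw [← pow_add]
  calc _ ≤ ∑ _k ∈ Finset.range (gs j).length,
        (t + 2) ^ sz (j + 1) ^ 71 * (t + 2) ^ sz (j + 1) ^ 231 := Finset.sum_le_sum hterm
    _ = (gs j).length * ((t + 2) ^ sz (j + 1) ^ 71 * (t + 2) ^ sz (j + 1) ^ 231) := by
        rw [Finset.sum_const, Finset.card_range, smul_eq_mul]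
    _ ≤ (t + 2) ^ sz (j + 1) ^ 4 * ((t + 2) ^ sz (j + 1) ^ 71 * (t + 2) ^ sz (j + 1) ^ 231) :=
        Nat.mul_le_mul_right _ hg2
    _ = (t + 2) ^ (sz (j + 1) ^ 4 + sz (j + 1) ^ 71 + sz (j + 1) ^ 231) := by
        rw [pow_add, pow_add, mul_assoc]
    _ ≤ (t + 2) ^ sz (j + 1) ^ 232 := Nat.pow_le_pow_right (by omega) (by
        have h1 : sz (j + 1) ^ 4 + sz (j + 1) ^ 71 ≤ sz (j + 1) ^ 72 :=
          pw_add hw (by norm_num) (by norm_num)
        have h2 : sz (j + 1) ^ 72 + sz (j + 1) ^ 231 ≤ sz (j + 1) ^ 232 :=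
          pw_add hw (by norm_num) (by norm_num)
        omega)

/-- The values of the generators at natural numbers. -/
theorem vb_Ps : ∀ j, ∀ b < sz j, ∀ t e : ℕ, Ps j t e b + 2 ≤ (t + e + 2) ^ sz j ^ 250 := by
  intro j
  induction j with
  | zero =>
    intro b _ t e
    have hR : 2 ≤ 2 ^ 16 := by norm_num
    have h1 := bt_crv (2 ^ 16) hR (n := sz 0) (List.replicate 16 (2 ^ 16, (∅ : Finset ℕ)))
      (fun q hq => by rw [List.eq_of_mem_replicate hq]) (List.finRange (sz 0)) (List.nodup_finRange _) t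
      (fi 0 b)
    rw [Ps]
    rw [List.length_replicate, List.map_replicate, List.prod_replicate] at h1
    have h2 : mf ((2 ^ 16, (∅ : Finset ℕ)) : ℕ × Finset ℕ).1 ≤ 2 ^ 32 := by
      unfold mf
      norm_num
    have h0 : sz 0 = 2 ^ 16 := rfl
    calc crv (List.replicate 16 (2 ^ 16, ∅)) (List.finRange (sz 0)) t (fi 0 b) + 2
        ≤ (t + 2 ^ 16) ^ (2 ^ 16 * mf ((2 ^ 16, (∅ : Finset ℕ)) : ℕ × Finset ℕ).1 ^ 16) :=
          le_trans (by omega) h1
      _ ≤ (t + 2 ^ 16) ^ (2 ^ 16 * (2 ^ 32) ^ 16) :=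
          Nat.pow_le_pow_right (by omega) (Nat.mul_le_mul_left _ (Nat.pow_le_pow_left h2 _))
      _ ≤ ((t + 2) ^ 16) ^ (2 ^ 16 * (2 ^ 32) ^ 16) :=
          Nat.pow_le_pow_left (pw_shift t 16 (by norm_num)) _
      _ = (t + 2) ^ (16 * (2 ^ 16 * (2 ^ 32) ^ 16)) := by rw [← pow_mul]
      _ ≤ (t + 2) ^ sz 0 ^ 250 := Nat.pow_le_pow_right (by omega) (by
          rw [h0, ← pow_mul, ← pow_mul, ← pow_add]
          have h5 : (16 : ℕ) = 2 ^ 4 := by norm_num
          calc 16 * 2 ^ (16 + 32 * 16) = 2 ^ 4 * 2 ^ (16 + 32 * 16) := congrArg (· * _) h5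
            _ = 2 ^ (4 + (16 + 32 * 16)) := (pow_add 2 4 _).symm
            _ ≤ 2 ^ (16 * 250) := Nat.pow_le_pow_right Nat.two_pos (by decide))
      _ ≤ (t + e + 2) ^ sz 0 ^ 250 := Nat.pow_le_pow_left (by omega) _
  | succ j ih =>
    intro i hi t e
    have hw := sz_two (j + 1)
    have h1 := bt_ys j (Ps j) ih t i hi
    have h2 := pw_two t (sz (j + 1) ^ 240) (Nat.one_le_pow _ _ (sz_pos _))
    rw [Ps]
    obtain ⟨U, hU⟩ : ∃ U, U = t + e + 2 := ⟨_, rfl⟩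
    rw [← hU]
    have hU2 : 2 ≤ U := by omega
    have h3 : (t + 2) ^ sz (j + 1) ^ 240 ≤ U ^ sz (j + 1) ^ 240 :=
      Nat.pow_le_pow_left (by omega) _
    have h4 : e * yp j (Ps j) t i ≤ U ^ sz (j + 1) ^ 233 := by
      calc e * yp j (Ps j) t i ≤ U ^ 1 * U ^ sz (j + 1) ^ 232 := by
            rw [pow_one]
            exact Nat.mul_le_mul (by omega) (h1.trans (Nat.pow_le_pow_left (by omega) _))
        _ = U ^ (1 + sz (j + 1) ^ 232) := by rw [pow_add]
        _ ≤ U ^ sz (j + 1) ^ 233 := Nat.pow_le_pow_right (by omega) (by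
            calc 1 + sz (j + 1) ^ 232 = sz (j + 1) ^ 0 + sz (j + 1) ^ 232 := by rw [pow_zero]
              _ ≤ sz (j + 1) ^ 233 := pw_add hw (by norm_num) (by norm_num))
    have h5 : U ^ sz (j + 1) ^ 240 + U ^ sz (j + 1) ^ 233 ≤ U ^ sz (j + 1) ^ 250 :=
      pw_add hU2 (pw_lt hw (by norm_num)) (pw_lt hw (by norm_num))
    omega

/-- The coordinates of the points have polynomial bit length. -/
theorem bit_bound (n w D t e i : ℕ) (hi : i < n) (ht : t ≤ D * sz (lev (max n w)) ^ 240)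
    (he : e ≤ D) :
    Ps (lev (max n w)) t e i ≤ (D + 2) ^ (2 ^ 4032 * (n + w + 1) ^ 504) := by
  have hl := le_sz_lev (max n w)
  have hl2 := sz_lev_le (max n w)
  have h1 := vb_Ps (lev (max n w)) i (by have := le_max_left n w; omega) t e
  obtain ⟨j, hj⟩ : ∃ j, j = lev (max n w) := ⟨_, rfl⟩
  rw [← hj] at hl hl2 h1 ht ⊢
  have hw := sz_two j
  have hlg : sz j = 2 ^ lg j := rfl
  have h2 : t + e + 2 ≤ (D + 2) * sz j ^ 241 := by
    have h3 : sz j ^ 240 * 2 ≤ sz j ^ 241 := by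
      rw [pow_succ]
      exact Nat.mul_le_mul_left _ hw
    have h4 : 1 ≤ sz j ^ 240 := Nat.one_le_pow _ _ (by omega)
    nlinarith [Nat.mul_le_mul_left (D + 2) h3]
  have h3 : (D + 2) * sz j ^ 241 ≤ (D + 2) ^ sz j ^ 2 := by
    have h4 : sz j ^ 241 ≤ (D + 2) ^ (lg j * 241) := by
      rw [hlg, ← pow_mul]
      exact Nat.pow_le_pow_left (by omega) _
    calc (D + 2) * sz j ^ 241 ≤ (D + 2) ^ 1 * (D + 2) ^ (lg j * 241) := by
          rw [pow_one]
          exact Nat.mul_le_mul_left _ h4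
      _ = (D + 2) ^ (1 + lg j * 241) := by rw [pow_add]
      _ ≤ (D + 2) ^ sz j ^ 2 := Nat.pow_le_pow_right (by omega) (by
          have h5 : lg j < sz j := by
            rw [hlg]
            exact Nat.lt_two_pow_self
          have h6 := sz_ge j
          nlinarith)
  calc Ps j t e i ≤ (t + e + 2) ^ sz j ^ 250 := by omega
    _ ≤ ((D + 2) ^ sz j ^ 2) ^ sz j ^ 250 := Nat.pow_le_pow_left (h2.trans h3) _
    _ = (D + 2) ^ sz j ^ 252 := by rw [← pow_mul, ← pow_add]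
    _ ≤ (D + 2) ^ (2 ^ 4032 * (n + w + 1) ^ 504) := Nat.pow_le_pow_right (by omega) (by
        calc sz j ^ 252 ≤ (2 ^ 16 * (max n w + 1) ^ 2) ^ 252 := Nat.pow_le_pow_left hl2 _
          _ ≤ (2 ^ 16 * (n + w + 1) ^ 2) ^ 252 := Nat.pow_le_pow_left (Nat.mul_le_mul_left _
              (Nat.pow_le_pow_left (by omega) _)) _
          _ = 2 ^ 4032 * (n + w + 1) ^ 504 := by
              rw [mul_pow, ← pow_mul, ← pow_mul])

/-- The coordinates of the points have polynomial bit length. -/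
theorem bit_points (n D w : ℕ) (x : Fin n → ℕ) (hx : x ∈ points n D w) (i : Fin n) :
    x i ≤ (D + 2) ^ (2 ^ 4032 * (n + w + 1) ^ 504) := by
  unfold points at hx
  obtain ⟨q, hq, rfl⟩ := Finset.mem_image.1 hx
  rw [Finset.mem_product, Finset.mem_range, Finset.mem_range] at hq
  exact bit_bound n w D q.2 q.1 i i.2 (by omega) (by omega)

end Pool.Agent.FOR
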