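import Mathlib

/-!
MODULE FOR-Lag (est. 0.5 h).  The coefficients of a polynomial of bounded degree are linear
combinations of its values.

PLAN.  `exists_lag`: choose `D + 1` different points `v i` (`Infinite K`, e.g.
`Infinite.natEmbedding K`); by Lagrange interpolation
(`Lagrange.sum_basis`, `Lagrange.eq_interpolate_of_eval_eq`, `Lagrange.eq_interpolate`)
`q = ∑ i ∈ range (D+1), C (q.eval (v i)) * Lagrange.basis (range (D+1)) v i`, take the coefficient
`a`; `l = ∑ i, Finsupp.single (v i) ((Lagrange.basis _ v i).coeff a)`.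
-/

set_option autoImplicit false

namespace Pool.Agent.FOR

theorem exists_lag (K : Type*) [Field K] [Infinite K] (D a : ℕ) :
    ∃ l : K →₀ K, ∀ q : Polynomial K, q.natDegree ≤ D →
      (l.sum fun x c => c * q.eval x) = q.coeff a := by
  classical
  let v : ℕ → K := Infinite.natEmbedding K
  have hv : Set.InjOn v (Finset.range (D + 1) : Finset ℕ) := (Infinite.natEmbedding K).injective.injOn
  refine ⟨∑ i ∈ Finset.range (D + 1),
    Finsupp.single (v i) ((Lagrange.basis (Finset.range (D + 1)) v i).coeff a), fun q hq => ?_⟩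
  have h1 : (Finset.range (D + 1)).card = D + 1 := Finset.card_range _
  have hdeg : q.degree < (Finset.range (D + 1)).card := by
    rw [h1]
    exact lt_of_le_of_lt Polynomial.degree_le_natDegree (by exact_mod_cast Nat.lt_succ_of_le hq)
  have h2 := Lagrange.eq_interpolate hv hdeg
  have h3 : q.coeff a = ∑ i ∈ Finset.range (D + 1),
      (Lagrange.basis (Finset.range (D + 1)) v i).coeff a * q.eval (v i) := by
    conv_lhs => rw [h2]
    rw [Lagrange.interpolate_apply, Polynomial.finsetSum_coeff]
    refine Finset.sum_congr rfl fun i _ => ?_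
    rw [Polynomial.coeff_C_mul, mul_comm]
  rw [h3]
  have h4 : ∀ s : Finset ℕ, ((∑ i ∈ s,
      Finsupp.single (v i) ((Lagrange.basis (Finset.range (D + 1)) v i).coeff a)).sum
        fun x c => c * q.eval x) =
      ∑ i ∈ s, (Lagrange.basis (Finset.range (D + 1)) v i).coeff a * q.eval (v i) := by
    intro s
    rw [← Finsupp.sum_finsetSum_index (fun x => zero_mul _) (fun x b c => add_mul _ _ _)]
    refine Finset.sum_congr rfl fun i _ => ?_
    rw [Finsupp.sum_single_index (zero_mul _)]
  exact h4 _

end Pool.Agent.FOR
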