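import Pool.Agent.FOR.Tri
import Pool.Agent.FOR.Lag

/-!
MODULE FOR-Biv.  Atoms given by conditions on polynomials in two variables: triangular
systems of coefficients.
-/

set_option autoImplicit false

namespace Pool.Agent.FOR

open MvPolynomial

universe u

variable {K : Type u} [Field K]

/-- The mixing of pairs: the first coordinate from the row, the second one from the column. -/
def mp (K : Type u) (p q : K × K) : K × K := (p.1, q.2)

/-- The functions on pairs which are given by a polynomial of total degree at most `D` in two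
variables with the linear property `P`. -/
def pairF (P : Submodule K (MvPolynomial (Fin 2) K)) (D : ℕ) : Submodule K (K × K → K) where
  carrier := {f | ∃ p ∈ P, p.totalDegree ≤ D ∧ ∀ x y, f (x, y) = eval ![x, y] p}
  add_mem' := by
    rintro f g ⟨p, hp, hp1, hp2⟩ ⟨q, hq, hq1, hq2⟩
    refine ⟨p + q, P.add_mem hp hq, (totalDegree_add p q).trans (max_le hp1 hq1), fun x y => ?_⟩
    rw [map_add, ← hp2, ← hq2]
    rfl
  zero_mem' := ⟨0, P.zero_mem, by simp, fun x y => by simp⟩
  smul_mem' := by
    rintro c f ⟨p, hp, hp1, hp2⟩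
    refine ⟨c • p, P.smul_mem c hp, (totalDegree_smul_le c p).trans hp1, fun x y => ?_⟩
    rw [smul_eval, ← hp2]
    rfl

/-- The exponent vector `(a, b)`. -/
noncomputable def ev (a b : ℕ) : Fin 2 →₀ ℕ := Finsupp.single 0 a + Finsupp.single 1 b

/-- The power sums of a functional which gives the coefficient `a`. -/
private theorem biv_pow {D a : ℕ} {l : K →₀ K} (hl : ∀ q : Polynomial K, q.natDegree ≤ D →
    (l.sum fun x c => c * q.eval x) = q.coeff a) {n : ℕ} (hn : n ≤ D) :
    (l.sum fun x c => c * x ^ n) = if n = a then 1 else 0 := by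
  have h1 := hl (Polynomial.X ^ n) ((Polynomial.natDegree_X_pow_le n).trans hn)
  rw [Polynomial.coeff_X_pow] at h1
  simp only [Polynomial.eval_pow, Polynomial.eval_X] at h1
  rw [h1]
  by_cases h : n = a
  · rw [if_pos h, if_pos h.symm]
  · rw [if_neg h, if_neg (fun e => h e.symm)]

/-- The mixed functional gives the coefficient `(a, b)`. -/
private theorem biv_coeff {D a b : ℕ} {l r : K →₀ K} (hl : ∀ q : Polynomial K, q.natDegree ≤ D →
    (l.sum fun x c => c * q.eval x) = q.coeff a) (hr : ∀ q : Polynomial K, q.natDegree ≤ D →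
    (r.sum fun x c => c * q.eval x) = q.coeff b) {q : MvPolynomial (Fin 2) K} (hq : q.totalDegree ≤ D) :
    (l.sum fun x c => r.sum fun y d => c * d * eval ![x, y] q) = coeff (ev a b) q := by
  classical
  have h1 : ∀ x y : K, eval ![x, y] q = ∑ m ∈ q.support, coeff m q * (x ^ m 0 * y ^ m 1) := by
    intro x y
    rw [eval_eq']
    refine Finset.sum_congr rfl fun m _ => ?_
    rw [Fin.prod_univ_two]
    rfl
  have h2 : (l.sum fun x c => r.sum fun y d => c * d * eval ![x, y] q) =
      ∑ m ∈ q.support, coeff m q * ((l.sum fun x c => c * x ^ m 0) * (r.sum fun y d => d * y ^ m 1)) := by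
    simp only [Finsupp.sum, h1, Finset.mul_sum, Finset.sum_mul]
    have e1 : ∀ x ∈ l.support, ∑ y ∈ r.support, ∑ m ∈ q.support,
        l x * r y * (coeff m q * (x ^ m 0 * y ^ m 1)) =
        ∑ m ∈ q.support, ∑ y ∈ r.support, l x * r y * (coeff m q * (x ^ m 0 * y ^ m 1)) :=
      fun x _ => Finset.sum_comm
    rw [Finset.sum_congr rfl e1, Finset.sum_comm]
    refine Finset.sum_congr rfl fun m _ => ?_
    rw [Finset.sum_comm]
    refine Finset.sum_congr rfl fun x _ => ?_
    refine Finset.sum_congr rfl fun y _ => ?_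
    ring
  rw [h2]
  have h3 : ∀ m ∈ q.support, coeff m q * ((l.sum fun x c => c * x ^ m 0) * (r.sum fun y d => d * y ^ m 1)) =
      if m = ev a b then coeff m q else 0 := by
    intro m hm
    have h4 : m 0 + m 1 ≤ D := by
      have h5 := (le_totalDegree hm).trans hq
      rw [Finsupp.sum_fintype _ _ (fun _ => rfl), Fin.sum_univ_two] at h5
      exact h5
    rw [biv_pow hl (by omega : m 0 ≤ D), biv_pow hr (by omega : m 1 ≤ D)]
    have h6 : m = ev a b ↔ m 0 = a ∧ m 1 = b := by
      constructor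
      · intro h
        rw [h]
        simp [ev]
      · rintro ⟨h7, h8⟩
        ext i
        fin_cases i
        · simp [ev, h7]
        · simp [ev, h8]
    by_cases h7 : m = ev a b
    · rw [if_pos h7, if_pos (h6.1 h7).1, if_pos (h6.1 h7).2, mul_one, mul_one]
    · rw [if_neg h7]
      by_cases h8 : m 0 = a
      · have h9 : ¬ m 1 = b := fun h => h7 (h6.2 ⟨h8, h⟩)
        rw [if_neg h9, mul_zero, mul_zero]
      · rw [if_neg h8, zero_mul, mul_zero]
  rw [Finset.sum_congr rfl h3, Finset.sum_ite_eq']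
  by_cases h4 : ev a b ∈ q.support
  · rw [if_pos h4]
  · rw [if_neg h4]
    exact (notMem_support_iff.1 h4).symm

/-- The values of the mixed functionals. -/
private theorem biv_hh {Ω' : Type u} {D a b : ℕ} {l r : K →₀ K} (hl : ∀ q : Polynomial K, q.natDegree ≤ D →
    (l.sum fun x c => c * q.eval x) = q.coeff a) (hr : ∀ q : Polynomial K, q.natDegree ≤ D →
    (r.sum fun x c => c * q.eval x) = q.coeff b) {g : K × K → Ω' → K} {ω : Ω'}
    {q : MvPolynomial (Fin 2) K} (hq : q.totalDegree ≤ D) (hg : ∀ x y, g (x, y) ω = eval ![x, y] q) :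
    hh (mp K) g (l.mapDomain fun x => (x, 0)) (r.mapDomain fun y => (0, y)) ω = coeff (ev a b) q := by
  rw [← biv_coeff hl hr hq]
  unfold hh
  rw [Finsupp.sum_mapDomain_index]
  · refine Finsupp.sum_congr fun x _ => ?_
    rw [Finsupp.sum_mapDomain_index]
    · refine Finsupp.sum_congr fun y _ => ?_
      rw [← hg x y]
      rfl
    · intro y
      rw [mul_zero, zero_mul]
    · intro y c d
      rw [mul_add, add_mul]
  · intro x
    refine Finset.sum_eq_zero fun y _ => ?_
    show 0 * _ * _ = (0 : K)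
    rw [zero_mul, zero_mul]
  · intro x c d
    rw [← Finsupp.sum_add]
    refine Finsupp.sum_congr fun y _ => ?_
    rw [add_mul, add_mul]

theorem atom_of_tri [Infinite K] (P : Submodule K (MvPolynomial (Fin 2) K)) (D m : ℕ)
    (h : ∀ (Ω' : Type u) (p : Ω' → MvPolynomial (Fin 2) K), (∀ ω, p ω ∈ P) →
      (∀ ω, (p ω).totalDegree ≤ D) → p ≠ 0 →
      ∃ a b : Fin m → ℕ, (∀ i, ∃ ω, coeff (ev (a i) (b i)) (p ω) ≠ 0) ∧
        ∀ i j, i < j → ∀ ω, coeff (ev (a i) (b j)) (p ω) = 0) :
    IsAtom (pairF P D) (mp K) m := by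
  intro Ω' g ν M hg hC hB
  choose p hp1 hp2 hp3 using hC
  have hp0 : p ≠ 0 := by
    intro h0
    apply hg
    funext x ω
    have h1 := hp3 ω x.1 x.2
    rw [h0] at h1
    show g x ω = 0
    calc g x ω = eval ![x.1, x.2] ((0 : Ω' → MvPolynomial (Fin 2) K) ω) := h1
      _ = 0 := map_zero _
  obtain ⟨a, b, hd, ht⟩ := h Ω' p hp1 hp2 hp0
  choose L hL using fun n : ℕ => exists_lag K D n
  have key : ∀ i j ω, hh (mp K) g ((L (a i)).mapDomain fun x => (x, 0)) ((L (b j)).mapDomain fun y => (0, y)) ω =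
      coeff (ev (a i) (b j)) (p ω) := fun i j ω => biv_hh (hL (a i)) (hL (b j)) (hp2 ω) (hp3 ω)
  refine big_of_tri (mp K) ν g m M (fun i => (L (a i)).mapDomain fun x => (x, 0))
    (fun j => (L (b j)).mapDomain fun y => (0, y)) ?_ ?_
  · intro i j hij ω
    rw [key]
    exact ht i j hij ω
  · intro i
    refine hB _ (hh_mem _ _ _ _) ?_
    intro h0
    obtain ⟨ω, hω⟩ := hd i
    apply hω
    rw [← key]
    exact congrFun h0 ω

end Pool.Agent.FOR
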