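import Pool.Agent.FOR.Fr

/-!
MODULE FOR-Cal.  The forcing calculus.
-/

set_option autoImplicit false

namespace Pool.Agent.FOR

universe u

variable {K : Type u} [Field K]

theorem good_mono {Ω Ω' : Type u} {S : Set (Ω → Ω → Ω)} {m m' : ℕ} (h : m ≤ m')
    {g : Ω → Ω' → K} (hg : Good S m' g) : Good S m g := by
  obtain ⟨A, C, μ, n, g', h1, h2, h3⟩ := hg
  exact ⟨A, C, μ, n, g', h1, h.trans h2, h3⟩

theorem good_of_step {Ω Ω₁ Ω' : Type u} {S : Set (Ω → Ω → Ω)} {S₁ : Set (Ω₁ → Ω₁ → Ω₁)}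
    {m : ℕ} {g : Ω → Ω' → K} {g₁ : Ω₁ → Ω' → K} (h : Step S S₁ g g₁) (hg : Good S₁ m g₁) :
    Good S m g := by
  obtain ⟨A, C, μ, n, g', h1, h2, h3, h4, h5, h6⟩ := hg
  refine ⟨A, C, μ, n, g', h1, h2, h3, h4, fun x => ?_, fun ν M hB => ?_⟩
  · have hle : Submodule.span K (Set.range g₁) ≤ Submodule.span K (Set.range g) := by
      refine Submodule.span_le.2 ?_
      rintro _ ⟨y, rfl⟩
      exact h.1 y
    exact hle (h5 x)
  · obtain ⟨σ₁, hσ₁, hB1⟩ := h6 ν M hB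
    exact h.2 σ₁ hσ₁ ν M hB1

theorem step_trans {Ω Ω₁ Ω₂ Ω' : Type u} {S : Set (Ω → Ω → Ω)} {S₁ : Set (Ω₁ → Ω₁ → Ω₁)}
    {S₂ : Set (Ω₂ → Ω₂ → Ω₂)} {g : Ω → Ω' → K} {g₁ : Ω₁ → Ω' → K} {g₂ : Ω₂ → Ω' → K}
    (h : Step S S₁ g g₁) (h1 : Step S₁ S₂ g₁ g₂) : Step S S₂ g g₂ := by
  refine ⟨fun x => ?_, fun σ₂ hσ₂ ν M hB => ?_⟩
  · have hle : Submodule.span K (Set.range g₁) ≤ Submodule.span K (Set.range g) := by
      refine Submodule.span_le.2 ?_
      rintro _ ⟨y, rfl⟩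
      exact h.1 y
    exact hle (h1.1 x)
  · obtain ⟨σ₁, hσ₁, hB1⟩ := h1.2 σ₂ hσ₂ ν M hB
    exact h.2 σ₁ hσ₁ ν M hB1

/-- A substitution of points which respects mixings. -/
theorem step_subst {Ω Ω₁ Ω' : Type u} {S : Set (Ω → Ω → Ω)} {S₁ : Set (Ω₁ → Ω₁ → Ω₁)}
    (θ : Ω₁ → Ω) (hθ : ∀ σ₁ ∈ S₁, ∃ σ ∈ S, ∀ a b, θ (σ₁ a b) = σ (θ a) (θ b))
    (g : Ω → Ω' → K) : Step S S₁ g (fun x ω => g (θ x) ω) := by
  refine ⟨fun x => Submodule.subset_span ⟨θ x, rfl⟩, fun σ₁ hσ₁ ν M hB => ?_⟩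
  obtain ⟨σ, hσ, h⟩ := hθ σ₁ hσ₁
  refine ⟨σ, hσ, ?_⟩
  obtain ⟨a, b, hab⟩ := hB
  refine ⟨fun i => (θ (a i).1, (a i).2), fun i => (θ (b i).1, (b i).2), ?_⟩
  have e : (Matrix.of fun i j => un g (pm σ ν (θ (a i).1, (a i).2) (θ (b j).1, (b j).2))) =
      Matrix.of fun i j => un (fun x ω => g (θ x) ω) (pm σ₁ ν (a i) (b j)) := by
    ext i j
    show g (σ (θ (a i).1) (θ (b j).1)) (ν (a i).2 (b j).2) = g (θ (σ₁ (a i).1 (b j).1)) (ν (a i).2 (b j).2)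
    rw [h]
  rw [e]
  exact hab

theorem good_of_atom {A Ω' : Type u} {C : Submodule K (A → K)} {μ : A → A → A} {m : ℕ}
    (hA : IsAtom C μ m) (g : A → Ω' → K) (hg : g ≠ 0) (hC : ∀ ω, (fun x => g x ω) ∈ C) :
    Good {μ} m g := by
  exact ⟨A, C, μ, m, g, hA, le_rfl, hg, hC, fun x => Submodule.subset_span ⟨x, rfl⟩,
    fun ν M h => ⟨μ, rfl, h⟩⟩

/-- linear conditions on the elements of a span -/
private theorem span_map {X Y : Type u} (φ : X → Y) {S : Set (Y → K)} {N : Submodule K (X → K)}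
    (hS : ∀ f ∈ S, (fun x => f (φ x)) ∈ N) {f : Y → K} (hf : f ∈ Submodule.span K S) :
    (fun x => f (φ x)) ∈ N := by
  have h : Submodule.span K S ≤ N.comap (LinearMap.funLeft K K φ) :=
    Submodule.span_le.2 fun g hg => hS g hg
  exact h hf

theorem atom_prod {A₁ A₂ : Type u} {C₁ : Submodule K (A₁ → K)} {C₂ : Submodule K (A₂ → K)}
    {μ₁ : A₁ → A₁ → A₁} {μ₂ : A₂ → A₂ → A₂} {m₁ m₂ : ℕ} (h1 : IsAtom C₁ μ₁ m₁)
    (h2 : IsAtom C₂ μ₂ m₂) : IsAtom (prodC C₁ C₂) (pm μ₁ μ₂) (m₁ * m₂) := by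
  intro Ω' g ν M hg hC hM
  obtain ⟨h, hh⟩ : ∃ h : A₁ → (A₂ × Ω') → K, h = fun x p => g (x, p.1) p.2 := ⟨_, rfl⟩
  have hne : h ≠ 0 := by
    intro h0
    apply hg
    funext p ω
    have h3 := congrFun (congrFun h0 p.1) (p.2, ω)
    rw [hh] at h3
    exact h3
  have hB := h1 (A₂ × Ω') h (pm μ₂ ν) (m₂ * M) hne (fun p => by rw [hh]; exact (hC p.2).1 p.1) (by
    intro e he hne'
    have k1 : ∀ ω, (fun y => e (y, ω)) ∈ C₂ := by
      intro ω
      refine span_map (fun y => (y, ω)) (S := Set.range h) ?_ he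
      rintro _ ⟨x, rfl⟩
      rw [hh]
      exact (hC ω).2 x
    have k2 : ∀ y, (fun ω => e (y, ω)) ∈ Submodule.span K (Set.range g) := by
      intro y
      refine span_map (fun ω => (y, ω)) (S := Set.range h) ?_ he
      rintro _ ⟨x, rfl⟩
      rw [hh]
      exact Submodule.subset_span ⟨(x, y), rfl⟩
    have k3 := h2 Ω' (fun y ω => e (y, ω)) ν M (by
      intro h0
      apply hne'
      funext p
      exact congrFun (congrFun h0 p.1) p.2) k1 (by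
      intro e2 he2 hne2
      refine hM e2 ?_ hne2
      refine (Submodule.span_le.2 ?_ : Submodule.span K (Set.range fun y ω => e (y, ω)) ≤
        Submodule.span K (Set.range g)) he2
      rintro _ ⟨y, rfl⟩
      exact k2 y)
    exact k3)
  obtain ⟨a, b, hab⟩ := hB
  rw [mul_assoc]
  refine ⟨fun i => (((a i).1, (a i).2.1), (a i).2.2), fun i => (((b i).1, (b i).2.1), (b i).2.2), ?_⟩
  rw [hh] at hab
  exact hab

theorem atom_pow {A : Type u} {C : Submodule K (A → K)} {μ : A → A → A} {m : ℕ}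
    (h : IsAtom C μ m) (q : ℕ) : IsAtom (powC C q) (powM μ q) (m ^ q) := by
  induction q with
  | zero =>
    intro Ω' g ν M hg hC hM
    obtain ⟨x, hx⟩ : ∃ x, g x ≠ 0 := by
      by_contra h0
      push Not at h0
      exact hg (funext h0)
    obtain ⟨a, b, hab⟩ := hM (g x) (Submodule.subset_span ⟨x, rfl⟩) hx
    rw [pow_zero, one_mul]
    refine ⟨fun i => (x, a i), fun i => (x, b i), ?_⟩
    have e : (Matrix.of fun i j => un g (pm (powM μ 0) ν (x, a i) (x, b j))) =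
        Matrix.of fun i j => g x (ν (a i) (b j)) := by
      ext i j
      show g (powM μ 0 x x) (ν (a i) (b j)) = g x (ν (a i) (b j))
      rw [Subsingleton.elim (powM μ 0 x x) x]
    rw [e]
    exact hab
  | succ q ih =>
    intro Ω' g ν M hg hC hM
    have hP := atom_prod h ih
    obtain ⟨g', hg'⟩ : ∃ g' : A × (Fin q → A) → Ω' → K, g' = fun p ω => g (Fin.cons p.1 p.2) ω :=
      ⟨_, rfl⟩
    have hB := hP Ω' g' ν M (by
      intro h0
      apply hg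
      funext x ω
      have h3 := congrFun (congrFun h0 (x 0, Fin.tail x)) ω
      rw [hg'] at h3
      dsimp only at h3
      rw [Fin.cons_self_tail] at h3
      exact h3) (by
      intro ω
      rw [hg']
      refine ⟨fun y => ?_, fun a i x => ?_⟩
      · dsimp only
        rcases isEmpty_or_nonempty A with hA | ⟨⟨a0⟩⟩
        · have e : (fun x : A => g (Fin.cons x y : Fin (q + 1) → A) ω) = 0 := Subsingleton.elim _ _
          rw [e]
          exact C.zero_mem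
        · have h3 := hC ω 0 (Fin.cons a0 y)
          simp only [Fin.update_cons_zero] at h3
          exact h3
      · dsimp only
        have h3 := hC ω i.succ (Fin.cons a x)
        simp only [← Fin.cons_update] at h3
        exact h3) (by
      intro e he hne
      refine hM e ?_ hne
      refine (Submodule.span_mono ?_ : Submodule.span K (Set.range g') ≤
        Submodule.span K (Set.range g)) he
      rintro _ ⟨p, rfl⟩
      rw [hg']
      exact ⟨Fin.cons p.1 p.2, rfl⟩)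
    obtain ⟨a, b, hab⟩ := hB
    rw [pow_succ']
    refine ⟨fun i => (Fin.cons (a i).1.1 (a i).1.2, (a i).2),
      fun i => (Fin.cons (b i).1.1 (b i).1.2, (b i).2), ?_⟩
    have e : (Matrix.of fun i j => un g (pm (powM μ (q + 1)) ν
        ((Fin.cons (a i).1.1 (a i).1.2 : Fin (q + 1) → A), (a i).2)
        ((Fin.cons (b j).1.1 (b j).1.2 : Fin (q + 1) → A), (b j).2))) =
        Matrix.of fun i j => un g' (pm (pm μ (powM μ q)) ν (a i) (b j)) := by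
      ext i j
      rw [hg']
      show g (powM μ (q + 1) (Fin.cons (a i).1.1 (a i).1.2) (Fin.cons (b j).1.1 (b j).1.2)) _ =
        g (Fin.cons (μ (a i).1.1 (b j).1.1) (powM μ q (a i).1.2 (b j).1.2)) _
      congr 1
      funext t
      refine Fin.cases ?_ (fun s => ?_) t
      · rfl
      · rfl
    rw [e]
    exact hab

theorem forces_prod {Ω₁ Ω₂ : Type u} {S₁ : Set (Ω₁ → Ω₁ → Ω₁)} {S₂ : Set (Ω₂ → Ω₂ → Ω₂)}
    {C₁ : Submodule K (Ω₁ → K)} {C₂ : Submodule K (Ω₂ → K)} {m₁ m₂ : ℕ}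
    (h1 : Forces S₁ C₁ m₁) (h2 : Forces S₂ C₂ m₂) :
    Forces (prodS S₁ S₂) (prodC C₁ C₂) (m₁ * m₂) := by
  intro Ω' g hg hC
  obtain ⟨h, hh⟩ : ∃ h : Ω₁ → (Ω₂ × Ω') → K, h = fun x p => g (x, p.1) p.2 := ⟨_, rfl⟩
  have hne : h ≠ 0 := by
    intro h0
    apply hg
    funext p ω
    have h3 := congrFun (congrFun h0 p.1) (p.2, ω)
    rw [hh] at h3
    exact h3
  obtain ⟨A₁, D₁, σ₁, n₁, g₁, at₁, le₁, ne₁, hD₁, sp₁, tr₁⟩ :=
    h1 (Ω₂ × Ω') h hne (fun p => by rw [hh]; exact (hC p.2).1 p.1)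
  obtain ⟨k, hk⟩ : ∃ k : Ω₂ → (A₁ × Ω') → K, k = fun y p => g₁ p.1 (y, p.2) := ⟨_, rfl⟩
  have kne : k ≠ 0 := by
    intro h0
    apply ne₁
    funext a p
    have h3 := congrFun (congrFun h0 p.1) (a, p.2)
    rw [hk] at h3
    exact h3
  obtain ⟨A₂, D₂, σ₂, n₂, g₂, at₂, le₂, ne₂, hD₂, sp₂, tr₂⟩ := h2 (A₁ × Ω') k kne (by
    intro p
    rw [hk]
    refine span_map (fun y => (y, p.2)) (S := Set.range h) ?_ (sp₁ p.1)
    rintro _ ⟨x, rfl⟩
    rw [hh]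
    exact (hC p.2).2 x)
  refine ⟨A₂ × A₁, prodC D₂ D₁, pm σ₂ σ₁, n₂ * n₁, fun p ω => g₂ p.1 (p.2, ω), atom_prod at₂ at₁,
    ?_, ?_, ?_, ?_, ?_⟩
  · rw [mul_comm n₂]
    exact Nat.mul_le_mul le₁ le₂
  · intro h0
    apply ne₂
    funext b p
    exact congrFun (congrFun h0 (b, p.1)) p.2
  · intro ω
    refine ⟨fun a => hD₂ (a, ω), fun b => ?_⟩
    refine span_map (fun a => (a, ω)) (S := Set.range k) ?_ (sp₂ b)
    rintro _ ⟨y, rfl⟩
    rw [hk]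
    exact hD₁ (y, ω)
  · intro p
    refine span_map (fun ω => (p.2, ω)) (S := Set.range k) ?_ (sp₂ p.1)
    rintro _ ⟨y, rfl⟩
    rw [hk]
    refine span_map (fun ω => (y, ω)) (S := Set.range h) ?_ (sp₁ p.2)
    rintro _ ⟨x, rfl⟩
    rw [hh]
    exact Submodule.subset_span ⟨(x, y), rfl⟩
  · intro ν M hB
    obtain ⟨a, b, hab⟩ := hB
    obtain ⟨τ₂, hτ₂, a2, b2, hab2⟩ := tr₂ (pm σ₁ ν) M
      ⟨fun i => ((a i).1.1, ((a i).1.2, (a i).2)), fun i => ((b i).1.1, ((b i).1.2, (b i).2)), hab⟩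
    rw [hk] at hab2
    obtain ⟨τ₁, hτ₁, a3, b3, hab3⟩ := tr₁ (pm τ₂ ν) M
      ⟨fun i => ((a2 i).2.1, ((a2 i).1, (a2 i).2.2)), fun i => ((b2 i).2.1, ((b2 i).1, (b2 i).2.2)), hab2⟩
    rw [hh] at hab3
    exact ⟨pm τ₁ τ₂, ⟨τ₁, hτ₁, τ₂, hτ₂, rfl⟩,
      fun i => (((a3 i).1, (a3 i).2.1), (a3 i).2.2), fun i => (((b3 i).1, (b3 i).2.1), (b3 i).2.2), hab3⟩

end Pool.Agent.FOR
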