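import Pool.Agent.FOR.Dia

/-!
MODULE FOR-Di2 (helper91).  The order of vanishing along the diagonal, or a certificate: all
variables.
-/

set_option autoImplicit false

namespace Pool.Agent.FOR

open MvPolynomial

universe u

variable {K : Type u} [Field K] [CharZero K]

/-- The substitution for the first `k` variables. -/
private noncomputable def diaD {w : ℕ} (o : Fin w) (k : ℕ) (c : Fin w → K) (i : Fin w) :
    Polynomial (MvPolynomial (Fin w) K) :=
  if (i : ℕ) < k ∧ i ≠ o then Polynomial.C (X o) + Polynomial.X * Polynomial.C (C (c i))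
  else Polynomial.C (X i)

private theorem diaD_vars {w : ℕ} (o : Fin w) (k : ℕ) (c : Fin w → K) (i : Fin w) (j : ℕ) :
    ((diaD o k c i).coeff j).vars ⊆ {if (i : ℕ) < k ∧ i ≠ o then o else i} := by
  unfold diaD
  split_ifs with h
  · rw [Polynomial.coeff_add, Polynomial.coeff_C]
    rcases j with _ | j
    · rw [if_pos rfl, Polynomial.coeff_X_mul_zero, add_zero, vars_X]
    · rw [if_neg (Nat.succ_ne_zero j), Polynomial.coeff_X_mul, Polynomial.coeff_C, zero_add]
      split_ifs
      · rw [vars_C]; exact Finset.empty_subset _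
      · rw [vars_0]; exact Finset.empty_subset _
  · rw [Polynomial.coeff_C]
    split_ifs
    · rw [vars_X]
    · rw [vars_0]; exact Finset.empty_subset _

/-- coefficients of `P (e, b e)` -/
private theorem dia_coeff {R : Type u} [CommRing R] (P : Polynomial (Polynomial R)) (b : R)
    (N : ℕ) : (Polynomial.eval₂ (Polynomial.compRingHom (Polynomial.C b * Polynomial.X))
      Polynomial.X P).coeff N =
      Polynomial.eval b (∑ i ∈ Finset.range (P.natDegree + 1), if i ≤ N then
        Polynomial.monomial (N - i) ((P.coeff i).coeff (N - i)) else 0) := by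
  rw [Polynomial.eval₂_eq_sum_range, Polynomial.finset_sum_coeff, Polynomial.eval_finset_sum]
  refine Finset.sum_congr rfl fun i _ => ?_
  rw [Polynomial.coeff_mul_X_pow']
  split_ifs with h
  · rw [Polynomial.eval_monomial, Polynomial.coe_compRingHom_apply,
      Polynomial.comp_C_mul_X_coeff]
  · rw [Polynomial.eval_zero]

private theorem dia_choose {w : ℕ} (P : Polynomial (Polynomial (MvPolynomial (Fin w) K)))
    (M m : ℕ) (h : (P.coeff M).coeff m ≠ 0) :
    ∃ a : K, (Polynomial.eval₂ (Polynomial.compRingHom (Polynomial.C (C a) * Polynomial.X))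
      Polynomial.X P).coeff (M + m) ≠ 0 := by
  by_contra hcon
  push Not at hcon
  obtain ⟨Q, hQ⟩ : ∃ Q : Polynomial (MvPolynomial (Fin w) K),
    Q = ∑ i ∈ Finset.range (P.natDegree + 1), if i ≤ M + m then
        Polynomial.monomial (M + m - i) ((P.coeff i).coeff (M + m - i)) else 0 := ⟨_, rfl⟩
  have hroot : ∀ a : K, Q.IsRoot (C a) := by
    intro a
    have h1 := hcon a
    rw [dia_coeff] at h1
    rw [Polynomial.IsRoot, hQ]
    exact h1
  have hQ0 : Q = 0 := by
    refine Polynomial.eq_zero_of_infinite_isRoot Q ?_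
    have : Infinite K := Infinite.of_injective (fun n : ℕ => (n : K)) Nat.cast_injective
    refine (Set.infinite_range_of_injective (MvPolynomial.C_injective (Fin w) K)).mono ?_
    rintro _ ⟨a, rfl⟩
    exact hroot a
  apply h
  have h2 : Q.coeff m = (P.coeff M).coeff m := by
    rw [hQ, Polynomial.finset_sum_coeff, Finset.sum_eq_single M]
    · rw [if_pos (Nat.le_add_right M m), Nat.add_sub_cancel_left, Polynomial.coeff_monomial,
        if_pos rfl]
    · intro i _ hi
      split_ifs with h3
      · rw [Polynomial.coeff_monomial, if_neg (by omega)]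
      · exact Polynomial.coeff_zero _
    · intro h3
      rw [Finset.mem_range, not_lt] at h3
      rw [if_pos (Nat.le_add_right M m), Nat.add_sub_cancel_left, Polynomial.coeff_monomial,
        if_pos rfl, Polynomial.coeff_eq_zero_of_natDegree_lt (show P.natDegree < M from h3)]
      exact Polynomial.coeff_zero _
  rw [← h2, hQ0, Polynomial.coeff_zero]

/-- one more variable -/
private theorem dia_next {w : ℕ} (o : Fin w) (k : Fin w) (hk : o ≠ k) (ho : (o : ℕ) = 0)
    (c : Fin w → K) (a : K) (p : MvPolynomial (Fin w) K) :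
    Polynomial.eval₂ (Polynomial.compRingHom (Polynomial.C (C a) * Polynomial.X))
      Polynomial.X ((aeval (diaD o k c) p).map
        ((aeval (sxy K k o) : MvPolynomial (Fin w) K →ₐ[K] _) : MvPolynomial (Fin w) K →+* _)) =
      aeval (diaD o (k + 1) (Function.update c k a)) p := by
  have h : ((Polynomial.eval₂RingHom (Polynomial.compRingHom (Polynomial.C (C a) *
      Polynomial.X)) Polynomial.X).comp (Polynomial.mapRingHom
        ((aeval (sxy K k o) : MvPolynomial (Fin w) K →ₐ[K] _) :
          MvPolynomial (Fin w) K →+* _))).comp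
      ((aeval (diaD o k c) : MvPolynomial (Fin w) K →ₐ[K] _) :
        MvPolynomial (Fin w) K →+* Polynomial (MvPolynomial (Fin w) K)) =
      ((aeval (diaD o (k + 1) (Function.update c k a)) : MvPolynomial (Fin w) K →ₐ[K] _) :
        MvPolynomial (Fin w) K →+* Polynomial (MvPolynomial (Fin w) K)) := by
    refine MvPolynomial.ringHom_ext (fun r => ?_) fun v => ?_
    · have e : (algebraMap K (Polynomial (MvPolynomial (Fin w) K))) r = Polynomial.C (C r) := rfl
      show Polynomial.eval₂ _ _ ((aeval (diaD o k c) (C r)).map _) = aeval _ (C r)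
      rw [← MvPolynomial.algebraMap_eq, AlgHom.commutes, AlgHom.commutes, e, Polynomial.map_C,
        Polynomial.eval₂_C]
      show ((aeval (sxy K k o) (C r)).comp _) = _
      rw [← MvPolynomial.algebraMap_eq, AlgHom.commutes, e, Polynomial.C_comp]
      rfl
    · show Polynomial.eval₂ _ _ ((aeval (diaD o k c) (X v)).map _) = aeval _ (X v)
      rw [aeval_X, aeval_X]
      unfold diaD
      by_cases hvo : v = o
      · rw [if_neg (fun h => h.2 hvo), if_neg (fun h => h.2 hvo), Polynomial.map_C,
          Polynomial.eval₂_C]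
        show ((aeval (sxy K k o) (X v)).comp _) = _
        rw [aeval_X, sxy, if_neg (by rw [hvo]; exact hk), Polynomial.C_comp]
      · by_cases hvk : (v : ℕ) < k
        · rw [if_pos ⟨hvk, hvo⟩, if_pos ⟨by omega, hvo⟩, Polynomial.map_add, Polynomial.map_mul,
            Polynomial.map_C, Polynomial.map_X, Polynomial.map_C, Polynomial.eval₂_add,
            Polynomial.eval₂_mul, Polynomial.eval₂_C, Polynomial.eval₂_X, Polynomial.eval₂_C]
          have hne : v ≠ k := fun h => by rw [h] at hvk; exact lt_irrefl _ hvk
          rw [Function.update_of_ne hne]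
          show ((aeval (sxy K k o) (X o)).comp _) + Polynomial.X *
            ((aeval (sxy K k o) (C (c v))).comp _) = _
          have e : (algebraMap K (Polynomial (MvPolynomial (Fin w) K))) (c v) =
            Polynomial.C (C (c v)) := rfl
          rw [aeval_X, sxy, if_neg hk, Polynomial.C_comp, ← MvPolynomial.algebraMap_eq,
            AlgHom.commutes, e, Polynomial.C_comp]
          rfl
        · rw [if_neg (fun h => hvk h.1), Polynomial.map_C, Polynomial.eval₂_C]
          show ((aeval (sxy K k o) (X v)).comp _) = _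
          rw [aeval_X, sxy]
          by_cases hv : v = k
          · rw [if_pos hv, if_pos ⟨by rw [hv]; omega, hvo⟩, hv, Function.update_self,
              Polynomial.add_comp, Polynomial.C_comp, Polynomial.X_comp]
            ring
          · rw [if_neg hv, if_neg, Polynomial.C_comp]
            rintro ⟨h1, -⟩
            exact hv (Fin.ext (by omega))
  exact RingHom.congr_fun h p

private theorem dia_ind {w : ℕ} (hw : 0 < w) {Ω' : Type u} (G : Ω' → MvPolynomial (Fin w) K)
    (hG : G ≠ 0) (hD : DB G) (hn : ¬ PG (w + 1) G) (k : ℕ) : 1 ≤ k → k ≤ w →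
    ∃ (c : Fin w → K) (ω : Ω'), ∃ M ≤ k * w, (aeval (diaD ⟨0, hw⟩ k c) (G ω)).coeff M ≠ 0 := by
  classical
  have : Infinite K := Infinite.of_injective (fun n : ℕ => (n : K)) Nat.cast_injective
  obtain ⟨o, ho⟩ : ∃ o : Fin w, o = ⟨0, hw⟩ := ⟨_, rfl⟩
  rw [← ho]
  have ho0 : (o : ℕ) = 0 := by rw [ho]
  induction k with
  | zero => intro h; omega
  | succ k ih =>
    intro _ hkw
    rcases Nat.eq_zero_or_pos k with hk0 | hk0
    · obtain ⟨ω, hω⟩ : ∃ ω, G ω ≠ 0 := by
        by_contra h
        push Not at h
        exact hG (funext h)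
      refine ⟨0, ω, 0, Nat.zero_le _, ?_⟩
      have e : diaD o (k + 1) (0 : Fin w → K) = fun i => Polynomial.C (X i) := by
        funext i
        unfold diaD
        rw [if_neg]
        rintro ⟨h1, h2⟩
        exact h2 (Fin.ext (by omega))
      have e2 : aeval (fun i : Fin w => (Polynomial.C (X i) :
          Polynomial (MvPolynomial (Fin w) K))) (G ω) = Polynomial.C (G ω) := by
        have h : ((aeval (fun i : Fin w => (Polynomial.C (X i) :
            Polynomial (MvPolynomial (Fin w) K))) : MvPolynomial (Fin w) K →ₐ[K] _) :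
            MvPolynomial (Fin w) K →+* Polynomial (MvPolynomial (Fin w) K)) =
            Polynomial.C := by
          refine MvPolynomial.ringHom_ext (fun r => ?_) fun v => ?_
          · show aeval _ (C r) = _
            rw [← MvPolynomial.algebraMap_eq, AlgHom.commutes]
            rfl
          · show aeval _ (X v) = _
            rw [aeval_X]
        exact RingHom.congr_fun h (G ω)
      rw [e, e2, Polynomial.coeff_C_zero]
      exact hω
    · obtain ⟨c, ω, M, hM, hne⟩ := ih hk0 (by omega)
      have hex : ∃ M, ∃ ω, (aeval (diaD o k c) (G ω)).coeff M ≠ 0 := ⟨M, ω, hne⟩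
      obtain ⟨M', hM'⟩ : ∃ M', M' = Nat.find hex := ⟨_, rfl⟩
      have hM1 : M' ≤ k * w := by
        rw [hM']
        exact (Nat.find_min' hex ⟨ω, hne⟩).trans hM
      have hM2 : ∃ ω, (aeval (diaD o k c) (G ω)).coeff M' ≠ 0 := by
        rw [hM']
        exact Nat.find_spec hex
      have hM3 : ∀ ω, ∀ j < M', (aeval (diaD o k c) (G ω)).coeff j = 0 := by
        intro ω j hj
        rw [hM'] at hj
        by_contra h
        exact Nat.find_min hex hj ⟨ω, h⟩
      have hkf : k < w := hkw
      have hok : (⟨k, hkf⟩ : Fin w) ≠ o := by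
        intro h
        have := congrArg Fin.val h
        simp only at this
        omega
      rcases dia_step ⟨k, hkf⟩ o hok w (fun ω => (aeval (diaD o k c) (G ω)).coeff M') (by
        obtain ⟨ω, h⟩ := hM2
        intro h0
        exact h (congrFun h0 ω)) (db_coeff _ _ G hD) with h | ⟨m, hm, -, ω', hω'⟩
      · exact absurd (pg_lowest (fun i : Fin w => if (i : ℕ) < k ∧ i ≠ o then o else i)
          (diaD o k c) (fun i j => diaD_vars o k c i j) M' (w + 1) G hD hM3 h) hn
      · obtain ⟨a, ha⟩ := dia_choose ((aeval (diaD o k c) (G ω')).map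
          ((aeval (sxy K ⟨k, hkf⟩ o) : MvPolynomial (Fin w) K →ₐ[K] _) :
            MvPolynomial (Fin w) K →+* _)) M' m (by
            rw [Polynomial.coeff_map]
            exact hω')
        have hnx := dia_next o ⟨k, hkf⟩ hok.symm ho0 c a (G ω')
        rw [hnx] at ha
        refine ⟨Function.update c ⟨k, hkf⟩ a, ω', M' + m, ?_, ha⟩
        rw [Nat.succ_mul]
        omega

theorem dia {w : ℕ} (hw : 0 < w) {Ω' : Type u} (G : Ω' → MvPolynomial (Fin w) K) (hG : G ≠ 0)
    (hD : DB G) :
    PG (w + 1) G ∨ ∃ (c : Fin w → K) (ω : Ω'), ∃ M ≤ w ^ 2,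
      (aeval (fun i : Fin w => (Polynomial.C Polynomial.X +
        Polynomial.X * Polynomial.C (Polynomial.C (c i)) : Polynomial (Polynomial K)))
        (G ω)).coeff M ≠ 0 := by
  classical
  by_cases hn : PG (w + 1) G
  · exact Or.inl hn
  right
  obtain ⟨c, ω, M, hM, hne⟩ := dia_ind hw G hG hD hn w hw le_rfl
  obtain ⟨o, ho⟩ : ∃ o : Fin w, o = ⟨0, hw⟩ := ⟨_, rfl⟩
  rw [← ho] at hne
  refine ⟨Function.update c o 0, ω, M, by rw [sq]; exact hM, fun h0 => hne ?_⟩
  obtain ⟨θ, hθ⟩ : ∃ θ : Fin w → Polynomial (Polynomial K), θ = fun i : Fin w =>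
    (Polynomial.C Polynomial.X + Polynomial.X * Polynomial.C (Polynomial.C
      (Function.update c o 0 i)) : Polynomial (Polynomial K)) := ⟨_, rfl⟩
  rw [← hθ] at h0
  have h : (Polynomial.mapRingHom ((Polynomial.aeval (X o : MvPolynomial (Fin w) K) :
      Polynomial K →ₐ[K] _) : Polynomial K →+* MvPolynomial (Fin w) K)).comp
      ((aeval θ : MvPolynomial (Fin w) K →ₐ[K] _) :
        MvPolynomial (Fin w) K →+* Polynomial (Polynomial K)) =
      ((aeval (diaD o w c) : MvPolynomial (Fin w) K →ₐ[K] _) :
        MvPolynomial (Fin w) K →+* Polynomial (MvPolynomial (Fin w) K)) := by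
    refine MvPolynomial.ringHom_ext (fun r => ?_) fun v => ?_
    · have e : (algebraMap K (Polynomial (MvPolynomial (Fin w) K))) r = Polynomial.C (C r) := rfl
      have e' : (algebraMap K (Polynomial (Polynomial K))) r =
        Polynomial.C (Polynomial.C r) := rfl
      show (aeval θ (C r)).map _ = aeval _ (C r)
      rw [← MvPolynomial.algebraMap_eq, AlgHom.commutes, AlgHom.commutes, e, e', Polynomial.map_C]
      show Polynomial.C (Polynomial.aeval _ (Polynomial.C r)) = _
      rw [Polynomial.aeval_C]
      rfl
    · show (aeval θ (X v)).map _ = aeval _ (X v)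
      rw [aeval_X, aeval_X, hθ]
      simp only
      rw [Polynomial.map_add, Polynomial.map_mul, Polynomial.map_C, Polynomial.map_X,
        Polynomial.map_C]
      show Polynomial.C (Polynomial.aeval _ Polynomial.X) + Polynomial.X *
        Polynomial.C (Polynomial.aeval _ (Polynomial.C _)) = _
      rw [Polynomial.aeval_X, Polynomial.aeval_C]
      unfold diaD
      by_cases hv : v = o
      · rw [if_neg (fun h => h.2 hv), hv, Function.update_self, map_zero, map_zero, mul_zero,
          add_zero]
      · rw [if_pos ⟨v.2, hv⟩, Function.update_of_ne hv]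
        rfl
  have h1 := RingHom.congr_fun h (G ω)
  have h2 : (aeval θ (G ω)).map ((Polynomial.aeval (X o : MvPolynomial (Fin w) K) :
      Polynomial K →ₐ[K] _) : Polynomial K →+* MvPolynomial (Fin w) K) =
      aeval (diaD o w c) (G ω) := h1
  rw [← h2, Polynomial.coeff_map, h0, map_zero]

end Pool.Agent.FOR
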