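import Pool.Agent.FOR.StL
import Pool.Agent.FOR.Cal

/-!
MODULE FOR-StA (est. 0.7 h).  Substitution of polynomials in one variable, and of constants.

PLAN.  `step_aeval`: `step_lowest` with `θ v = Polynomial.C (q v)`, `m = 0`
(`aeval (C ∘ q) p = C (aeval q p)`, `Polynomial.coeff_C_zero`).
`db_aeval`: `db_coeff` in the same way.  `pg_lowest`, `pg_aeval`: `good_of_step`.
`pg_eval`: some of the variables get values: given `G ≠ 0` there is a point `c : V → K` with
`(fun ω => aeval (fun v => if v ∈ B then X v else C (c v)) (G ω)) ≠ 0`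
(evaluate at a point where some `G ω` is not zero: `MvPolynomial.funext`).
-/

set_option autoImplicit false

namespace Pool.Agent.FOR

open MvPolynomial

universe u

private theorem StA_aeval_C {K : Type u} [Field K] {V V' : Type} (q : V → MvPolynomial V' K)
    (p : MvPolynomial V K) :
    aeval (fun v => (Polynomial.C (q v) : Polynomial (MvPolynomial V' K))) p =
      Polynomial.C (aeval q p) := by
  have h : ((aeval (fun v => (Polynomial.C (q v) : Polynomial (MvPolynomial V' K)))) :
      MvPolynomial V K →ₐ[K] Polynomial (MvPolynomial V' K)) =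
      (IsScalarTower.toAlgHom K (MvPolynomial V' K) (Polynomial (MvPolynomial V' K))).comp
        (aeval q) := by
    refine MvPolynomial.algHom_ext fun v => ?_
    rw [aeval_X, AlgHom.comp_apply, aeval_X]
    rfl
  rw [h]
  rfl

private theorem StA_coeff {K : Type u} [Field K] {V V' : Type} (q : V → MvPolynomial V' K)
    (p : MvPolynomial V K) :
    (aeval (fun v => (Polynomial.C (q v) : Polynomial (MvPolynomial V' K))) p).coeff 0 =
      aeval q p := by
  rw [StA_aeval_C, Polynomial.coeff_C_zero]

variable {K : Type u} [Field K] [Infinite K]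

theorem step_aeval {V V' : Type} [Finite V] [Finite V'] {Ω' : Type u} (π : V → V')
    (q : V → MvPolynomial V' K) (hq : ∀ v, (q v).vars ⊆ {π v}) (G : Ω' → MvPolynomial V K)
    (hD : DB G) : Step (cuts K V) (cuts K V') (fn G) (fn fun ω => aeval q (G ω)) := by
  have h := step_lowest π (fun v => (Polynomial.C (q v) : Polynomial (MvPolynomial V' K)))
    (fun v k => by
      rw [Polynomial.coeff_C]
      split_ifs with hk
      · exact hq v
      · rw [vars_0]
        exact Finset.empty_subset _) 0 G hD (fun ω k hk => absurd hk (Nat.not_lt_zero k))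
  have e : (fun ω => (aeval (fun v => (Polynomial.C (q v) : Polynomial (MvPolynomial V' K)))
      (G ω)).coeff 0) = fun ω => aeval q (G ω) := by
    funext ω
    exact StA_coeff q (G ω)
  rwa [e] at h

omit [Infinite K] in
theorem db_aeval {V V' : Type} [Finite V] {Ω' : Type u} (q : V → MvPolynomial V' K)
    (G : Ω' → MvPolynomial V K) (hD : DB G) : DB (fun ω => aeval q (G ω)) := by
  have h := db_coeff (fun v => (Polynomial.C (q v) : Polynomial (MvPolynomial V' K))) 0 G hD
  have e : (fun ω => (aeval (fun v => (Polynomial.C (q v) : Polynomial (MvPolynomial V' K)))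
      (G ω)).coeff 0) = fun ω => aeval q (G ω) := by
    funext ω
    exact StA_coeff q (G ω)
  rwa [e] at h

theorem pg_lowest {V V' : Type} [Finite V] [Finite V'] {Ω' : Type u} (π : V → V')
    (θ : V → Polynomial (MvPolynomial V' K)) (hθ : ∀ v k, ((θ v).coeff k).vars ⊆ {π v})
    (m M : ℕ) (G : Ω' → MvPolynomial V K) (hD : DB G)
    (h0 : ∀ ω, ∀ k < m, (aeval θ (G ω)).coeff k = 0)
    (h : PG M (fun ω => (aeval θ (G ω)).coeff m)) : PG M G := by
  exact good_of_step (step_lowest π θ hθ m G hD h0) h

theorem pg_aeval {V V' : Type} [Finite V] [Finite V'] {Ω' : Type u} (π : V → V')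
    (q : V → MvPolynomial V' K) (hq : ∀ v, (q v).vars ⊆ {π v}) (M : ℕ)
    (G : Ω' → MvPolynomial V K) (hD : DB G) (h : PG M (fun ω => aeval q (G ω))) : PG M G := by
  exact good_of_step (step_aeval π q hq G hD) h

theorem exists_const {V : Type} [Finite V] {Ω' : Type u} (G : Ω' → MvPolynomial V K)
    (hG : G ≠ 0) : ∃ (c : V → K) (ω : Ω'), eval c (G ω) ≠ 0 := by
  by_contra hc
  push Not at hc
  apply hG
  funext ω
  refine MvPolynomial.funext fun c => ?_
  rw [hc c ω]
  exact (map_zero (eval c)).symm

end Pool.Agent.FOR
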