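import Pool.Agent.FOR.AtB
import Pool.Agent.FOR.StA

/-!
MODULE FOR-Dia (helper91).  The order of vanishing along the diagonal, or a certificate.
-/

set_option autoImplicit false

namespace Pool.Agent.FOR

open MvPolynomial

universe u

variable {K : Type u} [Field K] [CharZero K]

/-- The substitution of the values `z.1`, `z.2` for the variables `x`, `y`. -/
private noncomputable def diaT {V : Type} (x y : V) (c : V → K) (z : K × K) : V → K :=
  open Classical in fun v => if v = x then z.1 else if v = y then z.2 else c v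

/-- The substitution of `X 0`, `X 1` for the variables `x`, `y`. -/
private noncomputable def diaQ {V : Type} (x y : V) (c : V → K) (v : V) :
    MvPolynomial (Fin 2) K :=
  open Classical in if v = x then X 0 else if v = y then X 1 else C (c v)

private theorem dia_eval {V : Type} (x y : V) (c : V → K) (a b : K) (p : MvPolynomial V K) :
    eval ![a, b] (aeval (diaQ x y c) p) = eval (diaT x y c (a, b)) p := by
  have h : (eval ![a, b]).comp ((aeval (diaQ x y c) : MvPolynomial V K →ₐ[K] _) :
      MvPolynomial V K →+* MvPolynomial (Fin 2) K) = eval (diaT x y c (a, b)) := by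
    refine MvPolynomial.ringHom_ext (fun r => ?_) fun v => ?_
    · show eval ![a, b] (aeval (diaQ x y c) (C r)) = eval (diaT x y c (a, b)) (C r)
      rw [← MvPolynomial.algebraMap_eq, AlgHom.commutes, MvPolynomial.algebraMap_eq, eval_C,
        MvPolynomial.algebraMap_eq, eval_C]
    · show eval ![a, b] (aeval (diaQ x y c) (X v)) = eval (diaT x y c (a, b)) (X v)
      rw [aeval_X, eval_X]
      unfold diaQ diaT
      split_ifs <;> simp
  exact RingHom.congr_fun h p

theorem dia_pair {V : Type} [Finite V] {Ω' : Type u} (x y : V) (hxy : x ≠ y) (m : ℕ)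
    (G : Ω' → MvPolynomial V K) (hG : G ≠ 0) (hD : DB G)
    (h : ∀ ω, (X x - X y : MvPolynomial V K) ^ m ∣ G ω) : PG (m + 1) G := by
  classical
  obtain ⟨c, ω₀, hc⟩ := exists_const G hG
  obtain ⟨D, hD'⟩ := db_aeval (diaQ x y c) G hD
  have hst : Step (cuts K V) {mp K} (fn G) (fun z ω => fn G (diaT x y c z) ω) := by
    refine step_subst (diaT x y c) ?_ (fn G)
    rintro σ₁ rfl
    refine ⟨mx {x}, ⟨_, rfl⟩, fun a b => ?_⟩
    funext v
    unfold diaT mx mp
    by_cases hv : v = x
    · rw [if_pos hv, if_pos (show v ∈ ({x} : Set V) from hv)]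
      show a.1 = if v = x then a.1 else _
      rw [if_pos hv]
    · rw [if_neg hv, if_neg (show v ∉ ({x} : Set V) from hv)]
      show _ = if v = x then b.1 else if v = y then b.2 else c v
      rw [if_neg hv]
  refine good_of_step hst (good_of_atom (atomB m D) _ ?_ fun ω => ?_)
  · intro h0
    apply hc
    have h1 := congrFun (congrFun h0 (c x, c y)) ω₀
    have h2 : diaT x y c (c x, c y) = c := by
      funext v
      unfold diaT
      split_ifs with h3 h4
      · rw [h3]
      · rw [h4]
      · rfl
    have h3 : fn G (diaT x y c (c x, c y)) ω₀ = 0 := h1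
    rw [h2] at h3
    exact h3
  · refine ⟨aeval (diaQ x y c) (G ω), ?_, hD' ω, fun a b => (dia_eval x y c a b (G ω)).symm⟩
    have h1 := map_dvd (aeval (diaQ x y c) : MvPolynomial V K →ₐ[K] MvPolynomial (Fin 2) K) (h ω)
    have h2 : aeval (diaQ x y c) ((X x - X y : MvPolynomial V K) ^ m) =
        (X 0 - X 1 : MvPolynomial (Fin 2) K) ^ m := by
      rw [map_pow, map_sub, aeval_X, aeval_X]
      unfold diaQ
      rw [if_pos rfl, if_neg hxy.symm, if_pos rfl]
    rw [h2] at h1
    exact h1

/-- The substitution `x = y + e`. -/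
noncomputable def sxy {V : Type} [DecidableEq V] (K : Type u) [Field K] (x y v : V) :
    Polynomial (MvPolynomial V K) :=
  if v = x then Polynomial.C (X y) + Polynomial.X else Polynomial.C (X v)

private theorem dia_back {V : Type} [DecidableEq V] (x y : V) (p : MvPolynomial V K) :
    Polynomial.eval (X x - X y) (aeval (sxy K x y) p) = p := by
  have h : (Polynomial.evalRingHom (X x - X y : MvPolynomial V K)).comp
      ((aeval (sxy K x y) : MvPolynomial V K →ₐ[K] _) :
        MvPolynomial V K →+* Polynomial (MvPolynomial V K)) = RingHom.id _ := by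
    refine MvPolynomial.ringHom_ext (fun r => ?_) fun v => ?_
    · show Polynomial.eval _ (aeval (sxy K x y) (C r)) = C r
      rw [← MvPolynomial.algebraMap_eq, AlgHom.commutes, MvPolynomial.algebraMap_eq]
      have e : (algebraMap K (Polynomial (MvPolynomial V K))) r = Polynomial.C (C r) := rfl
      rw [e, Polynomial.eval_C]
    · show Polynomial.eval _ (aeval (sxy K x y) (X v)) = X v
      rw [aeval_X]
      unfold sxy
      split_ifs with hv
      · rw [Polynomial.eval_add, Polynomial.eval_C, Polynomial.eval_X, hv]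
        ring
      · rw [Polynomial.eval_C]
  exact RingHom.congr_fun h p

theorem dia_step {V : Type} [Finite V] [DecidableEq V] {Ω' : Type u} (x y : V) (hxy : x ≠ y)
    (w : ℕ) (G : Ω' → MvPolynomial V K) (hG : G ≠ 0) (hD : DB G) :
    PG (w + 1) G ∨ ∃ m < w, (∀ ω, ∀ k < m, (aeval (sxy K x y) (G ω)).coeff k = 0) ∧
      ∃ ω, (aeval (sxy K x y) (G ω)).coeff m ≠ 0 := by
  classical
  by_cases hex : ∃ k, k < w ∧ ∃ ω, (aeval (sxy K x y) (G ω)).coeff k ≠ 0
  · right
    obtain ⟨h1, h2⟩ := Nat.find_spec hex
    refine ⟨Nat.find hex, h1, fun ω k hk => ?_, h2⟩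
    by_contra h3
    exact Nat.find_min hex hk ⟨hk.trans h1, ω, h3⟩
  · left
    push Not at hex
    refine dia_pair x y hxy w G hG hD fun ω => ?_
    have h1 : (Polynomial.X : Polynomial (MvPolynomial V K)) ^ w ∣ aeval (sxy K x y) (G ω) :=
      Polynomial.X_pow_dvd_iff.2 fun k hk => hex k hk ω
    have h2 := map_dvd (Polynomial.evalRingHom (X x - X y : MvPolynomial V K)) h1
    rw [map_pow, Polynomial.coe_evalRingHom, Polynomial.eval_X, dia_back] at h2
    exact h2

end Pool.Agent.FOR
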