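import Pool.Agent.FOR.Fr

/-!
MODULE FOR-Ev.  Linear functionals of families of polynomials of bounded degree are
combinations of values.
-/

set_option autoImplicit false

namespace Pool.Agent.FOR

open MvPolynomial

universe u

variable {K : Type u} [Field K] [Infinite K]

theorem ev_span {V : Type} [Finite V] {Ω' : Type u} (G : Ω' → MvPolynomial V K) (hD : DB G)
    (L : MvPolynomial V K →ₗ[K] K) :
    (fun ω => L (G ω)) ∈ Submodule.span K (Set.range (fn G)) := by
  obtain ⟨D, hD⟩ := hD
  have hmem : ∀ ω, G ω ∈ restrictTotalDegree V K D := fun ω =>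
    (mem_restrictTotalDegree V D (G ω)).2 (hD ω)
  let ev : (V → K) → Module.Dual K (restrictTotalDegree V K D) := fun x =>
    (aeval x : MvPolynomial V K →ₐ[K] K).toLinearMap.comp (restrictTotalDegree V K D).subtype
  have hev : ∀ (x : V → K) (p : restrictTotalDegree V K D), ev x p = eval x (p : MvPolynomial V K) := by
    intro x p
    show aeval x (p : MvPolynomial V K) = eval x (p : MvPolynomial V K)
    exact congrFun (congrArg DFunLike.coe (coe_aeval_eq_eval _)) _
  have hco : (Submodule.span K (Set.range ev)).dualCoannihilator = ⊥ := by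
    rw [Submodule.eq_bot_iff]
    intro p hp
    rw [Submodule.mem_dualCoannihilator] at hp
    apply Subtype.ext
    show (p : MvPolynomial V K) = 0
    refine MvPolynomial.funext fun x => ?_
    have h := hp (ev x) (Submodule.subset_span ⟨x, rfl⟩)
    rw [hev] at h
    rw [h, map_zero]
  have htop : Submodule.span K (Set.range ev) = ⊤ := by
    have h := Subspace.dualCoannihilator_dualAnnihilator_eq (W := Submodule.span K (Set.range ev))
    rw [← h, hco, Submodule.dualAnnihilator_bot]
  let Φ : Module.Dual K (restrictTotalDegree V K D) →ₗ[K] (Ω' → K) :=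
    LinearMap.pi fun ω => LinearMap.applyₗ (⟨G ω, hmem ω⟩ : restrictTotalDegree V K D)
  have h1 : Φ (L.comp (restrictTotalDegree V K D).subtype) = fun ω => L (G ω) := by
    funext ω
    rfl
  have h2 : Φ (L.comp (restrictTotalDegree V K D).subtype) ∈ (Submodule.span K (Set.range ev)).map Φ :=
    Submodule.mem_map_of_mem (by rw [htop]; exact Submodule.mem_top)
  rw [Submodule.map_span, ← Set.range_comp] at h2
  rw [h1] at h2
  have h3 : (Φ ∘ ev) = fn G := by
    funext x ω
    show ev x ⟨G ω, hmem ω⟩ = eval x (G ω)
    rw [hev]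
  rwa [h3] at h2

theorem ev_apply {V V' : Type} [Finite V] {Ω' : Type u} (G : Ω' → MvPolynomial V K) (hD : DB G)
    (L : MvPolynomial V K →ₗ[K] MvPolynomial V' K) (y : V' → K) :
    (fun ω => eval y (L (G ω))) ∈ Submodule.span K (Set.range (fn G)) := by
  have h := ev_span G hD ((aeval y : MvPolynomial V' K →ₐ[K] K).toLinearMap.comp L)
  have e : (fun ω => ((aeval y : MvPolynomial V' K →ₐ[K] K).toLinearMap.comp L) (G ω)) =
      fun ω => eval y (L (G ω)) := by
    funext ω
    show aeval y (L (G ω)) = eval y (L (G ω))
    exact congrFun (congrArg DFunLike.coe (coe_aeval_eq_eval _)) _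
  rwa [e] at h

end Pool.Agent.FOR
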