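import Pool.Agent.FOR.Defs
import Pool.Agent.MRG.Nat

/-!
MODULE FOR-Nt.  Naturality: all explicit objects commute with ring homomorphisms.
-/

set_option autoImplicit false

namespace Pool.Agent.FOR

open Pool.Agent.MRG (cA cB ex nl el wt)
open Pool.Agent.AOR (bucket)

variable {R R' : Type*} [CommSemiring R] [CommSemiring R'] (φ : R →+* R')

theorem map_crv {n : ℕ} (Q : List (ℕ × Finset ℕ)) (L : List (Fin n)) (z : R) (i : Fin n) :
    φ (crv Q L z i) = crv Q L (φ z) i := by
  induction Q generalizing L z i with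
  | nil => simp only [crv]
  | cons q Q ih =>
    simp only [crv]
    rw [Pool.Agent.MRG.map_el]
    have h1 : (fun j => φ (((j + 1 : ℕ) : R))) = fun j => ((j + 1 : ℕ) : R') :=
      funext fun j => map_natCast φ _
    have h2 : (fun i => φ (crv Q (nl q.2 0 L) z i)) = crv Q (nl q.2 0 L) (φ z) :=
      funext fun i => ih _ _ _
    rw [h1, h2]

theorem map_ud (P : R → R → ℕ → R) (P' : R' → R' → ℕ → R')
    (hP : ∀ t e b, φ (P t e b) = P' (φ t) (φ e) b) (t e : ℕ → R) (l a : ℕ) (s : List Bool)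
    (b : ℕ) : φ (ud P t e l a s b) = ud P' (fun i => φ (t i)) (fun i => φ (e i)) l a s b := by
  induction l generalizing a s b with
  | zero => simp only [ud]
  | succ l ih =>
    match s with
    | [] => simp only [ud, hP]
    | false :: s =>
      simp only [ud]
      split_ifs
      · exact ih _ _ _
      · exact hP _ _ _
    | true :: s =>
      simp only [ud]
      split_ifs
      · exact hP _ _ _
      · exact ih _ _ _

theorem map_zu (j : ℕ) (s : List Bool) (Q : List (ℕ × Finset ℕ)) (z : R) (a : ℕ) :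
    φ (zu j s Q z a) = zu j s Q (φ z) a := by
  unfold zu
  exact map_crv φ _ _ _ _

theorem map_uu (j : ℕ) (P : R → R → ℕ → R) (P' : R' → R' → ℕ → R')
    (hP : ∀ t e b, φ (P t e b) = P' (φ t) (φ e) b) (s : List Bool) (x : ℕ → R) (e : R) (b : ℕ) :
    φ (uu j P s x e b) = uu j P' s (fun i => φ (x i)) (φ e) b := by
  unfold uu
  rw [map_ud φ P P' hP]
  simp only [map_pow, map_mul]

theorem map_yf (j : ℕ) (P : R → R → ℕ → R) (P' : R' → R' → ℕ → R')
    (hP : ∀ t e b, φ (P t e b) = P' (φ t) (φ e) b)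
    (q : ℕ × ℕ × List Bool × List (ℕ × Finset ℕ)) (σ : ℕ → R) (e z : R) (i : ℕ) :
    φ (yf j P q σ e z i) = yf j P' q (fun k => φ (σ k)) (φ e) (φ z) i := by
  unfold yf
  rw [map_add, map_sum, map_pow, map_uu φ j P P' hP]
  simp only [map_mul, map_pow, map_natCast, map_zu]

theorem map_ys (j : ℕ) (P : R → R → ℕ → R) (P' : R' → R' → ℕ → R')
    (hP : ∀ t e b, φ (P t e b) = P' (φ t) (φ e) b) (σ : ℕ → R) (e s z : R) (i : ℕ) :
    φ (ys j P σ e s z i) = ys j P' (fun k => φ (σ k)) (φ e) (φ s) (φ z) i := by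
  unfold ys
  rw [map_sum]
  refine Finset.sum_congr rfl fun k _ => ?_
  rw [map_mul, map_prod, map_yf φ j P P' hP]
  simp only [map_add, map_natCast]

theorem map_yp (j : ℕ) (P : R → R → ℕ → R) (P' : R' → R' → ℕ → R')
    (hP : ∀ t e b, φ (P t e b) = P' (φ t) (φ e) b) (t : R) (i : ℕ) :
    φ (yp j P t i) = yp j P' (φ t) i := by
  unfold yp
  rw [map_ys φ j P P' hP]
  simp only [map_pow]

theorem map_Ps (j : ℕ) (t e : R) (b : ℕ) : φ (Ps j t e b) = Ps j (φ t) (φ e) b := by
  induction j generalizing t e b with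
  | zero =>
    simp only [Ps]
    exact map_crv φ _ _ _ _
  | succ j ih =>
    simp only [Ps]
    rw [map_add, map_mul, map_pow, map_yp φ j (Ps j) (Ps j) ih]

end Pool.Agent.FOR
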