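import Pool.Agent.FOR.Rc
import Pool.Agent.FOR.Nt
import Pool.Agent.FOR.NLev
import Pool.Agent.MRG.Cts

/-!
MODULE FOR-Fnl (est. 1.0 h).  A polynomial all of whose flattenings have rank at most `w` is not good
for `m > w`; the generator from `Qf`.

PLAN.  `not_pg`: unfold `PG`, `Good`: an atom `A`, `C`, `μ`, `m' ≥ m`, `g'`.  Use it with `Ω' = PUnit`,
`ν = fun a _ => a`, `M = 1`: every nonzero `e : PUnit → K` is `Big ν 1`.  So `Big (pm μ ν) (m' * 1) (un g')`
and there is a cut `σ = mx S` and points `a`, `b : Fin m' → (Fin n → K) × PUnit` with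
`det (f (mx S (a i) (b j))) ≠ 0`.  `Cut w T f` for `T = {v | v ∈ S}` (a finset): `f = ∑ k < w, g_k h_k`,
`eval (mx S x y) (g_k) = eval x (g_k)` (`eval` depends only on the values at `vars`:
`MvPolynomial.eval₂Hom_congr'` or `hom_congr_vars`), `eval (mx S x y) (h_k) = eval y (h_k)`.  So the
matrix is a product of a `m' × w` and a `w × m'` matrix and its rank is at most `w < m'`
(`Matrix.rank_mul_le_left`, `Matrix.rank_le_width`), but a matrix with nonzero determinant has rank
`m'` (`Matrix.rank_of_isUnit`).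
`cuts_rename`: `rename e p = aeval (X ∘ e) p`, `MRG.cuts_subst`.
`gen_of_qf`: `S = sz J`, `f' = rename (Fin.castLE hn) f ≠ 0` (`rename_injective`), the family
`fun _ : PUnit => f'`.  Suppose `aeval (fun i => Ps J (X 0) (X 1) i) f = 0`; the homomorphism
`MvPolynomial (Fin 2) K → K[X][X]`, `X 0 ↦ C X`, `X 1 ↦ X` (`aeval ![..]`) gives
`aeval (cv K J) f' = 0` (`map_Ps`, `aeval_rename`), so `Fa J f'` (`dvd_zero`), so `hQ` gives
`PG (sz J + 1)`, in contradiction to `not_pg`.
-/

set_option autoImplicit false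

namespace Pool.Agent.FOR

open MvPolynomial
open Pool.Agent.AOI (Cut Cuts)

universe u

variable {K : Type u} [Field K]

private theorem eval_congr {n : ℕ} (p : MvPolynomial (Fin n) K) (x y : Fin n → K)
    (h : ∀ i ∈ p.vars, x i = y i) : eval x p = eval y p := by
  refine hom_congr_vars (f₁ := eval x) (f₂ := eval y) ?_ ?_ rfl
  · ext a
    simp
  · intro i hi _
    rw [eval_X, eval_X]
    exact h i hi

theorem not_pg {n w m : ℕ} (hm : w < m) (f : MvPolynomial (Fin n) K) (hf : Cuts w f)
    (h : PG m (fun _ : PUnit.{u + 1} => f)) : False := by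
  classical
  obtain ⟨A, C, μ, m', g', hA, hmm, hg, hC, _, hB⟩ := h
  have h1 := hA PUnit.{u + 1} g' (fun a _ => a) 1 hg hC (by
    intro e _ hne
    have he : e PUnit.unit ≠ 0 := by
      intro h0
      apply hne
      funext x
      exact h0
    refine ⟨fun _ => PUnit.unit, fun _ => PUnit.unit, ?_⟩
    rw [Matrix.det_unique]
    exact he)
  obtain ⟨σ, ⟨S, rfl⟩, a, b, hdet⟩ := hB _ _ h1
  obtain ⟨g, k, hg', hk', hfg⟩ := hf (Finset.univ.filter fun i => i ∈ S)
  let N : Matrix (Fin (m' * 1)) (Fin (m' * 1)) K :=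
    Matrix.of fun i j => un (fn fun _ : PUnit.{u + 1} => f) (pm (mx S) (fun a _ => a) (a i) (b j))
  let P : Matrix (Fin (m' * 1)) (Fin w) K := Matrix.of fun i l => eval (a i).1 (g l)
  let Q : Matrix (Fin w) (Fin (m' * 1)) K := Matrix.of fun l j => eval (b j).1 (k l)
  have hN : N = P * Q := by
    ext i j
    rw [Matrix.mul_apply]
    show eval (mx S (a i).1 (b j).1) f = ∑ l, eval (a i).1 (g l) * eval (b j).1 (k l)
    rw [hfg, map_sum]
    refine Finset.sum_congr rfl fun l _ => ?_
    rw [map_mul]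
    have e1 : eval (mx S (a i).1 (b j).1) (g l) = eval (a i).1 (g l) := by
      refine eval_congr _ _ _ fun v hv => ?_
      have hv' := hg' l hv
      rw [Finset.mem_filter] at hv'
      unfold mx
      exact if_pos hv'.2
    have e2 : eval (mx S (a i).1 (b j).1) (k l) = eval (b j).1 (k l) := by
      refine eval_congr _ _ _ fun v hv => ?_
      have hv' := hk' l hv
      rw [Finset.mem_compl, Finset.mem_filter, not_and] at hv'
      unfold mx
      exact if_neg (hv' (Finset.mem_univ v))
    rw [e1, e2]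
  have hr1 : N.rank = m' * 1 := by
    rw [Matrix.rank_of_isUnit N ((Matrix.isUnit_iff_isUnit_det N).2 (isUnit_iff_ne_zero.2 hdet)),
      Fintype.card_fin]
  have hr2 : N.rank ≤ w := by
    rw [hN]
    exact (Matrix.rank_mul_le_left P Q).trans (Matrix.rank_le_width P)
  omega

theorem cuts_rename {n n' w : ℕ} (e : Fin n → Fin n') (f : MvPolynomial (Fin n) K)
    (hf : Cuts w f) : Cuts w (rename e f) := by
  have h := MRG.cuts_subst e (fun i => (X (e i) : MvPolynomial (Fin n') K)) (fun i => by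
    rw [vars_X]) f hf
  have e1 : (rename e : MvPolynomial (Fin n) K →ₐ[K] MvPolynomial (Fin n') K) =
      aeval (fun i => (X (e i) : MvPolynomial (Fin n') K)) :=
    algHom_ext fun i => by rw [rename_X, aeval_X]
  rw [e1]
  exact h

theorem gen_of_qf {n w J : ℕ} (hn : n ≤ sz J) (hwJ : w ≤ sz J) (hQ : Qf K J)
    (f : MvPolynomial (Fin n) K) (hf : f ≠ 0) (hw : Cuts w f) :
    aeval (fun i : Fin n => Ps J (X 0) (X 1) (i : ℕ)) f ≠ (0 : MvPolynomial (Fin 2) K) := by
  intro h0
  let ψ : MvPolynomial (Fin 2) K →ₐ[K] Polynomial (Polynomial K) :=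
    aeval ![Polynomial.C Polynomial.X, Polynomial.X]
  have hψ : ∀ i : Fin n, ψ (Ps J (X 0) (X 1) (i : ℕ)) = cv K J (Fin.castLE hn i) := by
    intro i
    have h1 := map_Ps (ψ : MvPolynomial (Fin 2) K →+* Polynomial (Polynomial K)) J (X 0) (X 1) (i : ℕ)
    have h2 : ψ (X 0) = Polynomial.C Polynomial.X := by
      show aeval _ (X 0) = _
      rw [aeval_X]
      rfl
    have h3 : ψ (X 1) = Polynomial.X := by
      show aeval _ (X 1) = _
      rw [aeval_X]
      rfl
    rw [RingHom.coe_coe, h2, h3] at h1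
    exact h1
  have h4 : aeval (cv K J) (rename (Fin.castLE hn) f) = 0 := by
    rw [aeval_rename]
    have h5 : ψ (aeval (fun i : Fin n => Ps J (X 0) (X 1) (i : ℕ)) f) =
        aeval (cv K J ∘ Fin.castLE hn) f := by
      have h6 : ψ.comp (aeval fun i : Fin n => (Ps J (X 0) (X 1) (i : ℕ) : MvPolynomial (Fin 2) K)) =
          aeval (cv K J ∘ Fin.castLE hn) := by
        refine algHom_ext fun i => ?_
        rw [AlgHom.comp_apply, aeval_X, aeval_X]
        exact hψ i
      rw [← h6]
      rfl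
    rw [← h5, h0, map_zero]
  have h7 := hQ PUnit.{u + 1} (fun _ => rename (Fin.castLE hn) f) (by
    intro h8
    have h9 := congrFun h8 PUnit.unit
    apply hf
    apply rename_injective _ (Fin.castLE_injective hn)
    rw [map_zero]
    exact h9) ⟨(rename (Fin.castLE hn) f).totalDegree, fun _ => le_rfl⟩ (fun _ => by
    unfold Fa
    rw [h4]
    exact dvd_zero _)
  exact not_pg (Nat.lt_succ_of_le hwJ) _ (cuts_rename (Fin.castLE hn) f hw) h7

end Pool.Agent.FOR
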