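import Mathlib

/-!
Project FOR (MP_e2be99_lc): the forcing calculus.  Paper proof: /team-store/pit34_full.md, section 0.

`K` is a field, `Ω`, `Ω'`, `A` are arbitrary types; a mixing is a binary operation `μ` on a type: `μ a b`
takes the row coordinates from `a` and the column coordinates from `b`.
-/

set_option autoImplicit false

namespace Pool.Agent.FOR

open MvPolynomial

universe u

variable {K : Type u} [Field K]

/-- Some `m × m` matrix of values of `g` at mixed points is nonsingular. -/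
def Big {Ω : Type u} (μ : Ω → Ω → Ω) (m : ℕ) (g : Ω → K) : Prop :=
  ∃ a b : Fin m → Ω, (Matrix.of fun i j => g (μ (a i) (b j))).det ≠ 0

/-- Product of two mixings. -/
def pm {Ω Ω' : Type u} (μ : Ω → Ω → Ω) (ν : Ω' → Ω' → Ω') (p q : Ω × Ω') : Ω × Ω' :=
  (μ p.1 q.1, ν p.2 q.2)

/-- A function of two arguments as a function of a pair. -/
def un {Ω Ω' : Type u} (g : Ω → Ω' → K) (p : Ω × Ω') : K := g p.1 p.2

/-- The linear condition `C` on functions on `A` is an atom of weight `m` with respect to the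
mixing `μ`. -/
def IsAtom {A : Type u} (C : Submodule K (A → K)) (μ : A → A → A) (m : ℕ) : Prop :=
  ∀ (Ω' : Type u) (g : A → Ω' → K) (ν : Ω' → Ω' → Ω') (M : ℕ), g ≠ 0 →
    (∀ ω, (fun x => g x ω) ∈ C) →
    (∀ e ∈ Submodule.span K (Set.range g), e ≠ 0 → Big ν M e) →
    Big (pm μ ν) (m * M) (un g)

/-- `g` can be transformed into an atom of weight at least `m`, in a way which does not increase
ranks and which respects linear conditions on the other argument. `S` is the set of allowed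
mixings (cuts) of the first argument. -/
def Good {Ω Ω' : Type u} (S : Set (Ω → Ω → Ω)) (m : ℕ) (g : Ω → Ω' → K) : Prop :=
  ∃ (A : Type u) (C : Submodule K (A → K)) (μ : A → A → A) (m' : ℕ) (g' : A → Ω' → K),
    IsAtom C μ m' ∧ m ≤ m' ∧ g' ≠ 0 ∧ (∀ ω, (fun x => g' x ω) ∈ C) ∧
    (∀ x, g' x ∈ Submodule.span K (Set.range g)) ∧
    ∀ (ν : Ω' → Ω' → Ω') (M : ℕ), Big (pm μ ν) M (un g') → ∃ σ ∈ S, Big (pm σ ν) M (un g)

/-- The linear condition `C` is `m`-forcing. -/
def Forces {Ω : Type u} (S : Set (Ω → Ω → Ω)) (C : Submodule K (Ω → K)) (m : ℕ) : Prop :=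
  ∀ (Ω' : Type u) (g : Ω → Ω' → K), g ≠ 0 → (∀ ω, (fun x => g x ω) ∈ C) → Good S m g

/-- An allowed transformation. -/
def Step {Ω Ω₁ Ω' : Type u} (S : Set (Ω → Ω → Ω)) (S₁ : Set (Ω₁ → Ω₁ → Ω₁))
    (g : Ω → Ω' → K) (g₁ : Ω₁ → Ω' → K) : Prop :=
  (∀ x, g₁ x ∈ Submodule.span K (Set.range g)) ∧
  ∀ σ₁ ∈ S₁, ∀ (ν : Ω' → Ω' → Ω') (M : ℕ), Big (pm σ₁ ν) M (un g₁) →
    ∃ σ ∈ S, Big (pm σ ν) M (un g)

/-- Product of two linear conditions. -/
def prodC {Ω₁ Ω₂ : Type u} (C₁ : Submodule K (Ω₁ → K)) (C₂ : Submodule K (Ω₂ → K)) :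
    Submodule K (Ω₁ × Ω₂ → K) where
  carrier := {f | (∀ y, (fun x => f (x, y)) ∈ C₁) ∧ ∀ x, (fun y => f (x, y)) ∈ C₂}
  add_mem' := fun {f g} hf hg =>
    ⟨fun y => C₁.add_mem (hf.1 y) (hg.1 y), fun x => C₂.add_mem (hf.2 x) (hg.2 x)⟩
  zero_mem' := ⟨fun _ => C₁.zero_mem, fun _ => C₂.zero_mem⟩
  smul_mem' := fun c f hf =>
    ⟨fun y => C₁.smul_mem c (hf.1 y), fun x => C₂.smul_mem c (hf.2 x)⟩

/-- Products of mixings. -/
def prodS {Ω₁ Ω₂ : Type u} (S₁ : Set (Ω₁ → Ω₁ → Ω₁)) (S₂ : Set (Ω₂ → Ω₂ → Ω₂)) :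
    Set (Ω₁ × Ω₂ → Ω₁ × Ω₂ → Ω₁ × Ω₂) :=
  {σ | ∃ σ₁ ∈ S₁, ∃ σ₂ ∈ S₂, σ = pm σ₁ σ₂}

/-- Power of a linear condition. -/
def powC {A : Type u} (C : Submodule K (A → K)) (q : ℕ) : Submodule K ((Fin q → A) → K) where
  carrier := {f | ∀ (i : Fin q) (x : Fin q → A), (fun y => f (Function.update x i y)) ∈ C}
  add_mem' := fun {f g} hf hg i x => C.add_mem (hf i x) (hg i x)
  zero_mem' := fun _ _ => C.zero_mem
  smul_mem' := fun c f hf i x => C.smul_mem c (hf i x)

/-- Power of a mixing. -/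
def powM {A : Type u} (μ : A → A → A) (q : ℕ) (a b : Fin q → A) : Fin q → A :=
  fun i => μ (a i) (b i)

/-- The mixing of assignments given by a set `S` of variables (the rows). -/
noncomputable def mx {V : Type} (S : Set V) (a b : V → K) : V → K :=
  open Classical in fun v => if v ∈ S then a v else b v

/-- All cuts. -/
def cuts (K : Type u) [Field K] (V : Type) : Set ((V → K) → (V → K) → V → K) :=
  Set.range (mx (K := K) (V := V))

/-- A family of polynomials as a function. -/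
noncomputable def fn {V : Type} {Ω' : Type u} (G : Ω' → MvPolynomial V K) :
    (V → K) → Ω' → K :=
  fun x ω => eval x (G ω)

/-- The degrees are bounded. -/
def DB {V : Type} {Ω' : Type u} (G : Ω' → MvPolynomial V K) : Prop :=
  ∃ D : ℕ, ∀ ω, (G ω).totalDegree ≤ D

/-- A family of polynomials which can be transformed into an atom of weight at least `m`. -/
def PG {V : Type} {Ω' : Type u} (m : ℕ) (G : Ω' → MvPolynomial V K) : Prop :=
  Good (cuts K V) m (fn G)

end Pool.Agent.FOR
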