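import Pool.Agent.FOR.Pwa
import Pool.Agent.MRG.Cts
import Pool.Agent.MRG.NL

/-!
MODULE FOR-Gst (est. 1.2 h).  Greedy merging for families: few pairs stay unmerged.

PLAN.  `greedyF` is the proof of `Pool.Agent.MRG.greedy` (Pool/Agent/MRG/Greedy.lean on main) for
families: replace `f` by `G : Ω' → MvPolynomial (Fin n) K`, `f ≠ 0` by `G ≠ 0`, `ml .. f` by
`fun ω => ml .. (G ω)`, `mg .. f = 0` by `∀ ω, mg .. (G ω) = 0`.  Copy `mg_ml_comm` and the private
`ml_congr` of that file (do not import it: it imports files with sorry).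
`gst`: `greedyF` with `j = 0`; if `U.card ≥ κ + 1` then `pg_pairs` for the family
`fun ω => ml (cc K) r U 0 L (G ω)` gives `PG ((r+1)^U.card)` of this family, `good_mono` and `pg_aeval`
(`ml` is an `aeval`, every variable goes to a polynomial in one variable: `el` of `X`; for the
variables of the image use the recursion of `el`, `ex`, as in `vars_el` in Pool/Agent/MRG/NL.lean, or
prove `∃ π, ∀ v, (el (fun i => C (c i)) r U j L X v).vars ⊆ {π v}` by induction on `L` (`vars_el1`)).
-/

set_option autoImplicit false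

namespace Pool.Agent.FOR

open MvPolynomial

universe u

variable {K : Type u} [Field K]

private theorem mg_ml_comm {K : Type*} [Field K] {n : ℕ} (c : ℕ → K) (r : ℕ) (U : Finset ℕ)
    (x y : Fin n) (hxy : x ≠ y) (L : List (Fin n)) (hL : L.Nodup) (hx : x ∉ L) (hy : y ∉ L) :
    ∀ (j : ℕ) (f : MvPolynomial (Fin n) K),
      MRG.mg c r x y (MRG.ml c r U j L f) = MRG.ml c r U j L (MRG.mg c r x y f) := by
  match L, hL, hx, hy with
  | [], _, _, _ =>
    intro j f
    rw [MRG.ml_nil, MRG.ml_nil]
  | [a], _, _, _ =>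
    intro j f
    rw [MRG.ml_single, MRG.ml_single]
  | a :: b :: L', hL, hx, hy =>
    intro j f
    rw [List.nodup_cons, List.nodup_cons] at hL
    simp only [List.mem_cons, not_or] at hL hx hy
    have IH := mg_ml_comm c r U x y hxy L' hL.2.2 hx.2.2 hy.2.2 (j + 1)
    by_cases hj : j ∈ U
    · rw [MRG.ml_cons_mem c r U j a b L' hj, MRG.ml_cons_mem c r U j a b L' hj]
      exact IH f
    · rw [MRG.ml_cons_not_mem c r U j a b L' hj, MRG.ml_cons_not_mem c r U j a b L' hj, IH,
        MRG.mg_comm c r x y a b hxy hx.1 hx.2.1 hy.1 hy.2.1 hL.1.1 f]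

private theorem ml_congr {K : Type*} [Field K] {n : ℕ} (c : ℕ → K) (r : ℕ) (U V : Finset ℕ)
    (L : List (Fin n)) : ∀ (j : ℕ) (f : MvPolynomial (Fin n) K),
    (∀ i, j ≤ i → (i ∈ U ↔ i ∈ V)) → MRG.ml c r U j L f = MRG.ml c r V j L f := by
  match L with
  | [] =>
    intro j f _
    rw [MRG.ml_nil, MRG.ml_nil]
  | [a] =>
    intro j f _
    rw [MRG.ml_single, MRG.ml_single]
  | a :: b :: L' =>
    intro j f h
    have IH := ml_congr c r U V L' (j + 1)
    by_cases hj : j ∈ U
    · rw [MRG.ml_cons_mem c r U j a b L' hj, MRG.ml_cons_mem c r V j a b L' ((h j le_rfl).1 hj)]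
      exact IH f fun i hi => h i (by omega)
    · have hj' : j ∉ V := fun h' => hj ((h j le_rfl).2 h')
      rw [MRG.ml_cons_not_mem c r U j a b L' hj, MRG.ml_cons_not_mem c r V j a b L' hj']
      exact IH _ fun i hi => h i (by omega)

private theorem vars_cA {n : ℕ} (c : ℕ → K) (r : ℕ) (a : Fin n) :
    (MRG.cA (fun i => (C (c i) : MvPolynomial (Fin n) K)) r (X a)).vars ⊆ {a} := by
  unfold MRG.cA
  refine (vars_prod _).trans (Finset.biUnion_subset.2 fun j _ => ?_)
  refine (vars_add_subset _ _).trans (Finset.union_subset ?_ ?_)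
  · rw [vars_X]
  · rw [vars_C]
    exact Finset.empty_subset _

private theorem vars_cB {n : ℕ} (c : ℕ → K) (r : ℕ) (a : Fin n) :
    (MRG.cB (fun i => (C (c i) : MvPolynomial (Fin n) K)) r (X a)).vars ⊆ {a} := by
  unfold MRG.cB
  refine (vars_prod _).trans (Finset.biUnion_subset.2 fun j _ => ?_)
  refine (vars_pow _ _).trans ((vars_add_subset _ _).trans (Finset.union_subset ?_ ?_))
  · rw [vars_X]
  · rw [vars_C]
    exact Finset.empty_subset _

/-- Every old variable becomes a polynomial in one new variable. -/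
theorem vars_el1 {n : ℕ} (c : ℕ → K) (r : ℕ) (U : Finset ℕ) (L : List (Fin n)) (hL : L.Nodup)
    (j : ℕ) : ∃ π : Fin n → Fin n, ∀ v,
      (MRG.el (fun i => (C (c i) : MvPolynomial (Fin n) K)) r U j L X v).vars ⊆ {π v} := by
  classical
  match L, hL with
  | [], _ =>
    refine ⟨id, fun v => ?_⟩
    rw [MRG.el, vars_X]
    exact Finset.Subset.refl _
  | [a], _ =>
    refine ⟨id, fun v => ?_⟩
    rw [MRG.el, vars_X]
    exact Finset.Subset.refl _
  | a :: b :: L', hL =>
    rw [List.nodup_cons, List.nodup_cons, List.mem_cons, not_or] at hL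
    obtain ⟨⟨hab, haL⟩, hbL, hL'⟩ := hL
    obtain ⟨π, hπ⟩ := vars_el1 c r U L' hL' (j + 1)
    by_cases hj : j ∈ U
    · refine ⟨π, fun v => ?_⟩
      rw [MRG.el, if_pos hj]
      exact hπ v
    · refine ⟨fun v => if v = a then a else if v = b then a else π v, fun v => ?_⟩
      rw [MRG.el, if_neg hj, MRG.ex, MRG.el_of_not_mem _ _ _ _ _ _ _ haL]
      show _ ⊆ ({if v = a then a else if v = b then a else π v} : Finset (Fin n))
      by_cases h1 : v = a
      · rw [if_pos h1, if_pos h1]
        exact vars_cA c r a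
      · rw [if_neg h1, if_neg h1]
        by_cases h2 : v = b
        · rw [if_pos h2, if_pos h2]
          exact vars_cB c r a
        · rw [if_neg h2, if_neg h2]
          exact hπ v

theorem greedyF {n : ℕ} {Ω' : Type u} (c : ℕ → K) (r : ℕ) (L : List (Fin n))
    (hL : L.Nodup) : ∀ (j : ℕ) (G : Ω' → MvPolynomial (Fin n) K), G ≠ 0 →
    ∃ (U : Finset ℕ) (P : List (Fin n × Fin n)),
      (fun ω => MRG.ml c r U j L (G ω)) ≠ 0 ∧ P.length = U.card ∧
      (∀ i ∈ U, j ≤ i ∧ i < j + L.length / 2) ∧
      (P.map Prod.fst ++ P.map Prod.snd).Nodup ∧ (∀ p ∈ P, p.1 ∈ L ∧ p.2 ∈ L) ∧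
      (∀ p ∈ P, ∀ ω, MRG.mg c r p.1 p.2 (MRG.ml c r U j L (G ω)) = 0) ∧
      ∀ V : Finset ℕ, U ⊆ V → (fun ω => MRG.ml c r V j L (G ω)) ≠ 0 := by
  classical
  match L, hL with
  | [], _ =>
    intro j G hG
    have e : ∀ V : Finset ℕ, (fun ω => MRG.ml c r V j [] (G ω)) = G := by
      intro V
      funext ω
      exact MRG.ml_nil c r V j (G ω)
    refine ⟨∅, [], ?_, rfl, ?_, ?_, ?_, ?_, ?_⟩
    · rw [e]
      exact hG
    · intro i hi
      exact absurd hi (Finset.notMem_empty i)
    · exact List.nodup_nil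
    · intro p hp
      exact absurd hp List.not_mem_nil
    · intro p hp
      exact absurd hp List.not_mem_nil
    · intro V _
      rw [e]
      exact hG
  | [a], _ =>
    intro j G hG
    have e : ∀ V : Finset ℕ, (fun ω => MRG.ml c r V j [a] (G ω)) = G := by
      intro V
      funext ω
      exact MRG.ml_single c r V j a (G ω)
    refine ⟨∅, [], ?_, rfl, ?_, ?_, ?_, ?_, ?_⟩
    · rw [e]
      exact hG
    · intro i hi
      exact absurd hi (Finset.notMem_empty i)
    · exact List.nodup_nil
    · intro p hp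
      exact absurd hp List.not_mem_nil
    · intro p hp
      exact absurd hp List.not_mem_nil
    · intro V _
      rw [e]
      exact hG
  | a :: b :: L', hL =>
    intro j G hG
    rw [List.nodup_cons, List.nodup_cons] at hL
    obtain ⟨ha, hb, hL'⟩ := hL
    have hab : a ≠ b := fun h => ha (by rw [h]; exact List.mem_cons_self)
    have haL : a ∉ L' := fun h => ha (List.mem_cons_of_mem _ h)
    have hlen : (a :: b :: L').length / 2 = L'.length / 2 + 1 := by
      simp only [List.length_cons]
      omega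
    by_cases hm : (fun ω => MRG.mg c r a b (G ω)) = 0
    · obtain ⟨U, P, h1, h2, h3, h4, h5, h6, h7⟩ := greedyF c r L' hL' (j + 1) G hG
      have hjU : j ∉ U := fun h => by
        have := (h3 j h).1
        omega
      have hml : ∀ g, MRG.ml c r (insert j U) j (a :: b :: L') g = MRG.ml c r U (j + 1) L' g := by
        intro g
        rw [MRG.ml_cons_mem c r _ j a b L' (Finset.mem_insert_self j U)]
        refine ml_congr c r _ _ L' (j + 1) g fun i hi => ?_
        rw [Finset.mem_insert]
        constructor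
        · rintro (h | h)
          · omega
          · exact h
        · exact fun h => Or.inr h
      refine ⟨insert j U, (a, b) :: P, ?_, ?_, ?_, ?_, ?_, ?_, ?_⟩
      · have e : (fun ω => MRG.ml c r (insert j U) j (a :: b :: L') (G ω)) =
            fun ω => MRG.ml c r U (j + 1) L' (G ω) := by
          funext ω
          rw [hml]
        rw [e]
        exact h1
      · rw [List.length_cons, h2, Finset.card_insert_of_notMem hjU]
      · intro i hi
        rw [hlen]
        rcases Finset.mem_insert.1 hi with h | h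
        · omega
        · have := h3 i h
          omega
      · have hfst : ∀ x ∈ P.map Prod.fst, x ∈ L' := by
          intro x hx
          obtain ⟨p, hp, rfl⟩ := List.mem_map.1 hx
          exact (h5 p hp).1
        have hsnd : ∀ x ∈ P.map Prod.snd, x ∈ L' := by
          intro x hx
          obtain ⟨p, hp, rfl⟩ := List.mem_map.1 hx
          exact (h5 p hp).2
        rw [List.nodup_append] at h4 ⊢
        obtain ⟨h41, h42, h43⟩ := h4
        simp only [List.map_cons]
        refine ⟨List.nodup_cons.2 ⟨fun h => haL (hfst a h), h41⟩,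
          List.nodup_cons.2 ⟨fun h => hb (hsnd b h), h42⟩, ?_⟩
        intro x hx y hy
        rcases List.mem_cons.1 hx with h | h <;> rcases List.mem_cons.1 hy with h' | h'
        · rw [h, h']
          exact hab
        · rw [h]
          intro h''
          exact haL (h'' ▸ hsnd y h')
        · rw [h']
          intro h''
          exact hb (h'' ▸ hfst x h)
        · exact h43 x h y h'
      · intro p hp
        rcases List.mem_cons.1 hp with h | h
        · rw [h]
          exact ⟨List.mem_cons_self, List.mem_cons_of_mem _ List.mem_cons_self⟩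
        · exact ⟨List.mem_cons_of_mem _ (List.mem_cons_of_mem _ (h5 p h).1),
            List.mem_cons_of_mem _ (List.mem_cons_of_mem _ (h5 p h).2)⟩
      · intro p hp ω
        rw [hml]
        rcases List.mem_cons.1 hp with h | h
        · rw [h]
          have h0 : MRG.mg c r a b (G ω) = 0 := congrFun hm ω
          rw [mg_ml_comm c r U a b hab L' hL' haL hb (j + 1) (G ω), h0, map_zero]
        · exact h6 p h ω
      · intro V hV
        have e : (fun ω => MRG.ml c r V j (a :: b :: L') (G ω)) =
            fun ω => MRG.ml c r V (j + 1) L' (G ω) := by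
          funext ω
          rw [MRG.ml_cons_mem c r V j a b L' (hV (Finset.mem_insert_self j U))]
        rw [e]
        exact h7 V fun i hi => hV (Finset.mem_insert_of_mem hi)
    · obtain ⟨U, P, h1, h2, h3, h4, h5, h6, h7⟩ :=
        greedyF c r L' hL' (j + 1) (fun ω => MRG.mg c r a b (G ω)) hm
      have hjU : j ∉ U := fun h => by
        have := (h3 j h).1
        omega
      have e : ∀ V : Finset ℕ, j ∉ V → (fun ω => MRG.ml c r V j (a :: b :: L') (G ω)) =
          fun ω => MRG.ml c r V (j + 1) L' (MRG.mg c r a b (G ω)) := by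
        intro V hjV
        funext ω
        exact MRG.ml_cons_not_mem c r V j a b L' hjV (G ω)
      refine ⟨U, P, ?_, h2, ?_, h4, ?_, ?_, ?_⟩
      · rw [e U hjU]
        exact h1
      · intro i hi
        rw [hlen]
        have := h3 i hi
        omega
      · intro p hp
        exact ⟨List.mem_cons_of_mem _ (List.mem_cons_of_mem _ (h5 p hp).1),
            List.mem_cons_of_mem _ (List.mem_cons_of_mem _ (h5 p hp).2)⟩
      · intro p hp ω
        rw [MRG.ml_cons_not_mem c r U j a b L' hjU]
        exact h6 p hp ω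
      · intro V hV
        by_cases hjV : j ∈ V
        · intro h0
          apply h7 V hV
          funext ω
          have h8 := mg_ml_comm c r V a b hab L' hL' haL hb (j + 1) (G ω)
          have h9 : MRG.ml c r V j (a :: b :: L') (G ω) = 0 := congrFun h0 ω
          rw [MRG.ml_cons_mem c r V j a b L' hjV] at h9
          rw [h9, map_zero] at h8
          exact h8.symm
        · rw [e V hjV]
          exact h7 V hV

theorem pg_ml [Infinite K] {n : ℕ} {Ω' : Type u} (c : ℕ → K) (r : ℕ) (U : Finset ℕ)
    (L : List (Fin n)) (hL : L.Nodup) (M : ℕ) (G : Ω' → MvPolynomial (Fin n) K) (hD : DB G)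
    (h : PG M (fun ω => MRG.ml c r U 0 L (G ω))) : PG M G := by
  obtain ⟨π, hπ⟩ := vars_el1 c r U L hL 0
  exact pg_aeval π _ hπ M G hD h

theorem gst [CharZero K] {n : ℕ} {Ω' : Type u} (r κ : ℕ) (L : List (Fin n)) (hL : L.Nodup)
    (G : Ω' → MvPolynomial (Fin n) K) (hG : G ≠ 0) (hD : DB G) :
    PG ((r + 1) ^ (κ + 1)) G ∨ ∃ U ⊆ Finset.range (L.length / 2), U.card ≤ κ ∧
      ∀ V : Finset ℕ, U ⊆ V → (fun ω => MRG.ml (cc K) r V 0 L (G ω)) ≠ 0 := by
  obtain ⟨U, P, h1, h2, h3, h4, h5, h6, h7⟩ := greedyF (cc K) r L hL 0 G hG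
  by_cases hU : U.card ≤ κ
  · right
    refine ⟨U, fun i hi => ?_, hU, h7⟩
    have := h3 i hi
    rw [Finset.mem_range]
    omega
  · left
    have hDB : DB (fun ω => MRG.ml (cc K) r U 0 L (G ω)) := db_aeval _ G hD
    have h8 := pg_pairs r (fun ω => MRG.ml (cc K) r U 0 L (G ω)) h1 hDB P h4 h6
    have h9 : PG ((r + 1) ^ (κ + 1)) (fun ω => MRG.ml (cc K) r U 0 L (G ω)) := by
      refine good_mono ?_ h8
      refine Nat.pow_le_pow_right (by omega) ?_
      omega
    exact pg_ml (cc K) r U L hL _ G hD h9

end Pool.Agent.FOR
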