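import Pool.Agent.FOR.Defs

/-!
MODULE FOR-NSz (est. 0.6 h).  Basic facts on the sizes.

PLAN.  `wt_le`: `wt (w^2) w i ≤ w ^ 7` for `i < w`, where `w = sz (j + 1) ≥ 2 ^ 32`:
`(w²+1)(w³+1)(w-1)² + (w²+1)(w-1) + 1 ≤ w⁷` (put `w = v + 1`, `i ≤ v`, `nlinarith`/`ring_nf`).
`J1_le`: `J1 j + 1 = (lg j + 1) * w + 1 ≤ w²`, as `lg j + 2 ≤ 2 ^ lg j ≤ w` (`Nat.lt_two_pow_self`).
`hds_range`, `hds_nodup`: induction on `l`, cases on `s`.  `hds_fi_nodup`: `fi j` is injective on the
numbers `< sz j = 2 ^ lg j` (`List.Nodup.map_on`).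
-/

set_option autoImplicit false

namespace Pool.Agent.FOR

open Pool.Agent.MRG (wt)

theorem lg_succ (j : ℕ) : lg (j + 1) = 2 * lg j := by
  unfold lg
  rw [pow_succ]
  ring

theorem sz_succ (j : ℕ) : sz (j + 1) = sz j ^ 2 := by
  unfold sz
  rw [lg_succ, mul_comm, pow_mul]

theorem lg_ge (j : ℕ) : 16 ≤ lg j := by
  unfold lg
  have h : 0 < 2 ^ j := by positivity
  omega

theorem sz_ge (j : ℕ) : 2 ^ 16 ≤ sz j := Nat.pow_le_pow_right (by norm_num) (lg_ge j)

theorem wt_le (j i : ℕ) (hi : i < sz (j + 1)) :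
    wt (sz (j + 1) ^ 2) (sz (j + 1)) i ≤ sz (j + 1) ^ 7 := by
  generalize sz (j + 1) = w at hi
  obtain ⟨v, rfl⟩ : ∃ v, w = v + 1 := ⟨w - 1, by omega⟩
  have hiv : i ≤ v := by omega
  have h2 : i ^ 2 ≤ v ^ 2 := Nat.pow_le_pow_left hiv 2
  unfold wt
  calc 1 + ((v + 1) ^ 2 + 1) * i + ((v + 1) ^ 2 + 1) * ((v + 1) * (v + 1) ^ 2 + 1) * i ^ 2
      ≤ 1 + ((v + 1) ^ 2 + 1) * v + ((v + 1) ^ 2 + 1) * ((v + 1) * (v + 1) ^ 2 + 1) * v ^ 2 := by
        gcongr
    _ ≤ (1 + ((v + 1) ^ 2 + 1) * v + ((v + 1) ^ 2 + 1) * ((v + 1) * (v + 1) ^ 2 + 1) * v ^ 2)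
        + (2 * (v + 1) ^ 5 * v + (v + 1) ^ 2 * (v ^ 2 + 2 * v) + v) := Nat.le_add_right _ _
    _ = (v + 1) ^ 7 := by ring

theorem J1_le (j : ℕ) : J1 j + 1 ≤ sz (j + 1) ^ 2 := by
  have h1 : lg j + 1 ≤ sz j := Nat.lt_two_pow_self
  have h2 : 2 ^ 16 ≤ sz j := sz_ge j
  rw [sz_succ]
  unfold J1
  generalize lg j = a at h1
  generalize sz j = s at h1 h2
  have h3 : (a + 1) * s ^ 2 ≤ s * s ^ 2 := Nat.mul_le_mul_right _ h1
  have h4 : s * s ^ 2 + 1 ≤ s ^ 2 * s ^ 2 := by
    obtain ⟨u, rfl⟩ : ∃ u, s = u + 2 := ⟨s - 2, by omega⟩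
    nlinarith [Nat.zero_le u, Nat.zero_le (u ^ 2), Nat.zero_le (u ^ 3), Nat.zero_le (u ^ 4)]
  calc (a + 1) * s ^ 2 + 1 ≤ s * s ^ 2 + 1 := by omega
    _ ≤ s ^ 2 * s ^ 2 := h4
    _ = (s ^ 2) ^ 2 := by ring

theorem hds_range (l : ℕ) : ∀ (a : ℕ) (s : List Bool), ∀ b ∈ hds l a s, a ≤ b ∧ b < a + 2 ^ l := by
  induction l with
  | zero =>
    intro a s b hb
    simp only [hds, List.mem_singleton] at hb
    subst hb
    simp
  | succ l ih =>
    intro a s b hb
    have hp : 0 < 2 ^ l := by positivity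
    have hs : 2 ^ (l + 1) = 2 ^ l + 2 ^ l := by rw [pow_succ]; ring
    rw [hs]
    match s with
    | [] =>
      simp only [hds, List.mem_singleton] at hb
      omega
    | false :: s =>
      simp only [hds, List.mem_cons] at hb
      rcases hb with hb | hb
      · omega
      · have := ih a s b hb
        omega
    | true :: s =>
      simp only [hds, List.mem_cons] at hb
      rcases hb with hb | hb
      · omega
      · have := ih (a + 2 ^ l) s b hb
        omega

theorem hds_nodup (l : ℕ) : ∀ (a : ℕ) (s : List Bool), (hds l a s).Nodup := by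
  induction l with
  | zero =>
    intro a s
    simp only [hds]
    exact List.nodup_singleton a
  | succ l ih =>
    intro a s
    have hp : 0 < 2 ^ l := by positivity
    match s with
    | [] =>
      simp only [hds]
      exact List.nodup_singleton a
    | false :: s =>
      simp only [hds]
      refine List.nodup_cons.2 ⟨fun hb => ?_, ih a s⟩
      have := hds_range l a s _ hb
      omega
    | true :: s =>
      simp only [hds]
      refine List.nodup_cons.2 ⟨fun hb => ?_, ih (a + 2 ^ l) s⟩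
      have := hds_range l (a + 2 ^ l) s _ hb
      omega

theorem hds_length (l : ℕ) : ∀ (a : ℕ) (s : List Bool), (hds l a s).length ≤ l + 1 := by
  induction l with
  | zero =>
    intro a s
    simp only [hds, List.length_singleton]
    omega
  | succ l ih =>
    intro a s
    match s with
    | [] =>
      simp only [hds, List.length_singleton]
      omega
    | false :: s =>
      simp only [hds, List.length_cons]
      have := ih a s
      omega
    | true :: s =>
      simp only [hds, List.length_cons]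
      have := ih (a + 2 ^ l) s
      omega

theorem hds_fi_nodup (j : ℕ) (s : List Bool) : ((hds (lg j) 0 s).map (fi j)).Nodup := by
  refine List.Nodup.map_on ?_ (hds_nodup (lg j) 0 s)
  intro x hx y hy hxy
  have h1 := (hds_range (lg j) 0 s x hx).2
  have h2 := (hds_range (lg j) 0 s y hy).2
  have h3 : 0 + 2 ^ lg j = sz j := by
    rw [zero_add]
    rfl
  rw [h3] at h1 h2
  have h4 := congrArg Fin.val hxy
  simp only [fi] at h4
  rwa [Nat.mod_eq_of_lt h1, Nat.mod_eq_of_lt h2] at h4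

end Pool.Agent.FOR
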