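import Pool.Agent.FOR.LS
import Pool.Agent.FOR.Rc
import Pool.Agent.FOR.NSz
import Pool.Agent.AOI.LowT
import Pool.Agent.AOI.PsA
import Pool.Agent.AOR.HashB
import Pool.Agent.MRG.Iso

/-!
MODULE FOR-HI.  Shift, hashing and isolation: down to `sz j` variables.
-/

set_option autoImplicit false

namespace Pool.Agent.FOR

open MvPolynomial

universe u

variable {K : Type u} [Field K] [CharZero K]

theorem tw_sq (j : ℕ) : tw j ^ 2 = sz j := by
  unfold tw sz lg
  rw [← pow_mul]
  congr 1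
  ring

private theorem HI_tw_ge (j : ℕ) : 256 ≤ tw j := by
  unfold tw
  have h : 0 < 2 ^ j := by positivity
  calc 256 = 2 ^ 8 := by norm_num
    _ ≤ 2 ^ (8 * 2 ^ j) := Nat.pow_le_pow_right (by norm_num) (by omega)

theorem choose_tw (j : ℕ) : sz (j + 1) + 1 ≤ (tw j + 1).choose 5 := by
  have h1 : sz (j + 1) = tw j ^ 4 := by
    rw [sz_succ, ← tw_sq, ← pow_mul]
  rw [h1]
  obtain ⟨v, hv⟩ : ∃ v, tw j = v + 256 := ⟨tw j - 256, by have := HI_tw_ge j; omega⟩
  rw [hv]
  have h2 := Nat.descFactorial_eq_factorial_mul_choose (v + 256 + 1) 5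
  have h3 : (v + 256 + 1).descFactorial 5 =
      (v + 253) * ((v + 254) * ((v + 255) * ((v + 256) * (v + 257)))) := by
    simp only [Nat.descFactorial_succ, Nat.descFactorial_zero, mul_one]
    have e1 : v + 256 + 1 - 4 = v + 253 := by omega
    have e2 : v + 256 + 1 - 3 = v + 254 := by omega
    have e3 : v + 256 + 1 - 2 = v + 255 := by omega
    have e4 : v + 256 + 1 - 1 = v + 256 := by omega
    have e5 : v + 256 + 1 - 0 = v + 257 := by omega
    rw [e1, e2, e3, e4, e5]
  have h5 : Nat.factorial 5 = 120 := by decide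
  rw [h3, h5] at h2
  have h6 : 120 * ((v + 256) ^ 4 + 1) ≤
      (v + 253) * ((v + 254) * ((v + 255) * ((v + 256) * (v + 257)))) := by
    have h7 : (v + 253) * ((v + 254) * ((v + 255) * ((v + 256) * (v + 257)))) =
        120 * ((v + 256) ^ 4 + 1) + (v^5 + 1155*v^4 + 527365*v^3 + 118624005*v^2 + 13087214074*v + 562724927880) := by
      ring
    rw [h7]
    exact Nat.le_add_right _ _
  omega

omit [CharZero K] in
private theorem HI_deg {σ τ : Type*} [Fintype σ] (g : σ → MvPolynomial τ K) (e : ℕ)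
    (hg : ∀ i, (g i).totalDegree ≤ e) (f : MvPolynomial σ K) :
    (aeval g f).totalDegree ≤ f.totalDegree * e := by
  rw [aeval_def, eval₂_eq']
  refine (totalDegree_finsetSum_le fun d hd => ?_)
  have h1 : ∑ i, d i ≤ f.totalDegree := by
    have := le_totalDegree hd
    rwa [Finsupp.sum_fintype _ _ (fun _ => rfl)] at this
  calc (algebraMap K (MvPolynomial τ K) (f.coeff d) * ∏ i, g i ^ d i).totalDegree
      ≤ (algebraMap K (MvPolynomial τ K) (f.coeff d)).totalDegree + (∏ i, g i ^ d i).totalDegree :=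
        totalDegree_mul _ _
    _ = (∏ i, g i ^ d i).totalDegree := by rw [algebraMap_eq, totalDegree_C, zero_add]
    _ ≤ ∑ i, (g i ^ d i).totalDegree := totalDegree_finsetProd _ _
    _ ≤ ∑ i, d i * e := Finset.sum_le_sum fun i _ =>
        (totalDegree_pow _ _).trans (Nat.mul_le_mul_left _ (hg i))
    _ = (∑ i, d i) * e := by rw [Finset.sum_mul]
    _ ≤ f.totalDegree * e := Nat.mul_le_mul_right _ h1

omit [CharZero K] in
private theorem HI_sh_deg {n : ℕ} (f : MvPolynomial (Fin n) K) (P : Fin n → K) :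
    (AOI.sh f P).totalDegree ≤ f.totalDegree := by
  have h1 := HI_deg (fun i => (C (P i) + X i : MvPolynomial (Fin n) K)) 1 (fun i => by
    refine (totalDegree_add _ _).trans ?_
    rw [totalDegree_C, totalDegree_X]
    simp) f
  rw [mul_one] at h1
  exact h1

theorem hi {Ω' : Type u} (j : ℕ) (G : Ω' → MvPolynomial (Fin (sz (j + 1))) K) (hG : G ≠ 0)
    (hD : ∀ ω, (G ω).totalDegree ≤ sz (j + 1) ^ 2) :
    PG (sz (j + 1) + 1) G ∨ ∃ p ≤ 2 * sz (j + 1), ∃ a ≤ 2 * sz (j + 1), ∃ (σ : ℕ → K) (ω : Ω'),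
      aeval (hsub K j p a σ) (G ω) ≠ 0 := by
  classical
  rcases ls 5 (tw j) (sz (j + 1) + 1) (choose_tw j) G hG with h | ⟨T, s, ω, hT, hne⟩
  · exact Or.inl h
  · right
    obtain ⟨c, hcT, hc⟩ := AOI.exists_coeff_sh (G ω) (fun i : Fin (sz (j + 1)) =>
      ell ((i : ℕ) : K) s) T hne
    obtain ⟨p, hp, a, ha, hinj⟩ := AOR.level_zero (sz (j + 1)) (tw j) c.support
      ((Finset.card_le_card hcT).trans hT)
    rw [tw_sq] at hinj
    refine ⟨p, hp, a, ha, fun k => if h : k < 5 then s ⟨k, h⟩ else 0, ω, ?_⟩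
    have h1 := MRG.iso (AOI.sh (G ω) (fun i : Fin (sz (j + 1)) => ell ((i : ℕ) : K) s))
      ((HI_sh_deg _ _).trans (hD ω)) c hc
      (fun i : Fin (sz (j + 1)) => fi j (AOR.bucket p a (sz j) (i : ℕ))) (by
        intro x hx y hy hxy
        apply hinj hx hy
        have h2 := congrArg Fin.val hxy
        simp only [fi] at h2
        have h4 : ∀ z : ℕ, AOR.bucket p a (sz j) z % sz j = AOR.bucket p a (sz j) z := fun z =>
          Nat.mod_eq_of_lt (Nat.mod_lt _ (sz_pos j))
        rw [h4, h4] at h2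
        exact h2)
    intro h0
    apply h1
    rw [← h0]
    unfold AOI.sh
    rw [comp_aeval_apply]
    have h3 : (fun i : Fin (sz (j + 1)) => aeval (fun i : Fin (sz (j + 1)) =>
        (X (fi j (AOR.bucket p a (sz j) (i : ℕ))) : MvPolynomial (Fin (sz j)) K) ^
          MRG.wt (sz (j + 1) ^ 2) (sz (j + 1)) (i : ℕ)) (C (ell ((i : ℕ) : K) s) + X i)) =
        hsub K j p a (fun k => if h : k < 5 then s ⟨k, h⟩ else 0) := by
      funext i
      rw [map_add, aeval_X, aeval_C]
      unfold hsub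
      rw [algebraMap_eq]
      have h5 : ell ((i : ℕ) : K) s = ∑ k ∈ Finset.range 5,
          (if h : k < 5 then s ⟨k, h⟩ else 0) * ((i : ℕ) : K) ^ k := by
        rw [← Fin.sum_univ_eq_sum_range
          (fun k => (if h : k < 5 then s ⟨k, h⟩ else 0) * ((i : ℕ) : K) ^ k) 5]
        unfold ell
        exact Finset.sum_congr rfl fun k _ => by simp only [k.2, dif_pos]
      rw [h5]
    rw [h3]

end Pool.Agent.FOR
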