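import Mathlib

/-!
MODULE FOR-Hm (est. 0.7 h).  The coefficient of `e^m` of `p (s + e y)`.

PLAN.  `hom_coeff`: induction on `p` (`MvPolynomial.induction_on`): for `p * X i` the coefficient of
`e^m` is `s * coeff m + X i * coeff (m - 1)` with homogeneous parts; prove for all `m` at once
(`IsHomogeneous.add`, `.mul`, `isHomogeneous_X`, `isHomogeneous_C`, `Polynomial.coeff_X_mul'`..).
`Hm_isHomogeneous`: the same with the coefficient ring `K[X]`.  `Hm_eval₂`: both sides are the
coefficient of `e^m` of the images of `p` under two ring homomorphisms `MvPolynomial (Fin n) K → R'[X]`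
which agree on `C a` and on `X i` (`MvPolynomial.ringHom_ext`): the left one is
`Polynomial.mapRingHom (eval₂Hom φ y)` after the `aeval` in `Hm`, `Polynomial.coeff_map`.
-/

set_option autoImplicit false

namespace Pool.Agent.FOR

open MvPolynomial

variable {K : Type*} [Field K]

private theorem hm_gen {n : ℕ} {A : Type*} [CommRing A] [Algebra K A] (s : A) (p : MvPolynomial (Fin n) K) :
    ∀ m : ℕ, ((aeval (fun i : Fin n => (Polynomial.C (C s) + Polynomial.X * Polynomial.C (X i) :
      Polynomial (MvPolynomial (Fin n) A))) p).coeff m).IsHomogeneous m := by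
  induction p using MvPolynomial.induction_on with
  | C a =>
    intro m
    have e : (aeval (fun i : Fin n => (Polynomial.C (C s) + Polynomial.X * Polynomial.C (X i) :
      Polynomial (MvPolynomial (Fin n) A))) (C a : MvPolynomial (Fin n) K)) =
        Polynomial.C (C (algebraMap K A a)) := by
      rw [aeval_C]
      rfl
    rw [e, Polynomial.coeff_C]
    by_cases h : m = 0
    · rw [if_pos h, h]
      exact isHomogeneous_C _ _
    · rw [if_neg h]
      exact isHomogeneous_zero _ _ _
  | add p q hp hq =>
    intro m
    rw [map_add, Polynomial.coeff_add]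
    exact (hp m).add (hq m)
  | mul_X p i hp =>
    intro m
    have e : (aeval (fun i : Fin n => (Polynomial.C (C s) + Polynomial.X * Polynomial.C (X i) :
      Polynomial (MvPolynomial (Fin n) A))) (p * X i)) =
        (aeval (fun i : Fin n => (Polynomial.C (C s) + Polynomial.X * Polynomial.C (X i) :
      Polynomial (MvPolynomial (Fin n) A))) p) * Polynomial.C (C s) +
        (aeval (fun i : Fin n => (Polynomial.C (C s) + Polynomial.X * Polynomial.C (X i) :
      Polynomial (MvPolynomial (Fin n) A))) p) * Polynomial.X * Polynomial.C (X i) := by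
      rw [map_mul, aeval_X]
      ring
    rw [e, Polynomial.coeff_add, Polynomial.coeff_mul_C, Polynomial.coeff_mul_C]
    refine IsHomogeneous.add ?_ ?_
    · have h := (hp m).mul (isHomogeneous_C (Fin n) s)
      rwa [add_zero] at h
    · cases m with
      | zero =>
        rw [Polynomial.mul_coeff_zero, Polynomial.coeff_X_zero, mul_zero, zero_mul]
        exact isHomogeneous_zero _ _ _
      | succ m =>
        rw [Polynomial.coeff_mul_X]
        exact (hp m).mul (isHomogeneous_X _ _)

theorem hom_coeff {n : ℕ} (a : K) (p : MvPolynomial (Fin n) K) (m : ℕ) :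
    ((aeval (fun i : Fin n => (Polynomial.C (C a) + Polynomial.X * Polynomial.C (X i) :
      Polynomial (MvPolynomial (Fin n) K))) p).coeff m).IsHomogeneous m := by
  exact hm_gen a p m

/-- The coefficient of `e^m` of `p (s + e y)`, where `s` is the variable of the coefficient ring. -/
noncomputable def Hm {n : ℕ} (m : ℕ) (p : MvPolynomial (Fin n) K) :
    MvPolynomial (Fin n) (Polynomial K) :=
  (aeval (fun i : Fin n => (Polynomial.C (C Polynomial.X) + Polynomial.X * Polynomial.C (X i) :
    Polynomial (MvPolynomial (Fin n) (Polynomial K)))) p).coeff m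

theorem Hm_isHomogeneous {n : ℕ} (m : ℕ) (p : MvPolynomial (Fin n) K) :
    (Hm m p).IsHomogeneous m := by
  exact hm_gen Polynomial.X p m

theorem Hm_eval₂ {n : ℕ} {R' : Type*} [CommRing R'] (φ : Polynomial K →+* R') (y : Fin n → R')
    (m : ℕ) (p : MvPolynomial (Fin n) K) :
    eval₂ φ y (Hm m p) = (eval₂ (Polynomial.C.comp (φ.comp Polynomial.C))
      (fun i => Polynomial.C (φ Polynomial.X) + Polynomial.X * Polynomial.C (y i)) p :
        Polynomial R').coeff m := by
  have h : (Polynomial.mapRingHom (eval₂Hom φ y)).comp
      ((aeval (fun i : Fin n => (Polynomial.C (C Polynomial.X) + Polynomial.X * Polynomial.C (X i) :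
        Polynomial (MvPolynomial (Fin n) (Polynomial K)))) :
          MvPolynomial (Fin n) K →ₐ[K] Polynomial (MvPolynomial (Fin n) (Polynomial K))) :
        MvPolynomial (Fin n) K →+* Polynomial (MvPolynomial (Fin n) (Polynomial K))) =
      eval₂Hom (Polynomial.C.comp (φ.comp Polynomial.C))
        (fun i => Polynomial.C (φ Polynomial.X) + Polynomial.X * Polynomial.C (y i)) := by
    apply MvPolynomial.ringHom_ext
    · intro r
      have e : (aeval (fun i : Fin n => (Polynomial.C (C Polynomial.X) + Polynomial.X * Polynomial.C (X i) :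
        Polynomial (MvPolynomial (Fin n) (Polynomial K)))) (C r : MvPolynomial (Fin n) K)) =
          Polynomial.C (C (Polynomial.C r)) := by
        rw [aeval_C]
        rfl
      simp only [RingHom.comp_apply, RingHom.coe_coe]
      rw [e]
      simp
    · intro i
      simp
  have h2 := DFunLike.congr_fun h p
  have h3 : eval₂ φ y (Hm m p) = ((Polynomial.mapRingHom (eval₂Hom φ y))
      (aeval (fun i : Fin n => (Polynomial.C (C Polynomial.X) + Polynomial.X * Polynomial.C (X i) :
        Polynomial (MvPolynomial (Fin n) (Polynomial K)))) p)).coeff m := by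
    rw [Polynomial.coe_mapRingHom, Polynomial.coeff_map]
    rfl
  rw [h3]
  exact congrArg (fun f : Polynomial R' => f.coeff m) h2

/-- Kronecker substitution in two variables. -/
theorem kro_two (G : ℕ) (q : Polynomial (Polynomial K)) (hq : q.natDegree < G)
    (h : Polynomial.eval₂ (Polynomial.aeval (Polynomial.X ^ G : Polynomial K)).toRingHom
      Polynomial.X q = 0) : q = 0 := by
  have hG : 0 < G := lt_of_le_of_lt (Nat.zero_le _) hq
  ext j k
  rw [Polynomial.coeff_zero, Polynomial.coeff_zero]
  by_cases hj : j < G
  · rw [Polynomial.eval₂_eq_sum_range' _ hq] at h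
    have h1 := congrArg (fun f : Polynomial K => f.coeff (G * k + j)) h
    simp only [Polynomial.finsetSum_coeff, Polynomial.coeff_zero] at h1
    rw [Finset.sum_eq_single j] at h1
    · rw [← h1, Polynomial.coeff_mul_X_pow', if_pos (Nat.le_add_left _ _), Nat.add_sub_cancel]
      have e : (Polynomial.aeval (Polynomial.X ^ G : Polynomial K)).toRingHom (q.coeff j) =
          Polynomial.expand K G (q.coeff j) := by
        rw [Polynomial.expand_eq_comp_X_pow]
        rfl
      rw [e, Polynomial.coeff_expand hG, if_pos (Dvd.intro _ rfl), Nat.mul_div_cancel_left _ hG]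
    · intro i hi hij
      rw [Finset.mem_range] at hi
      rw [Polynomial.coeff_mul_X_pow']
      by_cases hle : i ≤ G * k + j
      · rw [if_pos hle]
        have e : (Polynomial.aeval (Polynomial.X ^ G : Polynomial K)).toRingHom (q.coeff i) =
            Polynomial.expand K G (q.coeff i) := by
          rw [Polynomial.expand_eq_comp_X_pow]
          rfl
        rw [e, Polynomial.coeff_expand hG, if_neg]
        rintro ⟨c, hc⟩
        have h2 : G * k + j = G * c + i := by omega
        have h3 : (G * k + j) % G = j := by
          rw [Nat.mul_add_mod, Nat.mod_eq_of_lt hj]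
        have h4 : (G * c + i) % G = i := by
          rw [Nat.mul_add_mod, Nat.mod_eq_of_lt hi]
        apply hij
        rw [← h3, ← h4, h2]
      · rw [if_neg hle]
    · intro hn
      exact absurd (Finset.mem_range.2 hj) hn
  · have e : q.coeff j = 0 := Polynomial.coeff_eq_zero_of_natDegree_lt (by omega)
    rw [e, Polynomial.coeff_zero]

end Pool.Agent.FOR
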