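import Mathlib

/-!
MODULE FOR-Kro.  Kronecker substitution: `m` goes to `X ^ (∑ i, m i * B ^ i)`, an injective map.
-/

set_option autoImplicit false

namespace Pool.Agent.FOR

open MvPolynomial

private theorem kro_inj {B : ℕ} : ∀ (n : ℕ) (f g : Fin (n + 1) → ℕ),
    (∀ i : Fin (n + 1), (i : ℕ) < n → f i < B) →
    (∀ i : Fin (n + 1), (i : ℕ) < n → g i < B) →
    ∑ i, f i * B ^ (i : ℕ) = ∑ i, g i * B ^ (i : ℕ) → f = g := by
  intro n
  induction n with
  | zero =>
    intro f g _ _ h
    funext i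
    have hi : i = 0 := Fin.ext (by have := i.isLt; simp only [Fin.val_zero]; omega)
    subst hi
    simpa using h
  | succ n ih =>
    intro f g hf hg h
    have hf0 : f 0 < B := hf 0 (by simp)
    have hg0 : g 0 < B := hg 0 (by simp)
    have hB : 0 < B := by omega
    have e1 : ∀ u : Fin (n + 1 + 1) → ℕ, ∑ i, u i * B ^ (i : ℕ)
        = u 0 + B * ∑ i : Fin (n + 1), u i.succ * B ^ (i : ℕ) := by
      intro u
      rw [Fin.sum_univ_succ, Finset.mul_sum]
      simp only [Fin.val_zero, pow_zero, mul_one, Fin.val_succ]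
      congr 1
      refine Finset.sum_congr rfl fun i _ => ?_
      rw [pow_succ]
      ring
    rw [e1 f, e1 g] at h
    have h0 : f 0 = g 0 := by
      have := congrArg (fun z => z % B) h
      simpa [Nat.add_mul_mod_self_left, Nat.mod_eq_of_lt hf0, Nat.mod_eq_of_lt hg0] using this
    rw [h0] at h
    have h1 := Nat.eq_of_mul_eq_mul_left hB (Nat.add_left_cancel h)
    have h2 := ih (fun i => f i.succ) (fun i => g i.succ)
      (fun i hi => hf i.succ (by rw [Fin.val_succ]; omega))
      (fun i hi => hg i.succ (by rw [Fin.val_succ]; omega)) h1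
    funext i
    refine Fin.cases h0 (fun j => congrFun h2 j) i

theorem kro {K : Type*} [Field K] {n B : ℕ} (q : MvPolynomial (Fin (n + 1)) K)
    (hq : ∀ i : Fin (n + 1), (i : ℕ) < n → q.degreeOf i < B)
    (h : aeval (fun i : Fin (n + 1) => (Polynomial.X : Polynomial K) ^ B ^ (i : ℕ)) q = 0) :
    q = 0 := by
  classical
  by_contra hne
  obtain ⟨m, hm⟩ := MvPolynomial.ne_zero_iff.mp hne
  have hms : m ∈ q.support := MvPolynomial.mem_support_iff.mpr hm
  have hlt : ∀ m' ∈ q.support, ∀ i : Fin (n + 1), (i : ℕ) < n → m' i < B := fun m' hm' i hi =>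
    lt_of_le_of_lt (MvPolynomial.monomial_le_degreeOf i hm') (hq i hi)
  have e : aeval (fun i : Fin (n + 1) => (Polynomial.X : Polynomial K) ^ B ^ (i : ℕ)) q
      = ∑ d ∈ q.support, Polynomial.C (coeff d q) *
        (Polynomial.X : Polynomial K) ^ (∑ i, d i * B ^ (i : ℕ)) := by
    rw [MvPolynomial.aeval_def, MvPolynomial.eval₂_eq']
    refine Finset.sum_congr rfl fun d _ => ?_
    congr 1
    rw [← Finset.prod_pow_eq_pow_sum]
    refine Finset.prod_congr rfl fun i _ => ?_
    rw [← pow_mul, mul_comm]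
  have h1 := congrArg (fun p : Polynomial K => p.coeff (∑ i, m i * B ^ (i : ℕ))) (e.symm.trans h)
  simp only [Polynomial.finsetSum_coeff, Polynomial.coeff_C_mul, Polynomial.coeff_X_pow,
    Polynomial.coeff_zero] at h1
  rw [Finset.sum_eq_single_of_mem m hms] at h1
  · simp at h1
    exact hm h1
  · intro b hb hbm
    rw [if_neg, mul_zero]
    intro hs
    exact hbm (DFunLike.coe_injective (kro_inj n m b (hlt m hms) (hlt b hb) hs)).symm

end Pool.Agent.FOR
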