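import Pool.Agent.FOR.AtC
import Pool.Agent.FOR.Cal
import Pool.Agent.AOI.Defs

/-!
MODULE FOR-LS (est. 1.2 h).  Low support after a shift by `ℓ_i(s) = ∑_k s_k i^k`, or a certificate.

PLAN.  For `T : Finset (Fin n)` let `θ_T (y, s) v = y ⟨v, _⟩` for `v ∈ T` and `ell (v : K) s` for
`v ∉ T`, where `(y, s) : ((T → K) × (Fin R → K))` (`T` as a type `{v // v ∈ T}`).  The function
`g_T (y, s) ω = eval (θ_T (y, s)) (G ω)`.  For `T = univ` it is not `0`.  Let `T` be a set of minimal
cardinality with `g_T ≠ 0` (well-founded minimum, `Nat.find` or `Finset.exists_min_image` over the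
powerset).
(1) `T.card ≤ τ`: there are `ω`, `(y, s)` with `g_T (y, s) ω ≠ 0`, which is
`eval y' (AOI.ps (G ω) (fun i => ell i s) T)` for `y'` extending `y`; so `ps ≠ 0`.
(2) `τ + 1 ≤ T.card`: `g_T (., ω) ∈ ellC R a`, `a v = (v : K)` (injective by `CharZero`): it is given by
the polynomial `aeval (..) (G ω)` in the variables `T ⊕ Fin R`, and if `y_i = ell i s` for some `i ∈ T`
then `θ_T (y, s) = θ_(T \ {i}) (y', s)` and `g_(T \ {i}) = 0` by minimality.  So `atomC` and
`good_of_atom` give `Good {mc} (T.card.choose R) g_T`, `good_of_step` with `step_subst θ_T`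
(`θ_T (mc p q) = mx T (θ_T p) (θ_T q)`), `good_mono`, `Nat.choose_le_choose`.
-/

set_option autoImplicit false

namespace Pool.Agent.FOR

open MvPolynomial

universe u

variable {K : Type u} [Field K] [CharZero K]

/-- the substitution -/
private noncomputable def lsT {n : ℕ} (R : ℕ) (T : Finset (Fin n))
    (p : ({v // v ∈ T} → K) × (Fin R → K)) (v : Fin n) : K :=
  if h : v ∈ T then p.1 ⟨v, h⟩ else ell ((v : ℕ) : K) p.2

private theorem ls_poly {n : ℕ} (R : ℕ) (T : Finset (Fin n)) (F : MvPolynomial (Fin n) K) :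
    ∃ p : MvPolynomial ({v // v ∈ T} ⊕ Fin R) K, ∀ y s,
      eval (lsT R T (y, s)) F = eval (Sum.elim y s) p := by
  refine ⟨aeval (fun v : Fin n => if h : v ∈ T then X (Sum.inl ⟨v, h⟩) else
    ∑ k : Fin R, X (Sum.inr k) * C (((v : ℕ) : K) ^ (k : ℕ))) F, fun y s => ?_⟩
  rw [← aeval_eq_eval, ← aeval_eq_eval, ← AlgHom.comp_apply, comp_aeval]
  congr 2
  funext v
  unfold lsT
  by_cases h : v ∈ T
  · rw [dif_pos h, dif_pos h, aeval_X]
    rfl
  · rw [dif_neg h, dif_neg h, map_sum]
    unfold ell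
    exact Finset.sum_congr rfl fun k _ => by rw [map_mul, aeval_X, aeval_C]; rfl

private theorem ls_ps {n : ℕ} (R : ℕ) (T : Finset (Fin n)) (F : MvPolynomial (Fin n) K)
    (p : ({v // v ∈ T} → K) × (Fin R → K)) (h : eval (lsT R T p) F ≠ 0) :
    AOI.ps F (fun i : Fin n => ell ((i : ℕ) : K) p.2) T ≠ 0 := by
  intro h0
  apply h
  have h1 : eval (fun v : Fin n => if h : v ∈ T then p.1 ⟨v, h⟩ else 0)
      (AOI.ps F (fun i : Fin n => ell ((i : ℕ) : K) p.2) T) = eval (lsT R T p) F := by
    unfold AOI.ps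
    rw [← aeval_eq_eval, ← aeval_eq_eval, ← AlgHom.comp_apply, comp_aeval]
    congr 2
    funext v
    unfold lsT
    by_cases hv : v ∈ T
    · rw [if_pos hv, dif_pos hv, aeval_X, dif_pos hv]
    · rw [if_neg hv, dif_neg hv, aeval_C]
      rfl
  rw [← h1, h0, map_zero]

theorem ls {n : ℕ} {Ω' : Type u} (R τ m : ℕ) (hm : m ≤ (τ + 1).choose R)
    (G : Ω' → MvPolynomial (Fin n) K) (hG : G ≠ 0) :
    PG m G ∨ ∃ (T : Finset (Fin n)) (s : Fin R → K) (ω : Ω'), T.card ≤ τ ∧
      AOI.ps (G ω) (fun i : Fin n => ell ((i : ℕ) : K) s) T ≠ 0 := by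
  classical
  obtain ⟨ω₀, hω₀⟩ := Function.ne_iff.1 hG
  have huniv : (fun (p : ({v // v ∈ (Finset.univ : Finset (Fin n))} → K) × (Fin R → K)) (ω : Ω') =>
      eval (lsT R Finset.univ p) (G ω)) ≠ 0 := by
    intro h0
    apply hω₀
    refine funext fun x => ?_
    have h1 := congrFun (congrFun h0 (fun v => x v, 0)) ω₀
    have h2 : lsT R Finset.univ ((fun v => x v, 0) :
        ({v // v ∈ (Finset.univ : Finset (Fin n))} → K) × (Fin R → K)) = x := by
      funext v
      unfold lsT
      rw [dif_pos (Finset.mem_univ v)]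
    have h3 : eval (lsT R Finset.univ ((fun v => x v, 0) :
        ({v // v ∈ (Finset.univ : Finset (Fin n))} → K) × (Fin R → K))) (G ω₀) = 0 := h1
    rw [h2] at h3
    rw [h3]
    exact (map_zero _).symm
  obtain ⟨T, hT, hmin⟩ := Finset.exists_min_image
    (Finset.univ.filter fun T : Finset (Fin n) =>
      (fun (p : ({v // v ∈ T} → K) × (Fin R → K)) (ω : Ω') => eval (lsT R T p) (G ω)) ≠ 0)
    Finset.card ⟨Finset.univ, Finset.mem_filter.2 ⟨Finset.mem_univ _, huniv⟩⟩
  have hT' := (Finset.mem_filter.1 hT).2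
  by_cases hc : T.card ≤ τ
  · right
    obtain ⟨p, hp⟩ := Function.ne_iff.1 hT'
    obtain ⟨ω, hω⟩ := Function.ne_iff.1 hp
    exact ⟨T, p.2, ω, hc, ls_ps R T (G ω) p hω⟩
  · left
    have ha : Function.Injective (fun v : {v // v ∈ T} => ((((v : Fin n) : ℕ) : K))) := by
      intro v v' h
      exact Subtype.ext (Fin.ext (Nat.cast_injective h))
    have hA := atomC R (fun v : {v // v ∈ T} => ((((v : Fin n) : ℕ) : K))) ha
    have hg := good_of_atom hA (fun p (ω : Ω') => eval (lsT R T p) (G ω)) hT' (by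
      intro ω
      refine ⟨ls_poly R T (G ω), fun y s i hi => ?_⟩
      have he : (fun (p : ({v // v ∈ T.erase i} → K) × (Fin R → K)) (ω : Ω') =>
          eval (lsT R (T.erase i) p) (G ω)) = 0 := by
        by_contra hne
        have h1 := hmin (T.erase i) (Finset.mem_filter.2 ⟨Finset.mem_univ _, hne⟩)
        have h2 := Finset.card_erase_lt_of_mem i.2
        omega
      have h3 : eval (lsT R (T.erase i) (fun v => y ⟨v, Finset.mem_of_mem_erase v.2⟩, s)) (G ω) = 0 :=
        congrFun (congrFun he (fun v => y ⟨v, Finset.mem_of_mem_erase v.2⟩, s)) ω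
      have h4 : lsT R (T.erase i) (fun v => y ⟨v, Finset.mem_of_mem_erase v.2⟩, s) =
          lsT R T (y, s) := by
        funext v
        unfold lsT
        by_cases hv : v ∈ T
        · by_cases hvi : v = i
          · rw [dif_neg (fun h => (Finset.mem_erase.1 h).1 hvi), dif_pos hv]
            subst hvi
            exact hi.symm
          · rw [dif_pos (Finset.mem_erase.2 ⟨hvi, hv⟩), dif_pos hv]
        · rw [dif_neg (fun h => hv (Finset.mem_of_mem_erase h)), dif_neg hv]
      rw [h4] at h3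
      exact h3)
    have hs := good_of_step (step_subst (S := cuts K (Fin n)) (S₁ := {mc}) (lsT R T) (by
      rintro σ₁ hσ₁
      rw [Set.mem_singleton_iff] at hσ₁
      subst hσ₁
      refine ⟨mx (T : Set (Fin n)), ⟨_, rfl⟩, fun a b => ?_⟩
      funext v
      unfold mx lsT mc
      by_cases hv : v ∈ T
      · rw [dif_pos hv, if_pos (Finset.mem_coe.2 hv), dif_pos hv]
      · rw [dif_neg hv, if_neg (fun h => hv (Finset.mem_coe.1 h)), dif_neg hv]) (fn G)) hg
    refine good_mono (hm.trans ?_) hs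
    rw [Fintype.card_coe]
    exact Nat.choose_le_choose R (by omega)

end Pool.Agent.FOR
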