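import Pool.Agent.FOR.NCon
import Pool.Agent.FOR.NLev
import Pool.Agent.FOR.Nt
import Pool.Agent.AOI.Main

/-!
MODULE FOR-NFin (est. 0.8 h).  From the generator to the points.

PLAN.  `grid_ne`: the polynomial `p = aeval (fun i => Ps j (X 0) (X 1) i) f` in two variables is
not zero, its degree in `X 0` is `≤ D sz^240` and in `X 1` it is `≤ D` (`le_fin` with
`dg_degreeOf K 0`, `dg_degreeOf K 1`).  So it does not vanish on the grid
`{0..D sz^240} × {0..D}` (e.g. `MvPolynomial.eq_zero_of_eval_zero_at_prod_finset`, or twice the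
one-variable fact); `CharZero K` makes the casts injective.  `eval` of `p` at the cast of a grid point
`(t, e)` is `eval (fun i => (Ps j t e i : ℕ)) f` by `map_Ps` (for `eval` and for `Nat.castRingHom K`).
`main_of_gen`: `f.totalDegree ≤ n * d` is `Pool.Agent.AOI.totalDegree_le`;
`n ≤ sz (lev (max n w))` by `le_sz_lev`.
-/

set_option autoImplicit false

namespace Pool.Agent.FOR

open MvPolynomial

theorem grid_ne {K : Type*} [Field K] [CharZero K] {n j D : ℕ} (hn : n ≤ sz j)
    (f : MvPolynomial (Fin n) K)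
    (h : aeval (fun i : Fin n => Ps j (X 0) (X 1) (i : ℕ)) f ≠ (0 : MvPolynomial (Fin 2) K))
    (hD : f.totalDegree ≤ D) :
    ∃ t ∈ Finset.range (D * sz j ^ 240 + 1), ∃ e ∈ Finset.range (D + 1),
      eval (fun i : Fin n => ((Ps j t e (i : ℕ) : ℕ) : K)) f ≠ 0 := by
  classical
  by_contra hcon
  have hcon' : ∀ t ∈ Finset.range (D * sz j ^ 240 + 1), ∀ e ∈ Finset.range (D + 1),
      eval (fun i : Fin n => ((Ps j t e (i : ℕ) : ℕ) : K)) f = 0 := by
    intro t ht e he
    by_contra hne
    exact hcon ⟨t, ht, e, he, hne⟩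
  apply h
  refine eq_zero_of_eval_zero_at_prod_finset _
    (fun i : Fin 2 => if i = 0 then (Finset.range (D * sz j ^ 240 + 1)).image (Nat.cast : ℕ → K)
      else (Finset.range (D + 1)).image (Nat.cast : ℕ → K)) ?_ ?_
  · have hK : ∀ (i : Fin 2) (c : K),
        (fun p : MvPolynomial (Fin 2) K => p.degreeOf i) (algebraMap K (MvPolynomial (Fin 2) K) c) =
          0 := by
      intro i c
      show degreeOf i (algebraMap K (MvPolynomial (Fin 2) K) c) = 0
      rw [algebraMap_eq, degreeOf_C]
    have hb : ∀ i : Fin 2, degreeOf i (aeval (fun i : Fin n =>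
        (Ps j (X 0) (X 1) (i : ℕ) : MvPolynomial (Fin 2) K)) f) ≤
        D * (sz j ^ 240 * degreeOf i (X 0 : MvPolynomial (Fin 2) K) +
          degreeOf i (X 1 : MvPolynomial (Fin 2) K)) := by
      intro i
      exact le_fin (dg_degreeOf K i) (hK i) j n D hn (X 0) (X 1) f hD
    have h0 : degreeOf (0 : Fin 2) (aeval (fun i : Fin n =>
        (Ps j (X 0) (X 1) (i : ℕ) : MvPolynomial (Fin 2) K)) f) ≤
        D * sz j ^ 240 := by
      refine (hb 0).trans (le_of_eq ?_)
      rw [degreeOf_X, degreeOf_X, if_pos rfl, if_neg (by decide)]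
      ring
    have h1 : degreeOf (1 : Fin 2) (aeval (fun i : Fin n =>
        (Ps j (X 0) (X 1) (i : ℕ) : MvPolynomial (Fin 2) K)) f) ≤ D := by
      refine (hb 1).trans (le_of_eq ?_)
      rw [degreeOf_X, degreeOf_X, if_neg (by decide), if_pos rfl]
      ring
    intro i
    have hi : i = 0 ∨ i = 1 := by
      rcases i with ⟨i, hi⟩
      have : i = 0 ∨ i = 1 := by omega
      rcases this with rfl | rfl
      · exact Or.inl rfl
      · exact Or.inr rfl
    rcases hi with rfl | rfl
    · rw [if_pos rfl, Finset.card_image_of_injective _ Nat.cast_injective, Finset.card_range]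
      exact Nat.lt_succ_of_le h0
    · rw [if_neg (by decide), Finset.card_image_of_injective _ Nat.cast_injective,
        Finset.card_range]
      exact Nat.lt_succ_of_le h1
  · intro x hx
    have h0 := hx 0
    have h1 := hx 1
    rw [if_pos rfl, Finset.mem_image] at h0
    rw [if_neg (by decide), Finset.mem_image] at h1
    obtain ⟨t, ht, htx⟩ := h0
    obtain ⟨e, he, hex⟩ := h1
    have h2 : eval x (aeval (fun i : Fin n => Ps j (X 0) (X 1) (i : ℕ)) f) =
        eval (fun i : Fin n => eval x (Ps j (X 0) (X 1) (i : ℕ))) f := by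
      have h3 := comp_aeval_apply (R := K) (fun i : Fin n => Ps j (X 0) (X 1) (i : ℕ))
        (aeval x : MvPolynomial (Fin 2) K →ₐ[K] K) f
      exact h3
    rw [h2, ← hcon' t ht e he]
    congr 2
    funext i
    rw [map_Ps (eval x), eval_X, eval_X, ← htx, ← hex]
    exact (map_Ps (Nat.castRingHom K) j t e (i : ℕ)).symm

theorem main_of_gen {K : Type*} [Field K] [CharZero K] {n D w : ℕ} (f : MvPolynomial (Fin n) K)
    (h : aeval (fun i : Fin n => Ps (lev (max n w)) (X 0) (X 1) (i : ℕ)) f ≠
      (0 : MvPolynomial (Fin 2) K)) (hD : f.totalDegree ≤ D) :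
    ∃ x ∈ points n D w, eval (fun i => ((x i : ℕ) : K)) f ≠ 0 := by
  obtain ⟨t, ht, e, he, hne⟩ := grid_ne ((le_max_left n w).trans (le_sz_lev (max n w))) f h hD
  exact ⟨_, Finset.mem_image.2 ⟨(e, t), Finset.mem_product.2 ⟨he, ht⟩, rfl⟩, hne⟩

end Pool.Agent.FOR
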