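import Pool.Agent.FOR.NPs

/-!
MODULE FOR-NCon (est. 0.5 h).  Consequences: the degree bounds which are used in the proof.

PLAN.  All are `aeval_le` with `dg_ys`, `dg_yp`, `dg_Ps`.  `lt_bs`: `w² * (w⁴ + max 1 (w⁷)) ≤ 2 w⁹ <
w^11 = bs j`.  `lt_G`: `w² * w^224 < w^240`.
-/

set_option autoImplicit false

namespace Pool.Agent.FOR

open MvPolynomial

variable {K R : Type*} [CommSemiring K] [CommSemiring R] [Algebra K R] {d : R → ℕ}

/-- Small degrees in all parameters except `z`. -/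
theorem lt_bs (h : Dg d) (hK : ∀ c : K, d (algebraMap K R c) = 0) (j : ℕ) (σ : ℕ → R) (e s z : R)
    (hσ : ∀ a < 5, d (σ a) ≤ 1) (he : d e ≤ 1) (hs : d s ≤ 1) (hz : d z = 0)
    (f : MvPolynomial (Fin (sz (j + 1))) K) (hf : f.totalDegree ≤ sz (j + 1) ^ 2) :
    d (aeval (fun i : Fin (sz (j + 1)) => ys j (Ps j) σ e s z (i : ℕ)) f) < bs j := by
  have hw : 2 ≤ sz (j + 1) := le_trans (by norm_num) (sz_ge (j + 1))
  have h1 : ∀ i : Fin (sz (j + 1)),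
      d (ys j (Ps j) σ e s z (i : ℕ)) ≤ sz (j + 1) ^ 4 + sz (j + 1) ^ 7 := by
    intro i
    have h2 := dg_ys h j (Ps j) (dg_Ps h j) σ 1 hσ e s z i i.2
    have h3 : sz (j + 1) ^ 4 * d s ≤ sz (j + 1) ^ 4 * 1 := Nat.mul_le_mul_left _ hs
    have h4 : sz (j + 1) ^ 7 * d e ≤ sz (j + 1) ^ 7 * 1 := Nat.mul_le_mul_left _ he
    have h5 : 1 ≤ sz (j + 1) ^ 7 := Nat.one_le_pow _ _ (by omega)
    have h6 : max 1 (sz (j + 1) ^ 146 * d z + sz (j + 1) ^ 7 * d e) ≤ sz (j + 1) ^ 7 := by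
      rw [hz, mul_zero, zero_add]
      exact max_le h5 (by omega)
    omega
  refine lt_of_le_of_lt (aeval_le h hK f _ _ hf _ h1) ?_
  unfold bs
  have h7 : sz (j + 1) ^ 4 ≤ sz (j + 1) ^ 7 := Nat.pow_le_pow_right (by omega) (by norm_num)
  have h8 : 0 < sz (j + 1) ^ 10 := Nat.pow_pos (by omega)
  calc sz (j + 1) ^ 2 * (sz (j + 1) ^ 4 + sz (j + 1) ^ 7)
      ≤ sz (j + 1) ^ 2 * (sz (j + 1) ^ 7 + sz (j + 1) ^ 7) :=
        Nat.mul_le_mul_left _ (Nat.add_le_add_right h7 _)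
    _ = sz (j + 1) ^ 9 * 2 := by ring
    _ ≤ sz (j + 1) ^ 9 * sz (j + 1) := Nat.mul_le_mul_left _ hw
    _ = sz (j + 1) ^ 10 := by ring
    _ < sz (j + 1) ^ 10 * sz (j + 1) := by nlinarith
    _ = sz (j + 1) ^ 11 := by ring

/-- The degree of the direction is small compared with `sz (j+1) ^ 240`. -/
theorem lt_G (h : Dg d) (hK : ∀ c : K, d (algebraMap K R c) = 0) (j : ℕ) (t : R) (ht : d t ≤ 1)
    (f : MvPolynomial (Fin (sz (j + 1))) K) (hf : f.totalDegree ≤ sz (j + 1) ^ 2) :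
    d (aeval (fun i : Fin (sz (j + 1)) => yp j (Ps j) t (i : ℕ)) f) < sz (j + 1) ^ 240 := by
  have hw : 2 ≤ sz (j + 1) := le_trans (by norm_num) (sz_ge (j + 1))
  have h1 : ∀ i : Fin (sz (j + 1)), d (yp j (Ps j) t (i : ℕ)) ≤ sz (j + 1) ^ 224 := by
    intro i
    have h2 := dg_yp h j (Ps j) (dg_Ps h j) t i i.2
    have h3 : sz (j + 1) ^ 224 * d t ≤ sz (j + 1) ^ 224 * 1 := Nat.mul_le_mul_left _ ht
    omega
  refine lt_of_le_of_lt (aeval_le h hK f _ _ hf _ h1) ?_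
  rw [← pow_add]
  exact Nat.pow_lt_pow_right (by omega) (by norm_num)

/-- The degree at the end. -/
theorem le_fin (h : Dg d) (hK : ∀ c : K, d (algebraMap K R c) = 0) (j n m : ℕ) (hn : n ≤ sz j)
    (t e : R) (f : MvPolynomial (Fin n) K) (hf : f.totalDegree ≤ m) :
    d (aeval (fun i : Fin n => Ps j t e (i : ℕ)) f) ≤ m * (sz j ^ 240 * d t + d e) :=
  aeval_le h hK f _ _ hf _ fun i => dg_Ps h j i (lt_of_lt_of_le i.2 hn) t e

end Pool.Agent.FOR
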