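import Pool.Agent.FOR.Di2
import Pool.Agent.FOR.Hm
import Pool.Agent.FOR.Nt
import Pool.Agent.FOR.Rc
import Pool.Agent.FOR.NCon

/-!
MODULE FOR-QfR (est. 1.5 h).  `Rf K j → Qf K (j + 1)`.

PLAN.  `w = sz (j+1)`, `G₀ = w^240`.  Given `G ≠ 0` with `Fa (j+1) (G ω)` for all `ω`.  `dia` (w > 0):
`PG (w+1) G` or `c`, `ω`, `M ≤ w^2` with coefficient `≠ 0`; by `Hm_eval₂` (`φ = id`, `y i = C (c i)`)
`Hm M (G ω) ≠ 0`.  Let `m ≤ w^2` be the smallest number with `∃ ω, Hm m (G ω) ≠ 0`, and `ω₁` with this
property; choose `t₀ : K` with `map (Polynomial.evalRingHom t₀) (Hm m (G ω₁)) ≠ 0` (some coefficient in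
`K[X]` is not zero).  Let `H ω = (aeval (fun i => C (C t₀) + X * C (X i)) (G ω)).coeff m`, which is
`map (evalRingHom t₀) (Hm m (G ω))` (`Hm_eval₂` with `φ = C.comp (evalRingHom t₀)`, `y = X`), so
`H ω₁ ≠ 0`; the coefficients with `k < m` vanish; `pg_lowest` with `π = id`
(`(C (C t₀) + X * C (X i)).coeff k` has variables in `{i}`).  `hom_coeff`.
`hR` for `H`: remains `aeval (fun i => yp j (Ps j) X i) (H ω) = 0` in `K[X]`.  Let
`q = aeval (fun i => yp j (Ps j) X i) (Hm m (G ω)) : K[X][X]` (algebra over `K[X]`, `X` the outer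
variable): `q.natDegree < G₀` by `lt_G` (for the semirings `K[X]`, `K[X][X]`, `dg_natDegree`,
`Hm_isHomogeneous`).  `eval₂ (aeval (X^G₀)) X q = (aeval (cv K (j+1)) (G ω)).coeff m = 0`
(`Hm_eval₂` with `φ = aeval (X^G₀) : K[X] → K[X]`, `y i = yp j (Ps j) X i : K[X]`, and
`cv K (j+1) i = C (X ^ G₀) + X * C (yp j (Ps j) X i)` by definition of `Ps` and `map_yp`; the coefficient
`m < w^2 + 1` vanishes by `Fa`).  So `q = 0` by `kro_two`, and
`aeval (fun i => yp j (Ps j) X i) (H ω)` is the image of `q` under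
`Polynomial.mapRingHom (evalRingHom t₀)`.
-/

set_option autoImplicit false

namespace Pool.Agent.FOR

open MvPolynomial

universe u

private theorem hmA {K : Type*} [Field K] {n : ℕ} {R' : Type*} [CommRing R'] [Algebra K R']
    (φ : Polynomial K →+* R') (hφ : φ.comp Polynomial.C = algebraMap K R') (y : Fin n → R') (m : ℕ)
    (p : MvPolynomial (Fin n) K) :
    (aeval (fun i => (Polynomial.C (φ Polynomial.X) + Polynomial.X * Polynomial.C (y i) :
      Polynomial R')) p).coeff m = eval₂ φ y (Hm m p) := by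
  rw [Hm_eval₂, aeval_def, hφ]
  rfl

private theorem cv_succ (K : Type u) [Field K] (j : ℕ) (i : Fin (sz (j + 1))) :
    cv K (j + 1) i = Polynomial.C (Polynomial.X ^ sz (j + 1) ^ 240) +
      Polynomial.X * Polynomial.C (yp j (Ps j) (Polynomial.X : Polynomial K) (i : ℕ)) := by
  unfold cv
  have h2 := map_yp (Polynomial.C : Polynomial K →+* Polynomial (Polynomial K)) j (Ps j) (Ps j)
    (fun t e b => map_Ps (Polynomial.C : Polynomial K →+* Polynomial (Polynomial K)) j t e b)
    Polynomial.X (i : ℕ)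
  rw [h2, map_pow]
  simp only [Ps]

private theorem hom_zero {K : Type*} [Field K] (j m : ℕ) (hm : m ≤ sz (j + 1) ^ 2)
    (p : MvPolynomial (Fin (sz (j + 1))) K)
    (h : (aeval (fun i : Fin (sz (j + 1)) => (Polynomial.C (Polynomial.X ^ sz (j + 1) ^ 240) +
      Polynomial.X * Polynomial.C (yp j (Ps j) (Polynomial.X : Polynomial K) (i : ℕ)) :
        Polynomial (Polynomial K))) p).coeff m = 0) :
    aeval (fun i : Fin (sz (j + 1)) => yp j (Ps j)
      (Polynomial.X : Polynomial (Polynomial K)) (i : ℕ)) (Hm m p) = 0 := by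
  set ψ : Polynomial K →+* Polynomial K :=
    (Polynomial.aeval (Polynomial.X ^ sz (j + 1) ^ 240 : Polynomial K)).toRingHom with hψ
  have hψX : ψ Polynomial.X = Polynomial.X ^ sz (j + 1) ^ 240 := by
    rw [hψ]
    exact Polynomial.aeval_X _
  have hψC : ψ.comp Polynomial.C = algebraMap K (Polynomial K) := by
    ext a
    rw [hψ]
    simp
  refine kro_two (sz (j + 1) ^ 240) _ ?_ ?_
  · refine lt_G (K := Polynomial K) (R := Polynomial (Polynomial K))
      (dg_natDegree (Polynomial K)) ?_ j Polynomial.X Polynomial.natDegree_X_le _ ?_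
    · intro c
      exact Polynomial.natDegree_C c
    · exact (Hm_isHomogeneous m p).totalDegree_le.trans hm
  · have h1 := hmA ψ hψC (fun i : Fin (sz (j + 1)) => yp j (Ps j)
      (Polynomial.X : Polynomial K) (i : ℕ)) m p
    rw [hψX, h] at h1
    have h2 : Polynomial.eval₂ ψ Polynomial.X (aeval (fun i : Fin (sz (j + 1)) => yp j (Ps j)
        (Polynomial.X : Polynomial (Polynomial K)) (i : ℕ)) (Hm m p)) =
        eval₂ ψ (fun i : Fin (sz (j + 1)) => yp j (Ps j) (Polynomial.X : Polynomial K) (i : ℕ))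
          (Hm m p) := by
      have h3 : ∀ i : ℕ, (Polynomial.eval₂RingHom ψ (Polynomial.X : Polynomial K))
          (yp j (Ps j) (Polynomial.X : Polynomial (Polynomial K)) i) =
          yp j (Ps j) (Polynomial.X : Polynomial K) i := by
        intro i
        rw [map_yp (Polynomial.eval₂RingHom ψ (Polynomial.X : Polynomial K)) j (Ps j) (Ps j)
          (fun t e b => map_Ps _ j t e b)]
        rw [Polynomial.coe_eval₂RingHom, Polynomial.eval₂_X]
      have h4 : Polynomial.eval₂ ψ Polynomial.X (aeval (fun i : Fin (sz (j + 1)) => yp j (Ps j)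
          (Polynomial.X : Polynomial (Polynomial K)) (i : ℕ)) (Hm m p)) =
          (Polynomial.eval₂RingHom ψ (Polynomial.X : Polynomial K))
            (eval₂ Polynomial.C (fun i : Fin (sz (j + 1)) => yp j (Ps j)
              (Polynomial.X : Polynomial (Polynomial K)) (i : ℕ)) (Hm m p)) := rfl
      rw [h4, eval₂_comp_left]
      have h5 : (Polynomial.eval₂RingHom ψ (Polynomial.X : Polynomial K)).comp Polynomial.C = ψ := by
        ext a <;> simp
      rw [h5]
      congr 1
      funext i
      exact h3 i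
    rw [h2, ← h1]

theorem qf_succ (K : Type u) [Field K] [CharZero K] (j : ℕ) (hR : Rf K j) : Qf K (j + 1) := by
  classical
  intro Ω' G hG hD hF
  have hw : 0 < sz (j + 1) := sz_pos _
  rcases dia hw G hG hD with h | ⟨c, ω, M, hM, hc⟩
  · exact h
  have hHM : Hm M (G ω) ≠ 0 := by
    intro h0
    apply hc
    have h1 := hmA (RingHom.id (Polynomial K)) rfl (fun i => Polynomial.C (c i)) M (G ω)
    rw [h0, eval₂_zero] at h1
    exact h1
  have hex : ∃ m, ∃ ω, Hm m (G ω) ≠ 0 := ⟨M, ω, hHM⟩
  obtain ⟨m, hm, hmin⟩ : ∃ m, (∃ ω, Hm m (G ω) ≠ 0) ∧ ∀ k < m, ∀ ω, Hm k (G ω) = 0 := by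
    refine ⟨Nat.find hex, Nat.find_spec hex, fun k hk ω => ?_⟩
    by_contra h
    exact Nat.find_min hex hk ⟨ω, h⟩
  obtain ⟨ω₁, hω₁⟩ := hm
  have hmM : m ≤ sz (j + 1) ^ 2 := by
    refine le_trans ?_ hM
    by_contra h
    exact hHM (hmin M (not_le.1 h) ω)
  obtain ⟨t₀, ht₀⟩ : ∃ t₀ : K, map (Polynomial.evalRingHom t₀) (Hm m (G ω₁)) ≠ 0 := by
    obtain ⟨e, he⟩ := ne_zero_iff.1 hω₁
    by_contra hcon
    push Not at hcon
    apply he
    refine Polynomial.funext fun r => ?_
    have h1 := congrArg (coeff e) (hcon r)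
    rw [coeff_map, coeff_zero] at h1
    rw [Polynomial.eval_zero]
    exact h1
  set θ : Fin (sz (j + 1)) → Polynomial (MvPolynomial (Fin (sz (j + 1))) K) := fun i =>
    Polynomial.C (C t₀) + Polynomial.X * Polynomial.C (X i) with hθdef
  have hH : ∀ k ω, (aeval θ (G ω)).coeff k = map (Polynomial.evalRingHom t₀) (Hm k (G ω)) := by
    intro k ω
    have h1 := hmA (K := K) ((C : K →+* MvPolynomial (Fin (sz (j + 1))) K).comp
      (Polynomial.evalRingHom t₀)) (by ext a; simp [MvPolynomial.algebraMap_eq]) X k (G ω)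
    have h2 : ((C : K →+* MvPolynomial (Fin (sz (j + 1))) K).comp
      (Polynomial.evalRingHom t₀)) Polynomial.X = C t₀ := by simp
    rw [h2] at h1
    rw [h1, ← eval₂_eta (map (Polynomial.evalRingHom t₀) (Hm k (G ω))), eval₂_map]
  have hvar : ∀ v k, ((θ v).coeff k).vars ⊆ {id v} := by
    intro v k
    rw [hθdef]
    simp only [id]
    rcases k with _ | k
    · rw [Polynomial.coeff_add, Polynomial.coeff_C_zero, Polynomial.coeff_X_mul_zero, add_zero,
        vars_C]
      exact Finset.empty_subset _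
    · rw [Polynomial.coeff_add, Polynomial.coeff_C_succ, zero_add, Polynomial.coeff_X_mul]
      rcases k with _ | k
      · rw [Polynomial.coeff_C_zero, vars_X]
      · rw [Polynomial.coeff_C_succ, vars_0]
        exact Finset.empty_subset _
  refine pg_lowest id θ hvar m _ G hD ?_ ?_
  · intro ω k hk
    rw [hH, hmin k hk ω, map_zero]
  · refine hR Ω' _ m hmM ?_ ?_ ?_
    · intro h0
      apply ht₀
      rw [← hH]
      exact congrFun h0 ω₁
    · intro ω
      exact hom_coeff t₀ (G ω) m
    · intro ω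
      show aeval _ ((aeval θ (G ω)).coeff m) = 0
      rw [hH]
      have h1 : (aeval (fun i : Fin (sz (j + 1)) =>
          (Polynomial.C (Polynomial.X ^ sz (j + 1) ^ 240) +
            Polynomial.X * Polynomial.C (yp j (Ps j) (Polynomial.X : Polynomial K) (i : ℕ)) :
            Polynomial (Polynomial K))) (G ω)).coeff m = 0 := by
        have h2 := hF ω
        unfold Fa at h2
        have h3 : (cv K (j + 1)) = (fun i : Fin (sz (j + 1)) =>
          (Polynomial.C (Polynomial.X ^ sz (j + 1) ^ 240) +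
            Polynomial.X * Polynomial.C (yp j (Ps j) (Polynomial.X : Polynomial K) (i : ℕ)) :
            Polynomial (Polynomial K))) := funext fun i => cv_succ K j i
        rw [h3] at h2
        exact (Polynomial.X_pow_dvd_iff.1 h2) m (by omega)
      have h2 := hom_zero j m hmM (G ω) h1
      have h3 := congrArg (Polynomial.mapRingHom (Polynomial.evalRingHom t₀)) h2
      rw [map_zero] at h3
      rw [← h3]
      have h4 : (aeval (fun i : Fin (sz (j + 1)) => yp j (Ps j)
          (Polynomial.X : Polynomial (Polynomial K)) (i : ℕ)) (Hm m (G ω))) =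
          eval₂ Polynomial.C (fun i : Fin (sz (j + 1)) => yp j (Ps j)
            (Polynomial.X : Polynomial (Polynomial K)) (i : ℕ)) (Hm m (G ω)) := rfl
      rw [h4, eval₂_comp_left, aeval_def, eval₂_map]
      congr 1
      · ext a <;> simp
      · funext i
        show _ = (Polynomial.mapRingHom (Polynomial.evalRingHom t₀)) _
        rw [map_yp (Polynomial.mapRingHom (Polynomial.evalRingHom t₀)) j (Ps j) (Ps j)
          (fun t e b => map_Ps _ j t e b)]
        rw [Polynomial.coe_mapRingHom, Polynomial.map_X]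

end Pool.Agent.FOR
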