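import Pool.Agent.FOR.Gst
import Pool.Agent.FOR.Nt

/-!
MODULE FOR-T3 (est. 1.2 h).  Merging down to one variable.

PLAN.  `one_var`: `L.length ≤ 1`, `p.vars ⊆ L.toFinset`, `p ≠ 0` implies `aeval (fun _ => X) p ≠ 0` in
`K[X]` (see `hit_base` in Pool/Agent/MRG/Hit.lean).
`aeval_crv_cons`: `aeval (crv (q :: Q) L X) p = aeval (crv Q (nl q.2 0 L) X) (ml (cc K) q.1 q.2 0 L p)`
(`MRG.map_el` with the homomorphism `aeval (crv Q (nl q.2 0 L) X)`).
`t0`: induction on `k`; `k = 0`: `one_var`.  `k + 1`: `gst` with `κ = 0`: `U = ∅`; the family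
`fun ω => ml (cc K) r ∅ 0 L (G ω)` (`pg_ml`, `MRG.vars_ml`, `MRG.length_nl`: the new length is at most
`(L.length + 1) / 2 ≤ 2^k`; the degrees are bounded by `MRG.totalDegree_ml`).
`t3`: induction on `F`.  If `N ≤ 1`: `seqs W F N = [[]]` (both cases of `F`), `one_var`.  If `2 ≤ N`,
`F = F' + 1`: `κ = N / 2 / 2`, `r = 2^(W / (κ+1) + 1) - 1`, so `(r+1)^(κ+1) ≥ 2^W + 1`; `gst`
(and `good_mono`) gives `U ⊆ range (L.length / 2) ⊆ range (N / 2)`, `U.card ≤ κ`; choose
`V ⊆ range (N / 2)`, `U ⊆ V`, `V.card = κ` (`Finset.exists_subsuperset_card_eq`); the sorted list of `V`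
is in `(List.range (N / 2)).sublistsLen κ` (a list of this form with `toFinset = V`: e.g.
`(List.range (N/2)).filter (· ∈ V)`, `List.mem_sublistsLen`).  Induction hypothesis for
`fun ω => ml (cc K) r V 0 L (G ω)`, `nl V 0 L`, `N' = (N + 1) / 2 + N / 2 / 2 < N` (so `N' ≤ F'`).
-/

set_option autoImplicit false

namespace Pool.Agent.FOR

open MvPolynomial

universe u

variable {K : Type u} [Field K]

theorem one_var {n : ℕ} (L : List (Fin n)) (hL : L.length ≤ 1) (p : MvPolynomial (Fin n) K)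
    (hv : p.vars ⊆ L.toFinset) (hp : p ≠ 0) :
    aeval (fun _ : Fin n => (Polynomial.X : Polynomial K)) p ≠ 0 := by
  obtain ⟨e, he⟩ : ∃ e : MvPolynomial (Fin n) K, ∀ i ∈ p.vars, e = X i := by
    rcases L with _ | ⟨a, _ | ⟨b, L⟩⟩
    · refine ⟨0, fun i hi => ?_⟩
      have := hv hi
      simp at this
    · refine ⟨X a, fun i hi => ?_⟩
      have := hv hi
      rw [List.mem_toFinset, List.mem_singleton] at this
      rw [this]
    · simp at hL
  intro h
  have hback : Polynomial.aeval e (aeval (fun _ : Fin n => (Polynomial.X : Polynomial K)) p) = p := by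
    have h1 : ((Polynomial.aeval e).comp (aeval (fun _ : Fin n => (Polynomial.X : Polynomial K)))).toRingHom p =
        (RingHom.id (MvPolynomial (Fin n) K)) p := by
      refine hom_congr_vars ?_ ?_ rfl
      · ext a
        simp
      · intro i hi _
        simp [he i hi]
    exact h1
  rw [h, map_zero] at hback
  exact hp hback.symm

theorem aeval_crv_cons {n : ℕ} (q : ℕ × Finset ℕ) (Q : List (ℕ × Finset ℕ)) (L : List (Fin n))
    (p : MvPolynomial (Fin n) K) :
    aeval (crv (q :: Q) L (Polynomial.X : Polynomial K)) p =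
      aeval (crv Q (MRG.nl q.2 0 L) (Polynomial.X : Polynomial K))
        (MRG.ml (cc K) q.1 q.2 0 L p) := by
  unfold MRG.ml
  rw [comp_aeval_apply]
  congr 2
  funext i
  have h1 := MRG.map_el ((aeval (crv Q (MRG.nl q.2 0 L) (Polynomial.X : Polynomial K)) :
    MvPolynomial (Fin n) K →ₐ[K] Polynomial K) : MvPolynomial (Fin n) K →+* Polynomial K)
    (fun i => (C (cc K i) : MvPolynomial (Fin n) K)) q.1 q.2 L 0 X i
  have h2 : (fun j => ((aeval (crv Q (MRG.nl q.2 0 L) (Polynomial.X : Polynomial K)) :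
      MvPolynomial (Fin n) K →ₐ[K] Polynomial K) : MvPolynomial (Fin n) K →+* Polynomial K)
      (C (cc K j) : MvPolynomial (Fin n) K)) = fun j => ((j + 1 : ℕ) : Polynomial K) := by
    funext j
    rw [RingHom.coe_coe, aeval_C, cc]
    exact map_natCast (algebraMap K (Polynomial K)) (j + 1)
  have h3 : (fun j => ((aeval (crv Q (MRG.nl q.2 0 L) (Polynomial.X : Polynomial K)) :
      MvPolynomial (Fin n) K →ₐ[K] Polynomial K) : MvPolynomial (Fin n) K →+* Polynomial K)
      (X j : MvPolynomial (Fin n) K)) = crv Q (MRG.nl q.2 0 L) (Polynomial.X : Polynomial K) := by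
    funext j
    rw [RingHom.coe_coe, aeval_X]
  rw [h2, h3] at h1
  rw [crv]
  exact h1.symm

private theorem t3_db {n : ℕ} {Ω' : Type u} {G : Ω' → MvPolynomial (Fin n) K} (hD : DB G) (r : ℕ)
    (U : Finset ℕ) (L : List (Fin n)) (hL : L.Nodup) :
    DB (fun ω => MRG.ml (cc K) r U 0 L (G ω)) := by
  obtain ⟨D, hD⟩ := hD
  exact ⟨D * (r + 1) ^ 2, fun ω => (MRG.totalDegree_ml _ _ _ _ _ hL _).trans
    (Nat.mul_le_mul_right _ (hD ω))⟩

theorem t0 [CharZero K] {n : ℕ} {Ω' : Type u} (r : ℕ) : ∀ (k : ℕ) (L : List (Fin n))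
    (G : Ω' → MvPolynomial (Fin n) K), L.Nodup → L.length ≤ 2 ^ k → G ≠ 0 → DB G →
    (∀ ω, (G ω).vars ⊆ L.toFinset) →
    PG (r + 1) G ∨ ∃ ω,
      aeval (crv (List.replicate k (r, ∅)) L (Polynomial.X : Polynomial K)) (G ω) ≠ 0 := by
  intro k
  induction k with
  | zero =>
    intro L G hL hlen hG hD hv
    obtain ⟨ω, hω⟩ := Function.ne_iff.1 hG
    right
    refine ⟨ω, ?_⟩
    rw [List.replicate_zero]
    exact one_var L (by simpa using hlen) (G ω) (hv ω) hω
  | succ k ih =>
    intro L G hL hlen hG hD hv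
    rcases gst r 0 L hL G hG hD with h | ⟨U, hU, hU0, hV⟩
    · left
      rwa [zero_add, pow_one] at h
    · have hUe : U = ∅ := Finset.card_eq_zero.1 (Nat.le_zero.1 hU0)
      have hG' := hV ∅ (by rw [hUe])
      have hl : (MRG.nl ∅ 0 L).length ≤ 2 ^ k := by
        have h1 := MRG.length_nl ∅ L 0
        rw [Finset.filter_empty, Finset.card_empty, add_zero] at h1
        rw [pow_succ] at hlen
        omega
      rcases ih (MRG.nl ∅ 0 L) (fun ω => MRG.ml (cc K) r ∅ 0 L (G ω))
        ((MRG.nl_sublist ∅ L 0).nodup hL) hl hG' (t3_db hD r ∅ L hL)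
        (fun ω => MRG.vars_ml _ _ _ _ _ hL _ (hv ω)) with h | ⟨ω, hω⟩
      · left
        exact pg_ml (cc K) r ∅ L hL _ G hD h
      · right
        refine ⟨ω, ?_⟩
        rw [List.replicate_succ, aeval_crv_cons]
        exact hω

private theorem seqs_one (W F N : ℕ) (h : N ≤ 1) : seqs W F N = [[]] := by
  cases F with
  | zero => rfl
  | succ F => rw [seqs, if_pos h]

theorem t3 [CharZero K] {n : ℕ} {Ω' : Type u} (W : ℕ) : ∀ (F N : ℕ) (L : List (Fin n))
    (G : Ω' → MvPolynomial (Fin n) K), N ≤ F → L.Nodup → L.length ≤ N → G ≠ 0 → DB G →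
    (∀ ω, (G ω).vars ⊆ L.toFinset) →
    PG (2 ^ W + 1) G ∨ ∃ Q ∈ seqs W F N, ∃ ω,
      aeval (crv Q L (Polynomial.X : Polynomial K)) (G ω) ≠ 0 := by
  intro F
  induction F with
  | zero =>
    intro N L G hN hL hlen hG hD hv
    obtain ⟨ω, hω⟩ := Function.ne_iff.1 hG
    right
    rw [seqs_one W 0 N (by omega)]
    exact ⟨[], List.mem_singleton.2 rfl, ω, one_var L (by omega) (G ω) (hv ω) hω⟩
  | succ F ih =>
    intro N L G hN hL hlen hG hD hv
    by_cases hN1 : N ≤ 1
    · obtain ⟨ω, hω⟩ := Function.ne_iff.1 hG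
      right
      rw [seqs_one W (F + 1) N hN1]
      exact ⟨[], List.mem_singleton.2 rfl, ω, one_var L (by omega) (G ω) (hv ω) hω⟩
    · have hr : 2 ^ W + 1 ≤ (2 ^ (W / (N / 2 / 2 + 1) + 1) - 1 + 1) ^ (N / 2 / 2 + 1) := by
        rw [Nat.sub_add_cancel (Nat.one_le_two_pow), ← pow_mul]
        have h1 : W + 1 ≤ (W / (N / 2 / 2 + 1) + 1) * (N / 2 / 2 + 1) := by
          have := Nat.lt_mul_div_succ W (Nat.succ_pos (N / 2 / 2))
          rw [mul_comm]
          exact this
        calc 2 ^ W + 1 ≤ 2 ^ W + 2 ^ W := Nat.add_le_add_left Nat.one_le_two_pow _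
          _ = 2 ^ (W + 1) := by rw [pow_succ]; ring
          _ ≤ _ := Nat.pow_le_pow_right (by norm_num) h1
      set κ := N / 2 / 2 with hκ
      set r := 2 ^ (W / (κ + 1) + 1) - 1 with hrdef
      rcases gst r κ L hL G hG hD with h | ⟨U, hU, hU0, hV⟩
      · left
        exact good_mono hr h
      · have hU2 : U ⊆ Finset.range (N / 2) := hU.trans (Finset.range_subset_range.2 (by omega))
        obtain ⟨V, hUV, hVN, hVc⟩ := Finset.exists_subsuperset_card_eq hU2 hU0
          (by rw [Finset.card_range]; omega)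
        have hG' := hV V hUV
        have hl : (MRG.nl V 0 L).length ≤ (N + 1) / 2 + κ := by
          have h1 := MRG.length_nl V L 0
          have h2 := Finset.card_le_card (Finset.filter_subset
            (fun i => 0 ≤ i ∧ i < 0 + L.length / 2) V)
          omega
        rcases ih ((N + 1) / 2 + κ) (MRG.nl V 0 L) (fun ω => MRG.ml (cc K) r V 0 L (G ω))
          (by omega) ((MRG.nl_sublist V L 0).nodup hL) hl hG' (t3_db hD r V L hL)
          (fun ω => MRG.vars_ml _ _ _ _ _ hL _ (hv ω)) with h | ⟨Q, hQ, ω, hω⟩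
        · left
          exact pg_ml (cc K) r V L hL _ G hD h
        · right
          have hVl : ((List.range (N / 2)).filter (fun i => decide (i ∈ V))).toFinset = V := by
            ext i
            rw [List.mem_toFinset, List.mem_filter, List.mem_range, decide_eq_true_iff]
            exact ⟨fun h => h.2, fun h => ⟨Finset.mem_range.1 (hVN h), h⟩⟩
          refine ⟨(r, V) :: Q, ?_, ω, ?_⟩
          · rw [seqs, if_neg hN1, List.mem_flatMap]
            refine ⟨(List.range (N / 2)).filter (fun i => decide (i ∈ V)), ?_, ?_⟩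
            · rw [List.mem_sublistsLen]
              refine ⟨List.filter_sublist, ?_⟩
              rw [← List.toFinset_card_of_nodup (List.nodup_range.filter _), hVl, hVc]
            · rw [List.mem_map]
              refine ⟨Q, hQ, ?_⟩
              rw [hVl]
          · rw [aeval_crv_cons]
            exact hω

end Pool.Agent.FOR
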