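import Pool.Agent.FOR.Rc
import Pool.Agent.FOR.Nt

/-!
MODULE FOR-Unt (est. 1.2 h).  Small-order directions: `e_c = e * x_c`, `t_c = x_c^(J1 + 1)`.

PLAN.  Let `J = J1 j`, `Φ : MvPolynomial (Fin v ⊕ Fin v) K → (MvPolynomial (Fin v) K)[X]`,
`inl c ↦ C (X c ^ (J + 1))`, `inr c ↦ X * C (X c)`.  Then `Φ (aeval (nsub K j (lg j) 0 s) p) =
aeval (uuX K j s) p` (`map_ud`; `2 ^ lg j = sz j`, so every `b` is in the block).  `Φ` maps the monomial
`ρ` to `X ^ (∑ c, ρ (inr c)) * C (∏ c, X c ^ ((J + 1) * ρ (inl c) + ρ (inr c)))`.  So for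
`q : MvPolynomial (Fin v ⊕ Fin v) K`, `m ≤ J` the coefficient of
`∏ c, X c ^ ((J+1) * μ (inl c) + μ (inr c))` in `(Φ q).coeff m`, where `∑ c, μ (inr c) = m`, is the sum of
`coeff ρ q` over the `ρ` with `∑ c, ρ (inr c) = m` and the same exponents; as
`ρ (inr c) ≤ m ≤ J`, `μ (inr c) ≤ J` this is only `ρ = μ`.
-/

set_option autoImplicit false

namespace Pool.Agent.FOR

open MvPolynomial

universe u

variable {K : Type u} [Field K]

private theorem unt_mon {v J : ℕ} (a : K) (ρ : Fin v ⊕ Fin v →₀ ℕ) :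
    (algebraMap K (Polynomial (MvPolynomial (Fin v) K)) a *
      ∏ i, (Sum.elim (fun c => Polynomial.C (X c ^ (J + 1)))
        (fun c => Polynomial.X * Polynomial.C (X c)) i :
          Polynomial (MvPolynomial (Fin v) K)) ^ ρ i) =
      Polynomial.C (monomial (Finsupp.equivFunOnFinite.symm
        (fun c : Fin v => (J + 1) * ρ (Sum.inl c) + ρ (Sum.inr c))) a) *
        Polynomial.X ^ (∑ c : Fin v, ρ (Sum.inr c)) := by
  have h0 : (monomial (Finsupp.equivFunOnFinite.symm
        (fun c : Fin v => (J + 1) * ρ (Sum.inl c) + ρ (Sum.inr c))) a : MvPolynomial (Fin v) K) =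
      C a * ∏ c : Fin v, X c ^ ((J + 1) * ρ (Sum.inl c) + ρ (Sum.inr c)) := by
    rw [monomial_eq, Finsupp.prod_fintype _ _ (fun i => pow_zero _)]
    rfl
  rw [h0, Fintype.prod_sum_type]
  simp only [Sum.elim_inl, Sum.elim_inr, mul_pow, Finset.prod_mul_distrib, pow_add, map_mul,
    map_prod, map_pow, Finset.prod_pow_eq_pow_sum, pow_mul]
  rw [Polynomial.algebraMap_apply, MvPolynomial.algebraMap_eq]
  ring

private theorem unt_aux {v J : ℕ} (q : MvPolynomial (Fin v ⊕ Fin v) K)
    (μ : Fin v ⊕ Fin v →₀ ℕ) (h : coeff μ q ≠ 0) (hμ : ∑ c : Fin v, μ (Sum.inr c) ≤ J) :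
    (aeval (Sum.elim (fun c => Polynomial.C (X c ^ (J + 1)))
        (fun c => Polynomial.X * Polynomial.C (X c)) :
          Fin v ⊕ Fin v → Polynomial (MvPolynomial (Fin v) K)) q).coeff
      (∑ c : Fin v, μ (Sum.inr c)) ≠ 0 := by
  intro h0
  apply h
  have h1 := congrArg (coeff (Finsupp.equivFunOnFinite.symm
        (fun c : Fin v => (J + 1) * μ (Sum.inl c) + μ (Sum.inr c)))) h0
  rw [aeval_def, eval₂_eq', Polynomial.finsetSum_coeff, coeff_zero, coeff_sum] at h1
  rw [← h1]
  symm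
  have h2 : ∀ ρ : Fin v ⊕ Fin v →₀ ℕ, coeff (Finsupp.equivFunOnFinite.symm
        (fun c : Fin v => (J + 1) * μ (Sum.inl c) + μ (Sum.inr c)))
      ((algebraMap K (Polynomial (MvPolynomial (Fin v) K)) (coeff ρ q) *
      ∏ i, (Sum.elim (fun c => Polynomial.C (X c ^ (J + 1)))
        (fun c => Polynomial.X * Polynomial.C (X c)) i :
          Polynomial (MvPolynomial (Fin v) K)) ^ ρ i).coeff (∑ c : Fin v, μ (Sum.inr c))) =
      if ρ = μ then coeff μ q else 0 := by
    intro ρ
    rw [unt_mon, Polynomial.coeff_C_mul_X_pow]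
    by_cases hρ : ρ = μ
    · subst hρ
      simp
    · rw [if_neg hρ]
      split_ifs with hs
      · rw [coeff_monomial, if_neg]
        intro he
        apply hρ
        have he' : ∀ c : Fin v, (J + 1) * ρ (Sum.inl c) + ρ (Sum.inr c) =
            (J + 1) * μ (Sum.inl c) + μ (Sum.inr c) := by
          intro c
          have := DFunLike.congr_fun he c
          simpa using this
        have hl : ∀ c : Fin v, ρ (Sum.inr c) ≤ J := by
          intro c
          refine le_trans (Finset.single_le_sum (f := fun c : Fin v => ρ (Sum.inr c))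
            (fun _ _ => Nat.zero_le _) (Finset.mem_univ c)) ?_
          rw [← hs]; exact hμ
        have hl' : ∀ c : Fin v, μ (Sum.inr c) ≤ J := by
          intro c
          exact le_trans (Finset.single_le_sum (f := fun c : Fin v => μ (Sum.inr c))
            (fun _ _ => Nat.zero_le _) (Finset.mem_univ c)) hμ
        have hr : ∀ c : Fin v, ρ (Sum.inr c) = μ (Sum.inr c) := by
          intro c
          have h3 := congrArg (· % (J + 1)) (he' c)
          simp only [Nat.mul_add_mod] at h3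
          rwa [Nat.mod_eq_of_lt (Nat.lt_succ_of_le (hl c)),
            Nat.mod_eq_of_lt (Nat.lt_succ_of_le (hl' c))] at h3
        have hq : ∀ c : Fin v, ρ (Sum.inl c) = μ (Sum.inl c) := by
          intro c
          have h3 := he' c
          rw [hr c] at h3
          exact Nat.eq_of_mul_eq_mul_left (Nat.succ_pos J) (Nat.add_right_cancel h3)
        ext i
        rcases i with c | c
        · exact hq c
        · exact hr c
      · exact coeff_zero _
  rw [Finset.sum_congr rfl (fun ρ _ => h2 ρ), Finset.sum_ite_eq']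
  split_ifs with hm
  · rfl
  · exact (notMem_support_iff.mp hm).symm

theorem unt (j : ℕ) (s : List Bool) (p : MvPolynomial (Fin (sz j)) K)
    (μ : Fin (sz j) ⊕ Fin (sz j) →₀ ℕ)
    (h : coeff μ (aeval (nsub K j (lg j) 0 s) p) ≠ 0) (hμ : ∑ c : Fin (sz j), μ (Sum.inr c) ≤ J1 j) :
    (aeval (uuX K j s) p).coeff (∑ c : Fin (sz j), μ (Sum.inr c)) ≠ 0 := by
  have h1 := unt_aux _ μ h hμ
  have h2 : aeval (uuX K j s) p = aeval (Sum.elim (fun c => Polynomial.C (X c ^ (J1 j + 1)))
        (fun c => Polynomial.X * Polynomial.C (X c)) :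
          Fin (sz j) ⊕ Fin (sz j) → Polynomial (MvPolynomial (Fin (sz j)) K))
      (aeval (nsub K j (lg j) 0 s) p) := by
    rw [← AlgHom.comp_apply, comp_aeval]
    congr 2
    funext b
    have hb : 0 ≤ (b : ℕ) ∧ (b : ℕ) < 0 + 2 ^ lg j := by
      refine ⟨Nat.zero_le _, ?_⟩
      rw [zero_add]
      exact b.2
    unfold nsub uuX uu
    rw [if_pos hb]
    let Φ : MvPolynomial (Fin (sz j) ⊕ Fin (sz j)) K →+*
        Polynomial (MvPolynomial (Fin (sz j)) K) :=
      ((aeval (Sum.elim (fun c => Polynomial.C (X c ^ (J1 j + 1)))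
        (fun c => Polynomial.X * Polynomial.C (X c)) :
          Fin (sz j) ⊕ Fin (sz j) → Polynomial (MvPolynomial (Fin (sz j)) K)) :
        MvPolynomial (Fin (sz j) ⊕ Fin (sz j)) K →ₐ[K]
          Polynomial (MvPolynomial (Fin (sz j)) K)) : _ →+* _)
    have h3 := map_ud Φ (Ps j) (Ps j) (fun t e b => map_Ps Φ j t e b)
        (fun c => X (Sum.inl (fi j c))) (fun c => X (Sum.inr (fi j c))) (lg j) 0 s (b : ℕ)
    simp only [Φ] at h3
    simp only [RingHom.coe_coe, aeval_X, Sum.elim_inl, Sum.elim_inr] at h3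
    rw [h3]
    simp only [map_pow]
  rw [h2]
  exact h1

end Pool.Agent.FOR
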