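import Pool.Agent.FOR.Pth
import Pool.Agent.FOR.Unt
import Pool.Agent.FOR.T3
import Pool.Agent.FOR.NSz

/-!
MODULE FOR-Rl1 (est. 1.2 h).  From `sz j` variables to one point, or a certificate.

PLAN.  `vars_coeff_aeval`: induction on `p` (`MvPolynomial.induction_on`; for the product
`Polynomial.coeff_mul`, `vars_sum_subset`, `vars_mul`), or: the polynomials in
`(MvPolynomial V' K)[X]` all of whose coefficients have variables in `S` form a subalgebra.
`rl1`: `v = sz j = 2 ^ lg j`.  `path` with `l = lg j`, `a = 0`; in the first case `good_mono`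
(`v^2 + 1 ≤ (v+1)^2`, `sz_succ`).  Otherwise `s`, `ω`, `μ`; `unt` (`lg j * v^2 ≤ J1 j`) gives a nonzero
coefficient of `aeval (uuX K j s) (G ω)`; let `m` be the smallest number such that
`∃ ω, (aeval (uuX K j s) (G ω)).coeff m ≠ 0` and `G' ω = (aeval (uuX K j s) (G ω)).coeff m`:
`pg_lowest` with `π b = fi j (hdf (lg j) 0 s b)` (`vars_uuX`), `db_coeff`.
`t3` for `G'`, `W = lg (j+1)`, `F = N = lg j + 1`, `L = (hds (lg j) 0 s).map (fi j)` (`hds_fi_nodup`,
`hds_length`; the variables of `G' ω` are in `L` by `vars_coeff_aeval`, `vars_uuX`, `hdf_mem`):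
`PG (2 ^ lg (j+1) + 1) G'` or `Q`, `ω` with `aeval (crv Q L X) (G' ω) ≠ 0` in `K[X]`.  Choose `z : K` with
`eval z` of it `≠ 0`, i.e. `eval (crv Q L z) (G' ω) ≠ 0` (`map_crv`).  This is the coefficient `m` of
`aeval (uuX K j s) (G ω)` mapped by `eval (crv Q L z)`, i.e. (`map_uu`, `map_Ps`) of
`aeval (fun b => uu j (Ps j) s (fun a => C (zu j s Q z a)) X b) (G ω) : K[X]`, which is therefore not `0`;
choose `e` with `eval e` of it `≠ 0` (again `map_uu`).
-/

set_option autoImplicit false

namespace Pool.Agent.FOR

open MvPolynomial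

universe u

variable {K : Type u} [Field K]

theorem vars_coeff_aeval {V V' : Type} (θ : V → Polynomial (MvPolynomial V' K)) (S : Finset V')
    (hθ : ∀ v k, ((θ v).coeff k).vars ⊆ S) (p : MvPolynomial V K) (k : ℕ) :
    ((aeval θ p).coeff k).vars ⊆ S := by
  have h0 : ∀ v k, (θ v).coeff k ∈ supported K (S : Set V') := fun v k =>
    mem_supported.2 (by exact_mod_cast hθ v k)
  have h1 : ∀ k, (aeval θ p).coeff k ∈ supported K (S : Set V') := by
    induction p using MvPolynomial.induction_on with
    | C a =>
      intro k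
      rw [algHom_C, Polynomial.algebraMap_apply, Polynomial.coeff_C]
      split_ifs
      · exact Subalgebra.algebraMap_mem _ a
      · exact Subalgebra.zero_mem _
    | add p q hp hq =>
      intro k
      rw [map_add, Polynomial.coeff_add]
      exact Subalgebra.add_mem _ (hp k) (hq k)
    | mul_X p v hp =>
      intro k
      rw [map_mul, aeval_X, Polynomial.coeff_mul]
      exact Subalgebra.sum_mem _ fun x _ => Subalgebra.mul_mem _ (hp _) (h0 v _)
  intro x hx
  exact_mod_cast mem_supported.1 (h1 k) hx

private theorem rl1_hom {V V' : Type} (θ : V → Polynomial (MvPolynomial V' K)) (y : V' → K) (e : K)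
    (p : MvPolynomial V K) :
    Polynomial.eval e ((aeval θ p).map (eval y)) =
      eval (fun b => Polynomial.eval₂RingHom (eval y) e (θ b)) p := by
  rw [Polynomial.eval_map]
  have h1 : Polynomial.eval₂ (eval y) e (aeval θ p) =
      Polynomial.eval₂RingHom (eval y) e (aeval θ p) := rfl
  rw [h1]
  induction p using MvPolynomial.induction_on with
  | C a =>
    rw [algHom_C, eval_C, Polynomial.algebraMap_apply, Polynomial.coe_eval₂RingHom,
      Polynomial.eval₂_C, MvPolynomial.algebraMap_eq, eval_C]
  | add p q hp hq => rw [map_add, map_add, map_add, hp rfl, hq rfl]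
  | mul_X p v hp => rw [map_mul, map_mul, map_mul, hp rfl, aeval_X, eval_X]

theorem rl1 [CharZero K] {Ω' : Type u} (j : ℕ) (hQ : Qf K j)
    (G : Ω' → MvPolynomial (Fin (sz j)) K) (hG : G ≠ 0) (hD : DB G) :
    PG (sz (j + 1) + 1) G ∨ ∃ s ∈ shps (lg j), ∃ Q ∈ seqs (lg (j + 1)) (lg j + 1) (lg j + 1),
      ∃ (ω : Ω') (e z : K),
        eval (fun b : Fin (sz j) => uu j (Ps j) s (zu j s Q z) e (b : ℕ)) (G ω) ≠ 0 := by
  classical
  rcases path j hQ (lg j) 0 G (by rw [zero_add]; exact le_rfl) hG hD with h | ⟨s, hs, ω, μ, h1, h2⟩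
  · left
    refine good_mono ?_ h
    rw [sz_succ]
    nlinarith [Nat.zero_le (sz j)]
  · have h3 : ∑ c, μ (Sum.inr c) ≤ J1 j := by
      refine h2.trans ?_
      unfold J1
      exact Nat.mul_le_mul_right _ (Nat.le_succ _)
    have h4 := unt j s (G ω) μ h1 h3
    have h5 : ∃ m, ∃ ω, (aeval (uuX K j s) (G ω)).coeff m ≠ 0 := ⟨_, ω, h4⟩
    obtain ⟨ω1, hω1⟩ := Nat.find_spec h5
    obtain ⟨m, hm⟩ : ∃ m, m = Nat.find h5 := ⟨_, rfl⟩
    have hmin : ∀ ω, ∀ k < m, (aeval (uuX K j s) (G ω)).coeff k = 0 := by
      intro ω' k hk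
      by_contra hne
      rw [hm] at hk
      exact Nat.find_min h5 hk ⟨ω', hne⟩
    rw [← hm] at hω1
    have hred : ∀ M, PG M (fun ω => (aeval (uuX K j s) (G ω)).coeff m) → PG M G := fun M h =>
      pg_lowest (fun b : Fin (sz j) => fi j (hdf (lg j) 0 s (b : ℕ))) (uuX K j s)
        (fun v k => vars_uuX j s v k) m M G hD hmin h
    have hvars : ∀ ω, ((aeval (uuX K j s) (G ω)).coeff m).vars ⊆
        ((hds (lg j) 0 s).map (fi j)).toFinset := by
      intro ω'
      refine vars_coeff_aeval (uuX K j s) _ (fun v k => ?_) (G ω') m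
      refine (vars_uuX j s v k).trans ?_
      intro x hx
      rw [Finset.mem_singleton] at hx
      subst hx
      rw [List.mem_toFinset]
      exact List.mem_map_of_mem (hdf_mem _ _ _ _)
    rcases t3 (lg (j + 1)) (lg j + 1) (lg j + 1) ((hds (lg j) 0 s).map (fi j))
      (fun ω => (aeval (uuX K j s) (G ω)).coeff m) le_rfl (hds_fi_nodup j s)
      (by rw [List.length_map]; exact hds_length _ _ _)
      (fun h0 => hω1 (congrFun h0 ω1)) (db_coeff _ _ G hD) hvars with h | ⟨Q, hQ', ω2, h6⟩
    · left
      exact hred _ h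
    · right
      refine ⟨s, hs, Q, hQ', ω2, ?_⟩
      obtain ⟨z, hz⟩ : ∃ z : K, Polynomial.eval z
          (aeval (crv Q ((hds (lg j) 0 s).map (fi j)) (Polynomial.X : Polynomial K))
            ((aeval (uuX K j s) (G ω2)).coeff m)) ≠ 0 := by
        by_contra hcon
        push Not at hcon
        exact h6 (Polynomial.funext fun z => by rw [hcon z, Polynomial.eval_zero])
      have hz' : eval (crv Q ((hds (lg j) 0 s).map (fi j)) z)
          ((aeval (uuX K j s) (G ω2)).coeff m) ≠ 0 := by
        intro h0
        apply hz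
        have e1 : Polynomial.eval z
          (aeval (crv Q ((hds (lg j) 0 s).map (fi j)) (Polynomial.X : Polynomial K))
            ((aeval (uuX K j s) (G ω2)).coeff m)) =
            eval (fun i => Polynomial.eval z
              (crv Q ((hds (lg j) 0 s).map (fi j)) (Polynomial.X : Polynomial K) i))
            ((aeval (uuX K j s) (G ω2)).coeff m) := by
          rw [← Polynomial.coe_evalRingHom, map_aeval]
          have e2 : (Polynomial.evalRingHom z).comp (algebraMap K (Polynomial K)) =
              RingHom.id K := by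
            ext a
            simp
          rw [e2]
          rfl
        rw [e1, ← h0]
        congr 1
        congr 1
        funext i
        rw [← Polynomial.coe_evalRingHom, map_crv, Polynomial.coe_evalRingHom, Polynomial.eval_X]
      obtain ⟨e, he⟩ : ∃ e : K, Polynomial.eval e ((aeval (uuX K j s) (G ω2)).map
          (eval (crv Q ((hds (lg j) 0 s).map (fi j)) z))) ≠ 0 := by
        by_contra hcon
        push Not at hcon
        have h0 : (aeval (uuX K j s) (G ω2)).map
          (eval (crv Q ((hds (lg j) 0 s).map (fi j)) z)) = 0 :=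
          Polynomial.funext fun z => by rw [hcon z, Polynomial.eval_zero]
        have h7 := congrArg (fun q => Polynomial.coeff q m) h0
        simp only [Polynomial.coeff_map, Polynomial.coeff_zero] at h7
        exact hz' h7
      refine ⟨e, z, ?_⟩
      rw [rl1_hom] at he
      have e3 : (fun b : Fin (sz j) => uu j (Ps j) s (zu j s Q z) e (b : ℕ)) =
          fun b => Polynomial.eval₂RingHom (eval (crv Q ((hds (lg j) 0 s).map (fi j)) z)) e
            (uuX K j s b) := by
        funext b
        unfold uuX
        rw [map_uu _ j (Ps j) (Ps j) (fun t e b => map_Ps _ j t e b)]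
        have e4 : (fun i => Polynomial.eval₂RingHom
            (eval (crv Q ((hds (lg j) 0 s).map (fi j)) z)) e
            (Polynomial.C (X (fi j i)) : Polynomial (MvPolynomial (Fin (sz j)) K))) =
            zu j s Q z := by
          funext i
          rw [Polynomial.coe_eval₂RingHom, Polynomial.eval₂_C, eval_X]
          rfl
        rw [e4, Polynomial.coe_eval₂RingHom, Polynomial.eval₂_X]
      rw [e3]
      exact he

end Pool.Agent.FOR
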