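import Pool.Agent.FOR.Kro
import Pool.Agent.FOR.Nt
import Pool.Agent.FOR.Rc
import Pool.Agent.FOR.NCon

/-!
MODULE FOR-Sel.  A form of small degree which vanishes on the curve `yp j (Ps j)` vanishes
at all the points `yf j (Ps j) φ σ e z`, `φ ∈ gs j`.
-/

set_option autoImplicit false

namespace Pool.Agent.FOR

open MvPolynomial

universe u

variable {K : Type u} [Field K] [CharZero K]

/-- Only the first five parameters are used. -/
private theorem sel_congr {R : Type*} [CommSemiring R] (j : ℕ) (P : R → R → ℕ → R) {σ τ : ℕ → R}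
    (h : ∀ k < 5, σ k = τ k) (e s z : R) (i : ℕ) : ys j P σ e s z i = ys j P τ e s z i := by
  unfold ys yf
  refine Finset.sum_congr rfl fun k _ => ?_
  congr 2
  refine Finset.sum_congr rfl fun l hl => ?_
  rw [h l (Finset.mem_range.1 hl)]

/-- Evaluation of a form at a multiple of a point. -/
private theorem sel_smul {K : Type*} [Field K] {σ : Type*} [Fintype σ] {p : MvPolynomial σ K} {m : ℕ}
    (hp : p.IsHomogeneous m) (c : K) (y : σ → K) : eval (fun i => c * y i) p = c ^ m * eval y p := by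
  rw [eval_eq', eval_eq', Finset.mul_sum]
  refine Finset.sum_congr rfl fun d hd => ?_
  have h1 : ∑ i, d i = m := by
    have h2 := hp (mem_support_iff.1 hd)
    have h3 : d.degree = Finsupp.weight 1 d := by
      rw [Finsupp.degree_eq_weight_one]
      rfl
    rw [← h3, Finsupp.degree_eq_sum] at h2
    exact h2
  simp only [mul_pow]
  rw [Finset.prod_mul_distrib, Finset.prod_pow_eq_pow_sum, h1]
  ring

/-- The selected summand. -/
private theorem sel_ys {K : Type*} [Field K] (j : ℕ) (P : K → K → ℕ → K) (σ : ℕ → K) (e z : K) (i : ℕ)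
    {k : ℕ} (hk : k < (gs j).length) :
    ys j P σ e (-(k : K)) z i = (∏ l ∈ (Finset.range (gs j).length).erase k, (-(k : K) + (l : K))) *
      yf j P ((gs j).getD k (0, 0, [], [])) σ e z i := by
  unfold ys
  refine Finset.sum_eq_single k ?_ ?_
  · intro l _ hl
    have h1 : k ∈ (Finset.range (gs j).length).erase l :=
      Finset.mem_erase.2 ⟨fun h => hl h.symm, Finset.mem_range.2 hk⟩
    rw [Finset.prod_eq_zero h1 (neg_add_cancel _), zero_mul]
  · intro h
    exact absurd (Finset.mem_range.2 hk) h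

/-- The variables as parameters. -/
private noncomputable def selV (K : Type u) [Field K] (k : ℕ) : MvPolynomial (Fin 8) K :=
  if h : k < 8 then X ⟨k, h⟩ else 0

omit [CharZero K] in
private theorem selV_lt {k : ℕ} (h : k < 8) : selV K k = X ⟨k, h⟩ := dif_pos h

theorem sel (j m : ℕ) (hm : m ≤ sz (j + 1) ^ 2) (p : MvPolynomial (Fin (sz (j + 1))) K)
    (hp : p.IsHomogeneous m)
    (h0 : aeval (fun i : Fin (sz (j + 1)) => yp j (Ps j) (Polynomial.X : Polynomial K) (i : ℕ))
      p = 0) (φ : ℕ × ℕ × List Bool × List (ℕ × Finset ℕ)) (hφ : φ ∈ gs j) (σ : ℕ → K) (e z : K) :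
    eval (fun i : Fin (sz (j + 1)) => yf j (Ps j) φ σ e z (i : ℕ)) p = 0 := by
  obtain ⟨q, hq⟩ : ∃ q : MvPolynomial (Fin 8) K, q = aeval (fun i : Fin (sz (j + 1)) =>
      ys j (Ps j) (selV K) (X 5) (X 6) (X 7) (i : ℕ)) p := ⟨_, rfl⟩
  have hP : ∀ {R R' : Type u} [CommSemiring R] [CommSemiring R'] (ψ : R →+* R') (t e : R) (b : ℕ),
      ψ (Ps j t e b) = Ps j (ψ t) (ψ e) b := fun ψ t e b => map_Ps ψ j t e b
  have hq0 : q = 0 := by
    refine kro (n := 7) (B := bs j) q ?_ ?_
    · intro v hv
      rw [hq]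
      refine lt_bs (d := fun f : MvPolynomial (Fin 8) K => f.degreeOf v) (dg_degreeOf K v) ?_ j (selV K) (X 5) (X 6)
        (X 7) ?_ ?_ ?_ ?_ p (hp.totalDegree_le.trans hm)
      · intro c
        show degreeOf v (algebraMap K (MvPolynomial (Fin 8) K) c) = 0
        rw [algebraMap_eq, degreeOf_C]
      · intro a ha
        show degreeOf v (selV K a) ≤ 1
        rw [selV_lt (by omega), degreeOf_X]
        split_ifs <;> norm_num
      · show degreeOf v (X 5 : MvPolynomial (Fin 8) K) ≤ 1
        rw [degreeOf_X]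
        split_ifs <;> norm_num
      · show degreeOf v (X 6 : MvPolynomial (Fin 8) K) ≤ 1
        rw [degreeOf_X]
        split_ifs <;> norm_num
      · show degreeOf v (X 7 : MvPolynomial (Fin 8) K) = 0
        rw [degreeOf_X, if_neg]
        rintro rfl
        exact absurd hv (by decide)
    · obtain ⟨ψ, hψ⟩ : ∃ ψ : MvPolynomial (Fin 8) K →ₐ[K] Polynomial K,
          ψ = aeval (fun i : Fin 8 => (Polynomial.X : Polynomial K) ^ bs j ^ (i : ℕ)) := ⟨_, rfl⟩
      have h1 : ψ q = 0 := by
        rw [hq, comp_aeval_apply]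
        rw [← h0]
        refine congrArg (fun g => aeval g p) ?_
        funext i
        have h2 := map_ys (ψ : MvPolynomial (Fin 8) K →+* Polynomial K) j (Ps j) (Ps j)
          (fun t e b => hP _ t e b) (selV K) (X 5) (X 6) (X 7) (i : ℕ)
        have h3 : ∀ k (hk : k < 8), ψ (X ⟨k, hk⟩) = (Polynomial.X : Polynomial K) ^ bs j ^ k := by
          intro k hk
          rw [hψ, aeval_X]
        refine h2.trans ?_
        unfold yp
        rw [sel_congr j (Ps j) (σ := fun k => (ψ : MvPolynomial (Fin 8) K →+* Polynomial K) (selV K k))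
          (τ := fun k => (Polynomial.X : Polynomial K) ^ bs j ^ k)]
        · have e5 : (ψ : MvPolynomial (Fin 8) K →+* Polynomial K) (X 5) = Polynomial.X ^ bs j ^ 5 :=
            h3 5 (by norm_num)
          have e6 : (ψ : MvPolynomial (Fin 8) K →+* Polynomial K) (X 6) = Polynomial.X ^ bs j ^ 6 :=
            h3 6 (by norm_num)
          have e7 : (ψ : MvPolynomial (Fin 8) K →+* Polynomial K) (X 7) = Polynomial.X ^ bs j ^ 7 :=
            h3 7 (by norm_num)
          rw [e5, e6, e7]
        · intro k hk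
          show (ψ : MvPolynomial (Fin 8) K →+* Polynomial K) (selV K k) = Polynomial.X ^ bs j ^ k
          rw [selV_lt (by omega)]
          exact h3 k (by omega)
      rw [← hψ]
      exact h1
  obtain ⟨k, hk, hφk⟩ := List.mem_iff_getElem.1 hφ
  have hD : (gs j).getD k (0, 0, [], []) = φ := by
    rw [List.getD_eq_getElem _ _ hk, hφk]
  obtain ⟨pt, hpt⟩ : ∃ pt : Fin 8 → K, pt = fun i : Fin 8 => if (i : ℕ) < 5 then σ i else
      if (i : ℕ) = 5 then e else if (i : ℕ) = 6 then -(k : K) else z := ⟨_, rfl⟩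
  have h4 : eval pt q = 0 := by
    rw [hq0, map_zero]
  have h5 : eval pt q = eval (fun i : Fin (sz (j + 1)) => ys j (Ps j) σ e (-(k : K)) z (i : ℕ)) p := by
    rw [hq]
    have h6 := comp_aeval_apply (fun i : Fin (sz (j + 1)) =>
      ys j (Ps j) (selV K) (X 5) (X 6) (X 7) (i : ℕ)) (aeval pt : MvPolynomial (Fin 8) K →ₐ[K] K) p
    refine h6.trans ?_
    refine congrArg (fun g : Fin (sz (j + 1)) → K => (aeval g : MvPolynomial (Fin (sz (j + 1))) K →ₐ[K] K) p) ?_
    funext i
    refine (map_ys (eval pt) j (Ps j) (Ps j) (fun t e b => hP _ t e b) (selV K) (X 5) (X 6) (X 7) (i : ℕ)).trans ?_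
    rw [sel_congr j (Ps j) (σ := fun k => eval pt (selV K k)) (τ := σ)]
    · rw [eval_X, eval_X, eval_X, hpt]
      rfl
    · intro l hl
      show eval pt (selV K l) = σ l
      rw [selV_lt (by omega), eval_X, hpt]
      exact if_pos hl
  rw [h4] at h5
  simp only [sel_ys j (Ps j) σ e z _ hk, hD] at h5
  rw [sel_smul hp] at h5
  refine (mul_eq_zero.1 h5.symm).resolve_left (pow_ne_zero _ ?_)
  refine Finset.prod_ne_zero_iff.2 fun l hl => ?_
  intro h7
  have h8 : (l : K) = (k : K) := by
    have h9 := congrArg (fun x => (k : K) + x) h7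
    simp only [add_zero] at h9
    rw [← h9]
    ring
  exact (Finset.mem_erase.1 hl).1 (Nat.cast_injective h8)

end Pool.Agent.FOR
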