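import Pool.Agent.FOR.HI
import Pool.Agent.FOR.Rl1
import Pool.Agent.FOR.Sel

/-!
MODULE FOR-Rlv.  `Qf K j → Rf K j`.
-/

set_option autoImplicit false

namespace Pool.Agent.FOR

open MvPolynomial
open Pool.Agent.AOR (bucket)

universe u

variable {K : Type u} [Field K] [CharZero K]

omit [CharZero K] in
/-- The variables of the substitution. -/
private theorem rlv_vars (j p a : ℕ) (σ : ℕ → K) (i : Fin (sz (j + 1))) :
    (hsub K j p a σ i).vars ⊆ {fi j (bucket p a (sz j) (i : ℕ))} := by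
  classical
  unfold hsub
  refine (vars_add_subset _ _).trans ?_
  rw [vars_C, Finset.empty_union]
  refine (vars_pow _ _).trans ?_
  rw [vars_X]

omit [CharZero K] in
/-- The values of the substitution. -/
private theorem rlv_eval (j p a : ℕ) (s : List Bool) (Q : List (ℕ × Finset ℕ)) (σ : ℕ → K) (e z : K)
    (i : Fin (sz (j + 1))) :
    eval (fun b : Fin (sz j) => uu j (Ps j) s (zu j s Q z) e (b : ℕ)) (hsub K j p a σ i) =
      yf j (Ps j) (p, a, s, Q) σ e z (i : ℕ) := by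
  unfold hsub yf
  rw [map_add, eval_C, map_pow, eval_X]
  have h1 : ((fi j (bucket p a (sz j) (i : ℕ)) : Fin (sz j)) : ℕ) = bucket p a (sz j) (i : ℕ) :=
    Nat.mod_eq_of_lt (Nat.mod_lt _ (sz_pos j))
  rw [h1]

omit [CharZero K] in
private theorem rlv_comp {σ τ : Type*} (g : σ → MvPolynomial τ K) (x : τ → K) (f : MvPolynomial σ K) :
    eval x (aeval g f) = eval (fun v => eval x (g v)) f := by
  induction f using MvPolynomial.induction_on with
  | C a => rw [aeval_C, algebraMap_eq, eval_C, eval_C]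
  | add p q hp hq => rw [map_add, map_add, map_add, hp, hq]
  | mul_X p i hp => rw [map_mul, map_mul, map_mul, hp, aeval_X, eval_X]

theorem rlev {Ω' : Type u} (j : ℕ) (hQ : Qf K j)
    (H : Ω' → MvPolynomial (Fin (sz (j + 1))) K) (hH : H ≠ 0)
    (hD : ∀ ω, (H ω).totalDegree ≤ sz (j + 1) ^ 2) :
    PG (sz (j + 1) + 1) H ∨ ∃ φ ∈ gs j, ∃ (ω : Ω') (σ : ℕ → K) (e z : K),
      eval (fun i : Fin (sz (j + 1)) => yf j (Ps j) φ σ e z (i : ℕ)) (H ω) ≠ 0 := by
  rcases hi j H hH hD with h | ⟨p, hp, a, ha, σ, ω₀, hne⟩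
  · exact Or.inl h
  have hDB : DB H := ⟨_, hD⟩
  have hG : (fun ω => aeval (hsub K j p a σ) (H ω)) ≠ 0 := by
    intro h0
    exact hne (congrFun h0 ω₀)
  rcases rl1 j hQ (fun ω => aeval (hsub K j p a σ) (H ω)) hG (db_aeval _ H hDB) with
    h | ⟨s, hs, Q, hQs, ω, e, z, hz⟩
  · exact Or.inl (pg_aeval (fun i : Fin (sz (j + 1)) => fi j (bucket p a (sz j) (i : ℕ)))
      (hsub K j p a σ) (rlv_vars j p a σ) _ H hDB h)
  · right
    refine ⟨(p, a, s, Q), ?_, ω, σ, e, z, ?_⟩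
    · unfold gs
      refine List.mem_flatMap.2 ⟨p, List.mem_range.2 (by omega), ?_⟩
      refine List.mem_flatMap.2 ⟨a, List.mem_range.2 (by omega), ?_⟩
      refine List.mem_flatMap.2 ⟨s, hs, ?_⟩
      exact List.mem_map.2 ⟨Q, hQs, rfl⟩
    · have h1 : eval (fun b : Fin (sz j) => uu j (Ps j) s (zu j s Q z) e (b : ℕ))
          (aeval (hsub K j p a σ) (H ω)) ≠ 0 := hz
      rw [rlv_comp] at h1
      have h2 : (fun i : Fin (sz (j + 1)) => eval (fun b : Fin (sz j) =>
          uu j (Ps j) s (zu j s Q z) e (b : ℕ)) (hsub K j p a σ i)) =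
          fun i : Fin (sz (j + 1)) => yf j (Ps j) (p, a, s, Q) σ e z (i : ℕ) :=
        funext fun i => rlv_eval j p a s Q σ e z i
      rw [h2] at h1
      exact h1

theorem rf (j : ℕ) (hQ : Qf K j) : Rf K j := by
  intro Ω' H m hm hH hhom h0
  rcases rlev j hQ H hH (fun ω => (hhom ω).totalDegree_le.trans hm) with h | ⟨φ, hφ, ω, σ, e, z, hne⟩
  · exact h
  · exact absurd (sel j m hm (H ω) (hhom ω) (h0 ω) φ hφ σ e z) hne

end Pool.Agent.FOR
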