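import Pool.Agent.FOR.B0
import Pool.Agent.FOR.QfR
import Pool.Agent.FOR.Rlv
import Pool.Agent.FOR.Fnl
import Pool.Agent.FOR.NFin

/-!
Project FOR (MP_e2be99_lc): the main theorem.
-/

set_option autoImplicit false

namespace Pool.Agent.FOR

open MvPolynomial
open Pool.Agent.AOI (Cuts)

universe u

theorem qf_all (K : Type u) [Field K] [CharZero K] : ∀ j, Qf K j
  | 0 => qf_zero K
  | j + 1 => qf_succ K j (rf j (qf_all K j))

/-- The generator: two parameters, no restriction on the degrees. -/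
theorem gen {K : Type u} [Field K] [CharZero K] {n w : ℕ} (f : MvPolynomial (Fin n) K)
    (hf : f ≠ 0) (hw : Cuts w f) :
    aeval (fun i : Fin n => Ps (lev (max n w)) (X 0) (X 1) (i : ℕ)) f ≠
      (0 : MvPolynomial (Fin 2) K) :=
  gen_of_qf ((le_max_left n w).trans (le_sz_lev _)) ((le_max_right n w).trans (le_sz_lev _))
    (qf_all K _) f hf hw

/-- The generator for divisors of products. -/
theorem gen_dvd {K : Type u} [Field K] [CharZero K] {n w : ℕ} (s : Multiset (MvPolynomial (Fin n) K))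
    (hs : ∀ f ∈ s, f ≠ 0 ∧ Cuts w f) (g : MvPolynomial (Fin n) K) (hg : g ∣ s.prod) :
    aeval (fun i : Fin n => Ps (lev (max n w)) (X 0) (X 1) (i : ℕ)) g ≠
      (0 : MvPolynomial (Fin 2) K) := by
  intro h0
  have h1 : aeval (fun i : Fin n => Ps (lev (max n w)) (X 0) (X 1) (i : ℕ)) s.prod =
      (0 : MvPolynomial (Fin 2) K) := by
    obtain ⟨q, hq⟩ := hg
    rw [hq, map_mul, h0, zero_mul]
  rw [map_multiset_prod, Multiset.prod_eq_zero_iff, Multiset.mem_map] at h1
  obtain ⟨f, hf, hf0⟩ := h1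
  exact gen f (hs f hf).1 (hs f hf).2 hf0

/-- The hitting set. -/
theorem main {K : Type u} [Field K] [CharZero K] {n D w : ℕ} (s : Multiset (MvPolynomial (Fin n) K))
    (hs : ∀ f ∈ s, f ≠ 0 ∧ Cuts w f) (g : MvPolynomial (Fin n) K) (hg : g ∣ s.prod)
    (hD : g.totalDegree ≤ D) :
    ∃ x ∈ points n D w, eval (fun i => ((x i : ℕ) : K)) g ≠ 0 :=
  main_of_gen g (gen_dvd s hs g hg) hD

end Pool.Agent.FOR
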