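import Pool.Agent.FOR.Fr

/-!
MODULE FOR-Mnr (est. 1.0 h).  From the rank of a finite matrix of mixed values to a nonsingular
square matrix.

PLAN.  `exists_minor`: `M.rank ≥ m` implies that there are `m` rows and `m` columns with a nonzero
determinant: the rows span a space of dimension `≥ m` (`Matrix.rank_eq_finrank_span_row`), choose `m`
linearly independent rows (`exists_linearIndependent`, or
`exists_fun_fin_finrank_span_eq` style lemmas); the `m × κ` matrix of these rows has rank `m`
(`LinearIndependent.rank_matrix`), hence (transpose, `Matrix.rank_transpose`) `m` independent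
columns; a square matrix with independent rows is a unit
(`Matrix.linearIndependent_rows_iff_isUnit`).
`big_of_rank` is `exists_minor` for `fun i j => g (μ (a i) (b j))`.
-/

set_option autoImplicit false

namespace Pool.Agent.FOR

universe u

variable {K : Type u} [Field K]

private theorem mnr_rows {ι κ : Type*} [Fintype ι] [Fintype κ] (M : Matrix ι κ K) (m : ℕ)
    (h : m ≤ M.rank) : ∃ r : Fin m → ι, LinearIndependent K (fun i => M (r i)) := by
  rw [Matrix.rank_eq_finrank_span_row] at h
  obtain ⟨f, hf, -, hl⟩ := Submodule.exists_fun_fin_finrank_span_eq K (Set.range M.row)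
  choose g hg using hf
  refine ⟨fun i => g (Fin.castLE h i), ?_⟩
  have h1 : (fun i : Fin m => M (g (Fin.castLE h i))) = f ∘ Fin.castLE h := by
    funext i
    exact hg (Fin.castLE h i)
  rw [h1]
  exact hl.comp _ (Fin.castLE_injective h)

theorem exists_minor {ι κ : Type*} [Fintype ι] [Fintype κ] (M : Matrix ι κ K) (m : ℕ)
    (h : m ≤ M.rank) : ∃ (r : Fin m → ι) (c : Fin m → κ), (M.submatrix r c).det ≠ 0 := by
  obtain ⟨r, hr⟩ := mnr_rows M m h
  have h2 : LinearIndependent K (M.submatrix r id).row := hr
  have h3 : m ≤ ((M.submatrix r id).transpose).rank := by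
    rw [Matrix.rank_transpose, h2.rank_matrix, Fintype.card_fin]
  obtain ⟨c, hc⟩ := mnr_rows _ m h3
  refine ⟨r, c, ?_⟩
  have h4 : LinearIndependent K ((M.submatrix r c).transpose).row := hc
  have h5 := Matrix.linearIndependent_rows_iff_isUnit.1 h4
  rw [Matrix.isUnit_transpose, Matrix.isUnit_iff_isUnit_det] at h5
  exact h5.ne_zero

theorem big_of_rank {Ω : Type u} (μ : Ω → Ω → Ω) (m : ℕ) (g : Ω → K) {ι κ : Type*} [Fintype ι]
    [Fintype κ] (a : ι → Ω) (b : κ → Ω)
    (h : m ≤ (Matrix.of fun i j => g (μ (a i) (b j)) : Matrix ι κ K).rank) : Big μ m g := by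
  obtain ⟨r, c, hd⟩ := exists_minor _ m h
  exact ⟨a ∘ r, b ∘ c, hd⟩

end Pool.Agent.FOR
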