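import Pool.Agent.FOR.NSz

/-!
MODULE FOR-NPrd (est. 1.0 h).  The factors by which the merging steps multiply the degree.

PLAN.  `mf_le`: `r = 2 ^ a - 1`, `r (r + 1) / 2 ≤ (2 ^ a)^2`.
`seqs_prod`: let `k = N / 2 / 2`, `N' = (N + 1) / 2 + k`.  By `mf_le`,
`mf (2 ^ (W / (k + 1) + 1) - 1) ≤ 4 ^ (W / (k + 1) + 1)`.  Prove by induction on `F` the statement
`∃ s, prod ≤ 2 ^ s ∧ (s : ℚ) ≤ 2 * W * (7 - 12 / N) + 2 * (N - 1)` for `2 ≤ N` (and `prod = 1`,
i.e. `s = 0`, for `N ≤ 1`); the step is `1 / (k + 1) + 12 / N ≤ 12 / N'` for `3 ≤ N` (write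
`N = 4 k + r`, `r < 4`, so `N' = 3 k + (r + 1) / 2`; the four cases are
`12/(3k) - 12/(4k) = 1/k`, `12k(k+1) ≥ (3k+1)(4k+1)` (k ≥ 1), `12(k+1)² ≥ (3k+1)(4k+2)`,
`12(k+1)² ≥ (3k+2)(4k+3)`), and for `N = 2`: `N' = 1`, `s = 2 W + 2 ≤ 2 W (7 - 6) + 2`.
(Checked numerically for all `N < 3000`.)
`gs_prod`: `14 * lg (j + 1) + 2 * (lg j + 1) = 15 * lg (j + 1) + 2 ≤ 16 * lg (j + 1)`; if the index is
out of range the element is the default and the product is `1`.
-/

set_option autoImplicit false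

namespace Pool.Agent.FOR

/-- The factor by which a merging step multiplies the degree. -/
def mf (r : ℕ) : ℕ := max 1 (r * (r + 1) / 2)

theorem mf_le (a : ℕ) : mf (2 ^ a - 1) ≤ 4 ^ a := by
  unfold mf
  have h1 : 1 ≤ 2 ^ a := Nat.one_le_two_pow
  have h4 : (4 : ℕ) ^ a = 2 ^ a * 2 ^ a := by
    rw [show (4 : ℕ) = 2 * 2 from rfl, mul_pow]
  rw [h4]
  have h2 : 2 ^ a - 1 + 1 = 2 ^ a := Nat.sub_add_cancel h1
  rw [h2]
  refine max_le (Nat.mul_pos h1 h1) ?_
  refine (Nat.div_le_self _ _).trans ?_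
  exact Nat.mul_le_mul_right _ (Nat.sub_le _ _)


private theorem NPrd_nat (N : ℕ) (hN : 3 ≤ N) :
    N * ((N + 1) / 2 + N / 2 / 2) + 12 * ((N + 1) / 2 + N / 2 / 2) * (N / 2 / 2 + 1) ≤
      12 * N * (N / 2 / 2 + 1) := by
  obtain ⟨k, r, hr, rfl⟩ : ∃ k r, r < 4 ∧ N = 4 * k + r := ⟨N / 4, N % 4, by omega, by omega⟩
  have hk : (4 * k + r) / 2 / 2 = k := by omega
  rw [hk]
  interval_cases r
  · have h1 : (4 * k + 0 + 1) / 2 = 2 * k := by omega
    rw [h1]
    nlinarith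
  · have h1 : (4 * k + 1 + 1) / 2 = 2 * k + 1 := by omega
    rw [h1]
    have hk1 : 1 ≤ k := by omega
    nlinarith
  · have h1 : (4 * k + 2 + 1) / 2 = 2 * k + 1 := by omega
    rw [h1]
    nlinarith
  · have h1 : (4 * k + 3 + 1) / 2 = 2 * k + 2 := by omega
    rw [h1]
    nlinarith

private theorem NPrd_rat (N N' K : ℕ) (h3 : 3 ≤ N) (h2 : 2 ≤ N') (hK : 0 < K)
    (h : N * N' + 12 * N' * K ≤ 12 * N * K) :
    (1 : ℚ) / K + 12 / N ≤ 12 / N' := by
  have hN : (0 : ℚ) < N := by exact_mod_cast (by omega : 0 < N)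
  have hN' : (0 : ℚ) < N' := by exact_mod_cast (by omega : 0 < N')
  have hK' : (0 : ℚ) < K := by exact_mod_cast hK
  have hq : (N : ℚ) * N' + 12 * N' * K ≤ 12 * N * K := by exact_mod_cast h
  rw [div_add_div _ _ hK'.ne' hN.ne', div_le_div_iff₀ (by positivity) hN']
  nlinarith

private theorem NPrd_key (W : ℕ) : ∀ (F N : ℕ) (Q : List (ℕ × Finset ℕ)), Q ∈ seqs W F N →
    ∃ s : ℕ, (Q.map fun q => mf q.1).prod ≤ 2 ^ s ∧ (N ≤ 1 → s = 0) ∧
      (2 ≤ N → (s : ℚ) ≤ 2 * W * (7 - 12 / N) + 2 * ((N : ℚ) - 1)) := by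
  have hW : (0 : ℚ) ≤ W := Nat.cast_nonneg W
  intro F
  induction F with
  | zero =>
    intro N Q hQ
    simp only [seqs, List.mem_singleton] at hQ
    subst hQ
    refine ⟨0, by simp, fun _ => rfl, fun h2 => ?_⟩
    have hN : (2 : ℚ) ≤ N := by exact_mod_cast h2
    have h12 : (12 : ℚ) / N ≤ 6 := by
      rw [div_le_iff₀ (by linarith)]
      linarith
    have h3 : (0 : ℚ) ≤ 7 - 12 / N := by linarith
    have h4 : (0 : ℚ) ≤ 2 * W * (7 - 12 / N) := by positivity
    push_cast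
    linarith
  | succ F ih =>
    intro N Q hQ
    simp only [seqs] at hQ
    split_ifs at hQ with h1
    · simp only [List.mem_singleton] at hQ
      subst hQ
      exact ⟨0, by simp, fun _ => rfl, fun h2 => absurd h2 (by omega)⟩
    · simp only [List.mem_flatMap, List.mem_map] at hQ
      obtain ⟨U, -, Q', hQ', rfl⟩ := hQ
      obtain ⟨s, hs, hs1, hs2⟩ := ih _ _ hQ'
      refine ⟨2 * (W / (N / 2 / 2 + 1) + 1) + s, ?_, fun h => absurd h h1, fun h2 => ?_⟩
      · rw [List.map_cons, List.prod_cons]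
        refine (Nat.mul_le_mul (mf_le _) hs).trans (le_of_eq ?_)
        rw [pow_add 2 (2 * _) s, pow_mul]
        norm_num
      · rcases Nat.lt_or_ge N 3 with h3 | h3
        · have hN : N = 2 := by omega
          subst hN
          have hs0 : s = 0 := hs1 (by norm_num)
          subst hs0
          norm_num
          linarith
        · have hN'2 : 2 ≤ (N + 1) / 2 + N / 2 / 2 := by omega
          have hN'N : (N + 1) / 2 + N / 2 / 2 + 1 ≤ N := by omega
          have h5 := hs2 hN'2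
          have h6 := NPrd_rat N ((N + 1) / 2 + N / 2 / 2) (N / 2 / 2 + 1) h3 hN'2
            (Nat.succ_pos _) (NPrd_nat N h3)
          have h7 : (((N + 1) / 2 + N / 2 / 2 : ℕ) : ℚ) + 1 ≤ N := by exact_mod_cast hN'N
          have h8 : ((W / (N / 2 / 2 + 1) : ℕ) : ℚ) ≤ W / ((N / 2 / 2 + 1 : ℕ) : ℚ) :=
            Nat.cast_div_le
          have h9 : (W : ℚ) * (1 / ((N / 2 / 2 + 1 : ℕ) : ℚ) + 12 / N) ≤
              W * (12 / (((N + 1) / 2 + N / 2 / 2 : ℕ) : ℚ)) := mul_le_mul_of_nonneg_left h6 hW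
          have h10 : (W : ℚ) / ((N / 2 / 2 + 1 : ℕ) : ℚ) =
              W * (1 / ((N / 2 / 2 + 1 : ℕ) : ℚ)) := by ring
          have h14 : ((2 * (W / (N / 2 / 2 + 1) + 1) + s : ℕ) : ℚ) =
              2 * (((W / (N / 2 / 2 + 1) : ℕ) : ℚ) + 1) + s := by
            rw [Nat.cast_add, Nat.cast_mul, Nat.cast_add]
            norm_num
          rw [h14]
          generalize ((W / (N / 2 / 2 + 1) : ℕ) : ℚ) = A at *
          generalize (((N + 1) / 2 + N / 2 / 2 : ℕ) : ℚ) = B at *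
          generalize ((N / 2 / 2 + 1 : ℕ) : ℚ) = C at *
          rw [h10] at h8
          have h11 : (s : ℚ) ≤ 14 * W - 2 * (W * (12 / B)) + 2 * (B - 1) := by
            refine h5.trans (le_of_eq ?_)
            ring
          have h12 : (2 : ℚ) * W * (7 - 12 / N) = 14 * W - 2 * (W * (12 / N)) := by ring
          rw [h12]
          have h13 : (W : ℚ) * (1 / C + 12 / N) = W * (1 / C) + W * (12 / N) := by ring
          rw [h13] at h9
          linarith

theorem seqs_prod (W F N : ℕ) (Q : List (ℕ × Finset ℕ)) (hQ : Q ∈ seqs W F N) :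
    (Q.map fun q => mf q.1).prod ≤ 2 ^ (14 * W + 2 * N) := by
  obtain ⟨s, hs, h1, h2⟩ := NPrd_key W F N Q hQ
  refine hs.trans (Nat.pow_le_pow_right (by norm_num) ?_)
  rcases Nat.lt_or_ge N 2 with h | h
  · rw [h1 (by omega)]
    omega
  · have h3 := h2 h
    have hW : (0 : ℚ) ≤ W := Nat.cast_nonneg W
    have h4 : (0 : ℚ) ≤ 2 * W * (12 / N) := by positivity
    have h5 : (s : ℚ) ≤ ((14 * W + 2 * N : ℕ) : ℚ) := by
      push_cast
      linarith
    exact_mod_cast h5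

theorem gs_prod (j k : ℕ) :
    ((((gs j).getD k (0, 0, [], [])).2.2.2).map fun q => mf q.1).prod ≤ sz (j + 1) ^ 16 := by
  have hlg : 16 ≤ lg j := lg_ge j
  rcases Nat.lt_or_ge k (gs j).length with hk | hk
  · have hm : (gs j).getD k (0, 0, [], []) ∈ gs j := by
      rw [List.getD_eq_getElem _ _ hk]
      exact List.getElem_mem hk
    generalize (gs j).getD k (0, 0, [], []) = φ at hm
    unfold gs at hm
    simp only [List.mem_flatMap, List.mem_map] at hm
    obtain ⟨p, -, a, -, s, -, Q, hQ, rfl⟩ := hm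
    refine (seqs_prod _ _ _ Q hQ).trans ?_
    unfold sz
    rw [← pow_mul]
    refine Nat.pow_le_pow_right (by norm_num) ?_
    rw [lg_succ]
    omega
  · rw [List.getD_eq_default _ _ hk]
    simp only [List.map_nil, List.prod_nil]
    exact Nat.one_le_pow _ _ (sz_pos _)

end Pool.Agent.FOR
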