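import Pool.Agent.FOR.NDg
import Pool.Agent.FOR.NPrd
import Pool.Agent.MRG.NL

/-!
MODULE FOR-NCrv (est. 1.0 h).  Degrees of the merging curves.

PLAN.  `dg_cA`, `dg_cB`: `Dg.prod` with `Dg.add`, `Dg.pow`, `Dg.nat` (note
`z + ((i + 1 : ℕ) : R)` has degree `≤ max (d z) 0 = d z`);
`∑ j ∈ range r, (j + 1) = r (r + 1) / 2` (`Finset.sum_range_id_mul_two` or `Gauss_sum`).
`el_of_notMem`: induction on the list (as in `MRG.length_nl`: `match L with | [] | [a] | a :: b :: L`).
`dg_el`: induction on the list with the stronger statement that for `i ∉ L` the coordinate does not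
change; for a merged pair `(a, b)` the coordinates `a`, `b` are `cA`, `cB` of the coordinate `a` of the
inner point, which is `z a` because `a ∉ L`.
`dg_crv`: induction on `Q` (`MRG.nl_sublist` keeps `Nodup`).
-/

set_option autoImplicit false

namespace Pool.Agent.FOR

open Pool.Agent.MRG (cA cB ex nl el)

section

variable {R : Type*} [CommSemiring R] {d : R → ℕ}

private theorem dg_lin (h : Dg d) (j : ℕ) (z : R) : d (z + ((j + 1 : ℕ) : R)) ≤ d z := by
  refine (h.add _ _).trans ?_
  rw [h.nat (j + 1)]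
  exact max_le le_rfl (Nat.zero_le _)

theorem dg_cA (h : Dg d) (r : ℕ) (z : R) :
    d (cA (fun i => ((i + 1 : ℕ) : R)) r z) ≤ r * d z := by
  unfold cA
  refine (h.prod (Finset.range r) _ (fun _ => d z) fun j _ => dg_lin h j z).trans ?_
  rw [Finset.sum_const, Finset.card_range, smul_eq_mul]

theorem dg_cB (h : Dg d) (r : ℕ) (z : R) :
    d (cB (fun i => ((i + 1 : ℕ) : R)) r z) ≤ r * (r + 1) / 2 * d z := by
  unfold cB
  refine (h.prod (Finset.range r) _ (fun j => (j + 1) * d z) fun j _ =>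
    (h.pow _ _).trans (Nat.mul_le_mul_left _ (dg_lin h j z))).trans ?_
  rw [← Finset.sum_mul]
  refine Nat.mul_le_mul_right _ ?_
  have e : ∑ j ∈ Finset.range r, (j + 1) = ∑ j ∈ Finset.range (r + 1), j := by
    rw [Finset.sum_range_succ' (fun j => j)]
    simp
  rw [e, Finset.sum_range_id, Nat.add_sub_cancel, Nat.mul_comm (r + 1) r]

private theorem le_mf (r : ℕ) : r ≤ mf r := by
  unfold mf
  rcases Nat.eq_zero_or_pos r with h | h
  · subst h
    exact Nat.zero_le _
  · refine le_trans ?_ (le_max_right _ _)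
    rw [Nat.le_div_iff_mul_le (by norm_num)]
    exact Nat.mul_le_mul_left r (by omega)

theorem el_of_notMem {n : ℕ} (c : ℕ → R) (r : ℕ) (U : Finset ℕ) (L : List (Fin n)) :
    ∀ (j : ℕ) (z : Fin n → R) (i : Fin n), i ∉ L → el c r U j L z i = z i :=
  Pool.Agent.MRG.el_of_not_mem c r U L

theorem dg_el (h : Dg d) {n : ℕ} (r : ℕ) (U : Finset ℕ) (L : List (Fin n)) :
    ∀ (j : ℕ), L.Nodup → ∀ (z : Fin n → R) (B : ℕ), (∀ i, d (z i) ≤ B) → ∀ i,
      d (el (fun i => ((i + 1 : ℕ) : R)) r U j L z i) ≤ mf r * B := by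
  have h1 : 1 ≤ mf r := le_max_left _ _
  match L with
  | [] =>
    intro j _ z B hz i
    rw [el]
    exact (hz i).trans (Nat.le_mul_of_pos_left _ h1)
  | [a] =>
    intro j _ z B hz i
    rw [el]
    exact (hz i).trans (Nat.le_mul_of_pos_left _ h1)
  | a :: b :: L =>
    intro j hL z B hz i
    rw [List.nodup_cons, List.nodup_cons, List.mem_cons, not_or] at hL
    obtain ⟨⟨hab, haL⟩, hbL, hL'⟩ := hL
    have ih := dg_el h r U L (j + 1) hL' z B hz
    rw [el]
    split_ifs with hj
    · exact ih i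
    · rw [ex]
      rw [el_of_notMem _ _ _ _ _ _ _ haL]
      split_ifs with h2 h3
      · exact (dg_cA h r (z a)).trans (Nat.mul_le_mul (le_mf r) (hz a))
      · exact (dg_cB h r (z a)).trans (Nat.mul_le_mul (le_max_right _ _) (hz a))
      · exact ih i

theorem dg_crv (h : Dg d) {n : ℕ} (Q : List (ℕ × Finset ℕ)) :
    ∀ L : List (Fin n), L.Nodup → ∀ (z : R) (i : Fin n),
      d (crv Q L z i) ≤ (Q.map fun q => mf q.1).prod * d z := by
  induction Q with
  | nil =>
    intro L _ z i
    rw [crv, List.map_nil, List.prod_nil, one_mul]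
  | cons q Q ih =>
    intro L hL z i
    rw [crv, List.map_cons, List.prod_cons, mul_assoc]
    exact dg_el h q.1 q.2 L 0 hL _ _ (fun k => ih (Pool.Agent.MRG.nl q.2 0 L)
      ((Pool.Agent.MRG.nl_sublist q.2 L 0).nodup hL) z k) i

end

end Pool.Agent.FOR
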