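import Pool.Agent.FOR.Defs

/-!
MODULE FOR-NDg (est. 0.8 h).  Degree functions: the numeric side of project FOR is written for an
arbitrary degree function on a commutative semiring.

PLAN.  `pow`: induction; `prod`, `sum`: `Finset.induction_on`.  `dg_natDegree`:
`Polynomial.natDegree_add_le`, `natDegree_mul_le`, `natDegree_natCast`.  `dg_degreeOf`:
`MvPolynomial.degreeOf_add_le`, `degreeOf_mul_le`, and `(n : MvPolynomial _ _) = C n`, `degreeOf_C`.
`aeval_le`: write `aeval y f = ∑ m ∈ f.support, algebraMap (coeff m f) * ∏ v, y v ^ m v`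
(`MvPolynomial.aeval_def`, `eval₂_eq'`) and use `m.degree ≤ f.totalDegree`.
-/

set_option autoImplicit false

namespace Pool.Agent.FOR

open MvPolynomial

/-- A degree function. -/
structure Dg {R : Type*} [CommSemiring R] (d : R → ℕ) : Prop where
  add : ∀ x y, d (x + y) ≤ max (d x) (d y)
  mul : ∀ x y, d (x * y) ≤ d x + d y
  nat : ∀ n : ℕ, d (n : R) = 0

namespace Dg

variable {R : Type*} [CommSemiring R] {d : R → ℕ}

theorem pow (h : Dg d) (x : R) (k : ℕ) : d (x ^ k) ≤ k * d x := by
  induction k with
  | zero =>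
    have h1 := h.nat 1
    rw [Nat.cast_one] at h1
    rw [pow_zero, h1]
    exact Nat.zero_le _
  | succ k ih =>
    rw [pow_succ, add_mul, one_mul]
    exact (h.mul _ _).trans (Nat.add_le_add_right ih _)

theorem prod (h : Dg d) {ι : Type*} (s : Finset ι) (f : ι → R) (b : ι → ℕ)
    (hb : ∀ i ∈ s, d (f i) ≤ b i) : d (∏ i ∈ s, f i) ≤ ∑ i ∈ s, b i := by
  classical
  induction s using Finset.induction_on with
  | empty =>
    have h1 := h.nat 1
    rw [Nat.cast_one] at h1
    rw [Finset.prod_empty, h1]
    exact Nat.zero_le _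
  | insert a s ha ih =>
    rw [Finset.prod_insert ha, Finset.sum_insert ha]
    exact (h.mul _ _).trans (Nat.add_le_add (hb a (Finset.mem_insert_self a s))
      (ih fun i hi => hb i (Finset.mem_insert_of_mem hi)))

theorem sum (h : Dg d) {ι : Type*} (s : Finset ι) (f : ι → R) (B : ℕ)
    (hb : ∀ i ∈ s, d (f i) ≤ B) : d (∑ i ∈ s, f i) ≤ B := by
  classical
  induction s using Finset.induction_on with
  | empty =>
    have h1 := h.nat 0
    rw [Nat.cast_zero] at h1
    rw [Finset.sum_empty, h1]
    exact Nat.zero_le _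
  | insert a s ha ih =>
    rw [Finset.sum_insert ha]
    exact (h.add _ _).trans (max_le (hb a (Finset.mem_insert_self a s))
      (ih fun i hi => hb i (Finset.mem_insert_of_mem hi)))

end Dg

theorem dg_natDegree (R : Type*) [CommSemiring R] :
    Dg (fun p : Polynomial R => p.natDegree) where
  add := fun x y => Polynomial.natDegree_add_le x y
  mul := fun x y => Polynomial.natDegree_mul_le
  nat := fun n => Polynomial.natDegree_natCast n

theorem dg_degreeOf (R : Type*) [CommSemiring R] {σ : Type*} (i : σ) :
    Dg (fun p : MvPolynomial σ R => p.degreeOf i) where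
  add := fun x y => degreeOf_add_le i x y
  mul := fun x y => degreeOf_mul_le i x y
  nat := fun n => by
    have h : ((n : ℕ) : MvPolynomial σ R) = C (n : R) := (map_natCast C n).symm
    show degreeOf i ((n : ℕ) : MvPolynomial σ R) = 0
    rw [h]
    exact degreeOf_C _ _

/-- The degree of a substituted polynomial. -/
theorem aeval_le {K R : Type*} [CommSemiring K] [CommSemiring R] [Algebra K R] {d : R → ℕ}
    (h : Dg d) (hK : ∀ c : K, d (algebraMap K R c) = 0) {V : Type*} [Finite V]
    (f : MvPolynomial V K) (m B : ℕ) (hf : f.totalDegree ≤ m) (y : V → R)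
    (hy : ∀ v, d (y v) ≤ B) : d (aeval y f) ≤ m * B := by
  cases nonempty_fintype V
  rw [aeval_def, eval₂_eq']
  refine h.sum _ _ _ fun e he => ?_
  refine (h.mul _ _).trans ?_
  rw [hK, zero_add]
  refine (h.prod _ _ (fun v => e v * B) fun v _ => ?_).trans ?_
  · exact (h.pow _ _).trans (Nat.mul_le_mul_left _ (hy v))
  · rw [← Finset.sum_mul]
    refine Nat.mul_le_mul_right _ (le_trans ?_ hf)
    have h1 := le_totalDegree he
    rw [Finsupp.sum_fintype _ _ (fun _ => rfl)] at h1
    exact h1

end Pool.Agent.FOR
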