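import Pool.Agent.FOR.NUd
import Pool.Agent.FOR.NSeq

/-!
MODULE FOR-NPs (est. 1.2 h).  Degrees of the generators, for an arbitrary degree function `d`.
Let `w = sz (j + 1) = sz j ^ 2 ≥ 2 ^ 32`.

PLAN.  `dg_yf`: the first sum has degree `≤ S` (`(i : R)^k` has degree `0`, `Dg.nat` and `Dg.pow`);
the second term: `wt ≤ w⁷` (`wt_le`), `dg_uu` with `X = w^16 * d z` (`dg_zu`):
`w⁷ * (w^123 * (w^16 * d z) + d e) = w^146 * d z + w^7 * d e`; the bucket is `< sz j`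
(`Nat.mod_lt`).
`dg_ys`: each summand is `(∏ (s + l)) * yf`, the product has degree
`≤ (length - 1) * d s ≤ w^4 * d s` (`Dg.prod`, `gs_length`).
`dg_yp`: `σ k = t ^ bs^k` has degree `≤ bs^4 * d t`, etc.:
`w⁴ * bs⁶ + max (bs⁴) (w^146 * bs^7 + w^7 * bs^5) ≤ w^70 + w^44 + w^223 + w^62 ≤ w^224`, `bs = w^11`.
`dg_Ps`: induction on `j`; `j = 0`: `dg_crv` with `mf (2 ^ 16) ≤ 2 ^ 32`
(`List.map_replicate`, `List.prod_replicate`, `List.nodup_finRange`), so `(2 ^ 32) ^ 16 ≤ sz 0 ^ 240`.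
`j + 1`: `d (t ^ w^240 + e * yp) ≤ max (w^240 * d t) (d e + w^224 * d t)`.
-/

set_option autoImplicit false

namespace Pool.Agent.FOR

variable {R : Type*} [CommSemiring R] {d : R → ℕ}

theorem dg_yf (h : Dg d) (j : ℕ) (P : R → R → ℕ → R)
    (hP : ∀ b < sz j, ∀ t e, d (P t e b) ≤ sz j ^ 240 * d t + d e) (k : ℕ) (σ : ℕ → R) (S : ℕ)
    (hσ : ∀ a < 5, d (σ a) ≤ S) (e z : R) (i : ℕ) (hi : i < sz (j + 1)) :
    d (yf j P ((gs j).getD k (0, 0, [], [])) σ e z i) ≤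
      max S (sz (j + 1) ^ 146 * d z + sz (j + 1) ^ 7 * d e) := by
  unfold yf
  refine (h.add _ _).trans (max_le_max ?_ ?_)
  · refine h.sum _ _ _ fun a ha => ?_
    have h1 : d ((i : R) ^ a) ≤ 0 := by
      refine (h.pow _ _).trans ?_
      rw [h.nat i, Nat.mul_zero]
    have h2 := hσ a (Finset.mem_range.1 ha)
    exact (h.mul _ _).trans (by omega)
  · refine (h.pow _ _).trans ?_
    have h1 := dg_uu h j P hP ((gs j).getD k (0, 0, [], [])).2.2.1
      (zu j ((gs j).getD k (0, 0, [], [])).2.2.1 ((gs j).getD k (0, 0, [], [])).2.2.2 z)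
      (sz (j + 1) ^ 16 * d z) (fun a => dg_zu h j k _ z a) e
      (Pool.Agent.AOR.bucket ((gs j).getD k (0, 0, [], [])).1
        ((gs j).getD k (0, 0, [], [])).2.1 (sz j) i) (Nat.mod_lt _ (sz_pos j))
    refine (Nat.mul_le_mul (wt_le j i hi) h1).trans (le_of_eq ?_)
    generalize sz (j + 1) = w
    generalize d z = x
    generalize d e = y
    rw [mul_add, ← mul_assoc, ← mul_assoc, ← pow_add, ← pow_add]

theorem dg_ys (h : Dg d) (j : ℕ) (P : R → R → ℕ → R)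
    (hP : ∀ b < sz j, ∀ t e, d (P t e b) ≤ sz j ^ 240 * d t + d e) (σ : ℕ → R) (S : ℕ)
    (hσ : ∀ a < 5, d (σ a) ≤ S) (e s z : R) (i : ℕ) (hi : i < sz (j + 1)) :
    d (ys j P σ e s z i) ≤ sz (j + 1) ^ 4 * d s +
      max S (sz (j + 1) ^ 146 * d z + sz (j + 1) ^ 7 * d e) := by
  unfold ys
  refine h.sum _ _ _ fun k _ => ?_
  refine (h.mul _ _).trans (Nat.add_le_add ?_ (dg_yf h j P hP k σ S hσ e z i hi))
  refine (h.prod _ _ (fun _ => d s) fun l _ => ?_).trans ?_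
  · refine (h.add _ _).trans ?_
    rw [h.nat l]
    exact max_le le_rfl (Nat.zero_le _)
  · rw [Finset.sum_const, smul_eq_mul]
    refine Nat.mul_le_mul_right _ (le_trans ?_ (gs_length j))
    refine (Finset.card_le_card (Finset.erase_subset _ _)).trans ?_
    rw [Finset.card_range]

private theorem yp_arith (w x : ℕ) (hw : 4 ≤ w) :
    w ^ 4 * ((w ^ 11) ^ 6 * x) + ((w ^ 11) ^ 4 * x + (w ^ 146 * ((w ^ 11) ^ 7 * x) +
      w ^ 7 * ((w ^ 11) ^ 5 * x))) ≤ w ^ 224 * x := by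
  have e1 : w ^ 4 * ((w ^ 11) ^ 6 * x) = w ^ 70 * x := by
    rw [← mul_assoc, ← pow_mul, ← pow_add]
  have e2 : (w ^ 11) ^ 4 * x = w ^ 44 * x := by
    rw [← pow_mul]
  have e3 : w ^ 146 * ((w ^ 11) ^ 7 * x) = w ^ 223 * x := by
    rw [← mul_assoc, ← pow_mul, ← pow_add]
  have e4 : w ^ 7 * ((w ^ 11) ^ 5 * x) = w ^ 62 * x := by
    rw [← mul_assoc, ← pow_mul, ← pow_add]
  rw [e1, e2, e3, e4]
  have l1 : w ^ 70 * x ≤ w ^ 223 * x :=
    Nat.mul_le_mul_right _ (Nat.pow_le_pow_right (by omega) (by omega))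
  have l2 : w ^ 44 * x ≤ w ^ 223 * x :=
    Nat.mul_le_mul_right _ (Nat.pow_le_pow_right (by omega) (by omega))
  have l3 : w ^ 62 * x ≤ w ^ 223 * x :=
    Nat.mul_le_mul_right _ (Nat.pow_le_pow_right (by omega) (by omega))
  have l4 : 4 * (w ^ 223 * x) ≤ w * (w ^ 223 * x) := Nat.mul_le_mul_right _ hw
  have e5 : w * (w ^ 223 * x) = w ^ 224 * x := by
    rw [← mul_assoc, ← pow_succ']
  rw [e5] at l4
  generalize w ^ 223 * x = A at *
  generalize w ^ 70 * x = A1 at *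
  generalize w ^ 44 * x = A2 at *
  generalize w ^ 62 * x = A3 at *
  generalize w ^ 224 * x = A4 at *
  omega

theorem dg_yp (h : Dg d) (j : ℕ) (P : R → R → ℕ → R)
    (hP : ∀ b < sz j, ∀ t e, d (P t e b) ≤ sz j ^ 240 * d t + d e) (t : R) (i : ℕ)
    (hi : i < sz (j + 1)) : d (yp j P t i) ≤ sz (j + 1) ^ 224 * d t := by
  unfold yp
  have hw : 4 ≤ sz (j + 1) := le_trans (by norm_num) (sz_ge (j + 1))
  have hbs : 0 < bs j := by
    unfold bs
    exact Nat.pow_pos (by omega)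
  refine (dg_ys h j P hP _ (bs j ^ 4 * d t) (fun a ha => ?_) _ _ _ i hi).trans ?_
  · refine (h.pow _ _).trans (Nat.mul_le_mul_right _ ?_)
    exact Nat.pow_le_pow_right hbs (by omega)
  · refine le_trans (Nat.add_le_add (Nat.mul_le_mul_left _ (h.pow _ _))
      (max_le (Nat.le_add_right (bs j ^ 4 * d t) (sz (j + 1) ^ 146 * (bs j ^ 7 * d t) +
        sz (j + 1) ^ 7 * (bs j ^ 5 * d t))) (le_trans (Nat.add_le_add
          (Nat.mul_le_mul_left _ (h.pow _ _)) (Nat.mul_le_mul_left _ (h.pow _ _)))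
          (Nat.le_add_left _ _)))) ?_
    unfold bs
    exact yp_arith _ _ hw

private theorem mf_sixteen : mf (2 ^ 16) ≤ (2 ^ 16) ^ 2 := by
  unfold mf
  norm_num

theorem dg_Ps (h : Dg d) : ∀ j, ∀ b < sz j, ∀ t e : R, d (Ps j t e b) ≤ sz j ^ 240 * d t + d e := by
  intro j
  induction j with
  | zero =>
    intro b _ t e
    show d (crv (List.replicate 16 (2 ^ 16, ∅)) (List.finRange (sz 0)) t (fi 0 b)) ≤ _
    refine (dg_crv h _ _ (List.nodup_finRange _) t (fi 0 b)).trans ?_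
    refine le_trans (Nat.mul_le_mul_right _ ?_) (Nat.le_add_right _ _)
    rw [List.map_replicate, List.prod_replicate]
    refine (Nat.pow_le_pow_left mf_sixteen 16).trans ?_
    have h0 : 2 ^ 16 ≤ sz 0 := sz_ge 0
    generalize (2 : ℕ) ^ 16 = a at h0
    refine (Nat.pow_le_pow_left (Nat.pow_le_pow_left h0 2) 16).trans ?_
    rw [← pow_mul]
    exact Nat.pow_le_pow_right (sz_pos 0) (by omega)
  | succ j ih =>
    intro b hb t e
    show d (t ^ sz (j + 1) ^ 240 + e * yp j (Ps j) t b) ≤ _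
    refine (h.add _ _).trans (max_le ?_ ?_)
    · exact (h.pow _ _).trans (Nat.le_add_right _ _)
    · refine (h.mul _ _).trans ?_
      rw [Nat.add_comm]
      refine Nat.add_le_add_right ((dg_yp h j (Ps j) ih t b hb).trans (Nat.mul_le_mul_right _ ?_)) _
      exact Nat.pow_le_pow_right (sz_pos (j + 1)) (by omega)

end Pool.Agent.FOR
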