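import Pool.Agent.FOR.NCrv

/-!
MODULE FOR-NUd (est. 0.8 h).  Degrees of the units and of the variables of the level `j`, for an
arbitrary degree function `d`.  Let `w = sz (j + 1) = sz j ^ 2 ≥ 2 ^ 32`.

PLAN.  `dg_ud`: induction on `l`, cases on `s`.
`dg_zu`: `dg_crv` with `hds_fi_nodup`, and `gs_prod`.
`dg_uu`: `dg_ud` with `B = sz j ^ 240 * ((J1 j + 1) * X) + (d e + X)`, using the hypothesis `hP`
for `t = x a ^ (J1 j + 1)`, `e * x a`; `J1_le`, `sz j ^ 240 = w ^ 120`, `w^122 + 1 ≤ w^123`.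
-/

set_option autoImplicit false

namespace Pool.Agent.FOR

variable {R : Type*} [CommSemiring R] {d : R → ℕ}

theorem dg_ud (P : R → R → ℕ → R) (t e : ℕ → R) (B J : ℕ)
    (hP : ∀ a b, b < J → d (P (t a) (e a) b) ≤ B) (ht : ∀ a, d (t a) ≤ B) (l : ℕ) :
    ∀ (a : ℕ) (s : List Bool) (b : ℕ), b < J → d (ud P t e l a s b) ≤ B := by
  induction l with
  | zero =>
    intro a s b _
    exact ht b
  | succ l ih =>
    intro a s b hb
    rcases s with _ | ⟨c, s⟩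
    · exact hP a b hb
    · cases c
      · show d (if b < a + 2 ^ l then ud P t e l a s b else P (t (a + 2 ^ l)) (e (a + 2 ^ l)) b) ≤ B
        split_ifs
        · exact ih a s b hb
        · exact hP _ b hb
      · show d (if b < a + 2 ^ l then P (t a) (e a) b else ud P t e l (a + 2 ^ l) s b) ≤ B
        split_ifs
        · exact hP _ b hb
        · exact ih _ s b hb

theorem dg_zu (h : Dg d) (j k : ℕ) (s : List Bool) (z : R) (a : ℕ) :
    d (zu j s ((gs j).getD k (0, 0, [], [])).2.2.2 z a) ≤ sz (j + 1) ^ 16 * d z := by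
  unfold zu
  exact le_trans (dg_crv h _ _ (hds_fi_nodup j s) z (fi j a)) (Nat.mul_le_mul_right _ (gs_prod j k))

theorem dg_uu (h : Dg d) (j : ℕ) (P : R → R → ℕ → R)
    (hP : ∀ b < sz j, ∀ t e, d (P t e b) ≤ sz j ^ 240 * d t + d e) (s : List Bool) (x : ℕ → R)
    (X : ℕ) (hx : ∀ a, d (x a) ≤ X) (e : R) (b : ℕ) (hb : b < sz j) :
    d (uu j P s x e b) ≤ sz (j + 1) ^ 123 * X + d e := by
  unfold uu
  have hw : 2 ≤ sz (j + 1) := le_trans (by norm_num) (sz_ge (j + 1))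
  have hs : 1 ≤ sz j := sz_pos j
  have hJ : J1 j + 1 ≤ sz (j + 1) ^ 2 := J1_le j
  have hpw : ∀ a, d (x a ^ (J1 j + 1)) ≤ (J1 j + 1) * X := fun a =>
    le_trans (h.pow (x a) (J1 j + 1)) (Nat.mul_le_mul_left _ (hx a))
  have h1 : (J1 j + 1) * X ≤ sz j ^ 240 * ((J1 j + 1) * X) := by
    have h2 : 1 ≤ sz j ^ 240 := Nat.one_le_pow _ _ hs
    calc (J1 j + 1) * X = 1 * ((J1 j + 1) * X) := (one_mul _).symm
      _ ≤ sz j ^ 240 * ((J1 j + 1) * X) := Nat.mul_le_mul_right _ h2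
  have key : d (ud P (fun a => x a ^ (J1 j + 1)) (fun a => e * x a) (lg j) 0 s b) ≤
      sz j ^ 240 * ((J1 j + 1) * X) + (d e + X) := by
    refine dg_ud P _ _ _ (sz j) (fun a b hb => ?_) (fun a => ?_) (lg j) 0 s b hb
    · refine le_trans (hP b hb _ _) (Nat.add_le_add (Nat.mul_le_mul_left _ (hpw a)) ?_)
      exact le_trans (h.mul e (x a)) (Nat.add_le_add_left (hx a) _)
    · exact le_trans (hpw a) (le_trans h1 (Nat.le_add_right _ _))
  refine le_trans key ?_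
  have e1 : sz j ^ 240 = sz (j + 1) ^ 120 := by
    rw [sz_succ, ← pow_mul]
  have h3 : sz j ^ 240 * ((J1 j + 1) * X) ≤ sz (j + 1) ^ 122 * X := by
    rw [e1]
    calc sz (j + 1) ^ 120 * ((J1 j + 1) * X) ≤ sz (j + 1) ^ 120 * (sz (j + 1) ^ 2 * X) :=
          Nat.mul_le_mul_left _ (Nat.mul_le_mul_right _ hJ)
      _ = sz (j + 1) ^ 122 * X := by rw [← mul_assoc, ← pow_add]
  have h4 : sz (j + 1) ^ 122 + 1 ≤ sz (j + 1) ^ 123 := by
    have h5 : 1 ≤ sz (j + 1) ^ 122 := Nat.one_le_pow _ _ (by omega)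
    have h6 : sz (j + 1) ^ 123 = sz (j + 1) ^ 122 * sz (j + 1) := pow_succ _ _
    have h7 : sz (j + 1) ^ 122 * 2 ≤ sz (j + 1) ^ 122 * sz (j + 1) := Nat.mul_le_mul_left _ hw
    rw [h6]
    omega
  have h8 : (sz (j + 1) ^ 122 + 1) * X ≤ sz (j + 1) ^ 123 * X := Nat.mul_le_mul_right _ h4
  rw [add_mul, one_mul] at h8
  omega

end Pool.Agent.FOR
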