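import Pool.Agent.AOI.Defs

/-!
Project FOR: polynomials in a finite-dimensional space closed under partial derivatives have small
flattening ranks and small degree (characteristic zero).
-/

set_option autoImplicit false

namespace Pool.Agent.FOR

open MvPolynomial
open Pool.Agent.AOI (Cut Cuts)

variable {K : Type*} [Field K] {n : ℕ}

/-- The variable `i` is set to zero. -/
private noncomputable def rho (i : Fin n) : MvPolynomial (Fin n) K →ₐ[K] MvPolynomial (Fin n) K :=
  aeval (fun j => if j = i then 0 else X j)

private theorem rho_monomial (i : Fin n) (s : Fin n →₀ ℕ) (a : K) :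
    rho i (monomial s a) = if s i = 0 then monomial s a else 0 := by
  classical
  unfold rho
  rw [aeval_monomial, algebraMap_eq]
  split_ifs with h
  · rw [monomial_eq]
    congr 1
    refine Finset.prod_congr rfl fun j hj => ?_
    dsimp only
    rw [if_neg]
    rintro rfl
    exact (Finsupp.mem_support_iff.1 hj) h
  · have hmem : i ∈ s.support := Finsupp.mem_support_iff.2 h
    unfold Finsupp.prod
    rw [Finset.prod_eq_zero hmem, mul_zero]
    dsimp only
    rw [if_pos rfl, zero_pow h]

private theorem pderiv_iter_monomial (i : Fin n) (s : Fin n →₀ ℕ) (a : K) (k : ℕ) :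
    (pderiv i)^[k] (monomial s a) =
      monomial (s - Finsupp.single i k) (a * ((s i).descFactorial k : K)) := by
  induction k with
  | zero => simp
  | succ k ih =>
    rw [Function.iterate_succ_apply', ih, pderiv_monomial]
    have h1 : s - Finsupp.single i k - Finsupp.single i 1 = s - Finsupp.single i (k + 1) := by
      rw [tsub_tsub, ← Finsupp.single_add]
    rw [h1]
    congr 1
    rw [Finsupp.tsub_apply, Finsupp.single_eq_same, Nat.descFactorial_succ]
    push_cast
    ring

/-- Taylor expansion in one variable. -/
private theorem taylor_one [CharZero K] (i : Fin n) (p : MvPolynomial (Fin n) K) (N : ℕ)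
    (hN : p.degreeOf i < N) :
    p = ∑ k ∈ Finset.range N, C ((k.factorial : K)⁻¹) * X i ^ k * rho i ((pderiv i)^[k] p) := by
  classical
  have hlin : ∀ k, (pderiv i)^[k] p = ∑ s ∈ p.support, (pderiv i)^[k] (monomial s (coeff s p)) := by
    intro k
    conv_lhs => rw [p.as_sum]
    induction k with
    | zero => simp
    | succ k ih =>
      simp only [Function.iterate_succ_apply', ih, map_sum]
  have h1 : ∀ s ∈ p.support, (∑ k ∈ Finset.range N, C ((k.factorial : K)⁻¹) * X i ^ k *
      rho i ((pderiv i)^[k] (monomial s (coeff s p)))) = monomial s (coeff s p) := by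
    intro s hs
    have hsN : s i < N := lt_of_le_of_lt (monomial_le_degreeOf i hs) hN
    rw [Finset.sum_eq_single (s i)]
    · rw [pderiv_iter_monomial, rho_monomial, if_pos (by simp), Nat.descFactorial_self, X_pow_eq_monomial,
        C_mul_monomial, monomial_mul]
      have e1 : Finsupp.single i (s i) + (s - Finsupp.single i (s i)) = s := by
        rw [add_tsub_cancel_of_le]
        exact Finsupp.single_le_iff.2 le_rfl
      rw [e1]
      congr 1
      have hf : ((s i).factorial : K) ≠ 0 := Nat.cast_ne_zero.2 (Nat.factorial_ne_zero _)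
      field_simp
    · intro k _ hk
      rw [pderiv_iter_monomial, rho_monomial]
      rcases lt_or_gt_of_ne hk with h | h
      · rw [if_neg (by rw [Finsupp.tsub_apply, Finsupp.single_eq_same]; omega), mul_zero]
      · rw [Nat.descFactorial_of_lt h]
        simp
    · intro h
      exact absurd (Finset.mem_range.2 hsN) h
  calc p = ∑ s ∈ p.support, monomial s (coeff s p) := p.as_sum
    _ = ∑ s ∈ p.support, ∑ k ∈ Finset.range N, C ((k.factorial : K)⁻¹) * X i ^ k *
      rho i ((pderiv i)^[k] (monomial s (coeff s p))) := by
        refine Finset.sum_congr rfl fun s hs => (h1 s hs).symm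
    _ = _ := by
        rw [Finset.sum_comm]
        refine Finset.sum_congr rfl fun k _ => ?_
        rw [hlin k, map_sum, Finset.mul_sum]

private theorem rho_pderiv (i j : Fin n) (hij : j ≠ i) (p : MvPolynomial (Fin n) K) :
    pderiv j (rho i p) = rho i (pderiv j p) := by
  classical
  induction p using MvPolynomial.induction_on' with
  | monomial s a =>
    rw [rho_monomial, pderiv_monomial, rho_monomial]
    have e : (s - Finsupp.single j 1 : Fin n →₀ ℕ) i = s i := by
      rw [Finsupp.tsub_apply, Finsupp.single_eq_of_ne (by exact fun h => hij h.symm), Nat.sub_zero]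
    rw [e]
    split_ifs
    · rw [pderiv_monomial]
    · rw [map_zero]
  | add p q hp hq => rw [map_add, map_add, hp, hq, map_add, map_add]

private theorem rho_pderiv_self (i : Fin n) (p : MvPolynomial (Fin n) K) :
    pderiv i (rho i p) = 0 := by
  classical
  induction p using MvPolynomial.induction_on' with
  | monomial s a =>
    rw [rho_monomial]
    split_ifs with h
    · rw [pderiv_monomial, h]
      simp
    · rw [map_zero]
  | add p q hp hq => rw [map_add, map_add, hp, hq, add_zero]

private theorem coeff_rho (i : Fin n) (p : MvPolynomial (Fin n) K) (m : Fin n →₀ ℕ) :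
    coeff m (rho i p) = if m i = 0 then coeff m p else 0 := by
  classical
  induction p using MvPolynomial.induction_on' with
  | monomial s a =>
    rw [rho_monomial]
    by_cases h : s = m
    · subst h
      split_ifs <;> simp
    · rw [coeff_monomial, if_neg h, ite_self]
      split_ifs
      · rw [coeff_monomial, if_neg h]
      · simp
  | add p q hp hq =>
    rw [map_add, coeff_add, coeff_add, hp, hq]
    split_ifs
    · rfl
    · rw [add_zero]

private theorem rho_vars (i : Fin n) (p : MvPolynomial (Fin n) K) : i ∉ (rho i p).vars := by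
  classical
  intro h
  obtain ⟨m, hm, him⟩ := (mem_vars_iff_mem_support i).1 h
  rw [mem_support_iff, coeff_rho, if_neg (Finsupp.mem_support_iff.1 him)] at hm
  exact hm rfl

private theorem rho_vars_subset (i : Fin n) (p : MvPolynomial (Fin n) K) :
    (rho i p).vars ⊆ p.vars := by
  classical
  intro j h
  obtain ⟨m, hm, him⟩ := (mem_vars_iff_mem_support j).1 h
  refine (mem_vars_iff_mem_support j).2 ⟨m, ?_, him⟩
  rw [mem_support_iff] at hm ⊢
  intro h0
  apply hm
  rw [coeff_rho, h0, ite_self]

/-- Closed under all partial derivatives. -/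
def Stable (U : Submodule K (MvPolynomial (Fin n) K)) : Prop :=
  ∀ i, ∀ p ∈ U, pderiv i p ∈ U

private theorem Stable.iter {U : Submodule K (MvPolynomial (Fin n) K)} (hU : Stable U) (i : Fin n)
    {p : MvPolynomial (Fin n) K} (hp : p ∈ U) (k : ℕ) : (pderiv i)^[k] p ∈ U := by
  induction k with
  | zero => exact hp
  | succ k ih =>
    rw [Function.iterate_succ_apply']
    exact hU i _ ih

private theorem key [CharZero K] (S : Finset (Fin n)) :
    ∀ U : Submodule K (MvPolynomial (Fin n) K), FiniteDimensional K U → Stable U →
      ∃ W : Submodule K (MvPolynomial (Fin n) K), FiniteDimensional K W ∧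
        Module.finrank K W ≤ Module.finrank K U ∧ (∀ h ∈ W, h.vars ⊆ Sᶜ) ∧
        (∀ j, (∀ h ∈ U, j ∉ h.vars) → ∀ h ∈ W, j ∉ h.vars) ∧
        ∀ f ∈ U, f ∈ Submodule.span K {q | ∃ a h : MvPolynomial (Fin n) K,
          a.vars ⊆ S ∧ h ∈ W ∧ q = a * h} := by
  classical
  induction S using Finset.induction_on with
  | empty =>
    intro U hfin hU
    refine ⟨U, hfin, le_rfl, fun h _ => by simp, fun j hj => hj,
      fun f hf => Submodule.subset_span ⟨1, f, ?_, hf, ?_⟩⟩
    · rw [vars_one]
    · rw [one_mul]
  | insert i S hi ih =>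
    intro U hfin hU
    have hfin' : FiniteDimensional K (U.map (rho i).toLinearMap) := inferInstance
    have hU' : Stable (U.map (rho i).toLinearMap) := by
      rintro j _ ⟨p, hp, rfl⟩
      by_cases hji : j = i
      · subst hji
        have e : pderiv j ((rho j).toLinearMap p) = 0 := rho_pderiv_self j p
        rw [e]
        exact Submodule.zero_mem _
      · exact ⟨pderiv j p, hU j p hp, (rho_pderiv i j hji p).symm⟩
    obtain ⟨W, hW, hle, hv, hj, hspan⟩ := ih _ hfin' hU'
    have hvi : ∀ h ∈ U.map (rho i).toLinearMap, i ∉ h.vars := by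
      rintro _ ⟨p, _, rfl⟩
      exact rho_vars i p
    have hWi := hj i hvi
    refine ⟨W, hW, hle.trans (Submodule.finrank_map_le _ _), ?_, ?_, ?_⟩
    · intro h hh j hjv
      have h1 := hv h hh hjv
      rw [Finset.mem_compl] at h1 ⊢
      rw [Finset.mem_insert]
      rintro (rfl | h2)
      · exact hWi h hh hjv
      · exact h1 h2
    · intro j hjU
      refine hj j ?_
      rintro _ ⟨p, hp, rfl⟩ hjv
      exact hjU p hp (rho_vars_subset i p hjv)
    · intro f hf
      rw [taylor_one i f (f.degreeOf i + 1) (Nat.lt_succ_self _)]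
      refine Submodule.sum_mem _ fun k _ => ?_
      have h1 := hspan (rho i ((pderiv i)^[k] f)) ⟨_, hU.iter i hf k, rfl⟩
      refine Submodule.span_induction (p := fun q _ => C ((k.factorial : K)⁻¹) * X i ^ k * q ∈
        Submodule.span K {q | ∃ a h : MvPolynomial (Fin n) K,
          a.vars ⊆ insert i S ∧ h ∈ W ∧ q = a * h}) ?_ ?_ ?_ ?_ h1
      · rintro _ ⟨a, h, ha, hh, rfl⟩
        refine Submodule.subset_span ⟨C ((k.factorial : K)⁻¹) * X i ^ k * a, h, ?_, hh, by ring⟩
        refine (vars_mul _ _).trans (Finset.union_subset ?_ (ha.trans (Finset.subset_insert i S)))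
        refine (vars_mul _ _).trans (Finset.union_subset (by rw [vars_C]; exact Finset.empty_subset _) ?_)
        refine (vars_pow _ _).trans ?_
        rw [vars_X]
        exact Finset.singleton_subset_iff.2 (Finset.mem_insert_self i S)
      · rw [mul_zero]
        exact Submodule.zero_mem _
      · intro x y _ _ hx hy
        rw [mul_add]
        exact Submodule.add_mem _ hx hy
      · intro c x _ hx
        rw [mul_smul_comm]
        exact Submodule.smul_mem _ c hx

/-- Every element of a finite-dimensional space closed under partial derivatives has small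
flattening ranks. -/
theorem cuts_of_stable [CharZero K] (U : Submodule K (MvPolynomial (Fin n) K))
    [FiniteDimensional K U] (hU : Stable U) (s : ℕ) (hs : Module.finrank K U ≤ s)
    (f : MvPolynomial (Fin n) K) (hf : f ∈ U) : Cuts s f := by
  classical
  intro S
  obtain ⟨W, hW, hle, hv, -, hspan⟩ := key S U inferInstance hU
  have hr : Module.finrank K W ≤ s := hle.trans hs
  let b := Module.finBasis K W
  have h1 := hspan f hf
  -- the set of polynomials which have a decomposition is a subspace
  have h2 : ∀ q ∈ Submodule.span K {q | ∃ a h : MvPolynomial (Fin n) K,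
      a.vars ⊆ S ∧ h ∈ W ∧ q = a * h}, ∃ g : Fin (Module.finrank K W) → MvPolynomial (Fin n) K,
      (∀ k, (g k).vars ⊆ S) ∧ q = ∑ k, g k * (b k : MvPolynomial (Fin n) K) := by
    intro q hq
    induction hq using Submodule.span_induction with
    | mem q hq =>
      obtain ⟨a, h, ha, hh, rfl⟩ := hq
      refine ⟨fun k => C (b.repr ⟨h, hh⟩ k) * a, fun k => ?_, ?_⟩
      · refine (vars_mul _ _).trans (Finset.union_subset (by rw [vars_C]; exact Finset.empty_subset _) ha)
      · have e1 : ((∑ k, b.repr ⟨h, hh⟩ k • b k : W) : MvPolynomial (Fin n) K) = h :=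
          congrArg (Subtype.val) (b.sum_repr ⟨h, hh⟩)
        have e : h = ∑ k, b.repr ⟨h, hh⟩ k • (b k : MvPolynomial (Fin n) K) := by
          refine e1.symm.trans ?_
          rw [Submodule.coe_sum]
          rfl
        conv_lhs => rw [e]
        rw [Finset.mul_sum]
        refine Finset.sum_congr rfl fun k _ => ?_
        rw [smul_eq_C_mul]
        ring
    | zero => exact ⟨fun _ => 0, fun k => by simp, by simp⟩
    | add x y _ _ hx hy =>
      obtain ⟨g, hg, rfl⟩ := hx
      obtain ⟨g', hg', rfl⟩ := hy
      refine ⟨fun k => g k + g' k, fun k => (vars_add_subset _ _).trans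
        (Finset.union_subset (hg k) (hg' k)), ?_⟩
      simp only [add_mul, Finset.sum_add_distrib]
    | smul c x _ hx =>
      obtain ⟨g, hg, rfl⟩ := hx
      refine ⟨fun k => C c * g k, fun k => (vars_mul _ _).trans
        (Finset.union_subset (by rw [vars_C]; exact Finset.empty_subset _) (hg k)), ?_⟩
      rw [smul_eq_C_mul, Finset.mul_sum]
      simp only [mul_assoc]
  obtain ⟨g, hg, hfg⟩ := h2 f h1
  refine ⟨fun k => if h : (k : ℕ) < Module.finrank K W then g ⟨k, h⟩ else 0,
    fun k => if h : (k : ℕ) < Module.finrank K W then (b ⟨k, h⟩ : MvPolynomial (Fin n) K) else 0,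
    fun k => ?_, fun k => ?_, ?_⟩
  · dsimp only
    split_ifs
    · exact hg _
    · simp
  · dsimp only
    split_ifs
    · exact hv _ (b _).2
    · simp
  · rw [hfg]
    have e : ∀ k : Fin (Module.finrank K W), g k * (b k : MvPolynomial (Fin n) K) =
        (fun m : ℕ => if h : m < Module.finrank K W then g ⟨m, h⟩ * (b ⟨m, h⟩ : MvPolynomial (Fin n) K)
          else 0) (k : ℕ) := by
      intro k
      dsimp only
      rw [dif_pos k.2]
    rw [Finset.sum_congr rfl fun k _ => e k, Fin.sum_univ_eq_sum_range
      (fun m : ℕ => if h : m < Module.finrank K W then g ⟨m, h⟩ * (b ⟨m, h⟩ : MvPolynomial (Fin n) K)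
        else 0) (Module.finrank K W)]
    rw [Finset.sum_subset (Finset.range_subset_range.2 hr) (fun m _ hm => by
      rw [Finset.mem_range] at hm
      rw [dif_neg hm])]
    rw [← Fin.sum_univ_eq_sum_range]
    refine Finset.sum_congr rfl fun k _ => ?_
    dsimp only
    split_ifs
    · rfl
    · rw [zero_mul]

private theorem sum_le_totalDegree (p : MvPolynomial (Fin n) K) (m : Fin n →₀ ℕ)
    (hm : m ∈ p.support) : ∑ i, m i ≤ p.totalDegree := by
  have h := le_totalDegree hm
  rwa [Finsupp.sum_fintype _ _ (fun _ => rfl)] at h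

private theorem totalDegree_le_of (p : MvPolynomial (Fin n) K) (k : ℕ)
    (h : ∀ m ∈ p.support, ∑ i, m i ≤ k) : p.totalDegree ≤ k := by
  refine Finset.sup_le fun m hm => ?_
  rw [Finsupp.sum_fintype _ _ (fun _ => rfl)]
  exact h m hm

/-- The degree of a nonzero element of a finite-dimensional space closed under partial derivatives is
smaller than the dimension. -/
theorem totalDegree_lt_of_stable [CharZero K] (U : Submodule K (MvPolynomial (Fin n) K))
    [FiniteDimensional K U] (hU : Stable U) (f : MvPolynomial (Fin n) K) (hf : f ∈ U)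
    (hf0 : f ≠ 0) : f.totalDegree < Module.finrank K U := by
  classical
  -- elements of all degrees
  have h1 : ∀ k, k ≤ f.totalDegree → ∃ p ∈ U, p ≠ 0 ∧ p.totalDegree = f.totalDegree - k := by
    intro k
    induction k with
    | zero => exact fun _ => ⟨f, hf, hf0, rfl⟩
    | succ k ih =>
      intro hk
      obtain ⟨p, hpU, hp0, hpd⟩ := ih (by omega)
      have hpos : 0 < p.totalDegree := by omega
      obtain ⟨s, hs, hsd⟩ : ∃ s ∈ p.support, ∑ i, s i = p.totalDegree := by
        obtain ⟨s, hs, h⟩ := Finset.exists_mem_eq_sup p.support (support_nonempty.2 hp0)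
          (fun s => s.sum fun _ e => e)
        refine ⟨s, hs, ?_⟩
        rw [← Finsupp.sum_fintype s (fun _ e => e) (fun _ => rfl)]
        exact h.symm
      obtain ⟨i, hi⟩ : ∃ i, s i ≠ 0 := by
        by_contra hcon
        push Not at hcon
        have h0 : ∑ i, s i = 0 := Finset.sum_eq_zero fun i _ => hcon i
        omega
      have hdeg : (pderiv i p).totalDegree ≤ p.totalDegree - 1 := by
        refine totalDegree_le_of _ _ fun m hm => ?_
        rw [mem_support_iff, coeff_pderiv] at hm
        have h2 : m + Finsupp.single i 1 ∈ p.support := by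
          rw [mem_support_iff]
          exact left_ne_zero_of_mul hm
        have h3 := sum_le_totalDegree p _ h2
        simp only [Finsupp.add_apply, Finset.sum_add_distrib] at h3
        have h4 : ∑ j, (Finsupp.single i 1 : Fin n →₀ ℕ) j = 1 := by
          rw [Finset.sum_eq_single i (fun j _ hj => Finsupp.single_eq_of_ne hj)
            (fun h => absurd (Finset.mem_univ i) h), Finsupp.single_eq_same]
        omega
      have hne : s - Finsupp.single i 1 ∈ (pderiv i p).support := by
        rw [mem_support_iff, coeff_pderiv,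
          tsub_add_cancel_of_le (Finsupp.single_le_iff.2 (Nat.one_le_iff_ne_zero.2 hi))]
        exact mul_ne_zero (mem_support_iff.1 hs) (Nat.cast_add_one_ne_zero _)
      have h5 := sum_le_totalDegree _ _ hne
      have h6 : ∑ j, (s - Finsupp.single i 1 : Fin n →₀ ℕ) j + 1 = ∑ j, s j := by
        have h7 : s = (s - Finsupp.single i 1) + Finsupp.single i 1 :=
          (tsub_add_cancel_of_le (Finsupp.single_le_iff.2 (Nat.one_le_iff_ne_zero.2 hi))).symm
        conv_rhs => rw [h7]
        simp only [Finsupp.add_apply, Finset.sum_add_distrib]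
        congr 1
        rw [Finset.sum_eq_single i (fun j _ hj => Finsupp.single_eq_of_ne hj)
            (fun h => absurd (Finset.mem_univ i) h), Finsupp.single_eq_same]
      refine ⟨pderiv i p, hU i p hpU, fun h0 => ?_, by omega⟩
      rw [h0] at hne
      simp at hne
  -- dimensions
  have h2 : ∀ k, k ≤ f.totalDegree →
      k + 1 ≤ Module.finrank K (U ⊓ restrictTotalDegree (Fin n) K k : Submodule K _) := by
    intro k
    induction k with
    | zero =>
      intro _
      obtain ⟨p, hpU, hp0, hpd⟩ := h1 f.totalDegree le_rfl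
      have hmem : p ∈ (U ⊓ restrictTotalDegree (Fin n) K 0 : Submodule K _) :=
        ⟨hpU, (mem_restrictTotalDegree _ _ _).2 (by omega)⟩
      have hnt : (U ⊓ restrictTotalDegree (Fin n) K 0 : Submodule K _) ≠ ⊥ := by
        intro hbot
        rw [hbot] at hmem
        exact hp0 ((Submodule.mem_bot K).1 hmem)
      have := Submodule.one_le_finrank_iff.2 hnt
      omega
    | succ k ih =>
      intro hk
      have ih' := ih (by omega)
      obtain ⟨p, hpU, hp0, hpd⟩ := h1 (f.totalDegree - (k + 1)) (by omega)
      have hlt : (U ⊓ restrictTotalDegree (Fin n) K k : Submodule K _) <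
          (U ⊓ restrictTotalDegree (Fin n) K (k + 1) : Submodule K _) := by
        refine lt_of_le_of_ne (inf_le_inf_left U fun q hq => ?_) fun heq => ?_
        · rw [mem_restrictTotalDegree] at hq ⊢
          omega
        · have hmem : p ∈ (U ⊓ restrictTotalDegree (Fin n) K (k + 1) : Submodule K _) :=
            ⟨hpU, (mem_restrictTotalDegree _ _ _).2 (by omega)⟩
          rw [← heq] at hmem
          have := (mem_restrictTotalDegree _ _ _).1 hmem.2
          omega
      have := Submodule.finrank_lt_finrank_of_lt hlt
      omega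
  have h3 := h2 f.totalDegree le_rfl
  have h4 := Submodule.finrank_mono
    (inf_le_left : (U ⊓ restrictTotalDegree (Fin n) K f.totalDegree : Submodule K _) ≤ U)
  omega

/-- Powers of forms of degree at most one: the spanned space is closed under partial derivatives. -/
theorem stable_powers {k : ℕ} (l : Fin k → MvPolynomial (Fin n) K)
    (hl : ∀ i, (l i).totalDegree ≤ 1) (e : Fin k → ℕ) :
    Stable (Submodule.span K (Set.range fun p : (i : Fin k) × Fin (e i + 1) =>
      l p.1 ^ (p.2 : ℕ))) := by
  classical
  intro j q hq
  induction hq using Submodule.span_induction with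
  | mem q hq =>
    obtain ⟨⟨i, a⟩, rfl⟩ := hq
    dsimp only
    obtain ⟨c, hc⟩ : ∃ c : K, pderiv j (l i) = C c := by
      have h0 : (pderiv j (l i)).totalDegree ≤ 0 := by
        refine totalDegree_le_of _ _ fun m hm => ?_
        rw [mem_support_iff, coeff_pderiv] at hm
        have h2 : m + Finsupp.single j 1 ∈ (l i).support := by
          rw [mem_support_iff]
          exact left_ne_zero_of_mul hm
        have h3 := (sum_le_totalDegree _ _ h2).trans (hl i)
        simp only [Finsupp.add_apply, Finset.sum_add_distrib] at h3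
        have h4 : ∑ x, (Finsupp.single j 1 : Fin n →₀ ℕ) x = 1 := by
          rw [Finset.sum_eq_single j (fun y _ hy => Finsupp.single_eq_of_ne hy)
            (fun h => absurd (Finset.mem_univ j) h), Finsupp.single_eq_same]
        omega
      exact ⟨_, totalDegree_eq_zero_iff_eq_C.1 (Nat.le_zero.1 h0)⟩
    have h1 : pderiv j (l i ^ (a : ℕ)) = (((a : ℕ) : K) * c) • l i ^ ((a : ℕ) - 1) := by
      rw [Derivation.leibniz_pow, hc, smul_eq_C_mul, smul_eq_mul, nsmul_eq_mul, C_mul]
      rw [show ((a : ℕ) : MvPolynomial (Fin n) K) = C ((a : ℕ) : K) by simp]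
      ring
    rw [h1]
    refine Submodule.smul_mem _ _ (Submodule.subset_span ⟨⟨i, ⟨(a : ℕ) - 1, ?_⟩⟩, rfl⟩)
    have := a.2
    omega
  | zero => rw [map_zero]; exact Submodule.zero_mem _
  | add x y _ _ hx hy => rw [map_add]; exact Submodule.add_mem _ hx hy
  | smul c x _ hx =>
    rw [Derivation.map_smul]
    exact Submodule.smul_mem _ _ hx

/-- Sums of powers of affine forms. -/
theorem cuts_powers [CharZero K] {k d : ℕ} (c : Fin k → K) (l : Fin k → MvPolynomial (Fin n) K)
    (hl : ∀ i, (l i).totalDegree ≤ 1) (e : Fin k → ℕ) (he : ∀ i, e i ≤ d) :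
    Cuts (k * (d + 1)) (∑ i, C (c i) * l i ^ e i) := by
  classical
  have hfin : FiniteDimensional K (Submodule.span K (Set.range fun p : (i : Fin k) × Fin (e i + 1) =>
      l p.1 ^ (p.2 : ℕ))) := FiniteDimensional.span_of_finite K (Set.finite_range _)
  refine cuts_of_stable _ (stable_powers l hl e) _ ?_ _ ?_
  · refine (finrank_range_le_card _).trans ?_
    rw [Fintype.card_sigma]
    refine (Finset.sum_le_card_nsmul _ _ (d + 1) fun i _ => ?_).trans ?_
    · rw [Fintype.card_fin]
      exact Nat.succ_le_succ (he i)
    · rw [Finset.card_univ, Fintype.card_fin, smul_eq_mul]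
  · refine Submodule.sum_mem _ fun i _ => ?_
    rw [← smul_eq_C_mul]
    exact Submodule.smul_mem _ _ (Submodule.subset_span ⟨⟨i, ⟨e i, Nat.lt_succ_self _⟩⟩, rfl⟩)

end Pool.Agent.FOR
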