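import Pool.Agent.FOR.Two

/-!
MODULE FOR-Pth (est. 1.5 h).  The path: at every step one half of the current block becomes a unit.

PLAN.  `unit_step`: if the block `[c, c + 2^l)` is not bad for all `ω` then there is a smallest
`m ≤ (sz j)^2` such that `∃ ω, (aeval (blk K j l c) (G ω)).coeff m ≠ 0` (`Polynomial.X_pow_dvd_iff`,
`Nat.find`); `pg_lowest` with `vars_blk`, `db_coeff`.
`nsub_false`: write `c = a + 2^l`.  Apply to `aeval (blk K j l c) p : (MvPolynomial (Fin v) K)[X]` the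
homomorphism `Φ = eval₂ (aeval (nsub K j l a s)) (X (inr c))` (coefficientwise `nsub`, then the variable
becomes `X (inr c)`): the result is `aeval (nsub K j (l+1) a (false :: s)) p` (check on variables: `b` in
the left half: `ud`; `b` in the right half: `map_Ps`, `nsub K j l a s (fi j c) = X (inl c)` because `c` is
not in the left half; other `b`).  So
`aeval (nsub K j (l+1) a (false :: s)) p = ∑ k, aeval (nsub K j l a s) (coeff k) * X (inr c) ^ k`, and
the first factors do not contain the variable `inr c` (`vars_nsub`).  So the coefficient at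
`μ + single (inr c) m`, where `μ (inr c) = 0` (as `coeff μ (aeval (nsub K j l a s) ..) ≠ 0`), is the
coefficient at `μ` of `aeval (nsub K j l a s) (coeff m)`.  Similarly `nsub_true`: the left half is the
unit (`c = a`), the right half `a' = a + 2^l` is treated recursively.
`path`: induction on `l`.  `l = 0`: `s = []`, `nsub K j 0 a [] b = X (inl b)` (in the block `b = a`,
`fi j b = b`), so `aeval (nsub K j 0 a []) p = rename Sum.inl p ≠ 0`; all `μ (inr c) = 0`.
`l + 1`: if both halves are bad: `two`.  If the right half is not bad: `unit_step` for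
`c = a + 2^l`, induction hypothesis for the new family on `[a, a + 2^l)`, `nsub_false`.  If the left
half is not bad: `unit_step` for `c = a`, induction hypothesis for the new family on
`[a + 2^l, a + 2^(l+1))`, `nsub_true`.
-/

set_option autoImplicit false

namespace Pool.Agent.FOR

open MvPolynomial

universe u

variable {K : Type u} [Field K]

theorem unit_step [Infinite K] {Ω' : Type u} (j l c : ℕ) (hc : c + 2 ^ l ≤ sz j)
    (G : Ω' → MvPolynomial (Fin (sz j)) K) (hD : DB G)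
    (hb : ¬ ∀ ω, (Polynomial.X : Polynomial (MvPolynomial (Fin (sz j)) K)) ^ (sz j ^ 2 + 1) ∣
      aeval (blk K j l c) (G ω)) :
    ∃ m ≤ sz j ^ 2, (fun ω => (aeval (blk K j l c) (G ω)).coeff m) ≠ 0 ∧
      DB (fun ω => (aeval (blk K j l c) (G ω)).coeff m) ∧
      ∀ M, PG M (fun ω => (aeval (blk K j l c) (G ω)).coeff m) → PG M G := by
  classical
  have h1 : ∃ k, ∃ ω, (aeval (blk K j l c) (G ω)).coeff k ≠ 0 ∧ k ≤ sz j ^ 2 := by
    by_contra hcon
    push Not at hcon
    apply hb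
    intro ω
    rw [Polynomial.X_pow_dvd_iff]
    intro k hk
    by_contra h2
    have h3 := hcon k ω h2
    omega
  obtain ⟨ω, hω, hle⟩ := Nat.find_spec h1
  have hmin : ∀ k < Nat.find h1, ∀ ω, (aeval (blk K j l c) (G ω)).coeff k = 0 := by
    intro k hk ω'
    by_contra h2
    exact Nat.find_min h1 hk ⟨ω', h2, by omega⟩
  refine ⟨Nat.find h1, hle, ?_, db_coeff _ _ G hD, ?_⟩
  · intro h0
    exact hω (congrFun h0 ω)
  · intro M hM
    exact pg_lowest (fun b : Fin (sz j) =>
      if c ≤ (b : ℕ) ∧ (b : ℕ) < c + 2 ^ l then fi j c else b) (blk K j l c)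
      (fun b k => vars_blk j l c b k) (Nat.find h1) M G hD (fun ω k hk => hmin k hk ω) hM

/-- the coefficient at `μ + single i m` of a sum `∑ f k * X i ^ k` -/
private theorem pth_coeff {V : Type} (i : V) (f : ℕ → MvPolynomial V K)
    (hf : ∀ k, i ∉ (f k).vars) (s : Finset ℕ) (m : ℕ) (hm : m ∈ s) (μ : V →₀ ℕ)
    (hμ : coeff μ (f m) ≠ 0) :
    coeff (μ + Finsupp.single i m) (∑ k ∈ s, f k * X i ^ k) = coeff μ (f m) := by
  classical
  have hz : ∀ k, ∀ ν : V →₀ ℕ, ν i ≠ 0 → coeff ν (f k) = 0 := by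
    intro k ν hν
    by_contra h
    exact hf k ((MvPolynomial.mem_vars i).2 ⟨ν, mem_support_iff.2 h, Finsupp.mem_support_iff.2 hν⟩)
  have hμi : μ i = 0 := by
    by_contra h
    exact hμ (hz m μ h)
  rw [coeff_sum, Finset.sum_eq_single m]
  · rw [X_pow_eq_monomial, coeff_mul_monomial, mul_one]
  · intro k hk hkm
    rw [X_pow_eq_monomial, coeff_mul_monomial']
    split
    · rename_i h1
      have h2 : k ≤ m := by
        have h3 := h1 i
        rw [Finsupp.single_eq_same, Finsupp.add_apply, Finsupp.single_eq_same, hμi, zero_add] at h3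
        exact h3
      rw [hz k, zero_mul]
      rw [Finsupp.tsub_apply, Finsupp.add_apply, Finsupp.single_eq_same, Finsupp.single_eq_same,
        hμi]
      omega
    · rfl
  · intro h
    exact absurd hm h

private theorem pth_gen (j l c a' : ℕ) (s s' : List Bool) (l' a : ℕ) (hc : c < sz j)
    (ha' : a' + 2 ^ l ≤ sz j) (hcc : ¬ (a' ≤ c ∧ c < a' + 2 ^ l))
    (hsub : ∀ b : Fin (sz j), nsub K j l' a s' b =
      if c ≤ (b : ℕ) ∧ (b : ℕ) < c + 2 ^ l then
        Ps j (X (Sum.inl (fi j c))) (X (Sum.inr (fi j c))) (b : ℕ) else nsub K j l a' s b)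
    (p : MvPolynomial (Fin (sz j)) K) (m : ℕ) (μ : Fin (sz j) ⊕ Fin (sz j) →₀ ℕ)
    (h : coeff μ (aeval (nsub K j l a' s) ((aeval (blk K j l c) p).coeff m)) ≠ 0) :
    coeff (μ + Finsupp.single (Sum.inr (fi j c)) m) (aeval (nsub K j l' a s') p) ≠ 0 := by
  classical
  have hfc : ((fi j c : Fin (sz j)) : ℕ) = c := Nat.mod_eq_of_lt hc
  let Φ : Polynomial (MvPolynomial (Fin (sz j)) K) →+* MvPolynomial (Fin (sz j) ⊕ Fin (sz j)) K :=
    Polynomial.eval₂RingHom (aeval (nsub K j l a' s)).toRingHom (X (Sum.inr (fi j c)))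
  have hΦC : ∀ r, Φ (Polynomial.C r) = aeval (nsub K j l a' s) r := fun r =>
    Polynomial.eval₂_C _ _
  have hΦX : Φ Polynomial.X = X (Sum.inr (fi j c)) := Polynomial.eval₂_X _ _
  have hnc : nsub K j l a' s (fi j c) = X (Sum.inl (fi j c)) := by
    unfold nsub
    rw [hfc, if_neg hcc]
  have hA : Φ (aeval (blk K j l c) p) = aeval (nsub K j l' a s') p := by
    have h1 : Φ.comp ((aeval (blk K j l c) : MvPolynomial (Fin (sz j)) K →ₐ[K] _) :
        MvPolynomial (Fin (sz j)) K →+* Polynomial (MvPolynomial (Fin (sz j)) K)) =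
        ((aeval (nsub K j l' a s') : MvPolynomial (Fin (sz j)) K →ₐ[K] _) :
        MvPolynomial (Fin (sz j)) K →+* MvPolynomial (Fin (sz j) ⊕ Fin (sz j)) K) := by
      refine MvPolynomial.ringHom_ext (fun r => ?_) fun b => ?_
      · change Φ (aeval (blk K j l c) (C r)) = aeval (nsub K j l' a s') (C r)
        rw [aeval_C, aeval_C]
        have e : (algebraMap K (Polynomial (MvPolynomial (Fin (sz j)) K))) r =
            Polynomial.C (C r) := rfl
        rw [e, hΦC, aeval_C]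
      · change Φ (aeval (blk K j l c) (X b)) = aeval (nsub K j l' a s') (X b)
        rw [aeval_X, aeval_X, hsub]
        unfold blk
        by_cases hb : c ≤ (b : ℕ) ∧ (b : ℕ) < c + 2 ^ l
        · rw [if_pos hb, if_pos hb, map_Ps, hΦC, hΦX, aeval_X, hnc]
        · rw [if_neg hb, if_neg hb, hΦC, aeval_X]
    exact RingHom.congr_fun h1 p
  rw [← hA]
  set Q := aeval (blk K j l c) p with hQ
  have hB : Φ Q = ∑ k ∈ Finset.range (Q.natDegree + 1),
      aeval (nsub K j l a' s) (Q.coeff k) * X (Sum.inr (fi j c)) ^ k :=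
    Polynomial.eval₂_eq_sum_range _ _
  have hvars : ∀ k, Sum.inr (fi j c) ∉ (aeval (nsub K j l a' s) (Q.coeff k)).vars := by
    intro k hk
    rw [aeval_eq_bind₁] at hk
    obtain ⟨b, -, hb⟩ := mem_vars_bind₁ _ _ hk
    have h2 := vars_nsub j l a' ha' s b (fi j c) hb
    rw [hfc] at h2
    exact hcc h2
  have hm : m ∈ Finset.range (Q.natDegree + 1) := by
    rw [Finset.mem_range]
    by_contra h2
    rw [Polynomial.coeff_eq_zero_of_natDegree_lt (by omega), map_zero, coeff_zero] at h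
    exact h rfl
  rw [hB, pth_coeff (Sum.inr (fi j c)) (fun k => aeval (nsub K j l a' s) (Q.coeff k)) hvars _ m hm
    μ h]
  exact h

theorem nsub_false (j l a : ℕ) (ha : a + 2 ^ (l + 1) ≤ sz j) (s : List Bool)
    (p : MvPolynomial (Fin (sz j)) K) (m : ℕ) (μ : Fin (sz j) ⊕ Fin (sz j) →₀ ℕ)
    (h : coeff μ (aeval (nsub K j l a s) ((aeval (blk K j l (a + 2 ^ l)) p).coeff m)) ≠ 0) :
    coeff (μ + Finsupp.single (Sum.inr (fi j (a + 2 ^ l))) m)
      (aeval (nsub K j (l + 1) a (false :: s)) p) ≠ 0 := by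
  have h2 : 2 ^ (l + 1) = 2 ^ l + 2 ^ l := by ring
  have h3 : 0 < 2 ^ l := by positivity
  refine pth_gen j l (a + 2 ^ l) a s (false :: s) (l + 1) a (by omega) (by omega) (by omega) ?_ p m
    μ h
  intro b
  unfold nsub
  by_cases h4 : a + 2 ^ l ≤ (b : ℕ) ∧ (b : ℕ) < a + 2 ^ l + 2 ^ l
  · rw [if_pos h4, if_pos (by omega)]
    unfold ud
    rw [if_neg (by omega)]
  · rw [if_neg h4]
    by_cases h5 : a ≤ (b : ℕ) ∧ (b : ℕ) < a + 2 ^ l
    · rw [if_pos h5, if_pos (by omega)]
      rw [ud, if_pos h5.2]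
    · rw [if_neg h5, if_neg (by omega)]

theorem nsub_true (j l a : ℕ) (ha : a + 2 ^ (l + 1) ≤ sz j) (s : List Bool)
    (p : MvPolynomial (Fin (sz j)) K) (m : ℕ) (μ : Fin (sz j) ⊕ Fin (sz j) →₀ ℕ)
    (h : coeff μ (aeval (nsub K j l (a + 2 ^ l) s) ((aeval (blk K j l a) p).coeff m)) ≠ 0) :
    coeff (μ + Finsupp.single (Sum.inr (fi j a)) m)
      (aeval (nsub K j (l + 1) a (true :: s)) p) ≠ 0 := by
  have h2 : 2 ^ (l + 1) = 2 ^ l + 2 ^ l := by ring
  have h3 : 0 < 2 ^ l := by positivity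
  refine pth_gen j l a (a + 2 ^ l) s (true :: s) (l + 1) a (by omega) (by omega) (by omega) ?_ p m
    μ h
  intro b
  unfold nsub
  by_cases h4 : a ≤ (b : ℕ) ∧ (b : ℕ) < a + 2 ^ l
  · rw [if_pos h4, if_pos (by omega)]
    rw [ud, if_pos h4.2]
  · rw [if_neg h4]
    by_cases h5 : a + 2 ^ l ≤ (b : ℕ) ∧ (b : ℕ) < a + 2 ^ l + 2 ^ l
    · rw [if_pos h5, if_pos (by omega)]
      rw [ud, if_neg (by omega)]
    · rw [if_neg h5, if_neg (by omega)]

private theorem pth_sum (j : ℕ) (μ : Fin (sz j) ⊕ Fin (sz j) →₀ ℕ) (c : Fin (sz j)) (m : ℕ) :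
    ∑ c' : Fin (sz j), (μ + Finsupp.single (Sum.inr c) m : Fin (sz j) ⊕ Fin (sz j) →₀ ℕ)
      (Sum.inr c') =
      ∑ c' : Fin (sz j), μ (Sum.inr c') + m := by
  classical
  simp only [Finsupp.add_apply, Finset.sum_add_distrib, Finsupp.single_apply, Sum.inr.injEq]
  rw [Finset.sum_ite_eq Finset.univ c]
  simp

theorem path [Infinite K] {Ω' : Type u} (j : ℕ) (hQ : Qf K j) :
    ∀ (l a : ℕ) (G : Ω' → MvPolynomial (Fin (sz j)) K), a + 2 ^ l ≤ sz j → G ≠ 0 → DB G →
      PG ((sz j + 1) ^ 2) G ∨ ∃ s ∈ shps l, ∃ (ω : Ω') (μ : Fin (sz j) ⊕ Fin (sz j) →₀ ℕ),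
        coeff μ (aeval (nsub K j l a s) (G ω)) ≠ 0 ∧
        ∑ c : Fin (sz j), μ (Sum.inr c) ≤ l * sz j ^ 2 := by
  intro l
  induction l with
  | zero =>
    intro a G ha hG hD
    right
    obtain ⟨ω, hω⟩ := Function.ne_iff.1 hG
    refine ⟨[], List.mem_singleton.2 rfl, ω, ?_⟩
    have h1 : nsub K j 0 a [] = fun b => X (Sum.inl b) := by
      funext b
      unfold nsub
      split
      · rw [ud]
        congr 2
        exact Fin.ext (Nat.mod_eq_of_lt b.2)
      · rfl
    have h2 : aeval (nsub K j 0 a []) (G ω) = rename Sum.inl (G ω) := by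
      rw [h1]
      have h3 : (aeval (fun b : Fin (sz j) => (X (Sum.inl b) :
          MvPolynomial (Fin (sz j) ⊕ Fin (sz j)) K)) : MvPolynomial (Fin (sz j)) K →ₐ[K] _) =
          rename Sum.inl := by
        ext b
        rw [aeval_X, rename_X]
      rw [h3]
    obtain ⟨u, hu⟩ := MvPolynomial.ne_zero_iff.1 hω
    refine ⟨u.mapDomain Sum.inl, ?_, ?_⟩
    · rw [h2, coeff_rename_mapDomain _ Sum.inl_injective]
      exact hu
    · rw [Finset.sum_eq_zero]
      · exact Nat.zero_le _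
      · intro c _
        refine Finsupp.mapDomain_of_notMem_range _ _ ?_
        rintro ⟨b, hb⟩
        exact Sum.inl_ne_inr hb
  | succ l ih =>
    intro a G ha hG hD
    have h2 : 2 ^ (l + 1) = 2 ^ l + 2 ^ l := by ring
    have hp : 0 < 2 ^ l := by positivity
    have e1 : (l + 1) * sz j ^ 2 = l * sz j ^ 2 + sz j ^ 2 := by ring
    by_cases hb2 : ∀ ω, (Polynomial.X : Polynomial (MvPolynomial (Fin (sz j)) K)) ^ (sz j ^ 2 + 1) ∣
      aeval (blk K j l (a + 2 ^ l)) (G ω)
    · by_cases hb1 : ∀ ω, (Polynomial.X : Polynomial (MvPolynomial (Fin (sz j)) K)) ^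
          (sz j ^ 2 + 1) ∣ aeval (blk K j l a) (G ω)
      · left
        exact two j hQ l a (a + 2 ^ l) le_rfl (by omega) G hG hD hb1 hb2
      · obtain ⟨m, hm, h3, h4, h5⟩ := unit_step j l a (by omega) G hD hb1
        rcases ih (a + 2 ^ l) _ (by omega) h3 h4 with h6 | ⟨s, hs, ω, μ, h7, h8⟩
        · exact Or.inl (h5 _ h6)
        · refine Or.inr ⟨true :: s, ?_, ω, _, nsub_true j l a ha s (G ω) m μ h7, ?_⟩
          · exact List.mem_append.2 (Or.inr (List.mem_map.2 ⟨s, hs, rfl⟩))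
          · rw [pth_sum]
            omega
    · obtain ⟨m, hm, h3, h4, h5⟩ := unit_step j l (a + 2 ^ l) (by omega) G hD hb2
      rcases ih a _ (by omega) h3 h4 with h6 | ⟨s, hs, ω, μ, h7, h8⟩
      · exact Or.inl (h5 _ h6)
      · refine Or.inr ⟨false :: s, ?_, ω, _, nsub_false j l a ha s (G ω) m μ h7, ?_⟩
        · exact List.mem_append.2 (Or.inl (List.mem_map.2 ⟨s, hs, rfl⟩))
        · rw [pth_sum]
          omega

end Pool.Agent.FOR
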