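import Pool.Agent.FOR.AtA
import Pool.Agent.FOR.StA

/-!
MODULE FOR-Pwa.  Several disjoint pairs which cannot be merged: weight
`(r + 1)^(number of pairs)`.
-/

set_option autoImplicit false

namespace Pool.Agent.FOR

open MvPolynomial

universe u

variable {K : Type u} [Field K] [CharZero K]

/-- Substituting polynomials of total degree at most `1` does not increase the total degree. -/
private theorem pwa_td {σ τ : Type*} (g : σ → MvPolynomial τ K) (hg : ∀ v, (g v).totalDegree ≤ 1)
    (f : MvPolynomial σ K) : (aeval g f).totalDegree ≤ f.totalDegree := by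
  rw [aeval_def, eval₂_eq]
  refine (totalDegree_finset_sum _ _).trans (Finset.sup_le fun m hm => ?_)
  refine (totalDegree_mul _ _).trans ?_
  have h1 : (algebraMap K (MvPolynomial τ K) (coeff m f)).totalDegree = 0 := totalDegree_C _
  rw [h1, zero_add]
  refine (totalDegree_finset_prod _ _).trans ?_
  have h2 : ∑ v ∈ m.support, (g v ^ m v).totalDegree ≤ ∑ v ∈ m.support, m v := by
    refine Finset.sum_le_sum fun v _ => ?_
    refine (totalDegree_pow _ _).trans ?_
    calc m v * (g v).totalDegree ≤ m v * 1 := Nat.mul_le_mul_left _ (hg v)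
      _ = m v := mul_one _
  exact h2.trans (le_totalDegree hm)

/-- Evaluation after a substitution. -/
private theorem pwa_eval {σ τ : Type*} (g : σ → MvPolynomial τ K) (x : τ → K) (f : MvPolynomial σ K) :
    eval x (aeval g f) = eval (fun v => eval x (g v)) f := by
  induction f using MvPolynomial.induction_on with
  | C a => rw [aeval_C, algebraMap_eq, eval_C, eval_C]
  | add p q hp hq => rw [map_add, map_add, map_add, hp, hq]
  | mul_X p i hp => rw [map_mul, map_mul, map_mul, hp, aeval_X, eval_X]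

open Classical in
/-- The point with the coordinates of the pairs given by `z`, the others by `c`. -/
private noncomputable def pwaT {n q : ℕ} (x y : Fin q → Fin n) (c : Fin n → K) (z : Fin q → K × K) : Fin n → K :=
  fun v => if h : ∃ i, x i = v then (z h.choose).1 else if h : ∃ i, y i = v then (z h.choose).2 else c v

private theorem pwaT_x {n q : ℕ} {x y : Fin q → Fin n} (hx : Function.Injective x) (c : Fin n → K)
    (z : Fin q → K × K) (i : Fin q) : pwaT x y c z (x i) = (z i).1 := by
  unfold pwaT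
  have h : ∃ j, x j = x i := ⟨i, rfl⟩
  rw [dif_pos h, hx h.choose_spec]

private theorem pwaT_y {n q : ℕ} {x y : Fin q → Fin n} (hy : Function.Injective y) (hxy : ∀ i j, x i ≠ y j)
    (c : Fin n → K) (z : Fin q → K × K) (i : Fin q) : pwaT x y c z (y i) = (z i).2 := by
  unfold pwaT
  have h : ∃ j, y j = y i := ⟨i, rfl⟩
  rw [dif_neg (fun ⟨j, hj⟩ => hxy j i hj), dif_pos h, hy h.choose_spec]

private theorem pwaT_c {n q : ℕ} {x y : Fin q → Fin n} (c : Fin n → K)
    (z : Fin q → K × K) {v : Fin n} (h1 : ∀ i, x i ≠ v) (h2 : ∀ i, y i ≠ v) : pwaT x y c z v = c v := by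
  unfold pwaT
  rw [dif_neg (fun ⟨j, hj⟩ => h1 j hj), dif_neg (fun ⟨j, hj⟩ => h2 j hj)]

/-- The coordinates are of three kinds. -/
private theorem pwa_cases {n q : ℕ} (x y : Fin q → Fin n) (v : Fin n) :
    (∃ i, x i = v) ∨ (∃ i, y i = v) ∨ ((∀ i, x i ≠ v) ∧ ∀ i, y i ≠ v) := by
  by_cases h1 : ∃ i, x i = v
  · exact Or.inl h1
  · by_cases h2 : ∃ i, y i = v
    · exact Or.inr (Or.inl h2)
    · push Not at h1 h2
      exact Or.inr (Or.inr ⟨h1, h2⟩)

/-- The other coordinates do not change. -/
private theorem pwaT_upd {n q : ℕ} {x y : Fin q → Fin n} (hx : Function.Injective x)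
    (hy : Function.Injective y) (hxy : ∀ i j, x i ≠ y j) (c : Fin n → K) (z : Fin q → K × K) (i : Fin q)
    (s : K × K) {v : Fin n} (h1 : v ≠ x i) (h2 : v ≠ y i) :
    pwaT x y c (Function.update z i s) v = pwaT x y c z v := by
  rcases pwa_cases x y v with ⟨j, rfl⟩ | ⟨j, rfl⟩ | ⟨h3, h4⟩
  · have hj : j ≠ i := by
      rintro rfl
      exact h1 rfl
    rw [pwaT_x hx, pwaT_x hx, Function.update_of_ne hj]
  · have hj : j ≠ i := by
      rintro rfl
      exact h2 rfl
    rw [pwaT_y hy hxy, pwaT_y hy hxy, Function.update_of_ne hj]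
  · rw [pwaT_c c _ h3 h4, pwaT_c c _ h3 h4]

/-- The restriction to one pair. -/
private theorem pwa_pair {n q : ℕ} {x y : Fin q → Fin n} (hx : Function.Injective x)
    (hy : Function.Injective y) (hxy : ∀ i j, x i ≠ y j) (c : Fin n → K) (z : Fin q → K × K) (i : Fin q)
    (r D : ℕ) {f : MvPolynomial (Fin n) K} (hD : f.totalDegree ≤ D) (h0 : MRG.mg (cc K) r (x i) (y i) f = 0) :
    (fun s : K × K => eval (pwaT x y c (Function.update z i s)) f) ∈ pairF (mgP K r) D := by
  classical
  obtain ⟨g, hg⟩ : ∃ g : Fin n → MvPolynomial (Fin 2) K,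
      g = fun v => if v = x i then X 0 else if v = y i then X 1 else C (pwaT x y c z v) := ⟨_, rfl⟩
  have hgv : ∀ (w : Fin 2 → K), (fun v => eval w (g v)) = pwaT x y c (Function.update z i (w 0, w 1)) := by
    intro w
    funext v
    rw [hg]
    dsimp only
    by_cases h1 : v = x i
    · rw [if_pos h1, eval_X, h1, pwaT_x hx, Function.update_self]
    · rw [if_neg h1]
      by_cases h2 : v = y i
      · rw [if_pos h2, eval_X, h2, pwaT_y hy hxy, Function.update_self]
      · rw [if_neg h2, eval_C, pwaT_upd hx hy hxy c z i _ h1 h2]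
  refine ⟨aeval g f, ?_, ?_, ?_⟩
  · show MRG.mg (cc K) r 0 1 (aeval g f) = 0
    refine MvPolynomial.funext fun ζ => ?_
    rw [MRG.eval_mg, pwa_eval, hgv, map_zero]
    have h1 := MRG.eval_mg (cc K) r (x i) (y i) (pwaT x y c (Function.update z i (ζ 0, ζ 1))) f
    rw [h0, map_zero] at h1
    rw [h1]
    refine congrArg (fun w => eval w f) ?_
    funext v
    have e0 : MRG.ex (cc K) r 0 1 ζ 0 = MRG.cA (cc K) r (ζ 0) := by
      unfold MRG.ex
      rw [if_pos rfl]
    have e1 : MRG.ex (cc K) r 0 1 ζ 1 = MRG.cB (cc K) r (ζ 0) := by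
      unfold MRG.ex
      rw [if_neg (by decide), if_pos rfl]
    rw [e0, e1]
    unfold MRG.ex
    by_cases h2 : v = x i
    · rw [if_pos h2, h2, pwaT_x hx, pwaT_x hx, Function.update_self, Function.update_self]
    · rw [if_neg h2]
      by_cases h3 : v = y i
      · rw [if_pos h3, h3, pwaT_y hy hxy, pwaT_x hx, Function.update_self, Function.update_self]
      · rw [if_neg h3, pwaT_upd hx hy hxy c z i _ h2 h3, pwaT_upd hx hy hxy c z i _ h2 h3]
  · refine (pwa_td g ?_ f).trans hD
    intro v
    rw [hg]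
    dsimp only
    split_ifs
    · rw [totalDegree_X]
    · rw [totalDegree_X]
    · rw [totalDegree_C]
      exact Nat.zero_le _
  · intro s t
    rw [pwa_eval, hgv]
    rfl

theorem pg_pairs {n : ℕ} {Ω' : Type u} (r : ℕ) (G : Ω' → MvPolynomial (Fin n) K) (hG : G ≠ 0)
    (hD : DB G) (P : List (Fin n × Fin n)) (hP : (P.map Prod.fst ++ P.map Prod.snd).Nodup)
    (h0 : ∀ p ∈ P, ∀ ω, MRG.mg (cc K) r p.1 p.2 (G ω) = 0) : PG ((r + 1) ^ P.length) G := by
  obtain ⟨D, hD⟩ := hD
  obtain ⟨c, ω₀, hc⟩ := exists_const G hG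
  obtain ⟨x, hxd⟩ : ∃ x : Fin P.length → Fin n, x = fun i => (P.get i).1 := ⟨_, rfl⟩
  obtain ⟨y, hyd⟩ : ∃ y : Fin P.length → Fin n, y = fun i => (P.get i).2 := ⟨_, rfl⟩
  have hP1 := List.nodup_append.1 hP
  have hx : Function.Injective x := by
    intro i j hij
    rw [hxd] at hij
    have h1 := List.nodup_iff_injective_get.1 hP1.1
    have h2 : (P.map Prod.fst).get (i.cast (List.length_map _).symm) =
        (P.map Prod.fst).get (j.cast (List.length_map _).symm) := by
      simp only [List.get_eq_getElem, List.getElem_map]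
      exact hij
    have h3 := h1 h2
    have h4 := congrArg Fin.val h3
    exact Fin.ext h4
  have hy : Function.Injective y := by
    intro i j hij
    rw [hyd] at hij
    have h1 := List.nodup_iff_injective_get.1 hP1.2.1
    have h2 : (P.map Prod.snd).get (i.cast (List.length_map _).symm) =
        (P.map Prod.snd).get (j.cast (List.length_map _).symm) := by
      simp only [List.get_eq_getElem, List.getElem_map]
      exact hij
    have h3 := h1 h2
    have h4 := congrArg Fin.val h3
    exact Fin.ext h4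
  have hxy : ∀ i j, x i ≠ y j := by
    intro i j
    rw [hxd, hyd]
    exact hP1.2.2 _ (List.mem_map_of_mem (List.get_mem P i)) _ (List.mem_map_of_mem (List.get_mem P j))
  have hM : ∀ i ω, MRG.mg (cc K) r (x i) (y i) (G ω) = 0 := by
    intro i ω
    rw [hxd, hyd]
    exact h0 _ (List.get_mem P i) ω
  have hG' : Good {powM (mp K) P.length} ((r + 1) ^ P.length)
      (fun z ω => fn G (pwaT x y c z) ω) := by
    refine good_of_atom (atom_pow (atomA r D) P.length) _ ?_ ?_
    · intro h1
      apply hc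
      have h2 := congrFun (congrFun h1 fun i => (c (x i), c (y i))) ω₀
      have h3 : pwaT x y c (fun i => (c (x i), c (y i))) = c := by
        funext v
        rcases pwa_cases x y v with ⟨j, rfl⟩ | ⟨j, rfl⟩ | ⟨h4, h5⟩
        · rw [pwaT_x hx]
        · rw [pwaT_y hy hxy]
        · rw [pwaT_c c _ h4 h5]
      show eval c (G ω₀) = 0
      calc eval c (G ω₀) = fn G (pwaT x y c fun i => (c (x i), c (y i))) ω₀ := by rw [h3]; rfl
        _ = 0 := h2
    · intro ω i z
      exact pwa_pair hx hy hxy c z i r D (hD ω) (hM i ω)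
  refine good_of_step (step_subst (pwaT x y c) ?_ (fn G)) hG'
  intro σ₁ hσ₁
  rw [Set.mem_singleton_iff] at hσ₁
  refine ⟨mx {v | ∃ i, x i = v}, ⟨_, rfl⟩, fun a b => ?_⟩
  rw [hσ₁]
  funext v
  unfold mx
  rcases pwa_cases x y v with ⟨j, rfl⟩ | ⟨j, rfl⟩ | ⟨h4, h5⟩
  · rw [if_pos (show x j ∈ {v | ∃ i, x i = v} from ⟨j, rfl⟩), pwaT_x hx, pwaT_x hx]
    rfl
  · rw [if_neg (show y j ∉ {v | ∃ i, x i = v} from fun ⟨i, hi⟩ => hxy i j hi), pwaT_y hy hxy, pwaT_y hy hxy]
    rfl
  · rw [if_neg (show v ∉ {v | ∃ i, x i = v} from fun ⟨i, hi⟩ => h4 i hi), pwaT_c c _ h4 h5, pwaT_c c _ h4 h5]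

end Pool.Agent.FOR
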