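import Pool.Agent.FOR.Ev

/-!
MODULE FOR-StL (est. 1.5 h).  Substitution of one-variable polynomials with a parameter `ε` followed
by taking the lowest coefficient does not increase ranks.

PLAN.  `Polynomial (MvPolynomial V' K)` is the ring of polynomials in `ε` (= `Polynomial.X`).
Write `L p = (aeval θ p).coeff m`, a `K`-linear map, so the first part of `Step` is `ev_apply`.
Second part: let `σ₁ = mx S'`; take `σ = mx (π ⁻¹' S')`.  Points `(x_i, α_i)`, `(y_j, β_j)` of
`(V' → K) × Ω'` with `det (eval (mx S' x_i y_j) (L (G (ν α_i β_j)))) ≠ 0`.  For `ε : K` let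
`Θ ε x : V → K`, `Θ ε x v = eval x ((θ v).eval (C ε))`.  Since every coefficient of `θ v` has variables in
`{π v}`, `Θ ε (mx S' x y) = mx (π ⁻¹' S') (Θ ε x) (Θ ε y)` (`MvPolynomial.eval₂Hom_congr'`/
`eval` depends only on the values at `vars`).  Further
`eval (Θ ε x) p = (aeval θ p).sum (fun k c => ε^k * eval x c)`, i.e. it is the value at `ε` of the
polynomial `E x p = (aeval θ p).map (eval x) : K[X]`.  So the matrix
`N i j = E (mx S' x_i y_j) (G (ν α_i β_j))` over `K[X]` is divisible by `X^m` (`h0`), `N = X^m • N'`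
(e.g. `N' = divX^[m]`, or `Polynomial.X_pow_dvd_iff`), `N'(0)` is the given nonsingular matrix, so
`det N' ≠ 0`, so `det N = X^(m M) det N' ≠ 0`; as `K` is infinite there is `ε` with
`eval ε (det N) ≠ 0` (`Polynomial.funext`/`exists_eval_ne_zero_of_natDegree_lt_card`,
`Matrix.map`/`RingHom.map_det`).
`db_coeff`: the total degree of the coefficients is at most `D * E` where `E` bounds the total
degrees of all coefficients of all `θ v` (finitely many); e.g. by writing `G ω` as the sum of its
monomials, or: coefficients of a product are sums of products.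
-/

set_option autoImplicit false

namespace Pool.Agent.FOR

open MvPolynomial

universe u

/-- the coefficient of `ε ^ m` after the substitution, as a linear map -/
private noncomputable def StL_L {K : Type u} [Field K] {V V' : Type} (θ : V → Polynomial (MvPolynomial V' K)) (m : ℕ) :
    MvPolynomial V K →ₗ[K] MvPolynomial V' K :=
  ((Polynomial.lcoeff (MvPolynomial V' K) m).restrictScalars K).comp (aeval θ).toLinearMap

private theorem StL_L_apply {K : Type u} [Field K] {V V' : Type} (θ : V → Polynomial (MvPolynomial V' K)) (m : ℕ)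
    (p : MvPolynomial V K) : StL_L θ m p = (aeval θ p).coeff m := rfl

/-- the values of the variables for the parameter `ε` -/
private noncomputable def StL_T {K : Type u} [Field K] {V V' : Type} (θ : V → Polynomial (MvPolynomial V' K)) (ε : K)
    (x : V' → K) (v : V) : K := Polynomial.eval ε ((θ v).map (eval x))

private theorem StL_eval {K : Type u} [Field K] {V V' : Type} (θ : V → Polynomial (MvPolynomial V' K)) (ε : K)
    (x : V' → K) (p : MvPolynomial V K) :
    Polynomial.eval ε ((aeval θ p).map (eval x)) = eval (StL_T θ ε x) p := by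
  have h : ((Polynomial.evalRingHom ε).comp (Polynomial.mapRingHom (eval x))).comp
      ((aeval θ : MvPolynomial V K →ₐ[K] Polynomial (MvPolynomial V' K)) :
        MvPolynomial V K →+* Polynomial (MvPolynomial V' K)) = eval (StL_T θ ε x) := by
    refine MvPolynomial.ringHom_ext (fun r => ?_) fun v => ?_
    · show Polynomial.eval ε ((aeval θ (C r)).map (eval x)) = eval (StL_T θ ε x) (C r)
      rw [← MvPolynomial.algebraMap_eq, AlgHom.commutes, MvPolynomial.algebraMap_eq, eval_C]
      have e : (algebraMap K (Polynomial (MvPolynomial V' K))) r = Polynomial.C (C r) := rfl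
      rw [e, Polynomial.map_C, Polynomial.eval_C, eval_C]
    · show Polynomial.eval ε ((aeval θ (X v)).map (eval x)) = eval (StL_T θ ε x) (X v)
      rw [aeval_X, eval_X]
      rfl
  exact RingHom.congr_fun h p

private theorem StL_vars {K : Type u} [Field K] {V' : Type} {c : MvPolynomial V' K} {w : V'} (hc : c.vars ⊆ {w})
    {x y : V' → K} (h : x w = y w) : eval x c = eval y c := by
  refine hom_congr_vars (f₁ := eval x) (f₂ := eval y) ?_ ?_ rfl
  · ext r
    simp
  · intro i hi _
    have hi' := hc hi
    rw [Finset.mem_singleton] at hi'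
    rw [eval_X, eval_X, hi', h]

private theorem StL_mx {K : Type u} [Field K] {V V' : Type} (π : V → V')
    (θ : V → Polynomial (MvPolynomial V' K)) (hθ : ∀ v k, ((θ v).coeff k).vars ⊆ {π v}) (ε : K) (S' : Set V')
    (x y : V' → K) : StL_T θ ε (mx S' x y) = mx (π ⁻¹' S') (StL_T θ ε x) (StL_T θ ε y) := by
  classical
  funext v
  unfold StL_T mx
  by_cases h : π v ∈ S'
  · rw [if_pos (show v ∈ π ⁻¹' S' from h)]
    congr 1
    ext k
    rw [Polynomial.coeff_map, Polynomial.coeff_map]
    exact StL_vars (hθ v k) (if_pos h)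
  · rw [if_neg (show v ∉ π ⁻¹' S' from h)]
    congr 1
    ext k
    rw [Polynomial.coeff_map, Polynomial.coeff_map]
    exact StL_vars (hθ v k) (if_neg h)

private theorem StL_det {K : Type u} [Field K] [Infinite K] {M : ℕ} (m : ℕ)
    (N : Fin M → Fin M → Polynomial K) (hN : ∀ i j, ∀ k < m, (N i j).coeff k = 0)
    (hd : (Matrix.of fun i j => (N i j).coeff m).det ≠ 0) :
    ∃ ε : K, (Matrix.of fun i j => (N i j).eval ε).det ≠ 0 := by
  have h1 : ∀ i j, ∃ q : Polynomial K, N i j = Polynomial.X ^ m * q := fun i j =>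
    Polynomial.X_pow_dvd_iff.2 (hN i j)
  choose N' hN' using h1
  have h2 : (Matrix.of N').det ≠ 0 := by
    intro h
    apply hd
    have h3 := congrArg (Polynomial.evalRingHom (0 : K)) h
    rw [RingHom.map_det, map_zero] at h3
    rw [← h3]
    congr 1
    ext i j
    show (N i j).coeff m = Polynomial.eval 0 (N' i j)
    rw [← Polynomial.coeff_zero_eq_eval_zero, hN' i j]
    have h4 := Polynomial.coeff_X_pow_mul (N' i j) m 0
    rwa [zero_add] at h4
  have h3 : (Matrix.of N).det ≠ 0 := by
    have e : Matrix.of N = (Polynomial.X ^ m : Polynomial K) • Matrix.of N' := by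
      ext1 i j
      show N i j = (Polynomial.X ^ m : Polynomial K) * N' i j
      exact hN' i j
    rw [e, Matrix.det_smul]
    exact mul_ne_zero (pow_ne_zero _ (pow_ne_zero _ Polynomial.X_ne_zero)) h2
  by_contra hc
  push Not at hc
  apply h3
  refine Polynomial.funext fun ε => ?_
  rw [Polynomial.eval_zero, ← hc ε]
  have h4 := RingHom.map_det (Polynomial.evalRingHom ε) (Matrix.of N)
  rw [Polynomial.coe_evalRingHom] at h4
  rw [h4]
  congr 1

variable {K : Type u} [Field K] [Infinite K]

theorem step_lowest {V V' : Type} [Finite V] [Finite V'] {Ω' : Type u} (π : V → V')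
    (θ : V → Polynomial (MvPolynomial V' K)) (hθ : ∀ v k, ((θ v).coeff k).vars ⊆ {π v})
    (m : ℕ) (G : Ω' → MvPolynomial V K) (hD : DB G)
    (h0 : ∀ ω, ∀ k < m, (aeval θ (G ω)).coeff k = 0) :
    Step (cuts K V) (cuts K V') (fn G) (fn fun ω => (aeval θ (G ω)).coeff m) := by
  refine ⟨fun y => ev_apply G hD (StL_L θ m) y, ?_⟩
  rintro σ₁ ⟨S', rfl⟩ ν M ⟨a, b, hab⟩
  refine ⟨mx (π ⁻¹' S'), ⟨_, rfl⟩, ?_⟩
  obtain ⟨ε, hε⟩ := StL_det m
    (fun i j => (aeval θ (G (ν (a i).2 (b j).2))).map (eval (mx S' (a i).1 (b j).1)))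
    (fun i j k hk => by rw [Polynomial.coeff_map, h0 _ k hk, map_zero])
    (by
      have e : (Matrix.of fun i j =>
          ((aeval θ (G (ν (a i).2 (b j).2))).map (eval (mx S' (a i).1 (b j).1))).coeff m) =
          Matrix.of fun i j => un (fn fun ω => (aeval θ (G ω)).coeff m) (pm (mx S') ν (a i) (b j)) := by
        ext i j
        show ((aeval θ (G (ν (a i).2 (b j).2))).map (eval (mx S' (a i).1 (b j).1))).coeff m =
          eval (mx S' (a i).1 (b j).1) ((aeval θ (G (ν (a i).2 (b j).2))).coeff m)
        rw [Polynomial.coeff_map]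
      rw [e]
      exact hab)
  refine ⟨fun i => (StL_T θ ε (a i).1, (a i).2), fun j => (StL_T θ ε (b j).1, (b j).2), ?_⟩
  have e : (Matrix.of fun i j => un (fn G) (pm (mx (π ⁻¹' S')) ν (StL_T θ ε (a i).1, (a i).2)
      (StL_T θ ε (b j).1, (b j).2))) = Matrix.of fun i j =>
      Polynomial.eval ε ((aeval θ (G (ν (a i).2 (b j).2))).map (eval (mx S' (a i).1 (b j).1))) := by
    ext i j
    show eval (mx (π ⁻¹' S') (StL_T θ ε (a i).1) (StL_T θ ε (b j).1)) (G (ν (a i).2 (b j).2)) =
      Polynomial.eval ε ((aeval θ (G (ν (a i).2 (b j).2))).map (eval (mx S' (a i).1 (b j).1)))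
    rw [StL_eval, StL_mx π θ hθ]
  rw [e]
  exact hε

omit [Infinite K] in
theorem db_coeff {V V' : Type} [Finite V] {Ω' : Type u} (θ : V → Polynomial (MvPolynomial V' K))
    (m : ℕ) (G : Ω' → MvPolynomial V K) (hD : DB G) :
    DB (fun ω => (aeval θ (G ω)).coeff m) := by
  obtain ⟨D, hD⟩ := hD
  have hfg : ((restrictTotalDegree V K D).map (StL_L θ m)).FG :=
    (Module.Finite.iff_fg.1 (inferInstance : Module.Finite K (restrictTotalDegree V K D))).map _
  obtain ⟨s, hs⟩ := hfg
  refine ⟨s.sup totalDegree, fun ω => ?_⟩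
  have h1 : Submodule.span K (s : Set (MvPolynomial V' K)) ≤
      restrictTotalDegree V' K (s.sup totalDegree) :=
    Submodule.span_le.2 fun p hp => (mem_restrictTotalDegree V' _ p).2 (Finset.le_sup hp)
  refine (mem_restrictTotalDegree V' _ _).1 (h1 ?_)
  rw [hs]
  exact Submodule.mem_map_of_mem (f := StL_L θ m) ((mem_restrictTotalDegree V D (G ω)).2 (hD ω))

end Pool.Agent.FOR
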