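import Pool.Agent.FOR.Mnr

/-!
MODULE FOR-Tri (est. 1.5 h).  Triangular systems of functionals: the key lemma for atoms.

`l i` are row functionals and `r j` are column functionals (finite combinations of values).

PLAN.  Let `h i j ω = ∑ x ∈ supp (l i), ∑ y ∈ supp (r j), l i x * r j y * g (μ x y) ω` (so `h i j = 0`
for `i < j`), and let `α i k`, `β i k` (`k < M`) be points of `Ω'` with
`det (h i i (ν (α i k) (β i k'))) ≠ 0`.  The square matrix `N` with the index type `Fin m × Fin M`,
`N (i, k) (j, k') = h i j (ν (α i k) (β j k'))`, is block triangular with nonsingular diagonal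
blocks, so `det N ≠ 0` (`Matrix.BlockTriangular.det` for `fun p => p.1` in the right order, or
`Matrix.det_of_..`; `Matrix.blockDiagonal`), so its rank is `m * M`.  On the other hand
`N = P * F * Q`, where `F` is the matrix with rows `ι = Σ (x in the union of the supports of the l i,
(i, k))`, i.e. `F (x, i, k) (y, j, k') = g (μ x y) (ν (α i k) (β j k'))`, with `x` in a finset `X`,
`y` in a finset `Y`, `P (i, k) (x, i', k') = if (i, k) = (i', k') then l i x else 0`, similarly `Q`.
So `rank F ≥ m * M` (`Matrix.rank_mul_le_left`, `Matrix.rank_mul_le_right`) and `big_of_rank` for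
`pm μ ν`, `un g` with the points `a (x, i, k) = (x, α i k)`, `b (y, j, k') = (y, β j k')`.
-/

set_option autoImplicit false

namespace Pool.Agent.FOR

universe u

variable {K : Type u} [Field K]

/-- The value of a row functional and a column functional. -/
noncomputable def hh {A Ω' : Type u} (μ : A → A → A) (g : A → Ω' → K) (l r : A →₀ K) (ω : Ω') : K :=
  l.sum fun x c => r.sum fun y d => c * d * g (μ x y) ω

private theorem tri_hh {A Ω' : Type u} (μ : A → A → A) (g : A → Ω' → K) (l r : A →₀ K) (X Y : Finset A)
    (hX : l.support ⊆ X) (hY : r.support ⊆ Y) (ω : Ω') :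
    hh μ g l r ω = ∑ x : X, ∑ y : Y, l x * r y * g (μ x y) ω := by
  unfold hh
  rw [Finsupp.sum_of_support_subset l hX _ (fun x _ => by simp [Finsupp.sum]),
    ← Finset.sum_coe_sort X]
  refine Finset.sum_congr rfl fun x _ => ?_
  rw [Finsupp.sum_of_support_subset r hY _ (fun y _ => by simp), ← Finset.sum_coe_sort Y]

theorem big_of_tri {A Ω' : Type u} (μ : A → A → A) (ν : Ω' → Ω' → Ω') (g : A → Ω' → K) (m M : ℕ)
    (l r : Fin m → (A →₀ K)) (h0 : ∀ i j, i < j → ∀ ω, hh μ g (l i) (r j) ω = 0)
    (h1 : ∀ i, Big ν M (hh μ g (l i) (r i))) : Big (pm μ ν) (m * M) (un g) := by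
  classical
  unfold Big at h1
  choose α β hαβ using h1
  let X : Finset A := Finset.univ.biUnion fun i => (l i).support
  let Y : Finset A := Finset.univ.biUnion fun i => (r i).support
  have hX : ∀ i, (l i).support ⊆ X := fun i => Finset.subset_biUnion_of_mem (fun i => (l i).support)
    (Finset.mem_univ i)
  have hY : ∀ i, (r i).support ⊆ Y := fun i => Finset.subset_biUnion_of_mem (fun i => (r i).support)
    (Finset.mem_univ i)
  let N : Matrix (Fin m × Fin M) (Fin m × Fin M) K :=
    Matrix.of fun p q => hh μ g (l p.1) (r q.1) (ν (α p.1 p.2) (β q.1 q.2))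
  let a : X × (Fin m × Fin M) → A × Ω' := fun s => (s.1, α s.2.1 s.2.2)
  let b : Y × (Fin m × Fin M) → A × Ω' := fun t => (t.1, β t.2.1 t.2.2)
  let F : Matrix (X × (Fin m × Fin M)) (Y × (Fin m × Fin M)) K :=
    Matrix.of fun s t => un g (pm μ ν (a s) (b t))
  let P : Matrix (Fin m × Fin M) (X × (Fin m × Fin M)) K :=
    Matrix.of fun p s => if s.2 = p then l p.1 s.1 else 0
  let Q : Matrix (Y × (Fin m × Fin M)) (Fin m × Fin M) K :=
    Matrix.of fun t q => if t.2 = q then r q.1 t.1 else 0
  have hN : N = P * F * Q := by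
    ext p q
    rw [Matrix.mul_assoc, Matrix.mul_apply, Fintype.sum_prod_type]
    show hh μ g (l p.1) (r q.1) (ν (α p.1 p.2) (β q.1 q.2)) = _
    rw [tri_hh μ g _ _ X Y (hX _) (hY _)]
    refine Finset.sum_congr rfl fun x _ => ?_
    rw [Finset.sum_eq_single p]
    · show _ = (if p = p then l p.1 x else 0) * (F * Q) (x, p) q
      rw [if_pos rfl, Matrix.mul_apply, Fintype.sum_prod_type, Finset.mul_sum]
      refine Finset.sum_congr rfl fun y _ => ?_
      rw [Finset.sum_eq_single q]
      · show _ = _ * (g (μ x y) (ν (α p.1 p.2) (β q.1 q.2)) * (if q = q then r q.1 y else 0))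
        rw [if_pos rfl]
        ring
      · intro q' _ hq'
        show _ * (if q' = q then r q.1 y else 0) = 0
        rw [if_neg hq', mul_zero]
      · intro h
        exact absurd (Finset.mem_univ _) h
    · intro p' _ hp'
      show (if p' = p then l p.1 x else 0) * _ = 0
      rw [if_neg hp', zero_mul]
    · intro h
      exact absurd (Finset.mem_univ _) h
  have hdet : N.det ≠ 0 := by
    intro hd
    obtain ⟨v, hv, hNv⟩ := Matrix.exists_mulVec_eq_zero_iff.2 hd
    apply hv
    have key : ∀ n : ℕ, ∀ i : Fin m, i.val = n → ∀ k, v (i, k) = 0 := by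
      intro n
      induction n using Nat.strong_induction_on with
      | _ n ih =>
        intro i hi
        have h2 : (Matrix.of fun k k' => hh μ g (l i) (r i) (ν (α i k) (β i k'))).mulVec
            (fun k => v (i, k)) = 0 := by
          ext k
          have h3 := congrFun hNv (i, k)
          rw [Matrix.mulVec, dotProduct, Fintype.sum_prod_type, Finset.sum_eq_single i] at h3
          · exact h3
          · intro j _ hj
            refine Finset.sum_eq_zero fun k' _ => ?_
            rcases lt_or_gt_of_ne hj with h | h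
            · rw [ih j.val (by rw [← hi]; exact h) j rfl k', mul_zero]
            · show hh μ g (l i) (r j) _ * _ = 0
              rw [h0 i j h, zero_mul]
          · intro h
            exact absurd (Finset.mem_univ _) h
        have h4 := Matrix.eq_zero_of_mulVec_eq_zero (hαβ i) h2
        intro k
        exact congrFun h4 k
    ext ⟨i, k⟩
    exact key i.val i rfl k
  refine big_of_rank (pm μ ν) (m * M) (un g) a b ?_
  have h5 : N.rank = m * M := by
    rw [Matrix.rank_of_isUnit N ((Matrix.isUnit_iff_isUnit_det N).2 (isUnit_iff_ne_zero.2 hdet))]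
    simp
  calc m * M = N.rank := h5.symm
    _ = (P * F * Q).rank := by rw [← hN]
    _ ≤ (P * F).rank := Matrix.rank_mul_le_left _ _
    _ ≤ F.rank := Matrix.rank_mul_le_right _ _

/-- `hh μ g l r` is in the span of the values. -/
theorem hh_mem {A Ω' : Type u} (μ : A → A → A) (g : A → Ω' → K) (l r : A →₀ K) :
    hh μ g l r ∈ Submodule.span K (Set.range g) := by
  have h : hh μ g l r = ∑ x ∈ l.support, ∑ y ∈ r.support, (l x * r y) • g (μ x y) := by
    ext ω
    simp [hh, Finsupp.sum, Finset.sum_apply]
  rw [h]
  exact Submodule.sum_mem _ fun x _ => Submodule.sum_mem _ fun y _ =>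
    Submodule.smul_mem _ _ (Submodule.subset_span ⟨_, rfl⟩)

end Pool.Agent.FOR
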