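import Pool.Agent.FOR.Vs
import Pool.Agent.FOR.StA

/-!
MODULE FOR-Two (est. 1.5 h).  Two disjoint blocks on which the generator of the level `j` fails
force the rank `(sz j + 1)^2`.

PLAN.  `v = sz j`.  Let `Cf D` be the submodule of the functions on `Fin v → K` of the form
`x ↦ eval x p`, `Fa j p`, `p.totalDegree ≤ D`.  (1) `Forces (cuts K (Fin v)) (Cf D) (v + 1)`: given `g`, choose
for every `ω` the polynomial `G ω`; then `g = fn G`, `DB G`, `hQ` gives `PG (v + 1) G`.
(2) `forces_prod` gives `Forces (prodS ..) (prodC (Cf D) (Cf D)) ((v+1) * (v+1))`.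
(3) Let `B1`, `B2` be the blocks `[c1, c1 + 2^l)`, `[c2, c2 + 2^l)`.  By `exists_const` there are `c`, `ω₀`
with `eval c (G ω₀) ≠ 0`.  Let `θ (x, y) b = x b` for `b ∈ B1`, `y b` for `b ∈ B2`, `c b` otherwise and
`g' (x, y) ω = eval (θ (x, y)) (G ω)`; `θ (c, c) = c`, so `g' ≠ 0`.
(4) `g' (., ω) ∈ prodC (Cf D) (Cf D)`: for fixed `y`, `x ↦ eval (θ (x, y)) (G ω)` is given by
`p = aeval (fun b => if b ∈ B1 then X b else C (θ (0, y) b)) (G ω)`, of total degree `≤ D`
(`MRG.totalDegree_aeval_le`), and `Fa j p`: apply to the divisibility `h1 ω` the ring homomorphism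
`Polynomial.mapRingHom (eval₂Hom C (fun b => if b ∈ B1 then X else C (θ (0, y) b)))` to `K[X][X]`
(`X ^ m ∣ ..` is preserved); it maps `aeval (blk K j l c1) (G ω)` to `aeval (cv K j) p` by `map_Ps`
(`fi j c1 = c1 ∈ B1` because `c1 < sz j`).  Symmetric for fixed `x`.
(5) `good_of_step (step_subst θ _ (fn G))`: for `σ₁ = pm (mx S₁) (mx S₂)` take
`S = (S₁ ∩ B1) ∪ (S₂ ∩ B2)`.
-/

set_option autoImplicit false

namespace Pool.Agent.FOR

open MvPolynomial

universe u

variable {K : Type u} [Field K] [Infinite K]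

/-- the degree does not grow if variables are replaced by themselves or by constants -/
private theorem two_deg {K : Type u} [Field K] {V : Type} (q : V → MvPolynomial V K)
    (hq : ∀ b, (q b).totalDegree ≤ 1) (f : MvPolynomial V K) :
    (aeval q f).totalDegree ≤ f.totalDegree := by
  rw [aeval_def, eval₂_eq]
  refine totalDegree_finsetSum_le fun m hm => ?_
  refine (totalDegree_mul _ _).trans ?_
  rw [algebraMap_eq, totalDegree_C, zero_add]
  refine (totalDegree_finsetProd _ _).trans ?_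
  refine le_trans ?_ (le_totalDegree hm)
  refine Finset.sum_le_sum fun i _ => ?_
  refine (totalDegree_pow _ _).trans ?_
  calc m i * (q i).totalDegree ≤ m i * 1 := Nat.mul_le_mul_left _ (hq i)
    _ = m i := mul_one _

private theorem two_eval {K : Type u} [Field K] {V : Type} (q : V → MvPolynomial V K)
    (x : V → K) (f : MvPolynomial V K) :
    eval x (aeval q f) = eval (fun b => eval x (q b)) f := by
  have h : (eval x).comp ((aeval q : MvPolynomial V K →ₐ[K] MvPolynomial V K) :
        MvPolynomial V K →+* MvPolynomial V K) = eval (fun b => eval x (q b)) := by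
    refine MvPolynomial.ringHom_ext (fun r => ?_) fun v => ?_
    · show eval x (aeval q (C r)) = eval (fun b => eval x (q b)) (C r)
      rw [aeval_C, algebraMap_eq, eval_C, eval_C]
    · show eval x (aeval q (X v)) = eval (fun b => eval x (q b)) (X v)
      rw [aeval_X, eval_X]
  exact RingHom.congr_fun h f

/-- the functions given by polynomials of degree at most `D` on which the generator fails -/
private noncomputable def Cf2 (K : Type u) [Field K] (j D : ℕ) :
    Submodule K ((Fin (sz j) → K) → K) where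
  carrier := {f | ∃ p : MvPolynomial (Fin (sz j)) K, Fa j p ∧ p.totalDegree ≤ D ∧
    f = fun x => eval x p}
  add_mem' := by
    rintro f g ⟨p, hp, hpd, rfl⟩ ⟨q, hq, hqd, rfl⟩
    refine ⟨p + q, ?_, (totalDegree_add p q).trans (max_le hpd hqd), ?_⟩
    · unfold Fa
      rw [map_add]
      exact dvd_add hp hq
    · funext x
      show eval x p + eval x q = eval x (p + q)
      rw [map_add]
  zero_mem' := by
    refine ⟨0, ?_, ?_, ?_⟩
    · unfold Fa
      rw [map_zero]
      exact dvd_zero _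
    · rw [totalDegree_zero]
      exact Nat.zero_le _
    · funext x
      show (0 : K) = eval x 0
      rw [map_zero]
  smul_mem' := by
    rintro c f ⟨p, hp, hpd, rfl⟩
    refine ⟨c • p, ?_, (totalDegree_smul_le c p).trans hpd, ?_⟩
    · unfold Fa
      rw [map_smul, Algebra.smul_def]
      exact Dvd.dvd.mul_left hp _
    · funext x
      show c * eval x p = eval x (c • p)
      rw [smul_eval]

private theorem two_forces {K : Type u} [Field K] (j D : ℕ) (hQ : Qf K j) :
    Forces (cuts K (Fin (sz j))) (Cf2 K j D) (sz j + 1) := by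
  intro Ω' g hg hC
  have hC' : ∀ ω, ∃ p : MvPolynomial (Fin (sz j)) K, Fa j p ∧ p.totalDegree ≤ D ∧
      (fun x => g x ω) = fun x => eval x p := fun ω => hC ω
  choose G h1 h2 h3 using hC'
  have hgG : g = fn G := by
    funext x ω
    exact congrFun (h3 ω) x
  have hne : G ≠ 0 := by
    intro h0
    apply hg
    rw [hgG, h0]
    funext x ω
    show eval x ((0 : Ω' → MvPolynomial (Fin (sz j)) K) ω) = 0
    rw [Pi.zero_apply, map_zero]
  rw [hgG]
  exact hQ Ω' G hne ⟨D, h2⟩ h1

/-- restriction of the family to a block -/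
private theorem two_mem {K : Type u} [Field K] (j l c D : ℕ) (hc : c + 2 ^ l ≤ sz j)
    (f : MvPolynomial (Fin (sz j)) K) (hf : f.totalDegree ≤ D)
    (hb : (Polynomial.X : Polynomial (MvPolynomial (Fin (sz j)) K)) ^ (sz j ^ 2 + 1) ∣
      aeval (blk K j l c) f) (val : Fin (sz j) → K) :
    (fun x : Fin (sz j) → K => eval (fun b : Fin (sz j) =>
      if c ≤ (b : ℕ) ∧ (b : ℕ) < c + 2 ^ l then x b else val b) f) ∈ Cf2 K j D := by
  obtain ⟨q, hq⟩ : ∃ q : Fin (sz j) → MvPolynomial (Fin (sz j)) K, q = fun b : Fin (sz j) =>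
      if c ≤ (b : ℕ) ∧ (b : ℕ) < c + 2 ^ l then X b else C (val b) := ⟨_, rfl⟩
  refine ⟨aeval q f, ?_, ?_, ?_⟩
  · obtain ⟨φ, hφ⟩ : ∃ φ : MvPolynomial (Fin (sz j)) K →ₐ[K] Polynomial K, φ = aeval (fun b : Fin (sz j) =>
      if c ≤ (b : ℕ) ∧ (b : ℕ) < c + 2 ^ l then Polynomial.X else Polynomial.C (val b)) := ⟨_, rfl⟩
    have h1 := map_dvd (Polynomial.mapAlgHom φ) hb
    rw [map_pow] at h1
    have h2 : Polynomial.mapAlgHom φ (Polynomial.X : Polynomial (MvPolynomial (Fin (sz j)) K)) =
        Polynomial.X := by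
      rw [Polynomial.coe_mapAlgHom]
      exact Polynomial.map_X _
    rw [h2] at h1
    have h3 : Polynomial.mapAlgHom φ (aeval (blk K j l c) f) = aeval (cv K j) (aeval q f) := by
      rw [comp_aeval_apply, comp_aeval_apply]
      congr 2
      funext b
      have hC : ∀ r : MvPolynomial (Fin (sz j)) K, Polynomial.mapAlgHom φ (Polynomial.C r) =
          Polynomial.C (φ r) := by
        intro r
        rw [Polynomial.coe_mapAlgHom]
        exact Polynomial.map_C _
      by_cases hB : c ≤ (b : ℕ) ∧ (b : ℕ) < c + 2 ^ l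
      · have e1 : blk K j l c b = Ps j (Polynomial.C (X (fi j c))) Polynomial.X (b : ℕ) := if_pos hB
        have e2 : q b = X b := by rw [hq]; exact if_pos hB
        rw [e1, e2, aeval_X]
        have e3 := map_Ps (Polynomial.mapAlgHom φ).toRingHom j
          (Polynomial.C (X (fi j c))) Polynomial.X (b : ℕ)
        have e4 : (Polynomial.mapAlgHom φ).toRingHom
            (Polynomial.C (X (fi j c))) = Polynomial.C Polynomial.X := by
          show Polynomial.mapAlgHom φ (Polynomial.C (X (fi j c))) = _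
          rw [hC, hφ, aeval_X]
          have h0 : ((fi j c : Fin (sz j)) : ℕ) = c := by
            show c % sz j = c
            refine Nat.mod_eq_of_lt ?_
            have := Nat.two_pow_pos l
            omega
          rw [if_pos]
          rw [h0]
          have := Nat.two_pow_pos l
          omega
        have e5 : (Polynomial.mapAlgHom φ).toRingHom
            Polynomial.X = Polynomial.X := h2
        rw [e4, e5] at e3
        exact e3
      · have e1 : blk K j l c b = Polynomial.C (X b) := if_neg hB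
        have e2 : q b = C (val b) := by rw [hq]; exact if_neg hB
        rw [e1, e2, aeval_C, hC, hφ, aeval_X, if_neg hB]
        rfl
    rw [h3] at h1
    exact h1
  · refine (two_deg q (fun b => ?_) f).trans hf
    rw [hq]
    dsimp only
    split_ifs
    · rw [totalDegree_X]
    · rw [totalDegree_C]
      exact Nat.zero_le _
  · funext x
    rw [two_eval]
    congr 1
    congr 1
    funext b
    rw [hq]
    dsimp only
    split_ifs
    · rw [eval_X]
    · rw [eval_C]

theorem two {Ω' : Type u} (j : ℕ) (hQ : Qf K j) (l c1 c2 : ℕ) (h12 : c1 + 2 ^ l ≤ c2)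
    (h2 : c2 + 2 ^ l ≤ sz j) (G : Ω' → MvPolynomial (Fin (sz j)) K) (hG : G ≠ 0) (hD : DB G)
    (hb1 : ∀ ω, (Polynomial.X : Polynomial (MvPolynomial (Fin (sz j)) K)) ^ (sz j ^ 2 + 1) ∣
      aeval (blk K j l c1) (G ω))
    (hb2 : ∀ ω, (Polynomial.X : Polynomial (MvPolynomial (Fin (sz j)) K)) ^ (sz j ^ 2 + 1) ∣
      aeval (blk K j l c2) (G ω)) : PG ((sz j + 1) ^ 2) G := by
  classical
  obtain ⟨D, hDD⟩ := hD
  obtain ⟨c, ω₀, hcω⟩ := exists_const G hG
  have hF := forces_prod (two_forces j D hQ) (two_forces j D hQ)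
  obtain ⟨θ, hθ⟩ : ∃ θ : (Fin (sz j) → K) × (Fin (sz j) → K) → (Fin (sz j) → K),
      θ = fun (p : (Fin (sz j) → K) × (Fin (sz j) → K)) (b : Fin (sz j)) => if c1 ≤ (b : ℕ) ∧ (b : ℕ) < c1 + 2 ^ l then p.1 b else
        if c2 ≤ (b : ℕ) ∧ (b : ℕ) < c2 + 2 ^ l then p.2 b else c b := ⟨_, rfl⟩
  have hcc : θ (c, c) = c := by
    rw [hθ]
    funext b
    dsimp only
    split_ifs <;> rfl
  have hg' := hF Ω' (fun p ω => fn G (θ p) ω) (by
    intro h0
    apply hcω
    have h3 : fn G (θ (c, c)) ω₀ = 0 := congrFun (congrFun h0 (c, c)) ω₀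
    rw [hcc] at h3
    exact h3) (by
    intro ω
    refine ⟨fun y => ?_, fun x => ?_⟩
    · have h3 := two_mem j l c1 D (h12.trans ((Nat.le_add_right _ _).trans h2)) (G ω) (hDD ω) (hb1 ω)
        (fun b : Fin (sz j) => if c2 ≤ (b : ℕ) ∧ (b : ℕ) < c2 + 2 ^ l then y b else c b)
      rw [hθ]
      exact h3
    · have h3 := two_mem j l c2 D h2 (G ω) (hDD ω) (hb2 ω)
        (fun b : Fin (sz j) => if c1 ≤ (b : ℕ) ∧ (b : ℕ) < c1 + 2 ^ l then x b else c b)
      have e : (fun y : Fin (sz j) → K => fn G (θ (x, y)) ω) = fun y => eval (fun b : Fin (sz j) =>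
          if c2 ≤ (b : ℕ) ∧ (b : ℕ) < c2 + 2 ^ l then y b else
            if c1 ≤ (b : ℕ) ∧ (b : ℕ) < c1 + 2 ^ l then x b else c b) (G ω) := by
        funext y
        rw [hθ]
        show eval _ (G ω) = eval _ (G ω)
        congr 2
        funext b
        dsimp only
        by_cases hB1 : c1 ≤ (b : ℕ) ∧ (b : ℕ) < c1 + 2 ^ l
        · have hB2 : ¬ (c2 ≤ (b : ℕ) ∧ (b : ℕ) < c2 + 2 ^ l) := by omega
          rw [if_pos hB1, if_neg hB2, if_pos hB1]
        · rw [if_neg hB1]
          by_cases hB2 : c2 ≤ (b : ℕ) ∧ (b : ℕ) < c2 + 2 ^ l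
          · rw [if_pos hB2, if_pos hB2]
          · rw [if_neg hB2, if_neg hB2, if_neg hB1]
      show (fun y : Fin (sz j) → K => fn G (θ (x, y)) ω) ∈ _
      rw [e]
      exact h3)
  have hst := step_subst (S := cuts K (Fin (sz j)))
    (S₁ := prodS (cuts K (Fin (sz j))) (cuts K (Fin (sz j)))) θ (by
      rintro σ₁ ⟨τ₁, ⟨S₁, rfl⟩, τ₂, ⟨S₂, rfl⟩, rfl⟩
      refine ⟨mx {b : Fin (sz j) | ((c1 ≤ (b : ℕ) ∧ (b : ℕ) < c1 + 2 ^ l) ∧ b ∈ S₁) ∨
        (¬ (c1 ≤ (b : ℕ) ∧ (b : ℕ) < c1 + 2 ^ l) ∧ b ∈ S₂)}, ⟨_, rfl⟩, fun a a' => ?_⟩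
      rw [hθ]
      funext b
      unfold mx pm
      simp only [Set.mem_ofPred_eq]
      by_cases hB1 : c1 ≤ (b : ℕ) ∧ (b : ℕ) < c1 + 2 ^ l
      · by_cases hS : b ∈ S₁
        · simp only [hB1, hS]
          simp
        · simp only [hB1, hS]
          simp
      · by_cases hS : b ∈ S₂
        · simp only [hB1, hS]
          simp
        · simp only [hB1, hS]
          simp) (fn G)
  have hfin := good_of_step hst hg'
  unfold PG
  rw [sq]
  exact hfin

end Pool.Agent.FOR
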