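import Pool.Agent.FOR.Rc
import Pool.Agent.FOR.Nt

/-!
MODULE FOR-Vs.  The variables of the coefficients of the substitutions.
-/

set_option autoImplicit false

namespace Pool.Agent.FOR

open MvPolynomial

universe u

variable {K : Type u} [Field K]

private theorem aeval_mem_supp {V : Type} (S : Set V) (c : V) (hc : c ∈ S) (p : Polynomial K) :
    Polynomial.aeval (X c : MvPolynomial V K) p ∈ supported K S := by
  rw [Polynomial.aeval_eq_sum_range]
  refine Subalgebra.sum_mem _ fun i _ => Subalgebra.smul_mem _ (Subalgebra.pow_mem _ ?_ _) _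
  exact X_mem_supported.2 hc

private theorem vars_sub_of_supp {V : Type} (S : Finset V) (p : MvPolynomial V K)
    (h : p ∈ supported K (S : Set V)) : p.vars ⊆ S := by
  intro x hx
  exact_mod_cast mem_supported.1 h hx

/-- The homomorphism `X ↦ X c` on the coefficients. -/
private noncomputable def mp {V : Type} (c : V) :
    Polynomial (Polynomial K) →+* Polynomial (MvPolynomial V K) :=
  Polynomial.mapRingHom (Polynomial.aeval (X c : MvPolynomial V K)).toRingHom

private theorem mp_X {V : Type} (c : V) :
    mp c (Polynomial.X : Polynomial (Polynomial K)) = Polynomial.X := by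
  unfold mp
  rw [Polynomial.coe_mapRingHom, Polynomial.map_X]

private theorem mp_CX {V : Type} (c : V) :
    mp c (Polynomial.C Polynomial.X : Polynomial (Polynomial K)) = Polynomial.C (X c) := by
  unfold mp
  rw [Polynomial.coe_mapRingHom, Polynomial.map_C]
  simp

private theorem vars_mp {V : Type} (c : V) (q : Polynomial (Polynomial K)) (k : ℕ) :
    ((mp c q).coeff k).vars ⊆ {c} := by
  apply vars_sub_of_supp
  unfold mp
  rw [Polynomial.coe_mapRingHom, Polynomial.coeff_map]
  exact aeval_mem_supp _ c (by simp) _

theorem vars_Ps {V : Type} (j : ℕ) (c : V) (b k : ℕ) :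
    ((Ps j (Polynomial.C (X c)) Polynomial.X b : Polynomial (MvPolynomial V K)).coeff k).vars ⊆
      {c} := by
  have h : (Ps j (Polynomial.C (X c)) Polynomial.X b : Polynomial (MvPolynomial V K)) =
      mp c (Ps j (Polynomial.C Polynomial.X) Polynomial.X b) := by
    rw [map_Ps, mp_X, mp_CX]
  rw [h]
  exact vars_mp _ _ _

theorem vars_blk (j l c : ℕ) (b : Fin (sz j)) (k : ℕ) :
    ((blk K j l c b).coeff k).vars ⊆
      {if c ≤ (b : ℕ) ∧ (b : ℕ) < c + 2 ^ l then fi j c else b} := by
  unfold blk
  split_ifs with h
  · exact vars_Ps _ _ _ _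
  · rw [Polynomial.coeff_C]
    split_ifs
    · rw [vars_X]
    · simp

private theorem vars_ud (j l a : ℕ) (s : List Bool) (b k : ℕ) (h0 : a ≤ b) (h1 : b < a + 2 ^ l) :
    ((ud (Ps j) (fun a => (Polynomial.C (X (fi j a)) : Polynomial (MvPolynomial (Fin (sz j)) K)) ^
        (J1 j + 1)) (fun a => Polynomial.X * Polynomial.C (X (fi j a))) l a s b).coeff k).vars ⊆
      {fi j (hdf l a s b)} := by
  have hP : ∀ h : ℕ, ((Ps j ((Polynomial.C (X (fi j h)) :
      Polynomial (MvPolynomial (Fin (sz j)) K)) ^ (J1 j + 1))
      (Polynomial.X * Polynomial.C (X (fi j h))) b).coeff k).vars ⊆ {fi j h} := by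
    intro h
    have h1 : Ps j ((Polynomial.C (X (fi j h)) :
        Polynomial (MvPolynomial (Fin (sz j)) K)) ^ (J1 j + 1))
        (Polynomial.X * Polynomial.C (X (fi j h))) b =
        mp (fi j h) (Ps j (Polynomial.C Polynomial.X ^ (J1 j + 1))
          (Polynomial.X * Polynomial.C Polynomial.X) b) := by
      rw [map_Ps, map_pow, map_mul, mp_X, mp_CX]
    rw [h1]
    exact vars_mp _ _ _
  induction l generalizing a s with
  | zero =>
    have hab : b = a := by
      rw [pow_zero] at h1
      omega
    subst hab
    simp only [ud, hdf]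
    have h1 : (Polynomial.C (X (fi j b)) : Polynomial (MvPolynomial (Fin (sz j)) K)) ^ (J1 j + 1) =
        mp (fi j b) (Polynomial.C Polynomial.X ^ (J1 j + 1)) := by
      rw [map_pow, mp_CX]
    rw [h1]
    exact vars_mp _ _ _
  | succ l ih =>
    have h3 : 2 ^ (l + 1) = 2 ^ l + 2 ^ l := by rw [pow_succ]; ring
    match s with
    | [] => simp only [ud, hdf]; exact hP _
    | false :: s =>
      simp only [ud, hdf]
      split_ifs with h4
      · exact ih _ _ h0 h4
      · exact hP _
    | true :: s =>
      simp only [ud, hdf]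
      split_ifs with h4
      · exact hP _
      · exact ih _ _ (by omega) (by omega)

theorem vars_uuX (j : ℕ) (s : List Bool) (b : Fin (sz j)) (k : ℕ) :
    ((uuX K j s b).coeff k).vars ⊆ {fi j (hdf (lg j) 0 s (b : ℕ))} := by
  unfold uuX uu
  exact vars_ud _ _ _ _ _ _ (Nat.zero_le _) (by rw [zero_add]; exact b.2)

theorem hdf_mem (l a : ℕ) (s : List Bool) (b : ℕ) : hdf l a s b ∈ hds l a s := by
  induction l generalizing a s with
  | zero => simp [hdf, hds]
  | succ l ih =>
    match s with
    | [] => simp [hdf, hds]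
    | false :: s =>
      simp only [hdf, hds]
      split_ifs
      · exact List.mem_cons_of_mem _ (ih _ _)
      · exact List.mem_cons_self
    | true :: s =>
      simp only [hdf, hds]
      split_ifs
      · exact List.mem_cons_self
      · exact List.mem_cons_of_mem _ (ih _ _)

theorem hds_mem (l a : ℕ) (s : List Bool) (c : ℕ) (h : c ∈ hds l a s) : a ≤ c ∧ c < a + 2 ^ l := by
  induction l generalizing a s with
  | zero =>
    simp only [hds, List.mem_singleton] at h
    subst h
    simp
  | succ l ih =>
    have h2 : 0 < 2 ^ l := by positivity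
    have h3 : 2 ^ (l + 1) = 2 ^ l + 2 ^ l := by rw [pow_succ]; ring
    match s with
    | [] =>
      simp only [hds, List.mem_singleton] at h
      omega
    | false :: s =>
      simp only [hds, List.mem_cons] at h
      rcases h with h | h
      · omega
      · have := ih _ _ h
        omega
    | true :: s =>
      simp only [hds, List.mem_cons] at h
      rcases h with h | h
      · omega
      · have := ih _ _ h
        omega

theorem nodup_hds (l a : ℕ) (s : List Bool) : (hds l a s).Nodup := by
  induction l generalizing a s with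
  | zero => simp [hds]
  | succ l ih =>
    have h2 : 0 < 2 ^ l := by positivity
    match s with
    | [] => simp [hds]
    | false :: s =>
      simp only [hds, List.nodup_cons]
      refine ⟨fun h => ?_, ih _ _⟩
      have := hds_mem _ _ _ _ h
      omega
    | true :: s =>
      simp only [hds, List.nodup_cons]
      refine ⟨fun h => ?_, ih _ _⟩
      have := hds_mem _ _ _ _ h
      omega

theorem length_hds (l a : ℕ) (s : List Bool) : (hds l a s).length ≤ l + 1 := by
  induction l generalizing a s with
  | zero => simp [hds]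
  | succ l ih =>
    match s with
    | [] => simp [hds]
    | false :: s =>
      simp only [hds, List.length_cons]
      exact Nat.succ_le_succ (ih _ _)
    | true :: s =>
      simp only [hds, List.length_cons]
      exact Nat.succ_le_succ (ih _ _)

/-- The homomorphism with the inner variable to `X u` and the outer variable to `X v`. -/
private noncomputable def ev2 {V : Type} (u v : V) :
    Polynomial (Polynomial K) →+* MvPolynomial V K :=
  Polynomial.eval₂RingHom (Polynomial.aeval (X u : MvPolynomial V K)).toRingHom (X v)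

private theorem vars_ev2 {V : Type} (S : Finset V) (u v : V) (hu : u ∈ S) (hv : v ∈ S)
    (q : Polynomial (Polynomial K)) : (ev2 u v q).vars ⊆ S := by
  apply vars_sub_of_supp
  unfold ev2
  rw [Polynomial.coe_eval₂RingHom, Polynomial.eval₂_eq_sum_range]
  refine Subalgebra.sum_mem _ fun i _ => Subalgebra.mul_mem _ ?_ (Subalgebra.pow_mem _ ?_ _)
  · exact aeval_mem_supp _ u (by exact_mod_cast hu) _
  · exact X_mem_supported.2 (by exact_mod_cast hv)

private theorem vars_Ps2 {V : Type} [DecidableEq V] (j : ℕ) (u v : V) (b : ℕ) :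
    (Ps j (X u) (X v) b : MvPolynomial V K).vars ⊆ {u, v} := by
  have h : (Ps j (X u) (X v) b : MvPolynomial V K) =
      ev2 u v (Ps j (Polynomial.C Polynomial.X) Polynomial.X b) := by
    rw [map_Ps]
    unfold ev2
    rw [Polynomial.coe_eval₂RingHom, Polynomial.eval₂_X, Polynomial.eval₂_C]
    simp
  rw [h]
  exact vars_ev2 _ u v (by simp) (by simp) _

private theorem vars_nud (j l a : ℕ) (s : List Bool) (b : ℕ) (c : Fin (sz j))
    (h : Sum.inr c ∈ (ud (Ps j) (fun c => X (Sum.inl (fi j c)) : ℕ →
      MvPolynomial (Fin (sz j) ⊕ Fin (sz j)) K) (fun c => X (Sum.inr (fi j c))) l a s b).vars) :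
    ∃ h : ℕ, a ≤ h ∧ h < a + 2 ^ l ∧ c = fi j h := by
  have hP : ∀ h : ℕ, Sum.inr c ∈ (Ps j (X (Sum.inl (fi j h)) :
      MvPolynomial (Fin (sz j) ⊕ Fin (sz j)) K) (X (Sum.inr (fi j h))) b).vars → c = fi j h := by
    intro h h1
    have h2 := vars_Ps2 j (Sum.inl (fi j h) : Fin (sz j) ⊕ Fin (sz j)) (Sum.inr (fi j h)) b h1
    simpa using h2
  induction l generalizing a s with
  | zero =>
    simp only [ud, vars_X] at h
    simp at h
  | succ l ih =>
    have h2 : 0 < 2 ^ l := by positivity
    have h3 : 2 ^ (l + 1) = 2 ^ l + 2 ^ l := by rw [pow_succ]; ring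
    match s with
    | [] =>
      simp only [ud] at h
      exact ⟨a, le_rfl, by omega, hP _ h⟩
    | false :: s =>
      simp only [ud] at h
      split_ifs at h
      · obtain ⟨x, h4, h5, h6⟩ := ih _ _ h
        exact ⟨x, h4, by omega, h6⟩
      · exact ⟨a + 2 ^ l, by omega, by omega, hP _ h⟩
    | true :: s =>
      simp only [ud] at h
      split_ifs at h
      · exact ⟨a, by omega, by omega, hP _ h⟩
      · obtain ⟨x, h4, h5, h6⟩ := ih _ _ h
        exact ⟨x, by omega, by omega, h6⟩

/-- The variables `inr c` in the substitution `nsub` belong to the block. -/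
theorem vars_nsub (j l a : ℕ) (ha : a + 2 ^ l ≤ sz j) (s : List Bool) (b c : Fin (sz j))
    (h : Sum.inr c ∈ (nsub K j l a s b).vars) : a ≤ (c : ℕ) ∧ (c : ℕ) < a + 2 ^ l := by
  unfold nsub at h
  split_ifs at h with h1
  · obtain ⟨x, h4, h5, h6⟩ := vars_nud j l a s (b : ℕ) c h
    have h7 : (c : ℕ) = x := by
      rw [h6]
      exact Nat.mod_eq_of_lt (by omega)
    omega
  · rw [vars_X] at h
    simp at h

end Pool.Agent.FOR
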